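import Mathlib
import Pool.Agent.W23.DC.Defs

/-! Project LS: the constant of the linear sieve is at most `2 e^γ`.

The Laplace transform `h` of `F + f` satisfies `-h' = (e^{-σ} / σ) (A0 + h)`. -/

set_option autoImplicit false

namespace Pool.Agent.Y827.LS.Sfc

open Finset Filter Topology MeasureTheory Set
open Pool.Agent.W23.DC

/-- `F + f`, continuous on the line -/
noncomputable def Hc (F f : ℝ → ℝ) (s : ℝ) : ℝ := F (max s 1) + f (max s 1)

section
variable {A0 : ℝ} {F f : ℝ → ℝ}

theorem Hc_cont (h : SF A0 F f) : Continuous (Hc F f) := by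
  have hm : Continuous (fun s : ℝ => max s 1) := continuous_id.max continuous_const
  have h1 : Continuous (fun s : ℝ => F (max s 1)) :=
    h.cF.comp_continuous hm (fun s => show (1 : ℝ) ≤ max s 1 from le_max_right _ _)
  have h2 : Continuous (fun s : ℝ => f (max s 1)) :=
    h.cf.comp_continuous hm (fun s => show (1 : ℝ) ≤ max s 1 from le_max_right _ _)
  exact h1.add h2

theorem f_nonneg (h : SF A0 F f) (s : ℝ) (hs : 1 ≤ s) : 0 ≤ f s := by
  rcases le_or_gt s 2 with h2 | h2
  · rw [h.f2 s hs h2]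
  · have e := h.ef s h2.le
    have h3 : 0 ≤ ∫ x in (2 : ℝ)..s, F (x - 1) := by
      apply intervalIntegral.integral_nonneg h2.le
      intro u hu
      have := h.F1 (u - 1) (by linarith [hu.1])
      linarith
    rw [← e] at h3
    by_contra hc
    push Not at hc
    nlinarith

theorem F_le (h : SF A0 F f) (s : ℝ) (hs : 1 ≤ s) : F s ≤ 1 + A0 / s := by
  have hA := h.pos
  rcases le_or_gt s 3 with h3 | h3
  · rw [h.F3 s hs h3]
    linarith
  · have e := h.eF s h3.le
    have h4 : ∫ x in (3 : ℝ)..s, f (x - 1) ≤ ∫ x in (3 : ℝ)..s, (1 : ℝ) := by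
      apply intervalIntegral.integral_mono_on h3.le
      · apply ContinuousOn.intervalIntegrable
        rw [Set.uIcc_of_le h3.le]
        apply h.cf.comp (by fun_prop)
        intro x hx
        have := hx.1
        show (1 : ℝ) ≤ x - 1
        linarith
      · exact intervalIntegrable_const
      · intro x hx
        exact h.f1 _ (by linarith [hx.1])
    rw [intervalIntegral.integral_const, smul_eq_mul, mul_one] at h4
    have hs0 : 0 < s := by linarith
    rw [← mul_le_mul_iff_right₀ hs0, e]
    have : s * (1 + A0 / s) = s + A0 := by field_simp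
    rw [this]
    linarith

theorem Hc_le (h : SF A0 F f) (s : ℝ) (hs : 1 ≤ s) : Hc F f s ≤ 2 + A0 / s := by
  unfold Hc
  rw [max_eq_left hs]
  have h1 := F_le h s hs
  have h2 := h.f1 s hs
  linarith

theorem Hc_nonneg (h : SF A0 F f) (s : ℝ) : 0 ≤ Hc F f s := by
  unfold Hc
  have h1 := h.F1 (max s 1) (le_max_right _ _)
  have h2 := f_nonneg h (max s 1) (le_max_right _ _)
  linarith

theorem Hc_le' (h : SF A0 F f) (s : ℝ) (hs : 1 ≤ s) : Hc F f s ≤ 2 + A0 := by
  refine (Hc_le h s hs).trans ?_
  have : A0 / s ≤ A0 := div_le_self h.pos.le hs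
  linarith

/-- the primitive -/
noncomputable def KK (F f : ℝ → ℝ) (s : ℝ) : ℝ := ∫ u in (1 : ℝ)..s, Hc F f u

theorem KK_deriv (h : SF A0 F f) (s : ℝ) : HasDerivAt (KK F f) (Hc F f s) s :=
  intervalIntegral.integral_hasDerivAt_right ((Hc_cont h).intervalIntegrable _ _)
    ((Hc_cont h).stronglyMeasurableAtFilter _ _) (Hc_cont h).continuousAt

theorem low_eq (h : SF A0 F f) (s : ℝ) (h1 : 1 ≤ s) (h2 : s ≤ 2) : s * Hc F f s = A0 := by
  unfold Hc
  rw [max_eq_left h1, h.F3 s h1 (by linarith), h.f2 s h1 h2]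
  have : s ≠ 0 := by linarith
  field_simp
  ring

theorem high_eq (h : SF A0 F f) (s : ℝ) (h2 : 2 ≤ s) :
    s * Hc F f s = A0 + KK F f (s - 1) := by
  have e0 : KK F f (s - 1) = ∫ x in (2 : ℝ)..s, Hc F f (x - 1) := by
    unfold KK
    rw [intervalIntegral.integral_comp_sub_right (fun x => Hc F f x) 1]
    norm_num
  have iF : ∀ a b : ℝ, 2 ≤ a → 2 ≤ b → IntervalIntegrable (fun x => F (x - 1)) volume a b := by
    intro a b ha hb
    apply ContinuousOn.intervalIntegrable
    apply h.cF.comp (by fun_prop)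
    intro x hx
    have h3 := hx.1
    have h4 : 2 ≤ min a b := le_min ha hb
    show (1 : ℝ) ≤ x - 1
    linarith
  have if' : ∀ a b : ℝ, 2 ≤ a → 2 ≤ b → IntervalIntegrable (fun x => f (x - 1)) volume a b := by
    intro a b ha hb
    apply ContinuousOn.intervalIntegrable
    apply h.cf.comp (by fun_prop)
    intro x hx
    have h3 := hx.1
    have h4 : 2 ≤ min a b := le_min ha hb
    show (1 : ℝ) ≤ x - 1
    linarith
  have e1 : ∫ x in (2 : ℝ)..s, Hc F f (x - 1) =
      (∫ x in (2 : ℝ)..s, F (x - 1)) + ∫ x in (2 : ℝ)..s, f (x - 1) := by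
    rw [← intervalIntegral.integral_add (iF 2 s le_rfl h2) (if' 2 s le_rfl h2)]
    apply intervalIntegral.integral_congr
    intro x hx
    rw [Set.uIcc_of_le h2] at hx
    have h3 : (1 : ℝ) ≤ x - 1 := by linarith [hx.1]
    unfold Hc
    simp only [max_eq_left h3]
  have e2 : s * Hc F f s = s * F s + s * f s := by
    unfold Hc
    rw [max_eq_left (by linarith : (1 : ℝ) ≤ s)]
    ring
  rw [e0, e1, e2, h.ef s h2]
  rcases le_or_gt s 3 with h3 | h3
  · have e3 : s * F s = A0 := by
      rw [h.F3 s (by linarith) h3]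
      have : s ≠ 0 := by linarith
      field_simp
    have e4 : ∫ x in (2 : ℝ)..s, f (x - 1) = 0 := by
      rw [intervalIntegral.integral_congr (g := fun _ => (0 : ℝ)), intervalIntegral.integral_zero]
      intro x hx
      rw [Set.uIcc_of_le h2] at hx
      exact h.f2 _ (by linarith [hx.1]) (by linarith [hx.2])
    rw [e3, e4]
    ring
  · have e4 : ∫ x in (2 : ℝ)..3, f (x - 1) = 0 := by
      rw [intervalIntegral.integral_congr (g := fun _ => (0 : ℝ)), intervalIntegral.integral_zero]
      intro x hx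
      rw [Set.uIcc_of_le (by norm_num : (2 : ℝ) ≤ 3)] at hx
      exact h.f2 _ (by linarith [hx.1]) (by linarith [hx.2])
    have e5 := intervalIntegral.integral_add_adjacent_intervals (if' 2 3 le_rfl (by norm_num))
      (if' 3 s (by norm_num) (by linarith))
    rw [e4, zero_add] at e5
    rw [h.eF s h3.le, ← e5]
    ring

/-- the Laplace transform -/
noncomputable def hh (F f : ℝ → ℝ) (σ : ℝ) : ℝ := ∫ s in Ioi (1 : ℝ), Hc F f s * Real.exp (-σ * s)

theorem int_H (h : SF A0 F f) (σ : ℝ) (hσ : 0 < σ) :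
    IntegrableOn (fun s => Hc F f s * Real.exp (-σ * s)) (Ioi 1) := by
  have h1 : IntegrableOn (fun s : ℝ => (2 + A0) * Real.exp (-σ * s)) (Ioi 1) :=
    (integrableOn_exp_mul_Ioi (by linarith) 1).const_mul _
  refine Integrable.mono' h1 ?_ ?_
  · exact ((Hc_cont h).mul (by fun_prop)).aestronglyMeasurable
  · rw [ae_restrict_iff' measurableSet_Ioi]
    refine Eventually.of_forall fun s hs => ?_
    rw [Real.norm_eq_abs, abs_mul, abs_of_nonneg (Hc_nonneg h s), abs_of_pos (Real.exp_pos _)]
    exact mul_le_mul_of_nonneg_right (Hc_le' h s (le_of_lt hs)) (Real.exp_pos _).le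

/-- the differential equation -/
theorem hh_deriv (h : SF A0 F f) (σ : ℝ) (hσ : 0 < σ) :
    HasDerivAt (hh F f) (-(Real.exp (-σ) / σ * (A0 + hh F f σ))) σ := by
  have hA := h.pos
  -- differentiation under the integral
  have hD := hasDerivAt_integral_of_dominated_loc_of_deriv_le
    (μ := volume.restrict (Ioi (1 : ℝ)))
    (F := fun σ s => Hc F f s * Real.exp (-σ * s))
    (F' := fun σ s => Hc F f s * (-s * Real.exp (-σ * s)))
    (x₀ := σ) (s := Ioi (σ / 2))
    (bound := fun s => (2 + A0) * (4 / σ) * Real.exp (-(σ / 4) * s))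
    (Ioi_mem_nhds (by linarith))
    (Eventually.of_forall fun x => ((Hc_cont h).mul (by fun_prop)).aestronglyMeasurable)
    (int_H h σ hσ)
    ((Hc_cont h).mul (by fun_prop)).aestronglyMeasurable
    ?_ ?_ ?_
  rotate_left
  · rw [ae_restrict_iff' measurableSet_Ioi]
    refine Eventually.of_forall fun s hs x hx => ?_
    have hs1 : (1 : ℝ) < s := hs
    have hx1 : σ / 2 < x := hx
    rw [Real.norm_eq_abs, abs_mul, abs_mul, abs_neg, abs_of_nonneg (Hc_nonneg h s),
      abs_of_pos (Real.exp_pos _), abs_of_pos (by linarith : 0 < s)]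
    have h1 : s ≤ 4 / σ * Real.exp (σ / 4 * s) := by
      have h2 := Real.add_one_le_exp (σ / 4 * s)
      have h3 : s = 4 / σ * (σ / 4 * s) := by field_simp
      calc s = 4 / σ * (σ / 4 * s) := h3
        _ ≤ 4 / σ * Real.exp (σ / 4 * s) := by
            apply mul_le_mul_of_nonneg_left _ (by positivity)
            linarith
    have h2 : Real.exp (-x * s) ≤ Real.exp (-(σ / 4) * s) * Real.exp (-(σ / 4 * s)) := by
      rw [← Real.exp_add]
      apply Real.exp_le_exp.2
      nlinarith
    calc Hc F f s * (s * Real.exp (-x * s)) ≤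
        (2 + A0) * ((4 / σ * Real.exp (σ / 4 * s)) *
          (Real.exp (-(σ / 4) * s) * Real.exp (-(σ / 4 * s)))) := by
          apply mul_le_mul (Hc_le' h s hs1.le) _ (by positivity) (by positivity)
          exact mul_le_mul h1 h2 (Real.exp_pos _).le (by positivity)
      _ = (2 + A0) * (4 / σ) * Real.exp (-(σ / 4) * s) *
          (Real.exp (σ / 4 * s) * Real.exp (-(σ / 4 * s))) := by ring
      _ = (2 + A0) * (4 / σ) * Real.exp (-(σ / 4) * s) := by
          rw [← Real.exp_add]
          simp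
  · exact (integrableOn_exp_mul_Ioi (by linarith) 1).const_mul _
  · refine Eventually.of_forall fun s x _ => ?_
    have h1 : HasDerivAt (fun x : ℝ => -x * s) (-s) x := by
      have := (hasDerivAt_id x).neg.mul_const s
      simpa using this
    have h2 := (h1.exp).const_mul (Hc F f s)
    have h3 : Hc F f s * (-s * Real.exp (-x * s)) = Hc F f s * (Real.exp (-x * s) * -s) := by ring
    rw [h3]
    exact h2
  obtain ⟨hI, hD⟩ := hD
  have hval : ∫ s in Ioi (1 : ℝ), Hc F f s * (-s * Real.exp (-σ * s)) =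
      -(Real.exp (-σ) / σ * (A0 + hh F f σ)) := by
    -- split at 2
    have hI1 : IntegrableOn (fun s => Hc F f s * (-s * Real.exp (-σ * s))) (Ioc 1 2) :=
      IntegrableOn.mono_set (t := Ioi 1) hI Ioc_subset_Ioi_self
    have hI2 : IntegrableOn (fun s => Hc F f s * (-s * Real.exp (-σ * s))) (Ioi 2) :=
      IntegrableOn.mono_set (t := Ioi 1) hI (Ioi_subset_Ioi (by norm_num))
    have e1 : ∫ s in Ioi (1 : ℝ), Hc F f s * (-s * Real.exp (-σ * s)) =
        (∫ s in Ioc (1 : ℝ) 2, Hc F f s * (-s * Real.exp (-σ * s))) +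
        ∫ s in Ioi (2 : ℝ), Hc F f s * (-s * Real.exp (-σ * s)) := by
      rw [← setIntegral_union (Set.disjoint_left.2 fun x hx hx' => by
        have := hx.2; have h3 : (2 : ℝ) < x := hx'; linarith) measurableSet_Ioi hI1 hI2]
      rw [Ioc_union_Ioi_eq_Ioi (by norm_num)]
    have e2 : ∫ s in Ioc (1 : ℝ) 2, Hc F f s * (-s * Real.exp (-σ * s)) =
        -(A0 * (Real.exp (-σ) - Real.exp (-σ * 2)) / σ) := by
      have e3 : ∫ s in Ioc (1 : ℝ) 2, Hc F f s * (-s * Real.exp (-σ * s)) =
          ∫ s in Ioc (1 : ℝ) 2, (-A0) * Real.exp (-σ * s) := by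
        apply setIntegral_congr_fun measurableSet_Ioc
        intro s hs
        have := low_eq h s hs.1.le hs.2
        show Hc F f s * (-s * Real.exp (-σ * s)) = (-A0) * Real.exp (-σ * s)
        rw [← this]
        ring
      rw [e3, ← intervalIntegral.integral_of_le (by norm_num), intervalIntegral.integral_const_mul]
      have e4 : ∫ x in (1 : ℝ)..2, Real.exp (-σ * x) =
          (Real.exp (-σ) - Real.exp (-σ * 2)) / σ := by
        have h5 : ∀ x ∈ Set.uIcc (1 : ℝ) 2, HasDerivAt (fun x => -(Real.exp (-σ * x) / σ))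
            (Real.exp (-σ * x)) x := by
          intro x _
          have h1 : HasDerivAt (fun x : ℝ => -σ * x) (-σ) x := by
            simpa using (hasDerivAt_id x).const_mul (-σ)
          have h2 := ((h1.exp).div_const σ).neg
          convert! h2 using 1
          field_simp
        rw [intervalIntegral.integral_eq_sub_of_hasDerivAt h5
          (Continuous.intervalIntegrable (by fun_prop) _ _)]
        rw [mul_one]
        ring
      rw [e4]
      ring
    have hP : ∫ s in Ioi (2 : ℝ), (Real.exp (-σ * s) * (A0 + KK F f (s - 1)) -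
        Real.exp (-σ * s) / σ * Hc F f (s - 1)) = Real.exp (-σ * 2) / σ * A0 := by
      have hd : ∀ x ∈ Ici (2 : ℝ), HasDerivAt
          (fun s => -(Real.exp (-σ * s) / σ) * (A0 + KK F f (s - 1)))
          (Real.exp (-σ * x) * (A0 + KK F f (x - 1)) -
            Real.exp (-σ * x) / σ * Hc F f (x - 1)) x := by
        intro x _
        have h1 : HasDerivAt (fun x : ℝ => -σ * x) (-σ) x := by
          simpa using (hasDerivAt_id x).const_mul (-σ)
        have h2 : HasDerivAt (fun x : ℝ => -(Real.exp (-σ * x) / σ))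
            (-(Real.exp (-σ * x) * -σ / σ)) x := ((h1.exp).div_const σ).neg
        have h3 : HasDerivAt (fun s => KK F f (s - 1)) (Hc F f (x - 1)) x :=
          (KK_deriv h (x - 1)).comp_sub_const x 1
        have h4 : HasDerivAt (fun s => -(Real.exp (-σ * s) / σ) * (A0 + KK F f (s - 1)))
            (-(Real.exp (-σ * x) * -σ / σ) * (A0 + KK F f (x - 1)) +
              -(Real.exp (-σ * x) / σ) * Hc F f (x - 1)) x := h2.mul (h3.const_add A0)
        have h5 : Real.exp (-σ * x) * (A0 + KK F f (x - 1)) -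
            Real.exp (-σ * x) / σ * Hc F f (x - 1) =
            -(Real.exp (-σ * x) * -σ / σ) * (A0 + KK F f (x - 1)) +
              -(Real.exp (-σ * x) / σ) * Hc F f (x - 1) := by
          field_simp
          ring
        rw [h5]
        exact h4
      have ht : Tendsto (fun s => -(Real.exp (-σ * s) / σ) * (A0 + KK F f (s - 1))) atTop
          (𝓝 0) := by
        have h1 : Tendsto (fun s : ℝ => (2 + A0) / σ * (s * Real.exp (-σ * s))) atTop (𝓝 0) := by
          have h2 := Real.tendsto_pow_mul_exp_neg_atTop_nhds_zero 1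
          have h3 : Tendsto (fun s : ℝ => σ * s) atTop atTop :=
            Tendsto.const_mul_atTop hσ tendsto_id
          have h4 := (h2.comp h3).const_mul ((2 + A0) / σ ^ 2)
          rw [mul_zero] at h4
          refine h4.congr fun s => ?_
          simp only [Function.comp_apply, pow_one, neg_mul]
          field_simp
        refine squeeze_zero_norm' ?_ h1
        filter_upwards [eventually_ge_atTop (2 : ℝ)] with s hs
        rw [← high_eq h s hs, Real.norm_eq_abs, abs_mul, abs_neg, abs_of_nonneg (by positivity),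
          abs_of_nonneg (mul_nonneg (by linarith) (Hc_nonneg h s))]
        calc Real.exp (-σ * s) / σ * (s * Hc F f s) ≤
            Real.exp (-σ * s) / σ * (s * (2 + A0)) := by
              apply mul_le_mul_of_nonneg_left _ (by positivity)
              exact mul_le_mul_of_nonneg_left (Hc_le' h s (by linarith)) (by linarith)
          _ = _ := by ring
      have hint : IntegrableOn (fun x => Real.exp (-σ * x) * (A0 + KK F f (x - 1)) -
            Real.exp (-σ * x) / σ * Hc F f (x - 1)) (Ioi 2) := by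
        apply Integrable.sub
        · have : IntegrableOn (fun s => -(Hc F f s * (-s * Real.exp (-σ * s)))) (Ioi 2) := hI2.neg
          refine this.congr_fun (fun s hs => ?_) measurableSet_Ioi
          have h2 : (2 : ℝ) < s := hs
          rw [← high_eq h s h2.le]
          show -(Hc F f s * (-s * Real.exp (-σ * s))) = Real.exp (-σ * s) * (s * Hc F f s)
          ring
        · have h1 : IntegrableOn (fun s : ℝ => (2 + A0) / σ * Real.exp (-σ * s)) (Ioi 2) :=
            (integrableOn_exp_mul_Ioi (by linarith) 2).const_mul _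
          refine Integrable.mono' h1 ?_ ?_
          · exact (Continuous.mul (by fun_prop) ((Hc_cont h).comp (by fun_prop))).aestronglyMeasurable
          · rw [ae_restrict_iff' measurableSet_Ioi]
            refine Eventually.of_forall fun s hs => ?_
            have h2 : (2 : ℝ) < s := hs
            rw [Real.norm_eq_abs, abs_mul, abs_of_nonneg (Hc_nonneg h (s - 1)),
              abs_of_nonneg (by positivity)]
            calc Real.exp (-σ * s) / σ * Hc F f (s - 1) ≤ Real.exp (-σ * s) / σ * (2 + A0) :=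
                  mul_le_mul_of_nonneg_left (Hc_le' h (s - 1) (by linarith)) (by positivity)
              _ = _ := by ring
      rw [integral_Ioi_of_hasDerivAt_of_tendsto' hd hint ht]
      have : KK F f (2 - 1) = 0 := by
        unfold KK
        norm_num
      rw [this]
      ring
    have htr : ∫ s in Ioi (2 : ℝ), Real.exp (-σ * s) / σ * Hc F f (s - 1) =
        Real.exp (-σ) / σ * hh F f σ := by
      have h1 : ∫ s in Ioi (2 : ℝ), Real.exp (-σ * s) / σ * Hc F f (s - 1) =
          ∫ s, (Ioi (1 : ℝ)).indicator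
            (fun s => Real.exp (-σ) / σ * (Hc F f s * Real.exp (-σ * s))) (s - 1) := by
        rw [← integral_indicator measurableSet_Ioi]
        congr 1
        funext s
        by_cases hs : 2 < s
        · rw [Set.indicator_of_mem (show s ∈ Ioi (2 : ℝ) from hs),
            Set.indicator_of_mem (show s - 1 ∈ Ioi (1 : ℝ) from by
              show (1 : ℝ) < s - 1
              linarith)]
          have : Real.exp (-σ * s) = Real.exp (-σ) * Real.exp (-σ * (s - 1)) := by
            rw [← Real.exp_add]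
            congr 1
            ring
          rw [this]
          ring
        · rw [Set.indicator_of_notMem (show s ∉ Ioi (2 : ℝ) from hs),
            Set.indicator_of_notMem (show s - 1 ∉ Ioi (1 : ℝ) from by
              intro h1
              apply hs
              have : (1 : ℝ) < s - 1 := h1
              linarith)]
      rw [h1, integral_sub_right_eq_self (μ := volume)
        (fun s => (Ioi (1 : ℝ)).indicator
            (fun s => Real.exp (-σ) / σ * (Hc F f s * Real.exp (-σ * s))) s) 1,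
        integral_indicator measurableSet_Ioi, integral_const_mul]
      rfl
    have hint2 : IntegrableOn (fun s => Real.exp (-σ * s) / σ * Hc F f (s - 1)) (Ioi 2) := by
      have h1 : IntegrableOn (fun s : ℝ => (2 + A0) / σ * Real.exp (-σ * s)) (Ioi 2) :=
        (integrableOn_exp_mul_Ioi (by linarith) 2).const_mul _
      refine Integrable.mono' h1 ?_ ?_
      · exact (Continuous.mul (by fun_prop) ((Hc_cont h).comp (by fun_prop))).aestronglyMeasurable
      · rw [ae_restrict_iff' measurableSet_Ioi]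
        refine Eventually.of_forall fun s hs => ?_
        have h2 : (2 : ℝ) < s := hs
        rw [Real.norm_eq_abs, abs_mul, abs_of_nonneg (Hc_nonneg h (s - 1)),
          abs_of_nonneg (by positivity)]
        calc Real.exp (-σ * s) / σ * Hc F f (s - 1) ≤ Real.exp (-σ * s) / σ * (2 + A0) :=
              mul_le_mul_of_nonneg_left (Hc_le' h (s - 1) (by linarith)) (by positivity)
          _ = _ := by ring
    have e5 : ∫ s in Ioi (2 : ℝ), Hc F f s * (-s * Real.exp (-σ * s)) =
        -(Real.exp (-σ * 2) / σ * A0) - Real.exp (-σ) / σ * hh F f σ := by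
      rw [← hP, ← htr]
      have e6 : ∫ s in Ioi (2 : ℝ), Hc F f s * (-s * Real.exp (-σ * s)) =
          ∫ s in Ioi (2 : ℝ), (-(Real.exp (-σ * s) * (A0 + KK F f (s - 1)) -
            Real.exp (-σ * s) / σ * Hc F f (s - 1)) -
            Real.exp (-σ * s) / σ * Hc F f (s - 1)) := by
        apply setIntegral_congr_fun measurableSet_Ioi
        intro s hs
        have h2 : (2 : ℝ) < s := hs
        show Hc F f s * (-s * Real.exp (-σ * s)) = -(Real.exp (-σ * s) * (A0 + KK F f (s - 1)) -
            Real.exp (-σ * s) / σ * Hc F f (s - 1)) -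
            Real.exp (-σ * s) / σ * Hc F f (s - 1)
        rw [← high_eq h s h2.le]
        ring
      rw [e6]
      have hint : IntegrableOn (fun x => Real.exp (-σ * x) * (A0 + KK F f (x - 1)) -
            Real.exp (-σ * x) / σ * Hc F f (x - 1)) (Ioi 2) := by
        apply Integrable.sub
        · have : IntegrableOn (fun s => -(Hc F f s * (-s * Real.exp (-σ * s)))) (Ioi 2) := hI2.neg
          refine this.congr_fun (fun s hs => ?_) measurableSet_Ioi
          have h2 : (2 : ℝ) < s := hs
          rw [← high_eq h s h2.le]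
          show -(Hc F f s * (-s * Real.exp (-σ * s))) = Real.exp (-σ * s) * (s * Hc F f s)
          ring
        · exact hint2
      have e7 := integral_sub (μ := volume.restrict (Ioi 2)) hint.neg hint2
      simp only [Pi.neg_apply] at e7
      rw [e7, integral_neg]
    rw [e1, e2, e5]
    ring
  rw [hval] at hD
  exact hD

theorem hh_nonneg (h : SF A0 F f) (σ : ℝ) : 0 ≤ hh F f σ :=
  integral_nonneg fun s => mul_nonneg (Hc_nonneg h s) (Real.exp_pos _).le

/-- behaviour at zero -/
theorem hh_le (h : SF A0 F f) (κ : ℝ) (hκ : 0 < κ) : ∃ C : ℝ, ∀ σ : ℝ, 0 < σ →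
    σ * hh F f σ ≤ 2 + κ + σ * C := by
  have hA := h.pos
  refine ⟨A0 * Real.exp (A0 / κ), fun σ hσ => ?_⟩
  have hb : ∀ s ∈ Ioi (1 : ℝ), Hc F f s * Real.exp (-σ * s) ≤
      (2 + κ) * Real.exp (-σ * s) + A0 * Real.exp (A0 / κ) * Real.exp (-1 * s) := by
    intro s hs
    have hs1 : (1 : ℝ) < s := hs
    have h1 := Hc_le h s hs1.le
    have h2 : Real.exp (-σ * s) ≤ 1 := by
      rw [Real.exp_le_one_iff]
      nlinarith
    have hE := Real.exp_pos (-σ * s)
    rcases le_or_gt (A0 / κ) s with h3 | h3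
    · have h4 : A0 / s ≤ κ := by
        rw [div_le_iff₀ (by linarith)]
        rw [div_le_iff₀ hκ] at h3
        linarith
      have h5 : Hc F f s * Real.exp (-σ * s) ≤ (2 + κ) * Real.exp (-σ * s) :=
        mul_le_mul_of_nonneg_right (by linarith) hE.le
      have h6 : 0 ≤ A0 * Real.exp (A0 / κ) * Real.exp (-1 * s) := by positivity
      linarith
    · have h4 : A0 / s ≤ A0 := div_le_self hA.le hs1.le
      have h5 : A0 ≤ A0 * Real.exp (A0 / κ) * Real.exp (-1 * s) := by
        rw [mul_assoc, ← Real.exp_add]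
        apply le_mul_of_one_le_right hA.le
        apply Real.one_le_exp
        linarith
      calc Hc F f s * Real.exp (-σ * s) ≤ (2 + A0) * Real.exp (-σ * s) :=
            mul_le_mul_of_nonneg_right (by linarith) hE.le
        _ = 2 * Real.exp (-σ * s) + A0 * Real.exp (-σ * s) := by ring
        _ ≤ (2 + κ) * Real.exp (-σ * s) + A0 * 1 := by
            apply add_le_add
            · exact mul_le_mul_of_nonneg_right (by linarith) hE.le
            · exact mul_le_mul_of_nonneg_left h2 hA.le
        _ ≤ _ := by linarith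
  have i1 : IntegrableOn (fun s : ℝ => (2 + κ) * Real.exp (-σ * s)) (Ioi 1) :=
    (integrableOn_exp_mul_Ioi (by linarith) 1).const_mul _
  have i2 : IntegrableOn (fun s : ℝ => A0 * Real.exp (A0 / κ) * Real.exp (-1 * s)) (Ioi 1) :=
    (integrableOn_exp_mul_Ioi (by norm_num) 1).const_mul _
  have h1 : hh F f σ ≤ ∫ s in Ioi (1 : ℝ), ((2 + κ) * Real.exp (-σ * s) +
      A0 * Real.exp (A0 / κ) * Real.exp (-1 * s)) := by
    unfold hh
    exact setIntegral_mono_on (int_H h σ hσ) (i1.add i2) measurableSet_Ioi hb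
  rw [integral_add i1 i2, integral_const_mul, integral_const_mul,
    integral_exp_mul_Ioi (by linarith), integral_exp_mul_Ioi (by norm_num)] at h1
  have e1 : -Real.exp (-σ * 1) / -σ = Real.exp (-σ) / σ := by
    rw [mul_one, neg_div_neg_eq]
  have e2 : -Real.exp (-1 * 1) / (-1 : ℝ) = Real.exp (-1) := by
    rw [mul_one, neg_div_neg_eq, div_one]
  rw [e1, e2] at h1
  have h2 : Real.exp (-σ) ≤ 1 := by rw [Real.exp_le_one_iff]; linarith
  have h3 : Real.exp (-1) ≤ 1 := by rw [Real.exp_le_one_iff]; norm_num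
  calc σ * hh F f σ ≤ σ * ((2 + κ) * (Real.exp (-σ) / σ) +
        A0 * Real.exp (A0 / κ) * Real.exp (-1)) := mul_le_mul_of_nonneg_left h1 hσ.le
    _ = (2 + κ) * Real.exp (-σ) + σ * (A0 * Real.exp (A0 / κ)) * Real.exp (-1) := by
        field_simp
    _ ≤ (2 + κ) * 1 + σ * (A0 * Real.exp (A0 / κ)) * 1 := by
        apply add_le_add
        · exact mul_le_mul_of_nonneg_left h2 (by positivity)
        · exact mul_le_mul_of_nonneg_left h3 (by positivity)
    _ = _ := by ring

/-- the polynomial replacing the exponential integral -/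
noncomputable def Ln (n : ℕ) (σ : ℝ) : ℝ :=
  ∑ k ∈ Finset.range n, (1 - (1 - σ / n) ^ (k + 1)) / (k + 1)

theorem Ln_deriv (n : ℕ) (hn : 1 ≤ n) (σ : ℝ) (hσ : 0 < σ) :
    HasDerivAt (Ln n) ((1 - (1 - σ / n) ^ n) / σ) σ := by
  have hn0 : (n : ℝ) ≠ 0 := by
    have : 0 < n := by omega
    exact_mod_cast this.ne'
  have h1 : ∀ k ∈ Finset.range n, HasDerivAt (fun σ : ℝ => (1 - (1 - σ / n) ^ (k + 1)) / (k + 1))
      ((1 - σ / n) ^ k / n) σ := by
    intro k _
    have h2 : HasDerivAt (fun σ : ℝ => 1 - σ / n) (-(1 / n)) σ := by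
      have := ((hasDerivAt_id σ).div_const (n : ℝ)).const_sub 1
      simpa using this
    have h3 : HasDerivAt (fun σ : ℝ => (1 - (1 - σ / n) ^ (k + 1)) / (k + 1))
        (-(((k + 1 : ℕ) : ℝ) * (1 - σ / n) ^ (k + 1 - 1) * -(1 / n)) / ((k : ℝ) + 1)) σ :=
      ((h2.pow (k + 1)).const_sub 1).div_const ((k : ℝ) + 1)
    have hk : ((k : ℝ) + 1) ≠ 0 := by positivity
    have h4 : (1 - σ / n) ^ k / n =
        (-(((k + 1 : ℕ) : ℝ) * (1 - σ / n) ^ (k + 1 - 1) * -(1 / n)) / ((k : ℝ) + 1)) := by
      rw [Nat.add_sub_cancel]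
      push_cast
      field_simp
    rw [h4]
    exact h3
  have h2 := HasDerivAt.fun_sum h1
  have h3 : ∑ k ∈ Finset.range n, (1 - σ / n) ^ k / n = (1 - (1 - σ / n) ^ n) / σ := by
    rw [← Finset.sum_div]
    have h4 := geom_sum_mul (1 - σ / n) n
    have h5 : (1 - σ / n - 1 : ℝ) = -(σ / n) := by ring
    rw [h5] at h4
    rw [div_eq_div_iff hn0 hσ.ne']
    have h6 : (∑ k ∈ Finset.range n, (1 - σ / n) ^ k) * σ =
        -((∑ k ∈ Finset.range n, (1 - σ / n) ^ k) * -(σ / n)) * n := by
      field_simp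
    rw [h6, h4]
    ring
  rw [h3] at h2
  exact h2

theorem Ln_nonneg (n : ℕ) (hn : 1 ≤ n) (σ : ℝ) (hσ : 0 < σ) (hσn : σ ≤ n) : 0 ≤ Ln n σ := by
  have hn0 : (0 : ℝ) < n := by exact_mod_cast (by omega : 0 < n)
  apply Finset.sum_nonneg
  intro k _
  have h1 : σ / n ≤ 1 := by rw [div_le_one hn0]; exact hσn
  have h2 : 0 ≤ σ / n := by positivity
  have h3 : (1 - σ / n) ^ (k + 1) ≤ 1 := pow_le_one₀ (by linarith) (by linarith)
  apply div_nonneg (by linarith) (by positivity)

theorem Ln_self (n : ℕ) (hn : 1 ≤ n) : Ln n n = (harmonic n : ℝ) := by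
  have hn0 : (n : ℝ) ≠ 0 := by
    have : 0 < n := by omega
    exact_mod_cast this.ne'
  unfold Ln harmonic
  rw [div_self hn0, sub_self]
  push_cast
  apply Finset.sum_congr rfl
  intro k _
  rw [zero_pow (by omega)]
  simp

/-- the comparison function decreases -/
theorem psi_anti (h : SF A0 F f) (n : ℕ) (hn : 1 ≤ n) :
    AntitoneOn (fun σ => σ * (A0 + hh F f σ) * Real.exp (-Ln n σ)) (Ioc 0 (n : ℝ)) := by
  have hn0 : (0 : ℝ) < n := by exact_mod_cast (by omega : 0 < n)
  have hA := h.pos
  have hder : ∀ σ : ℝ, 0 < σ → HasDerivAt (fun σ => σ * (A0 + hh F f σ) * Real.exp (-Ln n σ))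
      ((A0 + hh F f σ) * Real.exp (-Ln n σ) * ((1 - σ / n) ^ n - Real.exp (-σ))) σ := by
    intro σ hσ
    have h1 : HasDerivAt (fun σ => σ * (A0 + hh F f σ)) (1 * (A0 + hh F f σ) +
        σ * (-(Real.exp (-σ) / σ * (A0 + hh F f σ)))) σ :=
      (hasDerivAt_id σ).mul ((hh_deriv h σ hσ).const_add A0)
    have h2 : HasDerivAt (fun σ => Real.exp (-Ln n σ))
        (Real.exp (-Ln n σ) * -((1 - (1 - σ / n) ^ n) / σ)) σ := ((Ln_deriv n hn σ hσ).neg).exp
    have h3 : HasDerivAt (fun σ => σ * (A0 + hh F f σ) * Real.exp (-Ln n σ))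
        ((1 * (A0 + hh F f σ) + σ * (-(Real.exp (-σ) / σ * (A0 + hh F f σ)))) *
          Real.exp (-Ln n σ) + σ * (A0 + hh F f σ) *
          (Real.exp (-Ln n σ) * -((1 - (1 - σ / n) ^ n) / σ))) σ := h1.mul h2
    have h4 : (A0 + hh F f σ) * Real.exp (-Ln n σ) * ((1 - σ / n) ^ n - Real.exp (-σ)) =
        ((1 * (A0 + hh F f σ) + σ * (-(Real.exp (-σ) / σ * (A0 + hh F f σ)))) *
          Real.exp (-Ln n σ) + σ * (A0 + hh F f σ) *
          (Real.exp (-Ln n σ) * -((1 - (1 - σ / n) ^ n) / σ))) := by
      have e : σ * (A0 + hh F f σ) * (Real.exp (-Ln n σ) * -((1 - (1 - σ / n) ^ n) / σ)) =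
          (A0 + hh F f σ) * (Real.exp (-Ln n σ) * -(1 - (1 - σ / n) ^ n)) := by
        field_simp
      have e' : σ * (-(Real.exp (-σ) / σ * (A0 + hh F f σ))) =
          -(Real.exp (-σ) * (A0 + hh F f σ)) := by
        field_simp
      rw [e, e']
      ring
    rw [h4]
    exact h3
  apply antitoneOn_of_deriv_nonpos (convex_Ioc 0 (n : ℝ))
  · intro σ hσ
    exact (hder σ hσ.1).continuousAt.continuousWithinAt
  · intro σ hσ
    rw [interior_Ioc] at hσ
    exact (hder σ hσ.1).differentiableAt.differentiableWithinAt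
  · intro σ hσ
    rw [interior_Ioc] at hσ
    rw [(hder σ hσ.1).deriv]
    have h1 : (1 - σ / n) ^ n ≤ Real.exp (-σ) := by
      have h2 : (1 - σ / n) ≤ Real.exp (-(σ / n)) := by
        have := Real.add_one_le_exp (-(σ / n))
        linarith
      have h3 : 0 ≤ 1 - σ / n := by
        have : σ / n ≤ 1 := by rw [div_le_one hn0]; exact hσ.2.le
        linarith
      calc (1 - σ / n) ^ n ≤ (Real.exp (-(σ / n))) ^ n := pow_le_pow_left₀ h3 h2 n
        _ = Real.exp (-σ) := by
            rw [← Real.exp_nat_mul]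
            congr 1
            field_simp
    have h2 := hh_nonneg h σ
    apply mul_nonpos_of_nonneg_of_nonpos
    · have := Real.exp_pos (-Ln n σ)
      positivity
    · linarith

theorem n_bound (h : SF A0 F f) (n : ℕ) (hn : 1 ≤ n) :
    n * A0 * Real.exp (-(harmonic n : ℝ)) ≤ 2 := by
  have hn0 : (0 : ℝ) < n := by exact_mod_cast (by omega : 0 < n)
  have hA := h.pos
  apply le_of_forall_pos_le_add
  intro κ hκ
  obtain ⟨C, hC⟩ := hh_le h κ hκ
  have hanti := psi_anti h n hn
  have h1 : ∀ σ : ℝ, 0 < σ → σ ≤ n → n * A0 * Real.exp (-(harmonic n : ℝ)) ≤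
      2 + κ + σ * (C + A0) := by
    intro σ hσ hσn
    have h2 := hanti (a := σ) (b := n) ⟨hσ, hσn⟩ ⟨hn0, le_rfl⟩ hσn
    simp only at h2
    rw [Ln_self n hn] at h2
    have h3 : n * A0 * Real.exp (-(harmonic n : ℝ)) ≤
        n * (A0 + hh F f n) * Real.exp (-(harmonic n : ℝ)) := by
      apply mul_le_mul_of_nonneg_right _ (Real.exp_pos _).le
      apply mul_le_mul_of_nonneg_left _ hn0.le
      linarith [hh_nonneg h (n : ℝ)]
    have h4 : σ * (A0 + hh F f σ) * Real.exp (-Ln n σ) ≤ σ * (A0 + hh F f σ) * 1 := by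
      apply mul_le_mul_of_nonneg_left
      · rw [Real.exp_le_one_iff]
        linarith [Ln_nonneg n hn σ hσ hσn]
      · exact mul_nonneg hσ.le (by linarith [hh_nonneg h σ])
    have h5 := hC σ hσ
    calc _ ≤ _ := h3
      _ ≤ _ := h2
      _ ≤ _ := h4
      _ = σ * hh F f σ + σ * A0 := by ring
      _ ≤ _ := by linarith
  have h2 : Tendsto (fun σ : ℝ => 2 + κ + σ * (C + A0)) (𝓝[>] 0) (𝓝 (2 + κ + 0 * (C + A0))) := by
    apply Tendsto.mono_left _ nhdsWithin_le_nhds
    apply Continuous.tendsto
    fun_prop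
  rw [zero_mul, add_zero] at h2
  apply ge_of_tendsto h2
  have h3 : Ioc 0 (n : ℝ) ∈ 𝓝[>] (0 : ℝ) := Ioc_mem_nhdsGT hn0
  filter_upwards [h3] with σ hσ
  exact h1 σ hσ.1 hσ.2

/-- (SFC) -/
theorem sfc (h : SF A0 F f) : A0 ≤ 2 * Real.exp Real.eulerMascheroniConstant := by
  have h1 : Tendsto (fun n : ℕ => 2 * Real.exp ((harmonic n : ℝ) - Real.log n)) atTop
      (𝓝 (2 * Real.exp Real.eulerMascheroniConstant)) :=
    ((Real.continuous_exp.tendsto _).comp Real.tendsto_harmonic_sub_log).const_mul 2
  apply ge_of_tendsto h1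
  filter_upwards [eventually_ge_atTop 1] with n hn
  have hn0 : (0 : ℝ) < n := by exact_mod_cast (by omega : 0 < n)
  have h2 := n_bound h n hn
  rw [Real.exp_sub, Real.exp_log hn0]
  rw [Real.exp_neg] at h2
  have hE := Real.exp_pos (harmonic n : ℝ)
  have h3 : n * A0 ≤ 2 * Real.exp (harmonic n : ℝ) := by
    have h4 : n * A0 * (Real.exp (harmonic n : ℝ))⁻¹ * Real.exp (harmonic n : ℝ) ≤
        2 * Real.exp (harmonic n : ℝ) := mul_le_mul_of_nonneg_right h2 hE.le
    rwa [inv_mul_cancel_right₀ hE.ne'] at h4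
  rw [mul_div_assoc', le_div_iff₀ hn0]
  linarith

end

end Pool.Agent.Y827.LS.Sfc
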