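import Mathlib
import Pool.Agent.W23.DC.Defs
import Pool.Agent.W25.UB.StmF

/-! Project LS (helper827): the coloured Maynard-Tao theorem with the constant `18 / 5`, by the linear
sieve on rough numbers of level `N ^ θ`, `θ < 5 / 9`.  Statements of the independent parts. -/

set_option autoImplicit false

namespace Pool.Agent.Y827.LS

open Finset Filter Topology
open Pool.Agent.H442R2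
open Pool.Agent.W25.UB (ds RC Ex)

/-- (SFC) the constant of the linear sieve, upper bound -/
def St_SFC : Prop := ∀ (A0 : ℝ) (F f : ℝ → ℝ), Pool.Agent.W23.DC.SF A0 F f →
  A0 ≤ 2 * Real.exp Real.eulerMascheroniConstant

/-- (LSM) the upper bound linear sieve on the primes in `(X ^ ε₁, X ^ θ]` outside `Cl`: coefficients
`b`, bounded by `1`, supported on well-factorable numbers -/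
def St_LSM : Prop := ∀ θ η' ε₁ : ℝ, 1 / 2 ≤ θ → θ < 1 → 0 < η' → 0 < ε₁ → ε₁ ≤ 1 / 4 →
  ∃ X₀ : ℕ, ∀ X : ℕ, X₀ ≤ X → ∀ Cl : Finset ℕ, (Cl.card : ℝ) ≤ (Real.log X) ^ 2 →
  ∀ Z : ℕ, Z = ⌊(X : ℝ) ^ θ⌋₊ → ∃ b : ℕ → ℝ, b 1 = 1 ∧ (∀ d, |b d| ≤ 1) ∧
    (∀ d, b d ≠ 0 → 1 ≤ d ∧ d ≤ Z ∧ Squarefree d ∧
      (∀ p : ℕ, p.Prime → p ∣ d → (X : ℝ) ^ ε₁ < (p : ℝ) ∧ p ∉ Cl) ∧
      Pool.Agent.W23.DC.WFac (Pool.Agent.W23.DC.tt X) θ d) ∧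
    (∀ m : ℤ, 0 ≤ ds b Z m) ∧
    (∀ m : ℤ, (∀ p : ℕ, p.Prime → (X : ℝ) ^ ε₁ < (p : ℝ) → (p : ℝ) ≤ (X : ℝ) ^ θ → p ∉ Cl →
      ¬ (p : ℤ) ∣ m) → ds b Z m = 1) ∧
    0 ≤ ∑ d ∈ Icc 1 Z, b d / d ∧
    ∑ d ∈ Icc 1 Z, b d / d ≤
      (1 + η') * (2 * Real.exp Real.eulerMascheroniConstant * ε₁ / θ)

/-- (FAG) well-factorable numbers of level `θ < 5 / 9` are factorable -/
def St_FAG : Prop := ∀ (N : ℕ) (θ δ : ℝ), 2 ≤ N → 1 / 2 ≤ θ → 0 < δ → δ ≤ 1 / 100 →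
  2 * δ ≤ 5 - 9 * θ → ∀ d : ℕ, 1 ≤ d → Squarefree d →
  Pool.Agent.W23.DC.WFac (Pool.Agent.W23.DC.tt N) θ d →
  (d : ℝ) ≤ (N : ℝ) ^ (51 / 100 : ℝ) ∨ Pool.Agent.W23.DC.FacO N δ d

/-- (DEN) Mertens' third theorem for the two products -/
def St_DEN : Prop := ∀ (B : ℕ) (ε₁ ε' : ℝ), 3 ≤ B → 0 < ε₁ → ε₁ ≤ 1 → 0 < ε' →
  ∃ X₀ : ℕ, ∀ X : ℕ, X₀ ≤ X → ∀ Cl : Finset ℕ, (Cl.card : ℝ) ≤ (Real.log X) ^ 2 →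
    Pool.Agent.W23.PL.VV (Pool.Agent.W23.PL.P1 X B ε₁ \ Cl) * Pool.Agent.H410R2.BD (⌈(Real.log X) ^ B⌉₊ - 1) ≤
      (1 + ε') * (Real.exp (-Real.eulerMascheroniConstant) / (ε₁ * Real.log X))

/-- (FLC3) the fundamental lemma on the primes of `P1` outside a small set, super-exponential rate -/
def St_FLC3 : Prop := ∀ η₀ A₀ : ℝ, 0 < η₀ → 0 < A₀ → ∃ εs : ℝ, 0 < εs ∧ ∀ ε₁ : ℝ, 0 < ε₁ →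
  ε₁ ≤ εs → ∀ B : ℕ, 6 ≤ B → ∃ N₀ : ℕ, ∀ N : ℕ, N₀ ≤ N → ∀ D : ℕ, D = ⌊(N : ℝ) ^ η₀⌋₊ →
  ∀ Cl : Finset ℕ, (Cl.card : ℝ) ≤ (Real.log N) ^ 2 →
  ∃ th dl : ℕ → ℝ,
    Pool.Agent.W23.PL.DW (Pool.Agent.W23.PL.P1 N B ε₁ \ Cl) D (Real.log N) th ∧
    Pool.Agent.W23.PL.DW (Pool.Agent.W23.PL.P1 N B ε₁ \ Cl) D (Real.log N) dl ∧
    (∀ m : ℤ, Pool.Agent.W23.PL.xx (Pool.Agent.W23.PL.P1 N B ε₁ \ Cl) m ≤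
        Pool.Agent.W23.PL.Ev th D m ∧
      Pool.Agent.W23.PL.Ev th D m - Pool.Agent.W23.PL.xx (Pool.Agent.W23.PL.P1 N B ε₁ \ Cl) m ≤
        Pool.Agent.W23.PL.Ev dl D m) ∧
    |Pool.Agent.W23.PL.hat th D - Pool.Agent.W23.PL.VV (Pool.Agent.W23.PL.P1 N B ε₁ \ Cl)| ≤
      Real.exp (-(A₀ / ε₁)) * Pool.Agent.W23.PL.VV (Pool.Agent.W23.PL.P1 N B ε₁ \ Cl) ∧
    |Pool.Agent.W23.PL.hat dl D| ≤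
      Real.exp (-(A₀ / ε₁)) * Pool.Agent.W23.PL.VV (Pool.Agent.W23.PL.P1 N B ε₁ \ Cl)

/-- centred divisor sum -/
noncomputable def dc (c : ℕ → ℝ) (Z : ℕ) (m : ℤ) : ℝ := ∑ d ∈ Icc 1 Z, c d * BX.dl d m

/-- (RCX) rough centred divisor sums of linear forms are bounded, explicit constant -/
def St_RCX : Prop := ∃ c₁ : ℝ, 0 < c₁ ∧ ∀ ε : ℝ, 0 < ε → ε ≤ 1 → ∀ U : ℕ, 1 ≤ U → ∃ N₀ : ℕ,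
  ∀ N Z : ℕ, N₀ ≤ N → Z ≤ N → ∀ c : ℕ → ℝ, (∀ d, |c d| ≤ 1) →
    (∀ d, c d ≠ 0 → 1 < d ∧ Squarefree d ∧ ∀ p : ℕ, p.Prime → p ∣ d → (N : ℝ) ^ ε < (p : ℝ)) →
    ∀ u w n : ℤ, |u| ≤ U → |(w : ℝ)| ≤ 2 * U * N → u * n + w ≠ 0 →
    |dc c Z (u * n + w)| ≤ Real.exp (c₁ / ε) * (1 + |(n : ℝ)| / N) ^ (1 / 4 : ℝ)

/-- the product of two centred rough divisor sums over one block of moduli, level `X ^ θ`, slopes in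
`𝒮` -/
def R2BAt (𝒮 : ℤ → Prop) (θ δ ε₀ η : ℝ) : Prop :=
  ∀ ε₁ : ℝ, 0 < ε₁ → ε₁ ≤ 1 → ∃ η₁ : ℝ, 0 < η₁ ∧ ∀ U : ℕ, 1 ≤ U → ∃ C : ℝ, 0 < C ∧
    ∀ (X D0 Z : ℕ), 2 ≤ X → (Z : ℝ) ≤ (X : ℝ) ^ θ → 1 ≤ D0 → (Z : ℝ) ≤ (X : ℝ) ^ ε₀ * D0 →
    ∀ (S Cl : ℕ → Prop) (Y R y : ℝ) (Φ : ℤ → ℝ) (m : ℝ),
    (X : ℝ) ^ ε₁ ≤ y → (∀ p, S p → (p : ℝ) ≤ y) → Ex S Y R Φ m → R ≤ (X : ℝ) ^ (ε₀ / 10) →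
    Y ≤ (X : ℝ) ^ η → |m| ≤ 1 → ∀ (u w u' w' : ℤ), 𝒮 u → 𝒮 u' → u ≠ 0 → u' ≠ 0 → |u| ≤ U → |u'| ≤ U →
    4 * |(w : ℝ)| ≤ 3 * |(u : ℝ)| * X → 4 * |(w' : ℝ)| ≤ 3 * |(u' : ℝ)| * X →
    u' * w - u * w' ≠ 0 →
    (∀ p : ℕ, p.Prime → y < (p : ℝ) → (p : ℤ) ∣ u' * w - u * w' → Cl p) →
    ∀ c c' : ℕ → ℝ, RC Cl y Z c → RC Cl y Z c' → (∀ d, c d ≠ 0 → D0 < d) →
    (∀ d, c' d ≠ 0 → D0 < d) → Pool.Agent.W23.PL.Fc X θ δ c c' →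
    |∑' n : ℤ, KF.Wt X n * (Φ n * (dc c Z (u * n + w) * dc c' Z (u' * n + w')))| ≤
      C * (X : ℝ) ^ (1 - η₁)

/-- (R2B) for all `θ < 5 / 9` -/
def St_R2B (𝒮 : ℤ → Prop) : Prop := ∀ θ δ : ℝ, 0 < θ → θ < 5 / 9 → 0 < δ → ∃ ε₀ η : ℝ, 0 < ε₀ ∧
  ε₀ ≤ 1 / 100 ∧ 0 < η ∧ η ≤ 1 / 100 ∧ R2BAt 𝒮 θ δ ε₀ η

/-- (TTClF) TTC for arbitrary small moduli `q`, even ones included -/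
def St_TTClF : Prop := ∀ θ δ : ℝ, 0 < θ → θ < 5 / 9 → 0 < δ → ∃ ε₀ η : ℝ, 0 < ε₀ ∧ 0 < η ∧
    ∀ ε : ℝ, 0 < ε → ∃ C : ℝ, 0 < C ∧
    ∀ (N q D0 X : ℕ), 2 ≤ N → 1 ≤ q → (q : ℝ) ≤ (N : ℝ) ^ ε₀ →
    (X : ℝ) ≤ (N : ℝ) ^ θ → 1 ≤ D0 → (X : ℝ) ≤ (N : ℝ) ^ ε₀ * D0 →
    ∀ (b a a' : ℤ), |(b : ℝ)| ≤ q → |(a : ℝ)| ≤ N - (N : ℝ) ^ (1 / 2 : ℝ) →
    |(a' : ℝ)| ≤ N - (N : ℝ) ^ (1 / 2 : ℝ) → a ≠ a' →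
    ∀ c c' : ℕ → ℝ, BX.CofO q c → BX.CofO q c' → BX.CofR ((N : ℝ) ^ ε) X c →
    BX.CofR ((N : ℝ) ^ ε) X c' → Pool.Agent.W23.PL.Fc N θ δ c c' →
    |∑ d ∈ Ioc D0 X, ∑ d' ∈ (Ioc D0 X).filter (fun d' => Nat.Coprime d d'), c d * c' d' *
      ∑' n : ℤ, (if (q : ℤ) ∣ n - b then KF.Wt N n else 0) *
        (BX.dl d (n - a) * BX.dl d' (n - a'))| ≤ C * (N : ℝ) ^ (1 - η)

end Pool.Agent.Y827.LS
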