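import Mathlib
import Pool.Agent.Y827.LS.Stm
import Pool.Agent.Y827.LS.Sfc
import Pool.Agent.W52.DC.PT
import Pool.Agent.W120.DC.LN
import Pool.Agent.W586.DC.ER
import Pool.Agent.W505.DC.MT
import Pool.Agent.W505.DC.MI
import Pool.Agent.W366.DC.SFX
import Pool.Agent.W378.DC.MP
import Pool.Agent.W378.DC.FA

/-! Project LS: the coefficients of the upper bound linear sieve on rough numbers. -/

set_option autoImplicit false

namespace Pool.Agent.Y827.LS

open Finset Filter Topology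
open Pool.Agent.W23.DC
open Pool.Agent.W25.UB (ds)
open Pool.Agent.W586.DC (mem_EE prime_dvd_prod_mem)

namespace Lsm

/-- the coefficients -/
noncomputable def bL (P : Finset ℕ) (t : ℕ → ℝ) (k : ℕ) (θ : ℝ) (e : ℕ) : ℝ :=
  LL P t (fun x => if x = e then 1 else 0) k true θ θ 1

section
variable {P : Finset ℕ} {t : ℕ → ℝ} {k : ℕ} {θ : ℝ}

theorem bL_bd (hS : Siz P t) (hθ : 0 ≤ θ) (e : ℕ) :
    |bL P t k θ e| ≤ if e ∈ EE P t θ θ then 1 else 0 := by
  have h := Pool.Agent.W586.DC.ER P t hS (fun x => if x = e then 1 else 0) k true θ θ 1 hθ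
    (fun h => by cases h)
  refine h.trans ?_
  have h1 : ∀ x ∈ EE P t θ θ, |(if 1 * x = e then (1 : ℝ) else 0)| =
      if x = e then 1 else 0 := by
    intro x _
    rw [one_mul]
    split_ifs <;> norm_num
  rw [Finset.sum_congr rfl h1, Finset.sum_ite_eq']

theorem LL_zero (hS : Siz P t) (hθ : 0 ≤ θ) (r : ℕ → ℝ) (hr : ∀ e ∈ EE P t θ θ, r e = 0) :
    LL P t r k true θ θ 1 = 0 := by
  have h := Pool.Agent.W586.DC.ER P t hS r k true θ θ 1 hθ (fun h => by cases h)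
  have h2 : ∑ e ∈ EE P t θ θ, |r (1 * e)| = 0 := by
    apply Finset.sum_eq_zero
    intro e he
    rw [one_mul, hr e he, abs_zero]
  rw [h2] at h
  exact abs_eq_zero.1 (le_antisymm h (abs_nonneg _))

theorem LL_scal (hS : Siz P t) (hθ : 0 ≤ θ) (x : ℝ) (G : ℕ → ℝ) :
    LL P t (fun e => x * G e) k true θ θ 1 = x * LL P t G k true θ θ 1 := by
  have h := Pool.Agent.W120.DC.LN.2.1 P t x G (fun _ => 0) k true θ θ 1
  have h2 := LL_zero (k := k) hS hθ (fun _ => (0 : ℝ)) (fun _ _ => rfl)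
  rw [h2, add_zero] at h
  simpa using h

/-- linearity -/
theorem LL_eq (hS : Siz P t) (hθ : 0 ≤ θ) (Z : ℕ) (hZ : ∀ e ∈ EE P t θ θ, e ∈ Icc 1 Z)
    (r : ℕ → ℝ) : LL P t r k true θ θ 1 = ∑ e ∈ Icc 1 Z, bL P t k θ e * r e := by
  have h1 := Pool.Agent.W120.DC.LN.1 P t (Icc 1 Z) (fun a e => r a * (if e = a then 1 else 0)) k true
    θ θ 1
  have h2 : ∀ a, LL P t (fun e => r a * (if e = a then (1 : ℝ) else 0)) k true θ θ 1 =
      bL P t k θ a * r a := by
    intro a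
    rw [LL_scal hS hθ]
    unfold bL
    ring
  have h3 := Pool.Agent.W120.DC.LN.2.1 P t 1
    (fun e => ∑ a ∈ Icc 1 Z, r a * (if e = a then (1 : ℝ) else 0))
    (fun e => if e ∈ Icc 1 Z then 0 else r e) k true θ θ 1
  have h4 : (fun e => 1 * (∑ a ∈ Icc 1 Z, r a * (if e = a then (1 : ℝ) else 0)) +
      (if e ∈ Icc 1 Z then 0 else r e)) = r := by
    funext e
    have h5 : ∑ a ∈ Icc 1 Z, r a * (if e = a then (1 : ℝ) else 0) =
        if e ∈ Icc 1 Z then r e else 0 := by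
      simp only [mul_ite, mul_one, mul_zero]
      rw [Finset.sum_ite_eq]
    rw [h5]
    split_ifs <;> simp
  rw [h4] at h3
  rw [h3, LL_zero hS hθ (fun e => if e ∈ Icc 1 Z then 0 else r e)
    (fun e he => if_pos (hZ e he)), h1]
  rw [add_zero, one_mul]
  exact Finset.sum_congr rfl fun a _ => h2 a

end

theorem sqf_prod (s : Finset ℕ) (hs : ∀ q ∈ s, q.Prime) : Squarefree (∏ q ∈ s, q) := by
  classical
  induction s using Finset.induction_on with
  | empty => simp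
  | insert a s ha ih =>
    rw [Finset.prod_insert ha]
    have hs' : ∀ q ∈ s, q.Prime := fun q hq => hs q (Finset.mem_insert_of_mem hq)
    have hap : a.Prime := hs a (Finset.mem_insert_self _ _)
    rw [Nat.squarefree_mul (Nat.Coprime.prod_right fun i hi =>
      (Nat.coprime_primes hap (hs' i hi)).2 (fun h => ha (h ▸ hi)))]
    exact ⟨hap.prime.squarefree, ih hs'⟩

/-- `ds` at an integer and at its absolute value -/
theorem ds_natAbs (b : ℕ → ℝ) (Z : ℕ) (m : ℤ) :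
    ds b Z m = ∑ e ∈ Icc 1 Z, b e * (if e ∣ m.natAbs then 1 else 0) := by
  unfold ds
  refine Finset.sum_congr rfl fun d _ => ?_
  have h : ((d : ℤ) ∣ m) ↔ d ∣ m.natAbs := Int.natCast_dvd
  simp only [h]

/-- the mean is not negative -/
theorem mean_nonneg (b : ℕ → ℝ) (Z M : ℕ) (hM : 1 ≤ M) (hb : ∀ d, b d ≠ 0 → d ∣ M)
    (hds : ∀ m : ℤ, 0 ≤ ds b Z m) : 0 ≤ ∑ d ∈ Icc 1 Z, b d / d := by
  have hM0 : (0 : ℝ) < M := by exact_mod_cast hM
  have h1 : ∑ d ∈ Icc 1 Z, b d / d =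
      (1 / (M : ℝ)) * ∑ n ∈ range M, ds b Z ((n + 1 : ℕ) : ℤ) := by
    have h2 : ∑ n ∈ range M, ds b Z ((n + 1 : ℕ) : ℤ) =
        ∑ d ∈ Icc 1 Z, b d * ((M / d : ℕ) : ℝ) := by
      unfold ds
      rw [Finset.sum_comm]
      refine Finset.sum_congr rfl fun d _ => ?_
      rw [← Finset.mul_sum]
      congr 1
      rw [← Nat.card_multiples M d, Finset.card_filter]
      push_cast
      refine Finset.sum_congr rfl fun n _ => ?_
      have h : ((d : ℤ) ∣ ((n : ℤ) + 1)) ↔ d ∣ n + 1 := by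
        rw [← Int.natCast_dvd_natCast]
        push_cast
        rfl
      simp only [h]
    rw [h2, Finset.mul_sum]
    refine Finset.sum_congr rfl fun d hd => ?_
    by_cases hbd : b d = 0
    · rw [hbd]; simp
    · have hd1 : (d : ℝ) ≠ 0 := by
        have := (Finset.mem_Icc.1 hd).1
        have h3 : 0 < d := by omega
        exact_mod_cast h3.ne'
      rw [Nat.cast_div (hb d hbd) hd1]
      field_simp
  rw [h1]
  exact mul_nonneg (by positivity) (Finset.sum_nonneg fun n _ => hds _)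

end Lsm

open Lsm

theorem lsm : St_LSM := by
  intro θ η' ε₁ hθ hθ1 hη' hε₁ hε₁1
  classical
  obtain ⟨A0, F, f, hSF⟩ := Pool.Agent.W366.DC.SFX
  have hA := Pool.Agent.Y827.LS.Sfc.sfc hSF
  set K : ℕ := ⌈1 / ε₁⌉₊ with hK
  have hKε : 1 ≤ (K : ℝ) * ε₁ := by
    have h1 : 1 / ε₁ ≤ (K : ℝ) := Nat.le_ceil _
    rwa [div_le_iff₀ hε₁] at h1
  set β : ℝ := 2 * Real.exp Real.eulerMascheroniConstant * ε₁ / θ with hβ
  have hβ0 : 0 < β := by positivity
  obtain ⟨η₁, hη₁, hMT⟩ := Pool.Agent.W505.DC.MT Pool.Agent.W505.DC.MI A0 F f hSF ε₁ (η' * β) K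
    hε₁ (by linarith) (by positivity)
  obtain ⟨N₁, hN₁⟩ := Pool.Agent.W378.DC.MP ε₁ (η₁ / 4) hε₁ (by positivity)
  -- growth conditions
  set C₀ : ℝ := 4 / η₁ * (Real.log (1 / ε₁) + η₁) + 2 with hC₀
  have hbig : ∃ N₂ : ℕ, ∀ N : ℕ, N₂ ≤ N →
      4 / η₁ * ((Real.log N) ^ 2 + 1) ≤ (N : ℝ) ^ ε₁ ∧ C₀ ≤ (N : ℝ) ^ ε₁ := by
    have h1 : Tendsto (fun x : ℝ => (Real.log x) ^ 2 / x ^ ε₁) atTop (𝓝 0) := by
      have h0 := isLittleO_log_rpow_rpow_atTop (s := ε₁) 2 hε₁
      have h2 := h0.tendsto_div_nhds_zero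
      refine h2.congr fun x => ?_
      norm_num
    have h2 : Tendsto (fun x : ℝ => 1 / x ^ ε₁) atTop (𝓝 0) :=
      Tendsto.const_div_atTop (tendsto_rpow_atTop hε₁) 1
    have h3 := (h1.add h2).const_mul (4 / η₁)
    rw [add_zero, mul_zero] at h3
    have h4 := (h3.comp tendsto_natCast_atTop_atTop).eventually (gt_mem_nhds one_pos)
    have h5 := ((tendsto_rpow_atTop hε₁).comp tendsto_natCast_atTop_atTop).eventually
      (eventually_ge_atTop C₀)
    obtain ⟨N₂, h6⟩ := Filter.eventually_atTop.1 (h4.and h5)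
    refine ⟨max N₂ 1, fun N hN => ?_⟩
    obtain ⟨h7, h8⟩ := h6 N ((le_max_left _ _).trans hN)
    simp only [Function.comp_apply] at h7 h8
    have hN0 : (0 : ℝ) < N := by
      have : 1 ≤ N := (le_max_right _ _).trans hN
      exact_mod_cast this
    have h9 : 0 < (N : ℝ) ^ ε₁ := Real.rpow_pos_of_pos hN0 _
    rw [← add_div, mul_div_assoc', div_lt_one h9] at h7
    exact ⟨h7.le, h8⟩
  obtain ⟨N₂, hN₂⟩ := hbig
  refine ⟨max N₁ (max N₂ 2), ?_⟩
  intro X hX Cl hCl Z hZ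
  have hX1 : N₁ ≤ X := (le_max_left _ _).trans hX
  have hX2 : N₂ ≤ X := ((le_max_left _ _).trans (le_max_right _ _)).trans hX
  have hX3 : 2 ≤ X := ((le_max_right _ _).trans (le_max_right _ _)).trans hX
  have hXr1 : (1 : ℝ) < X := by exact_mod_cast (by omega : 1 < X)
  have hXr0 : (0 : ℝ) < X := by linarith
  have hlog : 0 < Real.log X := Real.log_pos hXr1
  obtain ⟨hg1, hg2⟩ := hN₂ X hX2
  set y : ℝ := (X : ℝ) ^ ε₁ with hy
  have hle1 : 0 ≤ Real.log (1 / ε₁) := by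
    apply Real.log_nonneg
    rw [le_div_iff₀ hε₁]
    linarith
  have hy2 : 2 ≤ y := by
    refine le_trans ?_ hg2
    rw [hC₀]
    have : 0 ≤ 4 / η₁ * (Real.log (1 / ε₁) + η₁) := by positivity
    linarith
  have hy0 : 0 < y := by linarith
  set t : ℕ → ℝ := tt X with ht
  set P : Finset ℕ := (Icc 1 X).filter (fun p => p.Prime ∧ y < (p : ℝ) ∧ p ∉ Cl) with hP
  have hPm : ∀ p, p ∈ P ↔ (1 ≤ p ∧ p ≤ X) ∧ p.Prime ∧ y < (p : ℝ) ∧ p ∉ Cl := by
    intro p
    rw [hP, Finset.mem_filter, Finset.mem_Icc]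
  have htpos : ∀ p : ℕ, p.Prime → 0 < t p := by
    intro p hp
    exact div_pos (Real.log_pos (by exact_mod_cast hp.one_lt)) hlog
  have hS : Siz P t := by
    refine ⟨fun p hp => ((hPm p).1 hp).2.1, fun p hp => htpos p ((hPm p).1 hp).2.1, ?_⟩
    intro p hp q hq
    have hp0 : (0 : ℝ) < p := by exact_mod_cast ((hPm p).1 hp).2.1.pos
    have hq0 : (0 : ℝ) < q := by exact_mod_cast ((hPm q).1 hq).2.1.pos
    rw [ht]
    unfold tt
    rw [div_lt_div_iff_of_pos_right hlog, Real.log_lt_log_iff hp0 hq0]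
    exact Nat.cast_lt
  have hθ0 : 0 ≤ θ := by linarith
  have hEEf : ∀ e ∈ EE P t θ θ, Squarefree e ∧ (∀ p : ℕ, p.Prime → p ∣ e → p ∈ P ∧ t p < θ) ∧
      WFac t θ e ∧ e ∣ ∏ p ∈ P, p := by
    intro e he
    rw [mem_EE] at he
    obtain ⟨⟨s, hs, hse⟩, hw⟩ := he
    have hsp : ∀ q ∈ s, q.Prime := fun q hq => hS.pr q (hs q hq).1
    refine ⟨?_, ?_, hw, ?_⟩
    · rw [← hse]
      exact sqf_prod s hsp
    · intro p hp hpe
      rw [← hse] at hpe
      exact hs p (prime_dvd_prod_mem hsp hp hpe)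
    · rw [← hse]
      exact Finset.prod_dvd_prod_of_subset _ _ _ (fun q hq => (hs q hq).1)
  have hEEZ : ∀ e ∈ EE P t θ θ, e ∈ Icc 1 Z := by
    intro e he
    obtain ⟨hsq, -, hw, -⟩ := hEEf e he
    have hT : sz (tt X) e ≤ θ := by
      obtain ⟨u, v, huv, hu, hv⟩ := hw θ 0 hθ0 le_rfl (by ring)
      have h1 : sz (tt X) e = sz (tt X) u + sz (tt X) v := by
        rw [← huv]
        rw [← huv] at hsq
        exact Pool.Agent.W378.DC.TFA.sz_mul hsq
      rw [ht] at hu hv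
      linarith
    have h2 : (e : ℝ) ≤ (X : ℝ) ^ θ := by
      rw [Pool.Agent.W378.DC.TFA.rpow_eq hX3 hsq]
      exact Real.rpow_le_rpow_of_exponent_le hXr1.le hT
    rw [Finset.mem_Icc]
    refine ⟨Nat.one_le_iff_ne_zero.2 hsq.ne_zero, ?_⟩
    rw [hZ]
    exact Nat.le_floor h2
  set b : ℕ → ℝ := bL P t K θ with hb
  have hb_bd : ∀ e, |b e| ≤ if e ∈ EE P t θ θ then 1 else 0 := fun e => bL_bd hS hθ0 e
  have hbEE : ∀ e, b e ≠ 0 → e ∈ EE P t θ θ := by
    intro e he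
    by_contra hc
    have := hb_bd e
    rw [if_neg hc] at this
    exact he (abs_eq_zero.1 (le_antisymm this (abs_nonneg _)))
  have hb1' : ∀ e, |b e| ≤ 1 := by
    intro e
    refine (hb_bd e).trans ?_
    split_ifs <;> norm_num
  have hds : ∀ m : ℤ, ds b Z m =
      LL P t (fun e => if e ∣ m.natAbs then 1 else 0) K true θ θ 1 := by
    intro m
    rw [LL_eq hS hθ0 Z hEEZ, ds_natAbs]
  have hPT : ∀ m : ℤ, (if 1 ∣ m.natAbs ∧ ∀ p ∈ P, t p < θ → ¬ p ∣ m.natAbs then (1 : ℝ) else 0) ≤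
      ds b Z m := by
    intro m
    rw [hds m]
    exact (Pool.Agent.W52.DC.PT P t hS m.natAbs K θ θ 1 (fun p hp _ h1 =>
      (hS.pr p hp).one_lt.ne' (Nat.dvd_one.1 h1))).1
  have hnn : ∀ m : ℤ, 0 ≤ ds b Z m := by
    intro m
    refine le_trans ?_ (hPT m)
    split_ifs <;> norm_num
  have hZ1 : 1 ≤ Z := (Finset.mem_Icc.1 (hEEZ 1 (Pool.Agent.W586.DC.one_mem_EE P t θ θ))).2
  have honly : ∀ m : ℤ, (∀ e, b e ≠ 0 → e ∣ m.natAbs → e = 1) → ds b Z m = b 1 := by
    intro m hm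
    rw [ds_natAbs]
    rw [Finset.sum_eq_single 1]
    · rw [if_pos (one_dvd _), mul_one]
    · intro e _ he1
      by_cases hbe : b e = 0
      · rw [hbe, zero_mul]
      · rw [if_neg (fun h => he1 (hm e hbe h)), mul_zero]
    · intro h
      exact absurd (Finset.mem_Icc.2 ⟨le_rfl, hZ1⟩) h
  have hb11 : b 1 = 1 := by
    have h1 := hPT 1
    rw [honly 1 (fun e _ he => by simpa using he)] at h1
    rw [if_pos ⟨one_dvd _, fun p hp _ hd => (hS.pr p hp).one_lt.ne' (by simpa using hd)⟩] at h1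
    exact le_antisymm ((le_abs_self _).trans (hb1' 1)) h1
  have hmain : ∑ d ∈ Icc 1 Z, b d / d = MM P t (fun p => 1 / (p : ℝ)) K true θ θ := by
    have h1 := LL_eq (k := K) hS hθ0 Z hEEZ (fun e => 1 / (e : ℝ))
    have h2 := Pool.Agent.W120.DC.LN.2.2 P t hS (fun p => 1 / (p : ℝ)) (fun e => 1 / (e : ℝ))
      (fun d p _ _ => by push_cast; rw [one_div_mul_one_div]) K true θ θ 1
      (fun p hp _ hd => (hS.pr p hp).one_lt.ne' (Nat.dvd_one.1 hd))
    rw [h1] at h2
    rw [Nat.cast_one, div_one, one_mul] at h2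
    rw [← h2]
    refine Finset.sum_congr rfl fun d _ => ?_
    rw [mul_one_div]
  have hMer : Mer P t (fun p => 1 / (p : ℝ)) ε₁ θ η₁ := by
    intro a c hεa hac hcθ
    have hMP := hN₁ X hX1 a c hεa hac (by linarith)
    set S := pr X a c with hSd
    set Q := P.filter (fun p => a ≤ t p ∧ t p < c) with hQd
    have hSm : ∀ p, p ∈ S ↔ (1 ≤ p ∧ p ≤ X) ∧ p.Prime ∧ a ≤ tt X p ∧ tt X p < c := by
      intro p
      rw [hSd]
      unfold pr
      rw [Finset.mem_filter, Finset.mem_Icc]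
    have hQS : Q ⊆ S := by
      intro p hp
      rw [hQd, Finset.mem_filter] at hp
      obtain ⟨h1, h2⟩ := hp
      have h3 := (hPm p).1 h1
      rw [hSm]
      exact ⟨h3.1, h3.2.1, h2.1, h2.2⟩
    have hSy : ∀ p ∈ S, y ≤ (p : ℝ) ∧ 2 ≤ (p : ℝ) := by
      intro p hp
      obtain ⟨-, hpr, h1, -⟩ := (hSm p).1 hp
      have hp0 : (0 : ℝ) < p := by exact_mod_cast hpr.pos
      refine ⟨?_, by exact_mod_cast hpr.two_le⟩
      unfold tt at h1
      rw [le_div_iff₀ hlog] at h1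
      have h2 : ε₁ * Real.log X ≤ Real.log p :=
        (mul_le_mul_of_nonneg_right hεa hlog.le).trans h1
      rw [hy, ← Real.log_le_log_iff (Real.rpow_pos_of_pos hXr0 _) hp0, Real.log_rpow hXr0]
      exact h2
    have e1 : ∑ p ∈ S, 1 / ((p : ℝ) - 1) = ∑ p ∈ Q, 1 / (p : ℝ) +
        (∑ p ∈ S \ Q, 1 / (p : ℝ) + ∑ p ∈ S, (1 / ((p : ℝ) - 1) - 1 / (p : ℝ))) := by
      rw [Finset.sum_sub_distrib, ← Finset.sum_sdiff hQS]
      ring_nf
      rw [← Finset.sum_sdiff hQS (f := fun p : ℕ => ((p : ℝ))⁻¹)]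
      ring
    have e2 : 0 ≤ ∑ p ∈ S, (1 / ((p : ℝ) - 1) - 1 / (p : ℝ)) := by
      apply Finset.sum_nonneg
      intro p hp
      have h1 := (hSy p hp).2
      have h2 : 1 / (p : ℝ) ≤ 1 / ((p : ℝ) - 1) :=
        one_div_le_one_div_of_le (by linarith) (by linarith)
      linarith
    have e3 : ∑ p ∈ S, (1 / ((p : ℝ) - 1) - 1 / (p : ℝ)) ≤ η₁ / 4 := by
      have h1 : ∑ p ∈ S, (1 / ((p : ℝ) - 1) - 1 / (p : ℝ)) ≤
          ∑ p ∈ S, 1 / y * (1 / ((p : ℝ) - 1)) := by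
        apply Finset.sum_le_sum
        intro p hp
        obtain ⟨h2, h3⟩ := hSy p hp
        have h4 : 1 / ((p : ℝ) - 1) - 1 / (p : ℝ) = 1 / (p : ℝ) * (1 / ((p : ℝ) - 1)) := by
          have : (p : ℝ) - 1 ≠ 0 := by linarith
          have : (p : ℝ) ≠ 0 := by linarith
          field_simp
          ring
        rw [h4]
        apply mul_le_mul_of_nonneg_right _ (by
          apply one_div_nonneg.2
          linarith)
        exact one_div_le_one_div_of_le hy0 h2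
      rw [← Finset.mul_sum] at h1
      have h2 : ∑ p ∈ S, 1 / ((p : ℝ) - 1) ≤ Real.log (1 / ε₁) + η₁ := by
        have h3 := (abs_le.1 hMP).2
        have h4 : Real.log (c / a) ≤ Real.log (1 / ε₁) := by
          have ha0 : 0 < a := by linarith
          apply Real.log_le_log (by
            have : 0 < c := by linarith
            positivity)
          rw [div_le_div_iff₀ ha0 hε₁]
          nlinarith
        linarith
      refine h1.trans ?_
      have h5 : 4 / η₁ * (Real.log (1 / ε₁) + η₁) ≤ y := by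
        refine le_trans ?_ hg2
        rw [hC₀]
        linarith
      have h6 : Real.log (1 / ε₁) + η₁ ≤ η₁ / 4 * y := by
        have h7 := mul_le_mul_of_nonneg_left h5 (by positivity : 0 ≤ η₁ / 4)
        have h8 : η₁ / 4 * (4 / η₁ * (Real.log (1 / ε₁) + η₁)) = Real.log (1 / ε₁) + η₁ := by
          field_simp
        rw [h8] at h7
        exact h7
      calc 1 / y * ∑ p ∈ S, 1 / ((p : ℝ) - 1) ≤ 1 / y * (η₁ / 4 * y) := by
            apply mul_le_mul_of_nonneg_left (h2.trans h6) (by positivity)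
        _ = η₁ / 4 := by field_simp
    have e4 : ∑ p ∈ S \ Q, 1 / (p : ℝ) ≤ η₁ / 4 := by
      have hsub : S \ Q ⊆ Cl ∪ {⌊y⌋₊} := by
        intro p hp
        rw [Finset.mem_sdiff] at hp
        obtain ⟨hpS, hpQ⟩ := hp
        rw [Finset.mem_union, Finset.mem_singleton]
        by_cases hpC : p ∈ Cl
        · exact Or.inl hpC
        · right
          have h1 := (hSm p).1 hpS
          have h2 := (hSy p hpS).1
          have h3 : ¬ y < (p : ℝ) := by
            intro h4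
            apply hpQ
            rw [hQd, Finset.mem_filter, hPm]
            exact ⟨⟨h1.1, h1.2.1, h4, hpC⟩, h1.2.2.1, h1.2.2.2⟩
          have h4 : y = (p : ℝ) := le_antisymm h2 (not_lt.1 h3)
          rw [h4, Nat.floor_natCast]
      have h1 : ∑ p ∈ S \ Q, 1 / (p : ℝ) ≤ ∑ _p ∈ S \ Q, 1 / y := by
        apply Finset.sum_le_sum
        intro p hp
        exact one_div_le_one_div_of_le hy0 (hSy p (Finset.mem_sdiff.1 hp).1).1
      rw [Finset.sum_const, nsmul_eq_mul] at h1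
      have h2 : (((S \ Q).card : ℕ) : ℝ) ≤ (Real.log X) ^ 2 + 1 := by
        have h3 : (S \ Q).card ≤ Cl.card + 1 := by
          refine (Finset.card_le_card hsub).trans ?_
          refine (Finset.card_union_le _ _).trans ?_
          rw [Finset.card_singleton]
        have h4 : (((S \ Q).card : ℕ) : ℝ) ≤ (Cl.card : ℝ) + 1 := by exact_mod_cast h3
        linarith
      refine h1.trans ?_
      have h6 : (Real.log X) ^ 2 + 1 ≤ η₁ / 4 * y := by
        have h7 := mul_le_mul_of_nonneg_left hg1 (by positivity : 0 ≤ η₁ / 4)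
        have h8 : η₁ / 4 * (4 / η₁ * ((Real.log X) ^ 2 + 1)) = (Real.log X) ^ 2 + 1 := by
          field_simp
        rw [h8] at h7
        exact h7
      calc (((S \ Q).card : ℕ) : ℝ) * (1 / y) ≤ (η₁ / 4 * y) * (1 / y) := by
            apply mul_le_mul_of_nonneg_right (h2.trans h6) (by positivity)
        _ = η₁ / 4 := by field_simp
    have e5 : 0 ≤ ∑ p ∈ S \ Q, 1 / (p : ℝ) := Finset.sum_nonneg fun p _ => by positivity
    rw [e1] at hMP
    have h7 := abs_le.1 hMP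
    show |∑ p ∈ Q, 1 / (p : ℝ) - Real.log (c / a)| ≤ η₁
    rw [abs_le]
    constructor <;> linarith [h7.1, h7.2]
  have hMM := (hMT P t (fun p => 1 / (p : ℝ)) θ hθ1.le (fun p _ => by positivity)
    (fun p hp => by
      have h1 := (hPm p).1 hp
      have hp0 : (0 : ℝ) < p := by exact_mod_cast h1.2.1.pos
      rw [ht]
      unfold tt
      rw [le_div_iff₀ hlog, ← Real.log_rpow hXr0]
      exact Real.log_le_log hy0 h1.2.2.1.le) hMer K le_rfl θ θ (by
        have : (K : ℝ) * ε₁ + 2 * ε₁ = (K + 2) * ε₁ := by ring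
        linarith) (by linarith) le_rfl le_rfl hθ1.le).1
  refine ⟨b, hb11, hb1', ?_, hnn, ?_, ?_, ?_⟩
  · intro d hd
    have h1 := hbEE d hd
    obtain ⟨h2, h3, h4, -⟩ := hEEf d h1
    have h5 := Finset.mem_Icc.1 (hEEZ d h1)
    refine ⟨h5.1, h5.2, h2, ?_, h4⟩
    intro p hp hpd
    have h6 := (hPm p).1 (h3 p hp hpd).1
    exact ⟨h6.2.2.1, h6.2.2.2⟩
  · intro m hm
    rw [honly m, hb11]
    intro e he hem
    by_contra he1
    obtain ⟨p, hp, hpe⟩ := Nat.exists_prime_and_dvd he1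
    obtain ⟨h2, h3, h4, -⟩ := hEEf e (hbEE e he)
    obtain ⟨h5, h6⟩ := h3 p hp hpe
    have h7 := (hPm p).1 h5
    have hp0 : (0 : ℝ) < p := by exact_mod_cast hp.pos
    apply hm p hp h7.2.2.1 _ h7.2.2.2 (Int.natCast_dvd.2 (hpe.trans hem))
    rw [ht] at h6
    unfold tt at h6
    rw [div_lt_iff₀ hlog, ← Real.log_rpow hXr0] at h6
    exact ((Real.log_lt_log_iff hp0 (Real.rpow_pos_of_pos hXr0 _)).1 h6).le
  · exact mean_nonneg b Z (∏ p ∈ P, p)
      (Nat.one_le_iff_ne_zero.2 (Finset.prod_ne_zero_iff.2 fun p hp => (hS.pr p hp).ne_zero))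
      (fun d hd => (hEEf d (hbEE d hd)).2.2.2) hnn
  · rw [hmain]
    refine hMM.trans ?_
    have hF1 : F (θ / θ) = A0 := by
      rw [div_self (by linarith), hSF.F3 1 le_rfl (by norm_num), div_one]
    rw [hF1]
    have h1 : ε₁ / θ * A0 ≤ β := by
      rw [hβ]
      calc ε₁ / θ * A0 ≤ ε₁ / θ * (2 * Real.exp Real.eulerMascheroniConstant) :=
            mul_le_mul_of_nonneg_left hA (by positivity)
        _ = _ := by ring
    rw [add_mul, one_mul]
    linarith

end Pool.Agent.Y827.LS
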