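import Mathlib
import Pool.Agent.Y827.LS.Stm
import Pool.Agent.W935.UB.R2

/-! Project LS: the product of two centred rough divisor sums over one block of moduli, slopes
`1` and `-1`, from the Kloosterman correlation theorem TTC. -/

set_option autoImplicit false

namespace Pool.Agent.Y827.LS

open Finset
open Pool.Agent.W25.UB (ds RC Ex)
open Pool.Agent.H442R2
open Pool.Agent.H442R2.KF
open Pool.Agent.H442R2.BX.TaskEX
open Pool.Agent.W23.PL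
open Pool.Agent.W347.PL
open Pool.Agent.W935.UB.R2 (SEb_shift SEb_nc ncsum dbl)

/-- the sum over `n` of one pair of moduli -/
noncomputable def TT (N : ℕ) (b a a' : ℤ) (q d d' : ℕ) : ℝ :=
  ∑' n : ℤ, (if (q : ℤ) ∣ n - b then Wt N n else 0) * (BX.dl d (n - a) * BX.dl d' (n - a'))

theorem dl_abs (d : ℕ) (hd : 1 ≤ d) (m : ℤ) : |BX.dl d m| ≤ 1 := by
  unfold BX.dl
  have h1 : (1 : ℝ) ≤ d := by exact_mod_cast hd
  have h2 : 1 / (d : ℝ) ≤ 1 := by rw [div_le_one (by linarith)]; exact h1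
  have h3 : 0 ≤ 1 / (d : ℝ) := by positivity
  rw [abs_le]
  split_ifs <;> constructor <;> linarith

/-- expansion of the sum -/
theorem expandB (X Z : ℕ) (hX : 1 ≤ X) (a a' : ℤ) (c c' : ℕ → ℝ) (s : Finset (ℕ × ℤ))
    (φ : ℕ × ℤ → ℝ) (Φ : ℤ → ℝ)
    (hΦ : ∀ n : ℤ, Φ n = ∑ x ∈ s, φ x * (if (x.1 : ℤ) ∣ n - x.2 then 1 else 0)) :
    HasSum (fun n : ℤ => Wt X n * (Φ n * (dc c Z (n - a) * dc c' Z (n - a'))))
      (∑ x ∈ s, φ x * ∑ d ∈ Icc 1 Z, ∑ d' ∈ Icc 1 Z, c d * c' d' * TT X x.2 a a' x.1 d d') := by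
  have hone : ∀ (b : ℤ) (q : ℕ) (d d' : ℕ), 1 ≤ d → 1 ≤ d' → HasSum (fun n : ℤ =>
      (if (q : ℤ) ∣ n - b then Wt X n else 0) * (BX.dl d (n - a) * BX.dl d' (n - a')))
      (TT X b a a' q d d') := by
    intro b q d d' hd hd'
    have h1 : Summable (fun n : ℤ =>
      (if (q : ℤ) ∣ n - b then Wt X n else 0) * (BX.dl d (n - a) * BX.dl d' (n - a'))) := by
      refine Summable.of_norm_bounded (g := fun n => Wt X n) (TaskS.summable_Wt X hX)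
        (fun n => ?_)
      rw [Real.norm_eq_abs, abs_mul, abs_mul]
      have h0 := (Wt_pos X n).le
      have h2 : |(if (q : ℤ) ∣ n - b then Wt X n else 0)| ≤ Wt X n := by
        split_ifs
        · rw [abs_of_nonneg h0]
        · rw [abs_zero]; exact h0
      calc _ ≤ Wt X n * (1 * 1) := by
            refine mul_le_mul h2 ?_ (by positivity) h0
            exact mul_le_mul (dl_abs d hd _) (dl_abs d' hd' _) (abs_nonneg _) zero_le_one
        _ = Wt X n := by ring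
    exact h1.hasSum
  have h : HasSum (fun n : ℤ => ∑ x ∈ s, φ x * ∑ d ∈ Icc 1 Z, ∑ d' ∈ Icc 1 Z, c d * c' d' *
      ((if (x.1 : ℤ) ∣ n - x.2 then Wt X n else 0) * (BX.dl d (n - a) * BX.dl d' (n - a'))))
      (∑ x ∈ s, φ x * ∑ d ∈ Icc 1 Z, ∑ d' ∈ Icc 1 Z, c d * c' d' * TT X x.2 a a' x.1 d d') :=
    hasSum_sum fun x _ => HasSum.mul_left _ (hasSum_sum fun d hd => hasSum_sum fun d' hd' =>
      HasSum.mul_left _ (hone x.2 x.1 d d' (mem_Icc.1 hd).1 (mem_Icc.1 hd').1))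
  have e : (fun n : ℤ => Wt X n * (Φ n * (dc c Z (n - a) * dc c' Z (n - a')))) =
      (fun n : ℤ => ∑ x ∈ s, φ x * ∑ d ∈ Icc 1 Z, ∑ d' ∈ Icc 1 Z, c d * c' d' *
      ((if (x.1 : ℤ) ∣ n - x.2 then Wt X n else 0) * (BX.dl d (n - a) * BX.dl d' (n - a')))) := by
    funext n
    rw [hΦ n]
    unfold dc
    rw [Finset.sum_mul, Finset.mul_sum]
    refine sum_congr rfl fun x _ => ?_
    rw [Finset.sum_mul_sum]
    have e1 : ∀ (w p i S : ℝ), w * (p * i * S) = p * (w * i * S) := fun w p i S => by ring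
    rw [e1]
    congr 1
    rw [Finset.mul_sum]
    refine sum_congr rfl fun d _ => ?_
    rw [Finset.mul_sum]
    refine sum_congr rfl fun d' _ => ?_
    split_ifs
    · ring
    · ring
  rw [e]
  exact h

/-- only the class of `b` modulo `q` matters -/
theorem TT_shift (N : ℕ) (b a a' : ℤ) (q d d' : ℕ) :
    TT N b a a' q d d' = TT N (b % q) a a' q d d' := by
  unfold TT
  refine tsum_congr fun n => ?_
  have h : ((q : ℤ) ∣ n - b) ↔ ((q : ℤ) ∣ n - b % q) := by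
    have e : n - b = (n - b % q) - q * (b / q) := by
      have := Int.emod_add_mul_ediv b q
      linarith
    rw [e]
    exact dvd_sub_left (dvd_mul_right _ _)
  by_cases hp : (q : ℤ) ∣ n - b
  · rw [if_pos hp, if_pos (h.1 hp)]
  · rw [if_neg hp, if_neg (fun h' => hp (h.2 h'))]

/-- the trivial bound -/
theorem trivB (X Z : ℕ) (hX : 1 ≤ X) (hZX : (Z : ℝ) ≤ X) (Y : ℝ) (hYX : Y ≤ X)
    (s : Finset (ℕ × ℤ)) (φ : ℕ × ℤ → ℝ) (Φ : ℤ → ℝ)
    (hΦ : ∀ n : ℤ, Φ n = ∑ x ∈ s, φ x * (if (x.1 : ℤ) ∣ n - x.2 then 1 else 0))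
    (hY : ∑ x ∈ s, |φ x| ≤ Y) (a a' : ℤ) (c c' : ℕ → ℝ) (hc : ∀ d, |c d| ≤ 1)
    (hc' : ∀ d, |c' d| ≤ 1) :
    |∑' n : ℤ, Wt X n * (Φ n * (dc c Z (n - a) * dc c' Z (n - a')))| ≤
      (∑' n : ℤ, Wt X n) * (X : ℝ) ^ 3 := by
  have hX1 : (1 : ℝ) ≤ X := by exact_mod_cast hX
  have hX0 : (0 : ℝ) < X := by linarith
  have hcard : ((Icc 1 Z).card : ℝ) ≤ X := by
    rw [Nat.card_Icc]
    simpa using hZX
  have hds : ∀ cc : ℕ → ℝ, (∀ d, |cc d| ≤ 1) → ∀ n : ℤ, |dc cc Z n| ≤ X := by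
    intro cc hcc n
    unfold dc
    refine (Finset.abs_sum_le_sum_abs _ _).trans ?_
    calc ∑ d ∈ Icc 1 Z, |cc d * BX.dl d n| ≤ ∑ d ∈ Icc 1 Z, (1 : ℝ) := by
          refine Finset.sum_le_sum fun d hd => ?_
          rw [abs_mul]
          calc |cc d| * |BX.dl d n| ≤ 1 * 1 :=
                mul_le_mul (hcc d) (dl_abs d (mem_Icc.1 hd).1 n) (abs_nonneg _) zero_le_one
            _ = 1 := one_mul 1
      _ ≤ X := by rw [Finset.sum_const, nsmul_eq_mul, mul_one]; exact hcard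
  have hΦb : ∀ n, |Φ n| ≤ X := by
    intro n
    rw [hΦ n]
    refine (Finset.abs_sum_le_sum_abs _ _).trans ?_
    refine le_trans ?_ (hY.trans hYX)
    refine Finset.sum_le_sum fun x _ => ?_
    rw [abs_mul]
    calc |φ x| * |(if (x.1 : ℤ) ∣ n - x.2 then (1 : ℝ) else 0)| ≤ |φ x| * 1 := by
          refine mul_le_mul_of_nonneg_left ?_ (abs_nonneg _)
          split_ifs <;> simp
      _ = |φ x| := mul_one _
  have hs := (TaskS.summable_Wt X hX).hasSum.mul_right ((X : ℝ) ^ 3)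
  rw [← Real.norm_eq_abs]
  refine tsum_of_norm_bounded hs fun n => ?_
  rw [Real.norm_eq_abs, abs_mul, abs_of_pos (Wt_pos X n), abs_mul, abs_mul]
  refine mul_le_mul_of_nonneg_left ?_ (Wt_pos X n).le
  calc |Φ n| * (|dc c Z (n - a)| * |dc c' Z (n - a')|) ≤ X * (X * X) := by
        refine mul_le_mul (hΦb n) (mul_le_mul (hds c hc _) (hds c' hc' _) (abs_nonneg _)
          hX0.le) (by positivity) hX0.le
    _ = (X : ℝ) ^ 3 := by ring

/-- one residue class -/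
theorem perxB (ε₀' η' ε₁ C₁ κ : ℝ) (hκ : 0 < κ) (θ δ : ℝ) (hθ : θ + 2 * κ ≤ 1)
    (X : ℕ) (hX : 2 ≤ X) (hκε : κ ≤ ε₀')
    (hT : ∀ (q D0 Z : ℕ), 1 ≤ q → Odd q → Squarefree q → (q : ℝ) ≤ (X : ℝ) ^ ε₀' →
      (Z : ℝ) ≤ (X : ℝ) ^ θ → 1 ≤ D0 → (Z : ℝ) ≤ (X : ℝ) ^ ε₀' * D0 →
      ∀ (b a a' : ℤ), |(b : ℝ)| ≤ q → |(a : ℝ)| ≤ X - (X : ℝ) ^ (1 / 2 : ℝ) →
      |(a' : ℝ)| ≤ X - (X : ℝ) ^ (1 / 2 : ℝ) → a ≠ a' →
      ∀ c c' : ℕ → ℝ, BX.CofO q c → BX.CofO q c' → BX.CofR ((X : ℝ) ^ ε₁) Z c →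
      BX.CofR ((X : ℝ) ^ ε₁) Z c' → Fc X θ δ c c' →
      |∑ d ∈ Ioc D0 Z, ∑ d' ∈ (Ioc D0 Z).filter (fun d' => Nat.Coprime d d'), c d * c' d' *
        ∑' n : ℤ, (if (q : ℤ) ∣ n - b then Wt X n else 0) * (BX.dl d (n - a) * BX.dl d' (n - a'))| ≤
        C₁ * (X : ℝ) ^ (1 - η'))
    (hP : ∀ m : ℕ, 1 ≤ m → (m : ℝ) ≤ (X : ℝ) ^ (1 - κ) → ∀ c : ℤ,
      |∑' n : ℤ, (if (m : ℤ) ∣ n - c then Wt X n else 0) - X / m| ≤ 1 / (X : ℝ) ^ 5)
    (h2 : (2 : ℝ) ≤ (X : ℝ) ^ ε₁)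
    (D0 Z : ℕ) (hZ : (Z : ℝ) ≤ (X : ℝ) ^ θ) (hZX' : (Z : ℝ) ≤ X) (hD0 : 1 ≤ D0)
    (hZD : (Z : ℝ) ≤ (X : ℝ) ^ ε₀' * D0) (S Cl : ℕ → Prop) (y : ℝ)
    (hy : (X : ℝ) ^ ε₁ ≤ y) (hS : ∀ p, S p → (p : ℝ) ≤ y)
    (q : ℕ) (b : ℤ) (hq1 : 1 ≤ q) (hqR : (q : ℝ) ≤ (X : ℝ) ^ κ) (hqo : Odd q)
    (hqs : Squarefree q) (hqS : ∀ p : ℕ, p.Prime → p ∣ q → S p) (hb : |(b : ℝ)| ≤ q)
    (a a' : ℤ) (ha : |(a : ℝ)| ≤ X - (X : ℝ) ^ (1 / 2 : ℝ))
    (ha' : |(a' : ℝ)| ≤ X - (X : ℝ) ^ (1 / 2 : ℝ)) (haa : a ≠ a')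
    (hCl : ∀ p : ℕ, p.Prime → y < (p : ℝ) → (p : ℤ) ∣ a - a' → Cl p)
    (c c' : ℕ → ℝ) (hc : RC Cl y Z c) (hc' : RC Cl y Z c')
    (hcD : ∀ d, c d ≠ 0 → D0 < d) (hcD' : ∀ d, c' d ≠ 0 → D0 < d) (hF : Fc X θ δ c c') :
    |∑ d ∈ Icc 1 Z, ∑ d' ∈ Icc 1 Z, c d * c' d' * TT X b a a' q d d' +
      X / q * ∑ d ∈ Icc 1 Z, ∑ d' ∈ (Icc 1 Z).filter (fun d' => ¬ Nat.Coprime d d'),
        c d * c' d' / (d * d')| ≤ C₁ * (X : ℝ) ^ (1 - η') + 3 := by
  have hX1 : (1 : ℝ) ≤ X := by exact_mod_cast (by omega : 1 ≤ X)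
  have hX0 : (0 : ℝ) < X := by linarith
  have hXle : ∀ s t : ℝ, s ≤ t → (X : ℝ) ^ s ≤ (X : ℝ) ^ t := fun s t hst =>
    Real.rpow_le_rpow_of_exponent_le hX1 hst
  have hcop : ∀ (cc : ℕ → ℝ), RC Cl y Z cc → ∀ d, cc d ≠ 0 → Nat.Coprime d (2 * q) := by
    intro cc hcc d hd
    refine Nat.Coprime.symm (Nat.coprime_of_dvd ?_)
    intro p hpp hp1 hp2
    have h1 := ((hcc.supp d hd).2.2 p hpp hp2).1
    rcases (Nat.Prime.dvd_mul hpp).1 hp1 with h3 | h3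
    · have h5 : p ≤ 2 := Nat.le_of_dvd (by norm_num) h3
      have h6 : (p : ℝ) ≤ 2 := by exact_mod_cast h5
      linarith
    · have := hS p (hqS p hpp h3)
      linarith
  have hO : ∀ (cc : ℕ → ℝ), RC Cl y Z cc → BX.CofO q cc := fun cc hcc =>
    ⟨hcc.bd, hcop cc hcc⟩
  have hR : ∀ (cc : ℕ → ℝ), RC Cl y Z cc → (∀ d, cc d ≠ 0 → D0 < d) →
      BX.CofR ((X : ℝ) ^ ε₁) Z cc := by
    intro cc hcc hD
    refine ⟨hcc.bd, fun d hd => ?_⟩
    obtain ⟨h1, h3, h5⟩ := hcc.supp d hd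
    have := hD d hd
    exact ⟨h3, by omega, fun p hp hpd => lt_of_le_of_lt hy (h5 p hp hpd).1⟩
  have hqε : (q : ℝ) ≤ (X : ℝ) ^ ε₀' := hqR.trans (hXle _ _ hκε)
  have hmain := hT q D0 Z hq1 hqo hqs hqε hZ hD0 hZD b a a' hb ha ha' haa c c' (hO c hc)
    (hO c' hc') (hR c hc hcD) (hR c' hc' hcD') hF
  have hX5 : (0 : ℝ) < (X : ℝ) ^ 5 := by positivity
  have hM : ∀ d d' : ℕ, 1 ≤ d → 1 ≤ d' → Nat.Coprime q d → Nat.Coprime q d' →
      Nat.Coprime d d' → (q : ℝ) * d * d' ≤ (X : ℝ) ^ (1 - κ) →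
      |SEb X b a a' q d d' - X / (q * d * d')| ≤ 1 / (X : ℝ) ^ 5 := by
    intro d d' hd hd' g1 g2 g3 hle
    obtain ⟨cc, hcc'⟩ := SEb_eq X b a a' q d d' g1 g2 g3
    have hm1 : 1 ≤ q * d * d' := Nat.succ_le_of_lt (by positivity)
    have h4 := hP (q * d * d') hm1 (by push_cast; exact hle) cc
    rw [← hcc'] at h4
    push_cast at h4
    exact h4
  have hcc : ∀ d d' : ℕ, |c d * c' d'| ≤ 1 := by
    intro d d'
    rw [abs_mul]
    calc |c d| * |c' d'| ≤ 1 * 1 :=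
          mul_le_mul (hc.bd d) (hc'.bd d') (abs_nonneg _) zero_le_one
      _ = 1 := one_mul 1
  have hqr : (0 : ℝ) < q := by exact_mod_cast hq1
  have hq1r : (1 : ℝ) ≤ q := by exact_mod_cast hq1
  have hqd : ∀ d : ℕ, d ≤ Z → (q : ℝ) * d ≤ (X : ℝ) ^ (1 - κ) := by
    intro d hd
    have hd' : (d : ℝ) ≤ (X : ℝ) ^ θ := le_trans (by exact_mod_cast hd) hZ
    calc (q : ℝ) * d ≤ (X : ℝ) ^ κ * (X : ℝ) ^ θ :=
          mul_le_mul hqR hd' (Nat.cast_nonneg _) (by positivity)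
      _ = (X : ℝ) ^ (κ + θ) := by rw [← Real.rpow_add hX0]
      _ ≤ _ := hXle _ _ (by linarith)
  -- the coprime pairs
  have hcopr : ∑ d ∈ Icc 1 Z, ∑ d' ∈ (Icc 1 Z).filter (fun d' => Nat.Coprime d d'),
      c d * c' d' * TT X b a a' q d d' =
      ∑ d ∈ Ioc D0 Z, ∑ d' ∈ (Ioc D0 Z).filter (fun d' => Nat.Coprime d d'), c d * c' d' *
        ∑' n : ℤ, (if (q : ℤ) ∣ n - b then Wt X n else 0) *
          (BX.dl d (n - a) * BX.dl d' (n - a')) := by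
    have hsub : Ioc D0 Z ⊆ Icc 1 Z := by
      intro d hd
      rw [mem_Ioc] at hd
      rw [mem_Icc]
      omega
    symm
    have e1 : ∀ d ∈ Ioc D0 Z, ∑ d' ∈ (Ioc D0 Z).filter (fun d' => Nat.Coprime d d'),
        c d * c' d' * TT X b a a' q d d' =
        ∑ d' ∈ (Icc 1 Z).filter (fun d' => Nat.Coprime d d'),
        c d * c' d' * TT X b a a' q d d' := by
      intro d _
      refine Finset.sum_subset (Finset.filter_subset_filter _ hsub) ?_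
      intro d' hd' hnd'
      rw [mem_filter, mem_Icc] at hd'
      rw [mem_filter, mem_Ioc] at hnd'
      have h5 : c' d' = 0 := by
        by_contra h
        exact hnd' ⟨⟨hcD' d' h, hd'.1.2⟩, hd'.2⟩
      rw [h5]
      ring
    refine (Finset.sum_congr rfl e1).trans ?_
    refine Finset.sum_subset hsub ?_
    intro d hd hnd
    rw [mem_Icc] at hd
    rw [mem_Ioc] at hnd
    have h5 : c d = 0 := by
      by_contra h
      exact hnd ⟨hcD d h, hd.2⟩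
    refine Finset.sum_eq_zero fun d' _ => ?_
    rw [h5]
    ring
  -- the other pairs
  have herr : ∀ d ∈ Icc 1 Z, ∀ d' ∈ (Icc 1 Z).filter (fun d' => ¬ Nat.Coprime d d'),
      |c d * c' d' * TT X b a a' q d d' + X / q * (c d * c' d' / (d * d'))| ≤
        3 / (X : ℝ) ^ 5 := by
    intro d hd d' hd'
    rw [mem_filter, mem_Icc] at hd'
    rw [mem_Icc] at hd
    by_cases hz : c d * c' d' = 0
    · rw [hz, zero_mul, zero_div, mul_zero, add_zero, abs_zero]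
      positivity
    · have hcd : c d ≠ 0 := left_ne_zero_of_mul hz
      have hcd' : c' d' ≠ 0 := right_ne_zero_of_mul hz
      have k1 : Nat.Coprime q d :=
        (Nat.Coprime.coprime_dvd_right (Dvd.intro_left 2 rfl) (hcop c hc d hcd)).symm
      have k2 : Nat.Coprime q d' :=
        (Nat.Coprime.coprime_dvd_right (Dvd.intro_left 2 rfl) (hcop c' hc' d' hcd')).symm
      have hdr : (1 : ℝ) ≤ d := by exact_mod_cast hd.1
      have hdr' : (1 : ℝ) ≤ d' := by exact_mod_cast hd'.1.1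
      have hd0 : (0 : ℝ) < d := by linarith
      have hd0' : (0 : ℝ) < d' := by linarith
      have hnc := SEb_nc hc hCl X b q d d' hcd hd'.2
      have s1 := hM d 1 hd.1 le_rfl k1 (Nat.coprime_one_right q) (Nat.coprime_one_right d)
        (by rw [Nat.cast_one, mul_one]; exact hqd d hd.2)
      have s2 := hM 1 d' le_rfl hd'.1.1 (Nat.coprime_one_right q) k2
        (Nat.coprime_one_left d')
        (by rw [Nat.cast_one, mul_one]; exact hqd d' hd'.1.2)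
      have s3 := hM 1 1 le_rfl le_rfl (Nat.coprime_one_right q) (Nat.coprime_one_right q)
        (Nat.coprime_one_right 1) (by
          rw [Nat.cast_one, mul_one, mul_one]
          have := hqd d hd.2
          exact (le_mul_of_one_le_right hqr.le hdr).trans this)
      rw [Nat.cast_one, mul_one] at s1 s2
      rw [Nat.cast_one, mul_one, mul_one] at s3
      have e0 : TT X b a a' q d d' = SEb X b a a' q d d' - SEb X b a a' q d 1 / d' -
          SEb X b a a' q 1 d' / d + SEb X b a a' q 1 1 / (d * d') :=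
        open_prod X (by omega) b a a' q d d'
      rw [hnc] at e0
      have e1 : c d * c' d' * TT X b a a' q d d' + X / q * (c d * c' d' / (d * d')) =
          (c d * c' d') * (-((SEb X b a a' q d 1 - X / (q * d)) / d') -
          (SEb X b a a' q 1 d' - X / (q * d')) / d +
          (SEb X b a a' q 1 1 - X / q) / (d * d')) := by
        rw [e0]
        field_simp
        ring
      rw [e1, abs_mul]
      have f1 : |-((SEb X b a a' q d 1 - X / (q * d)) / d')| ≤ 1 / (X : ℝ) ^ 5 := by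
        rw [abs_neg, abs_div, abs_of_pos hd0', div_le_iff₀ hd0']
        exact s1.trans (le_mul_of_one_le_right (by positivity) hdr')
      have f2 : |(SEb X b a a' q 1 d' - X / (q * d')) / d| ≤ 1 / (X : ℝ) ^ 5 := by
        rw [abs_div, abs_of_pos hd0, div_le_iff₀ hd0]
        exact s2.trans (le_mul_of_one_le_right (by positivity) hdr)
      have f3 : |(SEb X b a a' q 1 1 - X / q) / (d * d')| ≤ 1 / (X : ℝ) ^ 5 := by
        rw [abs_div, abs_of_pos (by positivity : (0 : ℝ) < d * d'),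
          div_le_iff₀ (by positivity)]
        exact s3.trans (le_mul_of_one_le_right (by positivity)
          (one_le_mul_of_one_le_of_one_le hdr hdr'))
      have f4 : (3 : ℝ) / (X : ℝ) ^ 5 = 1 / (X : ℝ) ^ 5 + 1 / (X : ℝ) ^ 5 +
          1 / (X : ℝ) ^ 5 := by ring
      have f5 : |-((SEb X b a a' q d 1 - X / (q * d)) / d') -
          (SEb X b a a' q 1 d' - X / (q * d')) / d +
          (SEb X b a a' q 1 1 - X / q) / (d * d')| ≤ 3 / (X : ℝ) ^ 5 := by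
        rw [f4]
        refine (abs_add_le _ _).trans (add_le_add ?_ f3)
        exact (abs_sub _ _).trans (add_le_add f1 f2)
      calc |c d * c' d'| * _ ≤ 1 * (3 / (X : ℝ) ^ 5) :=
            mul_le_mul (hcc d d') f5 (abs_nonneg _) zero_le_one
        _ = 3 / (X : ℝ) ^ 5 := one_mul _
  have hnc1 : |∑ d ∈ Icc 1 Z, ∑ d' ∈ (Icc 1 Z).filter (fun d' => ¬ Nat.Coprime d d'),
      (c d * c' d' * TT X b a a' q d d' + X / q * (c d * c' d' / (d * d')))| ≤ 3 := by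
    have hcardI : ((Icc 1 Z).card : ℝ) ≤ X := by
      rw [Nat.card_Icc]
      simpa using hZX'
    have hB : (0 : ℝ) ≤ 3 / (X : ℝ) ^ 5 := by positivity
    calc |∑ d ∈ Icc 1 Z, ∑ d' ∈ (Icc 1 Z).filter (fun d' => ¬ Nat.Coprime d d'),
          (c d * c' d' * TT X b a a' q d d' + X / q * (c d * c' d' / (d * d')))|
        ≤ ∑ d ∈ Icc 1 Z, |∑ d' ∈ (Icc 1 Z).filter (fun d' => ¬ Nat.Coprime d d'),
          (c d * c' d' * TT X b a a' q d d' + X / q * (c d * c' d' / (d * d')))| :=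
          Finset.abs_sum_le_sum_abs _ _
      _ ≤ ∑ d ∈ Icc 1 Z, X * (3 / (X : ℝ) ^ 5) := by
          refine Finset.sum_le_sum fun d hd => ?_
          refine (Finset.abs_sum_le_sum_abs _ _).trans ?_
          refine (Finset.sum_le_sum fun d' hd' => herr d hd d' hd').trans ?_
          rw [Finset.sum_const, nsmul_eq_mul]
          apply mul_le_mul_of_nonneg_right _ hB
          refine le_trans ?_ hcardI
          exact_mod_cast Finset.card_filter_le _ _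
      _ ≤ X * (X * (3 / (X : ℝ) ^ 5)) := by
          rw [Finset.sum_const, nsmul_eq_mul]
          exact mul_le_mul_of_nonneg_right hcardI (by positivity)
      _ = 3 / (X : ℝ) ^ 3 := by field_simp
      _ ≤ 3 := div_le_self (by norm_num) (one_le_pow₀ hX1)
  have hsplit : ∑ d ∈ Icc 1 Z, ∑ d' ∈ (Icc 1 Z).filter (fun d' => ¬ Nat.Coprime d d'),
        (c d * c' d' * TT X b a a' q d d' + X / q * (c d * c' d' / (d * d'))) =
      ∑ d ∈ Icc 1 Z, ∑ d' ∈ (Icc 1 Z).filter (fun d' => ¬ Nat.Coprime d d'),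
      c d * c' d' * TT X b a a' q d d' +
      X / q * ∑ d ∈ Icc 1 Z, ∑ d' ∈ (Icc 1 Z).filter (fun d' => ¬ Nat.Coprime d d'),
        c d * c' d' / (d * d') := by
    rw [Finset.mul_sum, ← Finset.sum_add_distrib]
    refine Finset.sum_congr rfl fun d _ => ?_
    rw [Finset.mul_sum, ← Finset.sum_add_distrib]
  have htot : ∑ d ∈ Icc 1 Z, ∑ d' ∈ Icc 1 Z, c d * c' d' * TT X b a a' q d d' =
      ∑ d ∈ Icc 1 Z, ∑ d' ∈ (Icc 1 Z).filter (fun d' => Nat.Coprime d d'),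
        c d * c' d' * TT X b a a' q d d' +
      ∑ d ∈ Icc 1 Z, ∑ d' ∈ (Icc 1 Z).filter (fun d' => ¬ Nat.Coprime d d'),
        c d * c' d' * TT X b a a' q d d' := by
    rw [← Finset.sum_add_distrib]
    refine Finset.sum_congr rfl fun d _ => ?_
    rw [Finset.sum_filter_add_sum_filter_not]
  rw [htot, add_assoc, ← hsplit, hcopr]
  exact (abs_add_le _ _).trans (add_le_add hmain hnc1)

/-- **R2B** for the slopes `1` and `-1` -/
theorem r2bpm (hTTC : St_TTC) : St_R2B (fun u => u = 1 ∨ u = -1) := by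
  intro θ δ hθ hθ1 hδ
  obtain ⟨ε₀', η', hε₀', hη', hT⟩ := hTTC θ δ hθ hθ1 hδ
  obtain ⟨ε₀, hε₀, hε₀1, hε₀2⟩ : ∃ ε₀ : ℝ, 0 < ε₀ ∧ ε₀ ≤ 1 / 100 ∧ ε₀ ≤ ε₀' :=
    ⟨min ε₀' (1 / 100), lt_min hε₀' (by norm_num), min_le_right _ _, min_le_left _ _⟩
  obtain ⟨η, hη, hη1, hη2⟩ : ∃ η : ℝ, 0 < η ∧ η ≤ 1 / 100 ∧ η ≤ η' / 2 :=
    ⟨min (η' / 2) (1 / 100), lt_min (by positivity) (by norm_num), min_le_right _ _,
      min_le_left _ _⟩
  refine ⟨ε₀, η, hε₀, hε₀1, hη, hη1, ?_⟩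
  intro ε₁ hε₁ hε₁1
  obtain ⟨C₁, hC₁, hT1⟩ := hT ε₁ hε₁
  obtain ⟨C₃, hC₃, hRB⟩ := BX.RB ε₁ hε₁
  obtain ⟨N₁, hN₁⟩ := pois0
  obtain ⟨κ, hκ, hκ1, hκ2, hκ3⟩ : ∃ κ : ℝ, 0 < κ ∧ θ + 2 * κ ≤ 1 ∧ ε₀ / 10 = κ ∧ κ ≤ 1 / 10 :=
    ⟨ε₀ / 10, by positivity, by linarith, rfl, by linarith⟩
  obtain ⟨N₂, hN₂⟩ : ∃ N₂ : ℕ, ∀ N : ℕ, N₂ ≤ N → Real.log N ≤ (N : ℝ) ^ κ := by
    have h1 := (isLittleO_log_rpow_atTop hκ).bound (one_pos)
    have h2 := (tendsto_natCast_atTop_atTop (R := ℝ)).eventually h1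
    have h3 := h2.and (Filter.eventually_ge_atTop 1)
    obtain ⟨N₂, hN₂⟩ := Filter.eventually_atTop.mp h3
    refine ⟨N₂, fun N hN => ?_⟩
    obtain ⟨h4, h5⟩ := hN₂ N hN
    rw [one_mul, Real.norm_eq_abs, Real.norm_eq_abs, abs_of_nonneg (Real.log_natCast_nonneg N),
      abs_of_nonneg (by positivity)] at h4
    exact h4
  have hbig : ∀ κ : ℝ, 0 < κ → ∃ N₃ : ℕ, ∀ N : ℕ, N₃ ≤ N → (2 : ℝ) ≤ (N : ℝ) ^ κ := by
    intro κ hκ
    have h := ((tendsto_rpow_atTop hκ).comp tendsto_natCast_atTop_atTop).eventually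
      (Filter.eventually_ge_atTop (2 : ℝ))
    obtain ⟨N₃, h3⟩ := Filter.eventually_atTop.1 h
    exact ⟨N₃, fun N hN => h3 N hN⟩
  obtain ⟨N₃, hN₃⟩ := hbig ε₁ hε₁
  obtain ⟨η₁, hη₁, g1, g2, g3⟩ : ∃ η₁ : ℝ, 0 < η₁ ∧ η₁ ≤ η' / 4 ∧ η₁ ≤ ε₁ / 4 ∧ η₁ ≤ 1 / 2 :=
    ⟨min (η' / 4) (min (ε₁ / 4) (1 / 2)), lt_min (by positivity) (lt_min (by positivity)
      (by norm_num)), min_le_left _ _, (min_le_right _ _).trans (min_le_left _ _),
      (min_le_right _ _).trans (min_le_right _ _)⟩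
  refine ⟨η₁, hη₁, ?_⟩
  intro U hU
  set N₀ : ℕ := max (max N₁ N₂) (max N₃ 16) with hN₀
  set Cs : ℝ := ∑ N ∈ range N₀, ((∑' n : ℤ, Wt N n) * (N : ℝ) ^ 3) with hCs
  have hWn : ∀ N : ℕ, 0 ≤ (∑' n : ℤ, Wt N n) * (N : ℝ) ^ 3 := fun N =>
    mul_nonneg (tsum_nonneg fun n => (Wt_pos N n).le) (by positivity)
  have hCs0 : 0 ≤ Cs := Finset.sum_nonneg fun N _ => hWn N
  refine ⟨C₁ + 3 + C₃ + Cs, by positivity, ?_⟩
  intro X D0 Z hX hZ hD0 hZD S Cl Y R y Φ m hy hS hEx hR hYη hm u w u' w' hu hu' _ _ _ _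
    hw hw' hne hCl c c' hc hc' hcD hcD' hF
  have hX1 : (1 : ℝ) ≤ X := by exact_mod_cast (by omega : 1 ≤ X)
  have hX0 : (0 : ℝ) < X := by linarith
  have hXle : ∀ s t : ℝ, s ≤ t → (X : ℝ) ^ s ≤ (X : ℝ) ^ t := fun s t hst =>
    Real.rpow_le_rpow_of_exponent_le hX1 hst
  have hZX : (Z : ℝ) ≤ X := hZ.trans (by
    have := hXle θ 1 (by linarith)
    rwa [Real.rpow_one] at this)
  have hYX : Y ≤ X := hYη.trans (by
    have := hXle η 1 (by linarith)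
    rwa [Real.rpow_one] at this)
  have hpow1 : (1 : ℝ) ≤ (X : ℝ) ^ (1 - η₁) := Real.one_le_rpow hX1 (by linarith)
  -- from the forms to the translations
  obtain ⟨a, hadef⟩ : ∃ a : ℤ, a = -(u * w) := ⟨_, rfl⟩
  obtain ⟨a', hadef'⟩ : ∃ a' : ℤ, a' = -(u' * w') := ⟨_, rfl⟩
  have hdc : ∀ (u w : ℤ), (u = 1 ∨ u = -1) → ∀ (c : ℕ → ℝ) (n : ℤ),
      dc c Z (u * n + w) = dc c Z (n - (-(u * w))) := by
    intro u w hu c n
    unfold dc BX.dl
    refine Finset.sum_congr rfl fun d _ => ?_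
    have h1 : ((d : ℤ) ∣ u * n + w) ↔ ((d : ℤ) ∣ n - (-(u * w))) := by
      rcases hu with h | h
      · rw [h]
        have : (1 : ℤ) * n + w = n - (-(1 * w)) := by ring
        rw [this]
      · rw [h]
        have : (-1 : ℤ) * n + w = -(n - (-(-1 * w))) := by ring
        rw [this, dvd_neg]
    simp only [h1]
  have hn1 : ∀ n : ℤ, dc c Z (u * n + w) = dc c Z (n - a) := fun n => by
    rw [hadef]; exact hdc u w hu c n
  have hn2 : ∀ n : ℤ, dc c' Z (u' * n + w') = dc c' Z (n - a') := fun n => by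
    rw [hadef']; exact hdc u' w' hu' c' n
  have hdiffa : a - a' = -(u * u') * (u' * w - u * w') := by
    rw [hadef, hadef']
    rcases hu with h | h <;> rcases hu' with h' | h' <;> rw [h, h'] <;> ring
  have huu : u * u' = 1 ∨ u * u' = -1 := by
    rcases hu with h | h <;> rcases hu' with h' | h' <;> rw [h, h'] <;> norm_num
  have haa : a ≠ a' := by
    intro h
    have h1 : a - a' = 0 := by rw [h, sub_self]
    rw [hdiffa] at h1
    rcases mul_eq_zero.1 h1 with h2 | h2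
    · rcases huu with h3 | h3 <;> rw [h3] at h2 <;> norm_num at h2
    · exact hne h2
  have hCl' : ∀ p : ℕ, p.Prime → y < (p : ℝ) → (p : ℤ) ∣ a - a' → Cl p := by
    intro p hp hyp hd
    apply hCl p hp hyp
    rw [hdiffa] at hd
    rcases huu with h3 | h3 <;> rw [h3] at hd
    · rw [neg_one_mul, dvd_neg] at hd; exact hd
    · rw [neg_neg, one_mul] at hd; exact hd
  simp only [hn1, hn2]
  obtain ⟨s, φ, hΦ, hY, hs, hmv⟩ := hEx
  rcases lt_or_ge X N₀ with hlt | hge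
  · have h1 := trivB X Z (by omega) hZX Y hYX s φ Φ hΦ hY a a' c c' hc.bd hc'.bd
    have h2 := Finset.single_le_sum
      (f := fun N : ℕ => (∑' n : ℤ, Wt N n) * (N : ℝ) ^ 3)
      (fun N _ => hWn N) (Finset.mem_range.2 hlt)
    calc _ ≤ _ := h1
      _ ≤ Cs := h2
      _ ≤ (C₁ + 3 + C₃ + Cs) * 1 := by linarith
      _ ≤ (C₁ + 3 + C₃ + Cs) * (X : ℝ) ^ (1 - η₁) :=
          mul_le_mul_of_nonneg_left hpow1 (by positivity)
  · have hge1 : N₁ ≤ X := (le_max_left _ _).trans ((le_max_left _ _).trans hge)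
    have hge2 : N₂ ≤ X := (le_max_right _ _).trans ((le_max_left _ _).trans hge)
    have hge3 : N₃ ≤ X := (le_max_left _ _).trans ((le_max_right _ _).trans hge)
    have hge4 : 16 ≤ X := (le_max_right _ _).trans ((le_max_right _ _).trans hge)
    have hsq : (X : ℝ) ^ (1 / 2 : ℝ) ≤ X / 4 := by
      rw [← Real.sqrt_eq_rpow, Real.sqrt_le_iff]
      refine ⟨by positivity, ?_⟩
      have : (16 : ℝ) ≤ X := by exact_mod_cast hge4
      nlinarith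
    have habs : ∀ (u w : ℤ), (u = 1 ∨ u = -1) → 4 * |(w : ℝ)| ≤ 3 * |(u : ℝ)| * X →
        |((-(u * w) : ℤ) : ℝ)| ≤ X - (X : ℝ) ^ (1 / 2 : ℝ) := by
      intro u w hu hw
      have h1 : |(u : ℝ)| = 1 := by
        rcases hu with h | h <;> rw [h] <;> norm_num
      push_cast
      rw [abs_neg, abs_mul, h1, one_mul]
      rw [h1] at hw
      linarith
    have ha : |(a : ℝ)| ≤ X - (X : ℝ) ^ (1 / 2 : ℝ) := by rw [hadef]; exact habs u w hu hw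
    have ha' : |(a' : ℝ)| ≤ X - (X : ℝ) ^ (1 / 2 : ℝ) := by rw [hadef']; exact habs u' w' hu' hw'
    have hP : ∀ m : ℕ, 1 ≤ m → (m : ℝ) ≤ (X : ℝ) ^ (1 - κ) → ∀ c : ℤ,
        |∑' n : ℤ, (if (m : ℤ) ∣ n - c then Wt X n else 0) - X / m| ≤ 1 / (X : ℝ) ^ 5 := by
      intro m hm1 hmX c
      refine hN₁ X hge1 m hm1 ?_ ?_ c
      · refine hmX.trans ?_
        rw [← Real.rpow_natCast (X : ℝ) 3]
        apply hXle
        push_cast
        linarith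
      · calc (m : ℝ) * Real.log X ≤ (X : ℝ) ^ (1 - κ) * (X : ℝ) ^ κ :=
              mul_le_mul hmX (hN₂ X hge2) (Real.log_natCast_nonneg X) (by positivity)
          _ = X := by
              rw [← Real.rpow_add hX0, show 1 - κ + κ = 1 by ring, Real.rpow_one]
    set K' : ℝ := ∑ d ∈ Icc 1 Z, ∑ d' ∈ (Icc 1 Z).filter (fun d' => ¬ Nat.Coprime d d'),
      c d * c' d' / (d * d') with hK'
    have hnc : |K'| ≤ C₃ * (X : ℝ) ^ (-(ε₁ / 2)) :=
      ncsum ε₁ C₃ X Z (by exact_mod_cast hZX) Cl y hy (hRB X hX) c c' hc hc'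
    set E : ℕ × ℤ → ℝ := fun x => ∑ d ∈ Icc 1 Z, ∑ d' ∈ Icc 1 Z,
      c d * c' d' * TT X x.2 a a' x.1 d d' + X / x.1 * K' with hEdef
    have hE : ∀ x ∈ s, |E x| ≤ C₁ * (X : ℝ) ^ (1 - η') + 3 := by
      intro x hx
      obtain ⟨q1, q2, q3, q4, q5⟩ := hs x hx
      have hq0 : (0 : ℤ) < (x.1 : ℤ) := by exact_mod_cast q1
      have hb : |((x.2 % (x.1 : ℤ) : ℤ) : ℝ)| ≤ x.1 := by
        have b1 := Int.emod_nonneg x.2 hq0.ne'
        have b2 := Int.emod_lt_of_pos x.2 hq0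
        rw [abs_of_nonneg (by exact_mod_cast b1)]
        have b3 : ((x.2 % (x.1 : ℤ) : ℤ) : ℝ) < ((x.1 : ℤ) : ℝ) := by exact_mod_cast b2
        have b4 : ((x.1 : ℤ) : ℝ) = (x.1 : ℝ) := by simp
        linarith
      have hqR1 : (x.1 : ℝ) ≤ (X : ℝ) ^ κ := by rw [← hκ2]; exact q2.trans hR
      have hZD' : (Z : ℝ) ≤ (X : ℝ) ^ ε₀' * D0 :=
        hZD.trans (mul_le_mul_of_nonneg_right (hXle _ _ hε₀2) (Nat.cast_nonneg _))
      have h := perxB ε₀' η' ε₁ C₁ κ hκ θ δ hκ1 X hX (by linarith)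
        (fun q D0 Z h1 h2 h3 h4 h5 h6 h7 => hT1 X q D0 Z hX h1 h2 h3 h4 h5 h6 h7)
        hP (hN₃ X hge3) D0 Z hZ hZX hD0 hZD' S Cl y hy hS x.1
        (x.2 % (x.1 : ℤ)) q1 hqR1 q3 q4 q5 hb a a' ha ha' haa hCl' c c' hc hc' hcD hcD' hF
      have e : ∑ d ∈ Icc 1 Z, ∑ d' ∈ Icc 1 Z, c d * c' d' * TT X x.2 a a' x.1 d d' =
          ∑ d ∈ Icc 1 Z, ∑ d' ∈ Icc 1 Z, c d * c' d' * TT X (x.2 % (x.1 : ℤ)) a a' x.1 d d' :=
          Finset.sum_congr rfl fun d _ => Finset.sum_congr rfl fun d' _ => by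
            rw [TT_shift X x.2 a a' x.1 d d']
      simp only [hEdef]
      rw [e]
      exact h
    have hexp := (expandB X Z (by omega) a a' c c' s φ Φ hΦ).tsum_eq
    have hmain : ∑' n : ℤ, Wt X n * (Φ n * (dc c Z (n - a) * dc c' Z (n - a'))) =
        ∑ x ∈ s, φ x * E x - X * m * K' := by
      rw [hexp, hmv, hEdef]
      have e2 : ∀ K0 : ℝ, (X : ℝ) * (∑ x ∈ s, φ x / x.1) * K0 =
          ∑ x ∈ s, φ x * (X / x.1 * K0) := by
        intro K0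
        rw [Finset.mul_sum, Finset.sum_mul]
        refine Finset.sum_congr rfl fun x _ => ?_
        ring
      rw [e2 K', ← Finset.sum_sub_distrib]
      refine Finset.sum_congr rfl fun x _ => ?_
      ring
    rw [hmain]
    have hB0 : 0 ≤ C₁ * (X : ℝ) ^ (1 - η') + 3 := by positivity
    have t1 : |∑ x ∈ s, φ x * E x| ≤ Y * (C₁ * (X : ℝ) ^ (1 - η') + 3) := by
      refine (Finset.abs_sum_le_sum_abs _ _).trans ?_
      calc ∑ x ∈ s, |φ x * E x| ≤ ∑ x ∈ s, |φ x| * (C₁ * (X : ℝ) ^ (1 - η') + 3) := by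
            refine Finset.sum_le_sum fun x hx => ?_
            rw [abs_mul]
            exact mul_le_mul_of_nonneg_left (hE x hx) (abs_nonneg _)
        _ = (∑ x ∈ s, |φ x|) * (C₁ * (X : ℝ) ^ (1 - η') + 3) := by rw [Finset.sum_mul]
        _ ≤ Y * (C₁ * (X : ℝ) ^ (1 - η') + 3) := mul_le_mul_of_nonneg_right hY hB0
    have t2 : |X * m * K'| ≤ X * (C₃ * (X : ℝ) ^ (-(ε₁ / 2))) := by
      rw [abs_mul, abs_mul, abs_of_pos hX0]
      calc X * |m| * |K'| ≤ X * 1 * (C₃ * (X : ℝ) ^ (-(ε₁ / 2))) :=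
            mul_le_mul (mul_le_mul_of_nonneg_left hm hX0.le) hnc (abs_nonneg _) (by positivity)
        _ = _ := by ring
    have t3 : Y * (C₁ * (X : ℝ) ^ (1 - η') + 3) ≤ (C₁ + 3) * (X : ℝ) ^ (1 - η₁) := by
      have u1 : (X : ℝ) ^ η * (X : ℝ) ^ (1 - η') ≤ (X : ℝ) ^ (1 - η₁) := by
        rw [← Real.rpow_add hX0]
        exact hXle _ _ (by linarith)
      have u2 : (X : ℝ) ^ η ≤ (X : ℝ) ^ (1 - η₁) := hXle _ _ (by linarith)
      calc Y * (C₁ * (X : ℝ) ^ (1 - η') + 3) ≤ (X : ℝ) ^ η * (C₁ * (X : ℝ) ^ (1 - η') + 3) :=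
            mul_le_mul_of_nonneg_right hYη hB0
        _ = C₁ * ((X : ℝ) ^ η * (X : ℝ) ^ (1 - η')) + 3 * (X : ℝ) ^ η := by ring
        _ ≤ C₁ * (X : ℝ) ^ (1 - η₁) + 3 * (X : ℝ) ^ (1 - η₁) :=
            add_le_add (mul_le_mul_of_nonneg_left u1 hC₁.le)
              (mul_le_mul_of_nonneg_left u2 (by norm_num))
        _ = _ := by ring
    have t4 : X * (C₃ * (X : ℝ) ^ (-(ε₁ / 2))) ≤ C₃ * (X : ℝ) ^ (1 - η₁) := by
      have u1 : (X : ℝ) * (X : ℝ) ^ (-(ε₁ / 2)) ≤ (X : ℝ) ^ (1 - η₁) := by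
        nth_rewrite 1 [← Real.rpow_one (X : ℝ)]
        rw [← Real.rpow_add hX0]
        exact hXle _ _ (by linarith)
      calc X * (C₃ * (X : ℝ) ^ (-(ε₁ / 2))) = C₃ * (X * (X : ℝ) ^ (-(ε₁ / 2))) := by ring
        _ ≤ _ := mul_le_mul_of_nonneg_left u1 hC₃.le
    have t5 : 0 ≤ Cs * (X : ℝ) ^ (1 - η₁) := by positivity
    calc |∑ x ∈ s, φ x * E x - X * m * K'| ≤ |∑ x ∈ s, φ x * E x| + |X * m * K'| := abs_sub _ _
      _ ≤ (C₁ + 3) * (X : ℝ) ^ (1 - η₁) + C₃ * (X : ℝ) ^ (1 - η₁) :=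
          add_le_add (t1.trans t3) (t2.trans t4)
      _ ≤ (C₁ + 3 + C₃ + Cs) * (X : ℝ) ^ (1 - η₁) := by linarith

end Pool.Agent.Y827.LS
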