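import Mathlib
import Pool.Agent.Y827.LS.Stm
import Pool.Agent.TH899.UG.StmH
import Pool.Agent.TH899.UG.MasH

/-! Project LS: the master formula for one block of moduli (no main term). -/

set_option autoImplicit false

namespace Pool.Agent.Y827.LS

open Finset Filter Topology
open Pool.Agent.W25.UN Pool.Agent.W25.UB
open Pool.Agent.H362R2.CM (IP prP)
open Pool.Agent.H410R2 (mulc lgt WW)
open Pool.Agent.W23.PL (DW Ev hat)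
open Pool.Agent.H442R2.KF (Wt)
open Pool.Agent.W89.UBMAS
open Pool.Agent.TH899.UG

variable {k : ℕ}

/-- the summand: sieve weight, small sieves and two centred divisor sums -/
noncomputable def MsB (α h : Fin k → ℤ) (Mo D v D₁ Z : ℕ) (P : Finset ℕ) (Tr : ℤ → ℝ)
    (c : (IP P → Option (Option (Fin k))) → ℝ) (j j' : Fin k) (th th' b b' : ℕ → ℝ) (n : ℤ) : ℝ :=
  ((if ((WW D / 2 : ℕ) : ℤ) ∣ n - v then 1 else 0) * Tr n) * (FZ (uB α) (wB h Mo) P c n ^ 2 *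
    (Ev th D₁ (Lf α h Mo (some j) n) * Ev th' D₁ (Lf α h Mo (some j') n))) *
    (dc b Z (Lf α h Mo (some j) n) * dc b' Z (Lf α h Mo (some j') n))

/-- the block formula at `N` -/
def BlkAt (θ δ ε₀ η : ℝ) (α h : Fin k → ℤ) (Mo : ℕ) (ε₁ r : ℝ) (A E₁ D N v D₁ : ℕ)
    (P Pt : Finset ℕ) (Tr : ℤ → ℝ) : Prop :=
  ∀ (D0 Z : ℕ) (c : (IP P → Option (Option (Fin k))) → ℝ) (j j' : Fin k) (th th' b : ℕ → ℝ),
    (Z : ℝ) ≤ ((2 * N : ℕ) : ℝ) ^ θ → 1 ≤ D0 → (Z : ℝ) ≤ ((2 * N : ℕ) : ℝ) ^ ε₀ * D0 → j ≠ j' →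
    (∀ σ, |c σ| ≤ (Real.log N) ^ E₁ * mulc (prP P) (fun p => 1 / ((p : ℝ) - 1)) σ) →
    (∀ σ, c σ ≠ 0 → lgt (prP P) σ ≤ r * Real.log N) →
    DW Pt D₁ (Real.log (2 * N : ℕ)) th → DW Pt D₁ (Real.log (2 * N : ℕ)) th' →
    ((∀ e, e ≠ 1 → th e = 0) ∨ ∀ σ, c σ ≠ 0 → ∀ t, σ t ≠ some (some j)) →
    ((∀ e, e ≠ 1 → th' e = 0) ∨ ∀ σ, c σ ≠ 0 → ∀ t, σ t ≠ some (some j')) →
    RC (fun p => p ∈ CL (uB α) (wB h Mo)) (((2 * N : ℕ) : ℝ) ^ ε₁) Z b →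
    (∀ d, b d ≠ 0 → D0 < d) → Pool.Agent.W23.PL.Fc (2 * N) θ δ b b →
    Summable (fun n : ℤ => Wt (2 * N) n * MsB α h Mo D v D₁ Z P Tr c j j' th th' b b n) ∧
    |∑' n : ℤ, Wt (2 * N) n * MsB α h Mo D v D₁ Z P Tr c j j' th th' b b n| ≤
      ((2 * N : ℕ) : ℝ) / (Real.log N) ^ A ∧
    ∀ n : ℤ, |((if ((WW D / 2 : ℕ) : ℤ) ∣ n - v then 1 else 0) * Tr n) *
      (FZ (uB α) (wB h Mo) P c n ^ 2 * (Ev th D₁ (Lf α h Mo (some j) n) *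
        Ev th' D₁ (Lf α h Mo (some j') n)))| ≤ ((2 * N : ℕ) : ℝ) ^ η

theorem dc_bd (c : ℕ → ℝ) (Z : ℕ) (n : ℤ) : |dc c Z n| ≤ ∑ d ∈ Icc 1 Z, |c d| := by
  unfold dc
  refine (Finset.abs_sum_le_sum_abs _ _).trans (Finset.sum_le_sum fun x hx => ?_)
  rw [abs_mul]
  have h1 : |Pool.Agent.H442R2.BX.dl x n| ≤ 1 := by
    unfold Pool.Agent.H442R2.BX.dl
    have h1 : (1 : ℝ) ≤ x := by exact_mod_cast (Finset.mem_Icc.1 hx).1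
    have h2 : 1 / (x : ℝ) ≤ 1 := by rw [div_le_one (by linarith)]; exact h1
    have h3 : 0 ≤ 1 / (x : ℝ) := by positivity
    rw [abs_le]
    split_ifs <;> constructor <;> linarith
  calc |c x| * _ ≤ |c x| * 1 := mul_le_mul_of_nonneg_left h1 (abs_nonneg _)
    _ = _ := mul_one _

theorem masB (hEXM : St_EXM) (hGAU : St_GAU) (hFT3 : St_FT3) (𝒮 : ℤ → Prop) (θ δ ε₀ η : ℝ)
    (hε₀ : 0 < ε₀) (hε₀' : ε₀ ≤ 1 / 100) (hη : 0 < η) (hη' : η ≤ 1 / 100)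
    (hR2 : R2BAt 𝒮 θ δ ε₀ η) (k : ℕ) :
    ∃ E : ℕ, ∀ (ε₁ η₀ r : ℝ) (A E₁ B D : ℕ) (α : Fin k → ℤ), 0 < ε₁ → ε₁ ≤ 1 →
    0 < η₀ → 0 < r → 16 * r ≤ ε₀ / 10 → 16 * r ≤ η → 16 * η₀ ≤ ε₀ / 10 → 16 * η₀ ≤ η →
    E + 2 * E₁ + A ≤ B → 2 * (k + 1) ≤ D → (∀ i, 𝒮 (α i)) → (∀ i, α i ≠ 0) →
    (∀ i, (α i).natAbs ≤ D) → ∀ᶠ N : ℕ in atTop, ∀ (h : Fin k → ℤ) (Mo : ℕ), HB h Mo N →
    Nd α h Mo →
    ∀ (v D₁ : ℕ) (P Pt : Finset ℕ) (Tr : ℤ → ℝ) (t : ℝ), D₁ = ⌊((2 * N : ℕ) : ℝ) ^ η₀⌋₊ →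
    (∀ p ∈ P ∪ Pt, Gd (uB α) (wB h Mo) p ∧ DB (2 * N) B < p ∧ (p : ℝ) ≤ ((2 * N : ℕ) : ℝ) ^ ε₁) →
    Ex (fun p => D < p ∧ p ≤ DB (2 * N) B) ((N : ℝ) ^ η₀) ((N : ℝ) ^ η₀) Tr t → |t| ≤ 2 →
    BlkAt θ δ ε₀ η α h Mo ε₁ r A E₁ D N v D₁ P Pt Tr := by
  obtain ⟨E₃, N₃, hFT⟩ := hFT3 k
  obtain ⟨m₁, hm₁⟩ := Pool.Agent.W494.UB.FT3.prods (18 * ((k : ℝ) + 2) ^ 2) (by positivity)
  refine ⟨E₃ + 3, ?_⟩
  intro ε₁ η₀ r A E₁ B D α hε₁ hε₁' hη₀ hr hr1 hr2 hη1 hη2 hB hD h𝒮 hα hDα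
  obtain ⟨η₁, hη₁, hR'⟩ := hR2 ε₁ hε₁ hε₁'
  obtain ⟨C, hC, hR⟩ := hR' D (by omega)
  obtain ⟨X₀, hX₀⟩ := hGAU (1 / 2) (by norm_num)
  have hT2 : Tendsto (fun N : ℕ => 2 * N) atTop atTop :=
    tendsto_atTop_mono (fun n => by show n ≤ 2 * n; omega) tendsto_id
  filter_upwards [hT2.eventually hm₁, Pool.Agent.W494.UB.FT3.tlog 10,
    Pool.Agent.W494.UB.FT3.tlog (D + 1),
    grow 0 (ε₀ / 20) ((WW D / 2 : ℕ) : ℝ) (by positivity),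
    grow (2 * E₁ + E₃) (η / 2) 1 (by positivity),
    grow (A + (2 * E₁ + m₁ + E₃ + 5)) η₁ (2 * 1 ^ 2 * C) hη₁, grow B ε₁ 1 hε₁,
    eventually_ge_atTop N₃, eventually_ge_atTop X₀, eventually_ge_atTop 16]
    with N hprod hl10 hlD hgW hgY hgE hgB hN3 hNX hN16
  intro h Mo hMoN hnd v D₁ P Pt Tr t hD₁ hP hTr ht D0 Z c j j' th th' b hZ hD0 hZD hjj' hc hcR hth
    hth' halt halt' hb hbD hFc
  obtain ⟨X, hX⟩ : ∃ X : ℕ, X = 2 * N := ⟨_, rfl⟩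
  rw [← hX] at hZ hZD
  obtain ⟨hW1, hWo, hWs, hWp⟩ := ww_facts D (by omega)
  have hN0 : (16 : ℝ) ≤ N := by exact_mod_cast hN16
  have hTN : ((2 * N : ℕ) : ℝ) = 2 * N := by push_cast; ring
  have hT1 : (1 : ℝ) ≤ ((2 * N : ℕ) : ℝ) := by rw [hTN]; linarith
  have hT0 : (0 : ℝ) < ((2 * N : ℕ) : ℝ) := by linarith
  have hl : Real.log N ≤ Real.log ((2 * N : ℕ) : ℝ) :=
    Real.log_le_log (by linarith) (by rw [hTN]; linarith)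
  have hl2 : 10 ≤ Real.log ((2 * N : ℕ) : ℝ) := hl10.trans hl
  have hl1 : 1 ≤ Real.log ((2 * N : ℕ) : ℝ) := by linarith
  have hl0 : 0 < Real.log ((2 * N : ℕ) : ℝ) := by linarith
  -- the end of the presieve
  have hDB1 : (Real.log ((2 * N : ℕ) : ℝ)) ^ B ≤ (DB (2 * N) B : ℝ) + 1 := by
    have h1 : (Real.log ((2 * N : ℕ) : ℝ)) ^ B ≤ (⌈(Real.log ((2 * N : ℕ) : ℝ)) ^ B⌉₊ : ℝ) :=
      Nat.le_ceil _
    have h2 : ⌈(Real.log ((2 * N : ℕ) : ℝ)) ^ B⌉₊ ≤ DB (2 * N) B + 1 := by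
      unfold DB
      omega
    have h3 : (⌈(Real.log ((2 * N : ℕ) : ℝ)) ^ B⌉₊ : ℝ) ≤ (DB (2 * N) B : ℝ) + 1 := by
      exact_mod_cast h2
    linarith
  have hlB : Real.log ((2 * N : ℕ) : ℝ) ≤ (Real.log ((2 * N : ℕ) : ℝ)) ^ B :=
    le_self_pow₀ hl1 (by omega)
  have hDB2 : (DB (2 * N) B : ℝ) ≤ (Real.log ((2 * N : ℕ) : ℝ)) ^ B := by
    have h1 : (⌈(Real.log ((2 * N : ℕ) : ℝ)) ^ B⌉₊ : ℝ) < (Real.log ((2 * N : ℕ) : ℝ)) ^ B + 1 :=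
      Nat.ceil_lt_add_one (by positivity)
    have h2 : DB (2 * N) B + 1 = ⌈(Real.log ((2 * N : ℕ) : ℝ)) ^ B⌉₊ := by
      have h3 : 0 < ⌈(Real.log ((2 * N : ℕ) : ℝ)) ^ B⌉₊ := Nat.ceil_pos.2 (by positivity)
      unfold DB
      omega
    have h4 : ((DB (2 * N) B : ℕ) : ℝ) + 1 = (⌈(Real.log ((2 * N : ℕ) : ℝ)) ^ B⌉₊ : ℝ) := by
      exact_mod_cast h2
    linarith
  have hDDB : D ≤ DB (2 * N) B := by
    have h1 : ((D + 1 : ℕ) : ℝ) ≤ (⌈(Real.log ((2 * N : ℕ) : ℝ)) ^ B⌉₊ : ℝ) := by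
      rw [Nat.cast_add, Nat.cast_one]
      exact (hlD.trans (hl.trans hlB)).trans (Nat.le_ceil _)
    have h2 : D + 1 ≤ ⌈(Real.log ((2 * N : ℕ) : ℝ)) ^ B⌉₊ := by exact_mod_cast h1
    unfold DB
    omega
  -- the primes
  have hpN : ∀ p ∈ P ∪ Pt, p ≤ 2 * N := by
    intro p hp
    have h1 := (hP p hp).2.2
    have h2 : ((2 * N : ℕ) : ℝ) ^ ε₁ ≤ ((2 * N : ℕ) : ℝ) := by
      calc ((2 * N : ℕ) : ℝ) ^ ε₁ ≤ ((2 * N : ℕ) : ℝ) ^ (1 : ℝ) :=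
            Real.rpow_le_rpow_of_exponent_le hT1 hε₁'
        _ = _ := Real.rpow_one _
    exact_mod_cast h1.trans h2
  have hD₁' : (D₁ : ℝ) ≤ ((2 * N : ℕ) : ℝ) ^ η₀ := by
    rw [hD₁]
    exact Nat.floor_le (Real.rpow_nonneg hT0.le _)
  have hD₁N : D₁ ≤ 2 * N := by
    have h2 : ((2 * N : ℕ) : ℝ) ^ η₀ ≤ ((2 * N : ℕ) : ℝ) := by
      calc ((2 * N : ℕ) : ℝ) ^ η₀ ≤ ((2 * N : ℕ) : ℝ) ^ (1 : ℝ) :=
            Real.rpow_le_rpow_of_exponent_le hT1 (by linarith)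
        _ = _ := Real.rpow_one _
    exact_mod_cast hD₁'.trans h2
  -- the expandable part
  obtain ⟨m3, hEx3, hm3⟩ := hFT (2 * N) (by omega) (uB α) (wB h Mo) P Pt c (some j) (some j')
    (r * Real.log N) ((Real.log N) ^ E₁) ((DB (2 * N) B : ℝ) + 1) D₁ th th'
    (by simpa using hjj') (by linarith)
    (fun p hp => ⟨(hP p hp).1, by exact_mod_cast (hP p hp).2.1, by exact_mod_cast hpN p hp⟩)
    (one_le_pow₀ (by linarith)) hD₁N hc hcR hth hth' halt halt'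
  have hExW := hEXM.2.2.2.1 (fun p => p ≤ D) (WW D / 2) (v : ℤ) hW1 hWo hWs hWp
  have hEx1 := hEXM.1 _ _ _ _ _ _ _ _ _ _ hExW hTr (fun p h1 h2 => absurd h1 (by omega))
    (Nat.cast_nonneg _) (Real.rpow_nonneg (by linarith) _)
  have hEx2 := hEXM.1 _ _ _ _ _ _ _ _ _ _ hEx1 hEx3
    (fun p h1 h2 => by
      have h3 := (hP p h2).2.1
      rcases h1 with h1 | h1 <;> omega)
    (by positivity) (by positivity)
  -- sizes of the parts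
  have hg' : ((Real.log N) ^ E₁) ^ 2 ≤ (Real.log ((2 * N : ℕ) : ℝ)) ^ (2 * E₁) := by
    rw [← pow_mul, mul_comm E₁ 2]
    exact pow_le_pow_left₀ (by linarith) hl _
  have hH : |hat th D₁| ≤ Real.log ((2 * N : ℕ) : ℝ) * (1 + Real.log ((2 * N : ℕ) : ℝ)) :=
    sum_bd th _ D₁ (2 * N) hl0.le hth.bd hD₁N
  have hH' : |hat th' D₁| ≤ Real.log ((2 * N : ℕ) : ℝ) * (1 + Real.log ((2 * N : ℕ) : ℝ)) :=
    sum_bd th' _ D₁ (2 * N) hl0.le hth'.bd hD₁N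
  have hPp : ∀ p ∈ P, p.Prime := fun p hp => (hP p (Finset.mem_union_left _ hp)).1.1
  have hQ : |Q1f (prP P) c| ≤ ((Real.log N) ^ E₁) ^ 2 * (Real.log ((2 * N : ℕ) : ℝ)) ^ m₁ := by
    refine (Pool.Agent.W494.UB.FT3.q1f_le P c ((Real.log N) ^ E₁) hPp
      (pow_nonneg (by linarith) _) hc).trans ?_
    refine mul_le_mul_of_nonneg_left ?_ (sq_nonneg _)
    exact (Pool.Agent.W494.UB.FT3.prod9_le k P hPp).trans
      (hprod P fun p hp => ⟨hPp p hp, hpN p (Finset.mem_union_left _ hp)⟩)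
  have hW1R : (1 : ℝ) ≤ ((WW D / 2 : ℕ) : ℝ) := by exact_mod_cast hW1
  have hm0 : |1 / ((WW D / 2 : ℕ) : ℝ) * t * m3| ≤
      (Real.log ((2 * N : ℕ) : ℝ)) ^ (2 * E₁ + m₁ + E₃ + 5) :=
    mterm _ E₁ E₃ m₁ (((Real.log N) ^ E₁) ^ 2) (hat th D₁) (hat th' D₁) (Q1f (prP P) c) m3 t _
      ((DB (2 * N) B : ℝ) + 1) hl2 hg' hH hH' hQ hm3 (by linarith) ht hW1R
  have hpw := pw N D₁ η₀ r (by omega) hη₀ hr hD₁'
  -- the scale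
  have hX1 : ((2 * N : ℕ) : ℝ) ≤ (X : ℝ) := by rw [hX]
  have hX0 : (0 : ℝ) < X := by linarith
  have hX1' : (1 : ℝ) ≤ X := by linarith
  have hy : (X : ℝ) ^ ε₁ ≤ ((2 * N : ℕ) : ℝ) ^ ε₁ := by rw [hX]
  have hR0 : ((WW D / 2 : ℕ) : ℝ) * (N : ℝ) ^ η₀ * (Real.exp (2 * (r * Real.log N)) *
      (D₁ : ℝ) ^ 2) ≤ (X : ℝ) ^ (ε₀ / 10) := by
    rw [pow_zero, mul_one] at hgW
    calc ((WW D / 2 : ℕ) : ℝ) * (N : ℝ) ^ η₀ * (Real.exp (2 * (r * Real.log N)) * (D₁ : ℝ) ^ 2)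
        = ((WW D / 2 : ℕ) : ℝ) *
          ((N : ℝ) ^ η₀ * (Real.exp (2 * (r * Real.log N)) * (D₁ : ℝ) ^ 2)) := by ring
      _ ≤ ((2 * N : ℕ) : ℝ) ^ (ε₀ / 20) * ((2 * N : ℕ) : ℝ) ^ (3 * η₀ + 2 * r) :=
          mul_le_mul hgW hpw (by positivity) (Real.rpow_nonneg hT0.le _)
      _ = ((2 * N : ℕ) : ℝ) ^ (ε₀ / 20 + (3 * η₀ + 2 * r)) := (Real.rpow_add hT0 _ _).symm
      _ ≤ ((2 * N : ℕ) : ℝ) ^ (ε₀ / 10) :=
          Real.rpow_le_rpow_of_exponent_le hT1 (by linarith)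
      _ ≤ _ := Real.rpow_le_rpow hT0.le hX1 (by linarith)
  have ha0 : 0 < 1 / (Real.log ((2 * N : ℕ) : ℝ)) ^ (2 * E₁ + m₁ + E₃ + 5) := by positivity
  have ha1 : 1 / (Real.log ((2 * N : ℕ) : ℝ)) ^ (2 * E₁ + m₁ + E₃ + 5) ≤ 1 := by
    rw [div_le_one (by positivity)]
    exact one_le_pow₀ hl1
  have hY1 : 1 * (N : ℝ) ^ η₀ * ((Real.log (N : ℝ) ^ E₁) ^ 2 * Real.exp (2 * (r * Real.log N)) *
        (D₁ : ℝ) ^ 2 * (Real.log ((2 * N : ℕ) : ℝ)) ^ E₃) ≤ ((2 * N : ℕ) : ℝ) ^ η := by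
    rw [one_mul] at hgY
    calc 1 * (N : ℝ) ^ η₀ * ((Real.log (N : ℝ) ^ E₁) ^ 2 *
          Real.exp (2 * (r * Real.log N)) *
          (D₁ : ℝ) ^ 2 * (Real.log ((2 * N : ℕ) : ℝ)) ^ E₃)
        = ((Real.log (N : ℝ) ^ E₁) ^ 2 * (Real.log ((2 * N : ℕ) : ℝ)) ^ E₃) *
          ((N : ℝ) ^ η₀ * (Real.exp (2 * (r * Real.log N)) * (D₁ : ℝ) ^ 2)) := by ring
      _ ≤ ((Real.log ((2 * N : ℕ) : ℝ)) ^ (2 * E₁) * (Real.log ((2 * N : ℕ) : ℝ)) ^ E₃) *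
          ((2 * N : ℕ) : ℝ) ^ (3 * η₀ + 2 * r) :=
          mul_le_mul (mul_le_mul_of_nonneg_right hg' (by positivity)) hpw (by positivity)
            (by positivity)
      _ ≤ ((2 * N : ℕ) : ℝ) ^ (η / 2) * ((2 * N : ℕ) : ℝ) ^ (3 * η₀ + 2 * r) := by
          refine mul_le_mul_of_nonneg_right ?_ (Real.rpow_nonneg hT0.le _)
          rw [← pow_add]
          exact hgY
      _ = ((2 * N : ℕ) : ℝ) ^ (η / 2 + (3 * η₀ + 2 * r)) := (Real.rpow_add hT0 _ _).symm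
      _ ≤ ((2 * N : ℕ) : ℝ) ^ η := Real.rpow_le_rpow_of_exponent_le hT1 (by linarith)
  have hY0 : |1 / (Real.log ((2 * N : ℕ) : ℝ)) ^ (2 * E₁ + m₁ + E₃ + 5)| *
      (1 * (N : ℝ) ^ η₀ * ((Real.log (N : ℝ) ^ E₁) ^ 2 * Real.exp (2 * (r * Real.log N)) *
        (D₁ : ℝ) ^ 2 * (Real.log ((2 * N : ℕ) : ℝ)) ^ E₃)) ≤ (X : ℝ) ^ η := by
    rw [abs_of_pos ha0]
    rw [one_mul] at hgY
    have h0 : 0 ≤ 1 * (N : ℝ) ^ η₀ * ((Real.log (N : ℝ) ^ E₁) ^ 2 *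
        Real.exp (2 * (r * Real.log N)) *
        (D₁ : ℝ) ^ 2 * (Real.log ((2 * N : ℕ) : ℝ)) ^ E₃) := by positivity
    calc 1 / (Real.log ((2 * N : ℕ) : ℝ)) ^ (2 * E₁ + m₁ + E₃ + 5) *
      (1 * (N : ℝ) ^ η₀ * ((Real.log (N : ℝ) ^ E₁) ^ 2 * Real.exp (2 * (r * Real.log N)) *
        (D₁ : ℝ) ^ 2 * (Real.log ((2 * N : ℕ) : ℝ)) ^ E₃))
        ≤ 1 * (1 * (N : ℝ) ^ η₀ * ((Real.log (N : ℝ) ^ E₁) ^ 2 *
          Real.exp (2 * (r * Real.log N)) *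
          (D₁ : ℝ) ^ 2 * (Real.log ((2 * N : ℕ) : ℝ)) ^ E₃)) :=
          mul_le_mul_of_nonneg_right ha1 h0
      _ = ((Real.log (N : ℝ) ^ E₁) ^ 2 * (Real.log ((2 * N : ℕ) : ℝ)) ^ E₃) *
          ((N : ℝ) ^ η₀ * (Real.exp (2 * (r * Real.log N)) * (D₁ : ℝ) ^ 2)) := by ring
      _ ≤ ((Real.log ((2 * N : ℕ) : ℝ)) ^ (2 * E₁) * (Real.log ((2 * N : ℕ) : ℝ)) ^ E₃) *
          ((2 * N : ℕ) : ℝ) ^ (3 * η₀ + 2 * r) :=
          mul_le_mul (mul_le_mul_of_nonneg_right hg' (by positivity)) hpw (by positivity)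
            (by positivity)
      _ ≤ ((2 * N : ℕ) : ℝ) ^ (η / 2) * ((2 * N : ℕ) : ℝ) ^ (3 * η₀ + 2 * r) := by
          refine mul_le_mul_of_nonneg_right ?_ (Real.rpow_nonneg hT0.le _)
          rw [← pow_add]
          exact hgY
      _ = ((2 * N : ℕ) : ℝ) ^ (η / 2 + (3 * η₀ + 2 * r)) := (Real.rpow_add hT0 _ _).symm
      _ ≤ ((2 * N : ℕ) : ℝ) ^ η := Real.rpow_le_rpow_of_exponent_le hT1 (by linarith)
      _ ≤ _ := Real.rpow_le_rpow hT0.le hX1 hη.le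
  -- the roots
  have habs : ∀ i : Fin k, 4 * |((wB h Mo (some i) : ℤ) : ℝ)| ≤
      3 * |((uB α (some i) : ℤ) : ℝ)| * X := by
    intro i
    have h1 : 16 * |(wB h Mo (some i) : ℤ)| ≤ 21 * (N : ℤ) := hMoN i
    have h4 : 4 * |(wB h Mo (some i) : ℤ)| ≤ 6 * N := by omega
    have h5 : 4 * |((wB h Mo (some i) : ℤ) : ℝ)| ≤ 6 * N := by
      rw [← Int.cast_abs]
      exact_mod_cast h4
    have h6 : (1 : ℝ) ≤ |((uB α (some i) : ℤ) : ℝ)| := by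
      rw [← Int.cast_abs]
      have h7 : (1 : ℤ) ≤ |uB α (some i)| := Int.one_le_abs (hα i)
      exact_mod_cast h7
    calc 4 * |((wB h Mo (some i) : ℤ) : ℝ)| ≤ 6 * N := h5
      _ = 3 * 1 * ((2 * N : ℕ) : ℝ) := by rw [hTN]; ring
      _ ≤ 3 * |((uB α (some i) : ℤ) : ℝ)| * X := by gcongr
  have huU : ∀ i : Fin k, |uB α (some i)| ≤ (D : ℤ) := by
    intro i
    show |α i| ≤ (D : ℤ)
    rw [Int.abs_eq_natAbs]
    exact_mod_cast hDα i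
  have hne : uB α (some j') * wB h Mo (some j) - uB α (some j) * wB h Mo (some j') ≠ 0 :=
    hnd (some j') (some j) (by simpa using hjj'.symm)
  have hCL : ∀ p : ℕ, p.Prime → ((2 * N : ℕ) : ℝ) ^ ε₁ < (p : ℝ) →
      (p : ℤ) ∣ uB α (some j') * wB h Mo (some j) - uB α (some j) * wB h Mo (some j') →
      p ∈ CL (uB α) (wB h Mo) := by
    intro p hp _ hd
    exact mem_CL _ _ hnd p hp (some j') (some j) (by simpa using hjj'.symm) hd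
  -- the correlation theorem
  have hExa := hEXM.2.1 _ Unit {()}
    (fun _ => 1 / (Real.log ((2 * N : ℕ) : ℝ)) ^ (2 * E₁ + m₁ + E₃ + 5)) _ _ _ _
    (fun _ _ => hEx2)
  simp only [Finset.sum_singleton] at hExa
  rw [← hX] at hFc
  have hmain := hR X D0 Z (by omega) hZ hD0 hZD _
    (fun p => p ∈ CL (uB α) (wB h Mo)) _ _ (((2 * N : ℕ) : ℝ) ^ ε₁) _ _ hy ?_ hExa hR0 hY0 ?_
    (uB α (some j)) (wB h Mo (some j)) (uB α (some j')) (wB h Mo (some j')) (h𝒮 j) (h𝒮 j')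
    (hα j) (hα j')
    (huU j) (huU j') (habs j) (habs j') hne hCL _ _ hb hb hbD hbD hFc
  rotate_left
  · rintro p ((h1 | h1) | h1)
    · have h2 : (p : ℝ) ≤ (DB (2 * N) B : ℝ) := by exact_mod_cast h1.trans hDDB
      linarith
    · have h2 : (p : ℝ) ≤ (DB (2 * N) B : ℝ) := by exact_mod_cast h1.2
      linarith
    · exact (hP p h1).2.2
  · rw [abs_mul, abs_of_pos ha0, div_mul_eq_mul_div, one_mul, div_le_one (by positivity)]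
    exact hm0
  have hlE : (Real.log ((2 * N : ℕ) : ℝ)) ^ (2 * E₁ + m₁ + E₃ + 5) ≠ 0 := by positivity
  have key : ∀ n : ℤ, Wt X n * MsB α h Mo D v D₁ Z P Tr c j j' th th' b b n =
      ((Real.log ((2 * N : ℕ) : ℝ)) ^ (2 * E₁ + m₁ + E₃ + 5) * 1 ^ 2) * (Wt X n *
        (1 / (Real.log ((2 * N : ℕ) : ℝ)) ^ (2 * E₁ + m₁ + E₃ + 5) *
          ((if ((WW D / 2 : ℕ) : ℤ) ∣ n - (v : ℤ) then 1 else 0) * Tr n *
            (FZ (uB α) (wB h Mo) P c n ^ 2 *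
              (Ev th D₁ (uB α (some j) * n + wB h Mo (some j)) *
                Ev th' D₁ (uB α (some j') * n + wB h Mo (some j'))))) *
          (dc b Z (uB α (some j) * n + wB h Mo (some j)) *
            (dc b Z (uB α (some j') * n + wB h Mo (some j')))))) := by
    intro n
    unfold MsB
    unfold Lf
    field_simp
  have hsumW : Summable (fun n : ℤ => Wt X n) := by
    have hone := hEXM.2.2.2.1 (fun _ => True) 1 0 le_rfl odd_one squarefree_one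
      (fun _ _ _ => trivial)
    have h1 : ((1 : ℕ) : ℝ) ≤ (X : ℝ) ^ (1 - 1 / 2 : ℝ) := by
      rw [Nat.cast_one]
      exact Real.one_le_rpow hX1' (by norm_num)
    have hsW := (hX₀ X (by have := hNX; omega) _ _ _ _ _ hone h1).1
    simpa using hsW
  have hbd : ∃ Y : ℝ, 0 ≤ Y ∧ ∀ n : ℤ, |((if ((WW D / 2 : ℕ) : ℤ) ∣ n - (v : ℤ) then 1 else 0) *
      Tr n) * (FZ (uB α) (wB h Mo) P c n ^ 2 *
        (Ev th D₁ (Lf α h Mo (some j) n) * Ev th' D₁ (Lf α h Mo (some j') n)))| ≤ Y :=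
    ⟨_, (abs_nonneg _).trans (ex_bd hEx2 0), fun n => ex_bd hEx2 n⟩
  have hsup : ∀ n : ℤ, |((if ((WW D / 2 : ℕ) : ℤ) ∣ n - (v : ℤ) then 1 else 0) *
      Tr n) * (FZ (uB α) (wB h Mo) P c n ^ 2 *
        (Ev th D₁ (Lf α h Mo (some j) n) * Ev th' D₁ (Lf α h Mo (some j') n)))| ≤
      ((2 * N : ℕ) : ℝ) ^ η := fun n => (ex_bd hEx2 n).trans hY1
  obtain ⟨Y, hY, hYb⟩ := hbd
  refine and_assoc.1 ⟨?_, hsup⟩
  rw [← hX]
  constructor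
  · refine Summable.of_norm_bounded (g := fun n => Y * ((∑ d ∈ Icc 1 Z, |b d|) *
      ∑ d ∈ Icc 1 Z, |b d|) * Wt X n) (hsumW.mul_left _) (fun n => ?_)
    have h2 := dc_bd b Z (Lf α h Mo (some j) n)
    have h3 := dc_bd b Z (Lf α h Mo (some j') n)
    have h4 : 0 ≤ Wt X n := (Real.exp_pos _).le
    have h5 : 0 ≤ ∑ d ∈ Icc 1 Z, |b d| := Finset.sum_nonneg fun _ _ => abs_nonneg _
    rw [Real.norm_eq_abs, abs_mul, abs_of_nonneg h4, mul_comm]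
    refine mul_le_mul_of_nonneg_right ?_ h4
    unfold MsB
    rw [abs_mul, abs_mul (dc _ _ _)]
    exact mul_le_mul (hYb n) (mul_le_mul h2 h3 (abs_nonneg _) h5)
      (mul_nonneg (abs_nonneg _) (abs_nonneg _)) hY
  · rw [tsum_congr key, tsum_mul_left]
    have herr := err_bd X (Real.log ((2 * N : ℕ) : ℝ)) 1 C η₁ A (2 * E₁ + m₁ + E₃ + 5) hX0 hl0
      (hgE.trans (Real.rpow_le_rpow hT0.le hX1 hη₁.le))
    have hc0 : 0 ≤ (Real.log ((2 * N : ℕ) : ℝ)) ^ (2 * E₁ + m₁ + E₃ + 5) * (1 : ℝ) ^ 2 := by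
      positivity
    have h1 := mul_le_mul_of_nonneg_left hmain hc0
    rw [← abs_of_nonneg hc0, ← abs_mul, abs_of_nonneg hc0] at h1
    refine h1.trans (herr.trans ?_)
    refine div_le_div_of_nonneg_left hX0.le (pow_pos (by linarith) _) ?_
    calc (Real.log N) ^ A ≤ (Real.log ((2 * N : ℕ) : ℝ)) ^ A :=
          pow_le_pow_left₀ (by linarith) hl _
      _ ≤ 2 * (Real.log ((2 * N : ℕ) : ℝ)) ^ A := by
          have : 0 ≤ (Real.log ((2 * N : ℕ) : ℝ)) ^ A := by positivity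
          linarith

end Pool.Agent.Y827.LS
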