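import Mathlib
import Pool.Agent.Y827.LS.MasB
import Pool.Agent.TH899.UG.Stm
import Pool.Agent.W804.UBUD
import Pool.Agent.W140.UBU2
import Pool.Agent.W25.UB.Stm5
import Pool.Agent.W25.UB.Bes

/-! Project LS: second moments of one block, general linear forms. -/

set_option autoImplicit false

namespace Pool.Agent.Y827.LS

open Finset Filter Topology
open Pool.Agent.H410R2 hiding GP GP_prof GP_cut_some GP_cut_none GP_lip gg_pos gg_le_one gg_anti ee_bound ee_nonneg gg_lip LB_gg LB_ee Sums exists_sums yx wx wxi Br sum_GP_none sum_GP_some sum_GP_some_ee sum_GP_some_one sum_GPr_none sum_GPr_some S1_final QI_final S2_final w_abs_le wmax gg ee I1 I2 IE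
open Pool.Agent.H361R2.GM
open Pool.Agent.H362R2.CM
open Pool.Agent.W25.UN
open Pool.Agent.W25.UB
open Pool.Agent.TH899.UG
open Pool.Agent.W804.UBUD
open Pool.Agent.H442R2.KF (Wt)
open Pool.Agent.W23.PL (DW Ev hat xx)

/-- comparison of the Gaussian weights -/
theorem Wt_24 (N : ℕ) (hN : 1 ≤ N) (n : ℤ) :
    Wt (2 * N) n * (1 + |(n : ℝ)| / ((2 * N : ℕ) : ℝ)) ^ (1 / 2 : ℝ) ≤ 2 * Wt (4 * N) n := by
  have hN0 : (0 : ℝ) < ((2 * N : ℕ) : ℝ) := by exact_mod_cast (by omega : 0 < 2 * N)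
  set x : ℝ := |(n : ℝ)| / ((2 * N : ℕ) : ℝ) with hx
  have hx0 : 0 ≤ x := by positivity
  have e1 : Wt (2 * N) n = Real.exp (-Real.pi * x ^ 2) := by
    unfold Wt
    rw [hx, div_pow, div_pow, sq_abs]
  have e2 : Wt (4 * N) n = Real.exp (-Real.pi * (x / 2) ^ 2) := by
    unfold Wt
    congr 2
    have h1 : ((4 * N : ℕ) : ℝ) = 2 * ((2 * N : ℕ) : ℝ) := by push_cast; ring
    rw [h1, hx, div_pow, div_pow, div_pow, sq_abs, mul_pow]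
    field_simp
  rw [e1, e2]
  have h1 : (1 + x) ^ (1 / 2 : ℝ) ≤ Real.exp x := by
    calc (1 + x) ^ (1 / 2 : ℝ) ≤ (1 + x) ^ (1 : ℝ) :=
          Real.rpow_le_rpow_of_exponent_le (by linarith) (by norm_num)
      _ = x + 1 := by rw [Real.rpow_one]; ring
      _ ≤ Real.exp x := Real.add_one_le_exp x
  have h2 : Real.exp (1 / 9) ≤ 2 := by
    have h3 := Real.add_one_le_exp (-(1 / 9) : ℝ)
    have h4 : Real.exp (1 / 9) * Real.exp (-(1 / 9)) = 1 := by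
      rw [← Real.exp_add]; simp
    have h5 := Real.exp_pos (1 / 9 : ℝ)
    nlinarith
  calc Real.exp (-Real.pi * x ^ 2) * (1 + x) ^ (1 / 2 : ℝ)
      ≤ Real.exp (-Real.pi * x ^ 2) * Real.exp x :=
        mul_le_mul_of_nonneg_left h1 (Real.exp_pos _).le
    _ = Real.exp (-Real.pi * x ^ 2 + x) := by rw [Real.exp_add]
    _ ≤ Real.exp (1 / 9 + -Real.pi * (x / 2) ^ 2) := by
        apply Real.exp_le_exp.2
        have h3 := Real.pi_gt_three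
        nlinarith [sq_nonneg (x - 2 / 9), sq_nonneg x]
    _ = Real.exp (1 / 9) * Real.exp (-Real.pi * (x / 2) ^ 2) := by rw [Real.exp_add]
    _ ≤ 2 * Real.exp (-Real.pi * (x / 2) ^ 2) :=
        mul_le_mul_of_nonneg_right h2 (Real.exp_pos _).le

section
variable {k : ℕ} {Q : SPar} {α h : Fin k → ℤ} {ε₁ ρ ρ₁ ε : ℝ} {Mo A E₁ D B N v D₁ : ℕ}
  {Tr : ℤ → ℝ} {t : ℝ} {th dl : ℕ → ℝ}

/-- the data without a large sieve -/
abbrev DatB (Q : SPar) (α h : Fin k → ℤ) (Mo : ℕ) (ε₁ ρ ρ₁ ε : ℝ) (A E₁ D B N v D₁ : ℕ)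
    (Tr : ℤ → ℝ) (t : ℝ) (th dl : ℕ → ℝ) : Prop :=
  DatF Q α h Mo (-2) ε₁ ρ ρ₁ ε 1 1 A E₁ D B N v D₁ 1 Tr t th dl dlt

/-- the indicator of the absence of small prime factors -/
noncomputable def FF (α h : Fin k → ℤ) (Mo : ℕ) (ε₁ : ℝ) (B N : ℕ) (j : Fin k) (n : ℤ) : ℝ :=
  xx (PtF α h Mo N B ε₁) (Lf α h Mo (some j) n)

theorem sjF_dlt (α h : Fin k → ℤ) (Mo : ℕ) (ε₁ : ℝ) (B N : ℕ) (j : Fin k) (n : ℤ) :
    sjF α h Mo ε₁ B N 1 dlt j n = FF α h Mo ε₁ B N j n := by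
  unfold sjF FF
  rw [one_pow, triv_ds 1 le_rfl, mul_one]

/-- the density times `b` -/
noncomputable def gB (α h : Fin k → ℤ) (Mo N B : ℕ) (ε₁ ρ : ℝ) : ℝ :=
  vGF α h Mo N B 1 ε₁ * bb N B ρ

theorem GG_one (d : DatB Q α h Mo ε₁ ρ ρ₁ ε A E₁ D B N v D₁ Tr t th dl) :
    GG (PbF α h Mo N 1 ε₁) 1 = 1 := by
  have h1 := d.bs
  rw [one_pow, triv_sum 1 le_rfl] at h1
  have h2 := d.G1
  have h3 : GG (PbF α h Mo N 1 ε₁) 1 ≠ 0 := by linarith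
  rw [eq_div_iff h3, one_mul] at h1
  exact h1

theorem vG_eq (d : DatB Q α h Mo ε₁ ρ ρ₁ ε A E₁ D B N v D₁ Tr t th dl) :
    vGF α h Mo N B 1 ε₁ = Pool.Agent.W23.PL.VV (PtF α h Mo N B ε₁) := by
  unfold vGF
  rw [GG_one d, div_one]

theorem FF_cases (α h : Fin k → ℤ) (Mo : ℕ) (ε₁ : ℝ) (B N : ℕ) (j : Fin k) (n : ℤ) :
    FF α h Mo ε₁ B N j n = 0 ∨ (FF α h Mo ε₁ B N j n = 1 ∧
      ∀ p ∈ PtF α h Mo N B ε₁, ¬ (p : ℤ) ∣ Lf α h Mo (some j) n) := xx_cases _ _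

theorem FF_nonneg (α h : Fin k → ℤ) (Mo : ℕ) (ε₁ : ℝ) (B N : ℕ) (j : Fin k) (n : ℤ) :
    0 ≤ FF α h Mo ε₁ B N j n := by
  rcases FF_cases α h Mo ε₁ B N j n with h1 | h1
  · rw [h1]
  · rw [h1.1]; exact zero_le_one

theorem one4 (N : ℕ) (hN : 8 ≤ N) (x : ℝ) (hx : x = 1 / 2 + (-2) / 4) :
    ((1 : ℕ) : ℝ) ≤ ((4 * N : ℕ) : ℝ) ^ x := by
  rw [hx]
  norm_num

/-- first moment with an additional factor -/
theorem E1 (hNWU : St_NWU) (hNWE : St_NWE)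
    (d : DatB Q α h Mo ε₁ ρ ρ₁ ε A E₁ D B N v D₁ Tr t th dl) (hI1 : 0 < Q.I1) (hI2 : 0 < Q.I2)
    {i j : Fin k} (hij : i ≠ j) (g : ℤ → ℝ) (hg0 : ∀ n, 0 ≤ g n) (G : ℝ) (hG : 1 ≤ G)
    (hg : ∀ n : ℤ, Lf α h Mo (some j) n ≠ 0 → Wt (2 * N) n * g n ≤ G * Wt (4 * N) n) :
    Summable (fun n => muF Q α h Mo ρ ρ₁ D B N v Tr i n * (FF α h Mo ε₁ B N j n * g n)) ∧
    ∑' n : ℤ, muF Q α h Mo ρ ρ₁ D B N v Tr i n * (FF α h Mo ε₁ B N j n * g n) ≤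
      2 * G * (MMF α h Mo D N B ρ * gB α h Mo N B ε₁ ρ * udc Q k ε₁ ε) := by
  have hk := d.k3
  obtain ⟨l, hil, hjl⟩ := exists_third hk i j
  have hN : (8 : ℝ) ≤ (N : ℝ) := by exact_mod_cast d.N8
  have hl0 : 0 < Real.log N := by linarith [d.l1]
  have hL : 0 < ρ * Real.log N := mul_pos d.ρ0 hl0
  have hPp : ∀ p ∈ PBF α h Mo N B ρ₁, p.Prime := fun p hp =>
    (d.gd p (mem_union_left _ hp)).1.1
  obtain ⟨_, hB, _, hsz, hQ⟩ := hNWU k Q (PBF α h Mo N B ρ₁) (ρ * Real.log N) i j l hij hil hjl hL hPp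
  obtain ⟨_, ⟨hQ0, hQ1⟩, _⟩ := hQ (DB (2 * N) B) ε (bb N B ρ) (LZ (uB α) (wB h Mo)) d.sd d.ε0 d.ε3
    hI1 hI2 d.bd0 rfl d.sums
  obtain ⟨hne, _⟩ := hNWE k (uB α) (wB h Mo) (PBF α h Mo N B ρ₁) (fun p hp => (hPp p hp).two_le)
  set P := PBF α h Mo N B ρ₁ with hPdef
  set PT := PtF α h Mo N B ε₁ with hPTdef
  set zb := zB Q k P (ρ * Real.log N) i j with hzb
  set cB := cw (prP P) zb with hcB
  have hc0 : ∀ σ, cB σ ≠ 0 → zb σ ≠ 0 := by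
    intro σ hσ h0
    apply hσ
    rw [hcB]
    unfold cw
    rw [h0, mul_zero]
  have hlog2 : 1 ≤ Real.log (2 * N : ℕ) := by
    refine d.l1.trans (Real.log_le_log (by linarith) ?_)
    push_cast
    linarith
  obtain ⟨hsum, hbd⟩ := d.mas (4 * N) 1 cB j i th dlt dlt dlt (Or.inr rfl)
    (one4 N d.N8 _ rfl) hij.symm
    (fun σ => by
      refine cw_bd P hPp zb σ _ ?_
      exact ((hsz σ).2.1).trans d.size)
    (fun σ hσ => by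
      have h1 := (hB σ (hc0 σ hσ)).1
      linarith)
    d.dth (triv_DW PT D₁ d.D1 _ hlog2)
    (Or.inr fun σ hσ => (hB σ (hc0 σ hσ)).2)
    (Or.inl fun e he => dlt_ne he)
    (triv_RCM _ _ _ le_rfl 1 d.M1) (triv_RCM _ _ _ le_rfl 1 d.M1)
  -- pointwise
  have hMs : ∀ n : ℤ, Ms α h Mo D v D₁ 1 P Tr cB j i th dlt dlt dlt n =
      ((if ((WW D / 2 : ℕ) : ℤ) ∣ n - v then 1 else 0) * Tr n) *
        (FZ (uB α) (wB h Mo) P cB n ^ 2 * Ev th D₁ (Lf α h Mo (some j) n)) := by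
    intro n
    unfold Ms
    rw [triv_Ev D₁ d.D1, triv_ds 1 le_rfl, triv_ds 1 le_rfl, mul_one, mul_one, mul_one]
  have hWt : ∀ (X : ℕ) (n : ℤ), 0 ≤ Wt X n := fun X n => (Real.exp_pos _).le
  have hind : ∀ n : ℤ, (0 : ℝ) ≤ (if ((WW D / 2 : ℕ) : ℤ) ∣ n - v then (1 : ℝ) else 0) * Tr n := by
    intro n
    refine mul_nonneg ?_ (d.Tr0 n)
    split_ifs
    · exact zero_le_one
    · exact le_rfl
  have hxx0 : ∀ m : ℤ, 0 ≤ xx PT m := by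
    intro m
    rcases xx_cases PT m with h1 | h1
    · rw [h1]
    · rw [h1.1]; exact zero_le_one
  have hEv0 : ∀ m : ℤ, 0 ≤ Ev th D₁ m := fun m => (hxx0 m).trans (d.fl m).1
  have hMs0 : ∀ n : ℤ, 0 ≤ Ms α h Mo D v D₁ 1 P Tr cB j i th dlt dlt dlt n := by
    intro n
    rw [hMs n]
    exact mul_nonneg (hind n) (mul_nonneg (sq_nonneg _) (hEv0 _))
  have hG0 : 0 ≤ G := by linarith
  have hmu0 : ∀ n : ℤ, 0 ≤ muF Q α h Mo ρ ρ₁ D B N v Tr i n := by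
    intro n
    unfold muF
    exact mul_nonneg (hWt _ _) (mul_nonneg (hind n) (sq_nonneg _))
  have hle : ∀ n : ℤ, muF Q α h Mo ρ ρ₁ D B N v Tr i n * (FF α h Mo ε₁ B N j n * g n) ≤
      G * (Wt (4 * N) n * Ms α h Mo D v D₁ 1 P Tr cB j i th dlt dlt dlt n) := by
    intro n
    have hR : 0 ≤ G * (Wt (4 * N) n * Ms α h Mo D v D₁ 1 P Tr cB j i th dlt dlt dlt n) :=
      mul_nonneg hG0 (mul_nonneg (hWt _ _) (hMs0 n))
    rcases FF_cases α h Mo ε₁ B N j n with h1 | ⟨h1, h2⟩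
    · rw [h1]
      simpa using hR
    · have hLn : Lf α h Mo (some j) n ≠ 0 := by
        intro h0
        obtain ⟨p, hp⟩ := d.ne
        refine h2 p hp ?_
        rw [h0]
        exact dvd_zero _
      have h4 : FZ (uB α) (wB h Mo) P cB n =
          FZ (uB α) (wB h Mo) P (cw (prP P) (zA Q k P (ρ * Real.log N) i)) n := by
        rw [hcB, hzb]
        unfold zB
        exact hne (some j) 0 (zA Q k P (ρ * Real.log N) i) n le_rfl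
          (fun p hp => h2 p (d.sub hp))
      have h5 : 1 ≤ Ev th D₁ (Lf α h Mo (some j) n) := by
        have h6 := (d.fl (Lf α h Mo (some j) n)).1
        have h7 : xx (PtF α h Mo N B ε₁) (Lf α h Mo (some j) n) = 1 := h1
        rw [h7] at h6
        exact h6
      rw [h1, one_mul, hMs n, h4]
      unfold muF
      rw [← hPdef]
      have h6 := hg n hLn
      have h7 := hg0 n
      have h8 := hind n
      have h9 := sq_nonneg (FZ (uB α) (wB h Mo) P (cw (prP P) (zA Q k P (ρ * Real.log N) i)) n)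
      generalize FZ (uB α) (wB h Mo) P (cw (prP P) (zA Q k P (ρ * Real.log N) i)) n ^ 2 = f at h9 ⊢
      generalize (if ((WW D / 2 : ℕ) : ℤ) ∣ n - v then (1 : ℝ) else 0) * Tr n = g' at h8 ⊢
      generalize Ev th D₁ (Lf α h Mo (some j) n) = e at h5 ⊢
      generalize g n = s at h6 h7 ⊢
      have h10 := hWt (4 * N) n
      generalize Wt (4 * N) n = w4 at h6 h10 ⊢
      generalize Wt (2 * N) n = w2 at h6 ⊢
      have h11 : 0 ≤ g' * f := by positivity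
      calc w2 * (g' * f) * s = (w2 * s) * (g' * f) := by ring
        _ ≤ (G * w4) * (g' * f) := mul_le_mul_of_nonneg_right h6 h11
        _ = (G * w4 * (g' * f)) * 1 := by ring
        _ ≤ (G * w4 * (g' * f)) * e := mul_le_mul_of_nonneg_left h5 (by positivity)
        _ = G * (w4 * (g' * (f * e))) := by ring
  have hnn : ∀ n : ℤ, 0 ≤ muF Q α h Mo ρ ρ₁ D B N v Tr i n * (FF α h Mo ε₁ B N j n * g n) :=
    fun n => mul_nonneg (hmu0 n) (mul_nonneg (FF_nonneg _ _ _ _ _ _ _ _) (hg0 n))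
  have hsC := hsum.mul_left G
  have hsumm := Summable.of_nonneg_of_le hnn hle hsC
  refine ⟨hsumm, ?_⟩
  have h1 := hsumm.tsum_le_tsum hle hsC
  rw [tsum_mul_left] at h1
  refine h1.trans ?_
  have hW1 : (1 : ℝ) ≤ ((WW D / 2 : ℕ) : ℝ) := by exact_mod_cast d.W2
  unfold Mm at hbd
  rw [triv_hat D₁ d.D1, triv_sum 1 le_rfl] at hbd
  unfold gB udc
  refine calc1 ((2 * N : ℕ) : ℝ) (Pool.Agent.W25.UN.VV α h Mo D (DB (2 * N) B))
    ((WW D / 2 : ℕ) : ℝ) (bb N B ρ) (Pool.Agent.W23.PL.VV (PtF α h Mo N B ε₁))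
    1 (Q1f (prP P) cB) (((4 * N : ℕ) : ℝ) / (Real.log N) ^ A)
    Q.I1 Q.I2 ε (ε₁ ^ 3) G _ (MMF α h Mo D N B ρ) (vGF α h Mo N B 1 ε₁) t
    (hat th D₁) ((4 * N : ℕ) : ℝ) k (by omega) ?_ (by positivity) (by linarith)
    d.Vp d.b1 d.V0 d.V1 le_rfl d.ε0 d.ε3 ?_ ?_ hI1 hI2 hG (by rw [vG_eq d, div_one]) rfl hQ0 hQ1
    d.t1 d.hth d.small ?_
  · push_cast
    ring
  · have := d.e10
    positivity
  · exact pow_le_one₀ d.e10.le (by linarith [d.e11])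
  · rw [div_one]
    exact hbd

/-- the mixed moment of two small sieves, weights of the double scale -/
theorem E2 (hNWU : St_NWU)
    (d : DatB Q α h Mo ε₁ ρ ρ₁ ε A E₁ D B N v D₁ Tr t th dl) (hI1 : 0 < Q.I1) (hI2 : 0 < Q.I2)
    {i j l : Fin k} (hij : i ≠ j) (hil : i ≠ l) (hjl : j ≠ l) (th₁ th₂ : ℕ → ℝ)
    (h₁ : DW (PtF α h Mo N B ε₁) D₁ (Real.log (2 * N : ℕ)) th₁)
    (h₂ : DW (PtF α h Mo N B ε₁) D₁ (Real.log (2 * N : ℕ)) th₂) (κ : ℝ) (hκ : 0 ≤ κ)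
    (hh : |hat th₁ D₁ * hat th₂ D₁| ≤ κ * Pool.Agent.W23.PL.VV (PtF α h Mo N B ε₁) ^ 2) :
    Summable (fun n : ℤ => Wt (4 * N) n * (((if ((WW D / 2 : ℕ) : ℤ) ∣ n - v then 1 else 0) *
      Tr n) * (FZ (uB α) (wB h Mo) (PBF α h Mo N B ρ₁) (cw (prP (PBF α h Mo N B ρ₁))
        (zC Q k (PBF α h Mo N B ρ₁) (ρ * Real.log N) i j l)) n ^ 2 *
      (Ev th₁ D₁ (Lf α h Mo (some j) n) * Ev th₂ D₁ (Lf α h Mo (some l) n))))) ∧
    ∑' n : ℤ, Wt (4 * N) n * (((if ((WW D / 2 : ℕ) : ℤ) ∣ n - v then 1 else 0) *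
      Tr n) * (FZ (uB α) (wB h Mo) (PBF α h Mo N B ρ₁) (cw (prP (PBF α h Mo N B ρ₁))
        (zC Q k (PBF α h Mo N B ρ₁) (ρ * Real.log N) i j l)) n ^ 2 *
      (Ev th₁ D₁ (Lf α h Mo (some j) n) * Ev th₂ D₁ (Lf α h Mo (some l) n)))) ≤
      2 * κ * (MMF α h Mo D N B ρ * gB α h Mo N B ε₁ ρ ^ 2 * u2c Q k ε₁ ε) +
        ((4 * N : ℕ) : ℝ) / (Real.log N) ^ A := by
  have hlog : 0 < Real.log N := lt_of_lt_of_le one_pos d.l1
  have hL : 0 < ρ * Real.log N := mul_pos d.ρ0 hlog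
  have hPp : ∀ p ∈ PBF α h Mo N B ρ₁, p.Prime := fun p hp =>
    (d.gd p (Finset.mem_union_left _ hp)).1.1
  obtain ⟨-, -, hC, hsz, hQ⟩ := hNWU k Q (PBF α h Mo N B ρ₁) (ρ * Real.log N) i j l hij hil hjl hL hPp
  obtain ⟨-, -, hQ0, hQ1⟩ := hQ (DB (2 * N) B) ε (bb N B ρ) (LZ (uB α) (wB h Mo)) d.sd d.ε0
    d.ε3 hI1 hI2 d.bd0 rfl d.sums
  obtain ⟨hsum, hmas⟩ := d.mas (4 * N) 1 (cw (prP (PBF α h Mo N B ρ₁))
      (zC Q k (PBF α h Mo N B ρ₁) (ρ * Real.log N) i j l)) j l th₁ th₂ dlt dlt (Or.inr rfl)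
    (one4 N d.N8 _ rfl) hjl
    (fun σ => Pool.Agent.W140.UBU2.cw_bound _ hPp _ _ σ ((hsz σ).2.2.trans d.size))
    (fun σ hσ => by
      have := (hC σ (Pool.Agent.W140.UBU2.cw_ne _ _ σ hσ)).1
      rw [mul_assoc]; exact this)
    h₁ h₂ (Or.inr fun σ hσ => (hC σ (Pool.Agent.W140.UBU2.cw_ne _ _ σ hσ)).2.1)
    (Or.inr fun σ hσ => (hC σ (Pool.Agent.W140.UBU2.cw_ne _ _ σ hσ)).2.2)
    (triv_RCM _ _ _ le_rfl 1 d.M1) (triv_RCM _ _ _ le_rfl 1 d.M1)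
  have hMs : (fun n : ℤ => Wt (4 * N) n * Ms α h Mo D v D₁ 1 (PBF α h Mo N B ρ₁) Tr
      (cw (prP (PBF α h Mo N B ρ₁)) (zC Q k (PBF α h Mo N B ρ₁) (ρ * Real.log N) i j l)) j l
      th₁ th₂ dlt dlt n) = fun n : ℤ => Wt (4 * N) n *
      (((if ((WW D / 2 : ℕ) : ℤ) ∣ n - v then 1 else 0) *
      Tr n) * (FZ (uB α) (wB h Mo) (PBF α h Mo N B ρ₁) (cw (prP (PBF α h Mo N B ρ₁))
        (zC Q k (PBF α h Mo N B ρ₁) (ρ * Real.log N) i j l)) n ^ 2 *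
      (Ev th₁ D₁ (Lf α h Mo (some j) n) * Ev th₂ D₁ (Lf α h Mo (some l) n)))) := by
    funext n
    unfold Ms
    rw [triv_ds 1 le_rfl, triv_ds 1 le_rfl, mul_one, mul_one]
  rw [hMs] at hsum hmas
  refine ⟨hsum, ?_⟩
  have h2 := (abs_le.1 hmas).2
  set V := Pool.Agent.W23.PL.VV (PtF α h Mo N B ε₁) with hV
  have hV0 : 0 < V := d.V0
  have hb : 0 < bb N B ρ := lt_of_lt_of_le one_pos d.b1
  have ht := abs_le.1 d.t1
  have hW' : (0 : ℝ) < ((WW D / 2 : ℕ) : ℝ) := by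
    have := d.W2
    exact_mod_cast this
  have ht0 : 0 ≤ t := by
    have h3 := d.ε3
    have h4 := d.Vp
    nlinarith [ht.1]
  have hm := Pool.Agent.W140.UBU2.main_ineq k d.k3 Q.I1 Q.I2 ε ε₁ (bb N B ρ)
    (Pool.Agent.W25.UN.VV α h Mo D (DB (2 * N) B)) ((WW D / 2 : ℕ) : ℝ)
    V 1 ((2 * N : ℕ) : ℝ) t
    (Q1f (prP (PBF α h Mo N B ρ₁)) (cw (prP (PBF α h Mo N B ρ₁))
      (zC Q k (PBF α h Mo N B ρ₁) (ρ * Real.log N) i j l))) V hb d.Vp hW'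
    hV0 one_pos (Nat.cast_nonneg _) d.ε3 d.ε0 (by linarith [ht.2]) ht0
    (by rw [sub_self, abs_zero]; have := d.e10; positivity) d.e10 d.e11 hQ0 hI1 hI2 hQ1
  set Qf := Q1f (prP (PBF α h Mo N B ρ₁)) (cw (prP (PBF α h Mo N B ρ₁))
      (zC Q k (PBF α h Mo N B ρ₁) (ρ * Real.log N) i j l)) with hQf
  have hMM : 0 < MMF α h Mo D N B ρ := by
    unfold MMF
    have hN : (0 : ℝ) < ((2 * N : ℕ) : ℝ) := by
      have := d.N8
      have h3 : 0 < 2 * N := by omega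
      exact_mod_cast h3
    have := d.Vp
    positivity
  have hgB : V / 1 * bb N B ρ = gB α h Mo N B ε₁ ρ := by
    unfold gB
    rw [vG_eq d, div_one]
  have hMMe : ((2 * N : ℕ) : ℝ) * (Pool.Agent.W25.UN.VV α h Mo D (DB (2 * N) B) /
      ((WW D / 2 : ℕ) : ℝ) * (bb N B ρ / 48 * bb N B ρ ^ k)) = MMF α h Mo D N B ρ := rfl
  rw [hgB, hMMe] at hm
  have hm2 : ((2 * N : ℕ) : ℝ) * (t / ((WW D / 2 : ℕ) : ℝ) * (V * V * Qf)) ≤
      MMF α h Mo D N B ρ * gB α h Mo N B ε₁ ρ ^ 2 * u2c Q k ε₁ ε := by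
    have e1 : ((2 * N : ℕ) : ℝ) * (t / ((WW D / 2 : ℕ) : ℝ) * (V * V * Qf)) =
        ((2 * N : ℕ) : ℝ) * (t / ((WW D / 2 : ℕ) : ℝ) * (V * V * Qf) * (1 / 1 * (1 / 1))) := by
      norm_num
    rw [e1]
    refine hm.trans ?_
    apply mul_le_mul_of_nonneg_left _ (by positivity)
    unfold u2c
    have := d.ε0
    linarith
  have hMmle : ((4 * N : ℕ) : ℝ) * Mm D D₁ 1 (PBF α h Mo N B ρ₁) t (cw (prP (PBF α h Mo N B ρ₁))
      (zC Q k (PBF α h Mo N B ρ₁) (ρ * Real.log N) i j l)) th₁ th₂ dlt dlt ≤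
      2 * κ * (MMF α h Mo D N B ρ * gB α h Mo N B ε₁ ρ ^ 2 * u2c Q k ε₁ ε) := by
    unfold Mm
    rw [triv_sum 1 le_rfl, ← hQf, mul_one, mul_one]
    have e4 : ((4 * N : ℕ) : ℝ) = 2 * ((2 * N : ℕ) : ℝ) := by push_cast; ring
    rw [e4]
    have h5 : hat th₁ D₁ * hat th₂ D₁ ≤ κ * V ^ 2 := (le_abs_self _).trans hh
    have h6 : t / ((WW D / 2 : ℕ) : ℝ) * (hat th₁ D₁ * hat th₂ D₁ * Qf) ≤
        t / ((WW D / 2 : ℕ) : ℝ) * (κ * V ^ 2 * Qf) := by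
      apply mul_le_mul_of_nonneg_left _ (by positivity)
      exact mul_le_mul_of_nonneg_right h5 hQ0
    calc 2 * ((2 * N : ℕ) : ℝ) * (t / ((WW D / 2 : ℕ) : ℝ) * (hat th₁ D₁ * hat th₂ D₁ * Qf))
        ≤ 2 * ((2 * N : ℕ) : ℝ) * (t / ((WW D / 2 : ℕ) : ℝ) * (κ * V ^ 2 * Qf)) :=
          mul_le_mul_of_nonneg_left h6 (by positivity)
      _ = 2 * κ * (((2 * N : ℕ) : ℝ) * (t / ((WW D / 2 : ℕ) : ℝ) * (V * V * Qf))) := by ring
      _ ≤ 2 * κ * (MMF α h Mo D N B ρ * gB α h Mo N B ε₁ ρ ^ 2 * u2c Q k ε₁ ε) :=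
          mul_le_mul_of_nonneg_left hm2 (by positivity)
  linarith

end

end Pool.Agent.Y827.LS
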