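import Mathlib
import Pool.Agent.Y827.LS.BlkE

/-! Project LS: the mixed second moments of one block. -/

set_option autoImplicit false

namespace Pool.Agent.Y827.LS

open Finset Filter Topology
open Pool.Agent.H410R2 hiding GP GP_prof GP_cut_some GP_cut_none GP_lip gg_pos gg_le_one gg_anti ee_bound ee_nonneg gg_lip LB_gg LB_ee Sums exists_sums yx wx wxi Br sum_GP_none sum_GP_some sum_GP_some_ee sum_GP_some_one sum_GPr_none sum_GPr_some S1_final QI_final S2_final w_abs_le wmax gg ee I1 I2 IE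
open Pool.Agent.H361R2.GM
open Pool.Agent.H362R2.CM
open Pool.Agent.W25.UN
open Pool.Agent.W25.UB
open Pool.Agent.TH899.UG
open Pool.Agent.W804.UBUD
open Pool.Agent.H442R2.KF (Wt)
open Pool.Agent.W23.PL (DW Ev hat xx)

/-- the bad point of one form -/
theorem bad_sum (u w : ℤ) (hu : u ≠ 0) (Bd : ℝ) (hBd : 0 ≤ Bd) :
    Summable (fun n : ℤ => if u * n + w = 0 then Bd else 0) ∧
      ∑' n : ℤ, (if u * n + w = 0 then Bd else 0) ≤ Bd := by
  by_cases h : ∃ n₀ : ℤ, u * n₀ + w = 0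
  · obtain ⟨n₀, h0⟩ := h
    have e : (fun n : ℤ => if u * n + w = 0 then Bd else 0) =
        fun n : ℤ => if n = n₀ then Bd else 0 := by
      funext n
      by_cases hn : n = n₀
      · rw [hn, if_pos h0, if_pos rfl]
      · rw [if_neg hn, if_neg]
        intro h1
        apply hn
        have h2 : u * (n - n₀) = 0 := by linarith
        rcases mul_eq_zero.1 h2 with h3 | h3
        · exact absurd h3 hu
        · linarith
    rw [e]
    have h1 := hasSum_ite_eq n₀ Bd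
    exact ⟨h1.summable, h1.tsum_eq.le⟩
  · have e : (fun n : ℤ => if u * n + w = 0 then Bd else 0) = fun _ : ℤ => (0 : ℝ) := by
      funext n
      rw [if_neg]
      intro h1
      exact h ⟨n, h1⟩
    rw [e]
    exact ⟨summable_zero, by rw [tsum_zero]; exact hBd⟩

/-- comparison of a product with the product of the majorants -/
theorem prod_cmp (Tj Tl Fj Fl Dj Dl : ℝ) (h1 : 0 ≤ Fj) (h2 : 0 ≤ Fl) (h3 : Fj ≤ Tj) (h4 : Fl ≤ Tl)
    (h5 : Tj - Fj ≤ Dj) (h6 : Tl - Fl ≤ Dl) :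
    0 ≤ Tj * Tl - Fj * Fl ∧ Tj * Tl - Fj * Fl ≤ Dj * Tl + Tj * Dl ∧
      Tj * Tl - Fj * Fl ≤ Tj * Tl := by
  have h7 : 0 ≤ Tj := h1.trans h3
  have h8 : 0 ≤ Tl := h2.trans h4
  refine ⟨?_, ?_, ?_⟩
  · have := mul_le_mul h3 h4 h2 h7
    linarith
  · have e : Tj * Tl - Fj * Fl = (Tj - Fj) * Tl + Fj * (Tl - Fl) := by ring
    rw [e]
    apply add_le_add
    · exact mul_le_mul_of_nonneg_right h5 h8
    · exact mul_le_mul h3 h6 (by linarith) h7
  · have := mul_nonneg h1 h2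
    linarith

section
variable {k : ℕ} {Q : SPar} {α h : Fin k → ℤ} {ε₁ ρ ρ₁ ε : ℝ} {Mo A E₁ D B N v D₁ : ℕ}
  {Tr : ℤ → ℝ} {t : ℝ} {th dl : ℕ → ℝ}

/-- the block data at `N` for the coefficients `c` up to `Z` -/
structure BlkC (α h : Fin k → ℤ) (Mo : ℕ) (ε₁ ρ ρ₁ θ η CR : ℝ) (A E₁ D B N v D₁ : ℕ)
    (Tr : ℤ → ℝ) (Z : ℕ) (c : ℕ → ℝ) : Prop where
  bd : ∀ d, |c d| ≤ 1
  Zle : (Z : ℝ) ≤ ((2 * N : ℕ) : ℝ) ^ θ
  rb : ∀ (j : Fin k) (n : ℤ), Lf α h Mo (some j) n ≠ 0 → |dc c Z (Lf α h Mo (some j) n)| ≤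
    CR * (1 + |(n : ℝ)| / ((2 * N : ℕ) : ℝ)) ^ (1 / 4 : ℝ)
  bk : ∀ (cc : (IP (PBF α h Mo N B ρ₁) → Option (Option (Fin k))) → ℝ) (j j' : Fin k)
    (th th' : ℕ → ℝ), j ≠ j' →
    (∀ σ, |cc σ| ≤ (Real.log N) ^ E₁ *
      mulc (prP (PBF α h Mo N B ρ₁)) (fun p => 1 / ((p : ℝ) - 1)) σ) →
    (∀ σ, cc σ ≠ 0 → lgt (prP (PBF α h Mo N B ρ₁)) σ ≤ 3 * ρ * Real.log N) →
    DW (PtF α h Mo N B ε₁) D₁ (Real.log (2 * N : ℕ)) th →
    DW (PtF α h Mo N B ε₁) D₁ (Real.log (2 * N : ℕ)) th' →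
    ((∀ e, e ≠ 1 → th e = 0) ∨ ∀ σ, cc σ ≠ 0 → ∀ t, σ t ≠ some (some j)) →
    ((∀ e, e ≠ 1 → th' e = 0) ∨ ∀ σ, cc σ ≠ 0 → ∀ t, σ t ≠ some (some j')) →
    Summable (fun n : ℤ => Wt (2 * N) n *
      MsB α h Mo D v D₁ Z (PBF α h Mo N B ρ₁) Tr cc j j' th th' c c n) ∧
    |∑' n : ℤ, Wt (2 * N) n * MsB α h Mo D v D₁ Z (PBF α h Mo N B ρ₁) Tr cc j j' th th' c c n| ≤
      ((2 * N : ℕ) : ℝ) / (Real.log N) ^ A ∧
    ∀ n : ℤ, |((if ((WW D / 2 : ℕ) : ℤ) ∣ n - v then 1 else 0) * Tr n) *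
      (FZ (uB α) (wB h Mo) (PBF α h Mo N B ρ₁) cc n ^ 2 * (Ev th D₁ (Lf α h Mo (some j) n) *
        Ev th' D₁ (Lf α h Mo (some j') n)))| ≤ ((2 * N : ℕ) : ℝ) ^ η

theorem quarter_sq (x : ℝ) (hx : 0 ≤ x) : (x ^ (1 / 4 : ℝ)) * (x ^ (1 / 4 : ℝ)) =
    x ^ (1 / 2 : ℝ) := by
  rw [← Real.rpow_add_of_nonneg hx (by norm_num) (by norm_num)]
  norm_num

/-- the mixed moment of one block -/
theorem E3 (hNWU : St_NWU) (hNWE : St_NWE)
    (d : DatB Q α h Mo ε₁ ρ ρ₁ ε A E₁ D B N v D₁ Tr t th dl) (hI1 : 0 < Q.I1) (hI2 : 0 < Q.I2)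
    (hHB : HB h Mo N) (hnd : Nd α h Mo) {θ η CR κ : ℝ} (hCR : 1 ≤ CR) (hκ : 0 ≤ κ)
    (hdl : |hat dl D₁| ≤ κ * Pool.Agent.W23.PL.VV (PtF α h Mo N B ε₁))
    {Z : ℕ} {c : ℕ → ℝ} (b : BlkC α h Mo ε₁ ρ ρ₁ θ η CR A E₁ D B N v D₁ Tr Z c)
    (hbig : 4 * CR * ((2 * N : ℕ) : ℝ) ^ (η + θ) ≤ ((2 * N : ℕ) : ℝ) / (Real.log N) ^ A)
    {i j l : Fin k} (hij : i ≠ j) (hil : i ≠ l) (hjl : j ≠ l) :
    Summable (fun n => muF Q α h Mo ρ ρ₁ D B N v Tr i n *
      ((FF α h Mo ε₁ B N j n * dc c Z (Lf α h Mo (some j) n)) *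
        (FF α h Mo ε₁ B N l n * dc c Z (Lf α h Mo (some l) n)))) ∧
    ∑' n : ℤ, muF Q α h Mo ρ ρ₁ D B N v Tr i n *
      ((FF α h Mo ε₁ B N j n * dc c Z (Lf α h Mo (some j) n)) *
        (FF α h Mo ε₁ B N l n * dc c Z (Lf α h Mo (some l) n))) ≤
      MMF α h Mo D N B ρ * gB α h Mo N B ε₁ ρ ^ 2 *
        (16 * CR ^ 2 * κ * u2c Q k ε₁ ε + (4 * CR ^ 2 + 1) * ε) := by
  have hlog : 0 < Real.log N := lt_of_lt_of_le one_pos d.l1
  have hL : 0 < ρ * Real.log N := mul_pos d.ρ0 hlog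
  have hPp : ∀ p ∈ PBF α h Mo N B ρ₁, p.Prime := fun p hp =>
    (d.gd p (Finset.mem_union_left _ hp)).1.1
  obtain ⟨-, -, hC, hsz, -⟩ := hNWU k Q (PBF α h Mo N B ρ₁) (ρ * Real.log N) i j l hij hil hjl hL hPp
  obtain ⟨hE, -⟩ := hNWE k (uB α) (wB h Mo) (PBF α h Mo N B ρ₁) (fun p hp => (hPp p hp).two_le)
  set P := PBF α h Mo N B ρ₁ with hP
  set cC := cw (prP P) (zC Q k P (ρ * Real.log N) i j l) with hcC
  set V := Pool.Agent.W23.PL.VV (PtF α h Mo N B ε₁) with hV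
  have hV0 : 0 < V := d.V0
  have hFZ : ∀ n : ℤ, (∀ p ∈ PtF α h Mo N B ε₁, ¬ (p : ℤ) ∣ Lf α h Mo (some j) n) →
      (∀ p ∈ PtF α h Mo N B ε₁, ¬ (p : ℤ) ∣ Lf α h Mo (some l) n) →
      FZ (uB α) (wB h Mo) P cC n =
      FZ (uB α) (wB h Mo) P (cw (prP P) (zA Q k P (ρ * Real.log N) i)) n := by
    intro n h1 h2
    have e1 := hE (some j) 0 (zA Q k P (ρ * Real.log N) i) n le_rfl (fun p hp => h1 p (d.sub hp))
    have e2 := hE (some l) 0 (zB Q k P (ρ * Real.log N) i j) n le_rfl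
      (fun p hp => h2 p (d.sub hp))
    exact e2.trans e1
  obtain ⟨hsum1, hb1, hsup⟩ := b.bk cC j l th th hjl
    (fun σ => Pool.Agent.W140.UBU2.cw_bound _ hPp _ _ σ ((hsz σ).2.2.trans d.size))
    (fun σ hσ => by
      have := (hC σ (Pool.Agent.W140.UBU2.cw_ne _ _ σ hσ)).1
      rw [mul_assoc]; exact this)
    d.dth d.dth (Or.inr fun σ hσ => (hC σ (Pool.Agent.W140.UBU2.cw_ne _ _ σ hσ)).2.1)
    (Or.inr fun σ hσ => (hC σ (Pool.Agent.W140.UBU2.cw_ne _ _ σ hσ)).2.2)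
  -- the hats
  have hth : |hat th D₁| ≤ 2 * V := by
    have h1 := abs_le.1 d.hth
    have h2 : ε₁ ^ 3 * V ≤ V := by
      have : ε₁ ^ 3 ≤ 1 := pow_le_one₀ d.e10.le (by linarith [d.e11])
      nlinarith
    rw [abs_le]
    constructor <;> linarith [h1.1, h1.2]
  have hhat1 : |hat dl D₁ * hat th D₁| ≤ (2 * κ) * V ^ 2 := by
    rw [abs_mul]
    calc |hat dl D₁| * |hat th D₁| ≤ (κ * V) * (2 * V) :=
          mul_le_mul hdl hth (abs_nonneg _) (by positivity)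
      _ = _ := by ring
  have hhat2 : |hat th D₁ * hat dl D₁| ≤ (2 * κ) * V ^ 2 := by rw [mul_comm]; exact hhat1
  obtain ⟨hs2, hb2⟩ := E2 hNWU d hI1 hI2 hij hil hjl dl th d.ddl d.dth (2 * κ) (by positivity) hhat1
  obtain ⟨hs3, hb3⟩ := E2 hNWU d hI1 hI2 hij hil hjl th dl d.dth d.ddl (2 * κ) (by positivity) hhat2
  rw [← hP, ← hcC] at hs2 hb2 hs3 hb3
  -- the bad points
  set Bd : ℝ := 2 * CR * ((2 * N : ℕ) : ℝ) ^ (η + θ) with hBd
  have hN0 : (0 : ℝ) < ((2 * N : ℕ) : ℝ) := by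
    have := d.N8
    exact_mod_cast (by omega : 0 < 2 * N)
  have hBd0 : 0 ≤ Bd := by positivity
  have hN1 : 1 ≤ N := by have := d.N8; omega
  obtain ⟨hsj, hbj⟩ := bad_sum (uB α (some j)) (wB h Mo (some j)) (d.α1 j) Bd hBd0
  obtain ⟨hsl, hbl⟩ := bad_sum (uB α (some l)) (wB h Mo (some l)) (d.α1 l) Bd hBd0
  -- pointwise facts
  have hind : ∀ n : ℤ, (0 : ℝ) ≤ (if ((WW D / 2 : ℕ) : ℤ) ∣ n - v then (1 : ℝ) else 0) * Tr n := by
    intro n
    refine mul_nonneg ?_ (d.Tr0 n)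
    split_ifs
    · exact zero_le_one
    · exact le_rfl
  have hfl : ∀ m : ℤ, 0 ≤ xx (PtF α h Mo N B ε₁) m := by
    intro m
    rcases xx_cases (PtF α h Mo N B ε₁) m with h1 | h1
    · rw [h1]
    · rw [h1.1]; exact zero_le_one
  have hT0 : ∀ m : ℤ, 0 ≤ Ev th D₁ m := fun m => (hfl m).trans (d.fl m).1
  have hD0 : ∀ m : ℤ, 0 ≤ Ev dl D₁ m := fun m => by
    have := (d.fl m).1
    have := (d.fl m).2
    linarith
  have hW0 : ∀ (X : ℕ) (n : ℤ), 0 ≤ Wt X n := fun X n => (Real.exp_pos _).le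
  have hW1 : ∀ (X : ℕ) (n : ℤ), Wt X n ≤ 1 := by
    intro X n
    unfold Wt
    rw [Real.exp_le_one_iff]
    have := Real.pi_pos
    have := sq_nonneg ((n : ℝ) / X)
    nlinarith
  -- a root of one form
  have hroot : ∀ (j l : Fin k) (n : ℤ), j ≠ l → Lf α h Mo (some j) n = 0 →
      |dc c Z (Lf α h Mo (some j) n) * dc c Z (Lf α h Mo (some l) n)| ≤
        2 * CR * ((2 * N : ℕ) : ℝ) ^ θ := by
    intro j l n hjl h0
    have h0' : uB α (some j) * n + wB h Mo (some j) = 0 := h0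
    have hl0 : Lf α h Mo (some l) n ≠ 0 := by
      intro h1
      have h1' : uB α (some l) * n + wB h Mo (some l) = 0 := h1
      apply hnd (some j) (some l) (by simpa using hjl)
      have e1 : wB h Mo (some j) = -(uB α (some j) * n) := by linarith
      have e2 : wB h Mo (some l) = -(uB α (some l) * n) := by linarith
      rw [e1, e2]
      ring
    have hn : |(n : ℝ)| ≤ ((2 * N : ℕ) : ℝ) := by
      have h2 : |n| ≤ |wB h Mo (some j)| := by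
        have e1 : wB h Mo (some j) = -(uB α (some j) * n) := by linarith
        rw [e1, abs_neg, abs_mul]
        have h3 : 1 ≤ |uB α (some j)| := Int.one_le_abs (d.α1 j)
        nlinarith [abs_nonneg n]
      have h3 : 16 * |wB h Mo (some j)| ≤ 21 * (N : ℤ) := hHB j
      have h4 : |n| ≤ ((2 * N : ℕ) : ℤ) := by push_cast; omega
      have h5 : ((|n| : ℤ) : ℝ) ≤ (((2 * N : ℕ) : ℤ) : ℝ) := by exact_mod_cast h4
      rw [Int.cast_abs] at h5
      exact_mod_cast h5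
    have h3 := b.rb l n hl0
    have h4 : (1 + |(n : ℝ)| / ((2 * N : ℕ) : ℝ)) ^ (1 / 4 : ℝ) ≤ 2 := by
      have h5 : |(n : ℝ)| / ((2 * N : ℕ) : ℝ) ≤ 1 := by rw [div_le_one hN0]; exact hn
      have h6 : 0 ≤ |(n : ℝ)| / ((2 * N : ℕ) : ℝ) := by positivity
      calc (1 + |(n : ℝ)| / ((2 * N : ℕ) : ℝ)) ^ (1 / 4 : ℝ) ≤
            (1 + |(n : ℝ)| / ((2 * N : ℕ) : ℝ)) ^ (1 : ℝ) :=
            Real.rpow_le_rpow_of_exponent_le (by linarith) (by norm_num)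
        _ ≤ 2 := by rw [Real.rpow_one]; linarith
    have h5 : |dc c Z (Lf α h Mo (some j) n)| ≤ ((2 * N : ℕ) : ℝ) ^ θ := by
      refine (dc_bd c Z _).trans (le_trans ?_ b.Zle)
      calc ∑ d ∈ Icc 1 Z, |c d| ≤ ∑ _d ∈ Icc 1 Z, (1 : ℝ) := Finset.sum_le_sum fun d _ => b.bd d
        _ = Z := by rw [Finset.sum_const, Nat.card_Icc]; simp
    rw [abs_mul]
    calc |dc c Z (Lf α h Mo (some j) n)| * |dc c Z (Lf α h Mo (some l) n)|
        ≤ ((2 * N : ℕ) : ℝ) ^ θ * (CR * 2) := by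
          apply mul_le_mul h5 (h3.trans ?_) (abs_nonneg _) (by positivity)
          exact mul_le_mul_of_nonneg_left h4 (by linarith)
      _ = _ := by ring
  -- the difference
  set w : ℤ → ℝ := fun n => ((if ((WW D / 2 : ℕ) : ℤ) ∣ n - v then 1 else 0) * Tr n) *
    FZ (uB α) (wB h Mo) P cC n ^ 2 with hw
  have hw0 : ∀ n, 0 ≤ w n := fun n => mul_nonneg (hind n) (sq_nonneg _)
  set Tj : ℤ → ℝ := fun n => Ev th D₁ (Lf α h Mo (some j) n) with hTj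
  set Tl : ℤ → ℝ := fun n => Ev th D₁ (Lf α h Mo (some l) n) with hTl
  set Dj : ℤ → ℝ := fun n => Ev dl D₁ (Lf α h Mo (some j) n) with hDj
  set Dl : ℤ → ℝ := fun n => Ev dl D₁ (Lf α h Mo (some l) n) with hDl
  set Rj : ℤ → ℝ := fun n => dc c Z (Lf α h Mo (some j) n) with hRj
  set Rl : ℤ → ℝ := fun n => dc c Z (Lf α h Mo (some l) n) with hRl
  set Fj : ℤ → ℝ := fun n => FF α h Mo ε₁ B N j n with hFj
  set Fl : ℤ → ℝ := fun n => FF α h Mo ε₁ B N l n with hFl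
  have hcmp : ∀ n, 0 ≤ Tj n * Tl n - Fj n * Fl n ∧
      Tj n * Tl n - Fj n * Fl n ≤ Dj n * Tl n + Tj n * Dl n ∧
      Tj n * Tl n - Fj n * Fl n ≤ Tj n * Tl n := fun n =>
    prod_cmp _ _ _ _ _ _ (FF_nonneg _ _ _ _ _ _ _ _) (FF_nonneg _ _ _ _ _ _ _ _)
      (d.fl (Lf α h Mo (some j) n)).1 (d.fl (Lf α h Mo (some l) n)).1
      (d.fl (Lf α h Mo (some j) n)).2 (d.fl (Lf α h Mo (some l) n)).2
  set T : ℤ → ℝ := fun n => Wt (2 * N) n * (w n * (Tj n * Tl n - Fj n * Fl n) *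
    (Rj n * Rl n)) with hT
  set U : ℤ → ℝ := fun n => 2 * CR ^ 2 * (Wt (4 * N) n * (w n * (Dj n * Tl n))) +
    2 * CR ^ 2 * (Wt (4 * N) n * (w n * (Tj n * Dl n))) +
    ((if uB α (some j) * n + wB h Mo (some j) = 0 then Bd else 0) +
      (if uB α (some l) * n + wB h Mo (some l) = 0 then Bd else 0)) with hU
  have hs2' : Summable (fun n => Wt (4 * N) n * (w n * (Dj n * Tl n))) :=
    hs2.congr fun n => by simp only [hw, hDj, hTl]; ring
  have hs3' : Summable (fun n => Wt (4 * N) n * (w n * (Tj n * Dl n))) :=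
    hs3.congr fun n => by simp only [hw, hTj, hDl]; ring
  have hb2' : ∑' n, Wt (4 * N) n * (w n * (Dj n * Tl n)) ≤
      2 * (2 * κ) * (MMF α h Mo D N B ρ * gB α h Mo N B ε₁ ρ ^ 2 * u2c Q k ε₁ ε) +
        ((4 * N : ℕ) : ℝ) / (Real.log N) ^ A := by
    refine le_trans (le_of_eq (tsum_congr fun n => ?_)) hb2
    simp only [hw, hDj, hTl]; ring
  have hb3' : ∑' n, Wt (4 * N) n * (w n * (Tj n * Dl n)) ≤
      2 * (2 * κ) * (MMF α h Mo D N B ρ * gB α h Mo N B ε₁ ρ ^ 2 * u2c Q k ε₁ ε) +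
        ((4 * N : ℕ) : ℝ) / (Real.log N) ^ A := by
    refine le_trans (le_of_eq (tsum_congr fun n => ?_)) hb3
    simp only [hw, hTj, hDl]; ring
  have hUs : Summable U :=
    ((hs2'.mul_left _).add (hs3'.mul_left _)).add (hsj.add hsl)
  have hTU : ∀ n, |T n| ≤ U n := by
    intro n
    have hw0n := hw0 n
    obtain ⟨c1, c2, c3⟩ := hcmp n
    have hTj0 : 0 ≤ Tj n := hT0 _
    have hTl0 : 0 ≤ Tl n := hT0 _
    have hDj0 : 0 ≤ Dj n := hD0 _
    have hDl0 : 0 ≤ Dl n := hD0 _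
    have hW2 := hW0 (2 * N) n
    have hW4 := hW0 (4 * N) n
    have hp1 : 0 ≤ 2 * CR ^ 2 * (Wt (4 * N) n * (w n * (Dj n * Tl n))) := by positivity
    have hp2 : 0 ≤ 2 * CR ^ 2 * (Wt (4 * N) n * (w n * (Tj n * Dl n))) := by positivity
    have hi1 : 0 ≤ (if uB α (some j) * n + wB h Mo (some j) = 0 then Bd else 0) := by
      split_ifs
      · exact hBd0
      · exact le_rfl
    have hi2 : 0 ≤ (if uB α (some l) * n + wB h Mo (some l) = 0 then Bd else 0) := by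
      split_ifs
      · exact hBd0
      · exact le_rfl
    have hsupn : w n * (Tj n * Tl n) ≤ ((2 * N : ℕ) : ℝ) ^ η := by
      refine le_trans (le_of_eq ?_) ((le_abs_self _).trans (hsup n))
      simp only [hw, hTj, hTl]; ring
    have hbadcase : |Rj n * Rl n| ≤ 2 * CR * ((2 * N : ℕ) : ℝ) ^ θ → |T n| ≤ Bd := by
      intro hR
      have h1 : |w n * (Tj n * Tl n - Fj n * Fl n)| ≤ ((2 * N : ℕ) : ℝ) ^ η := by
        rw [abs_of_nonneg (mul_nonneg hw0n c1)]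
        exact (mul_le_mul_of_nonneg_left c3 hw0n).trans hsupn
      simp only [hT]
      rw [abs_mul, abs_of_nonneg hW2, abs_mul]
      calc Wt (2 * N) n * (|w n * (Tj n * Tl n - Fj n * Fl n)| * |Rj n * Rl n|)
          ≤ 1 * (((2 * N : ℕ) : ℝ) ^ η * (2 * CR * ((2 * N : ℕ) : ℝ) ^ θ)) := by
            apply mul_le_mul (hW1 _ _) _ (by positivity) zero_le_one
            exact mul_le_mul h1 hR (abs_nonneg _) (by positivity)
        _ = Bd := by
            rw [hBd, Real.rpow_add hN0]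
            ring
    by_cases hj0 : Lf α h Mo (some j) n = 0
    · have h1 := hbadcase (hroot j l n hjl hj0)
      have h2 : (if uB α (some j) * n + wB h Mo (some j) = 0 then Bd else 0) = Bd := if_pos hj0
      simp only [hU]
      rw [h2]
      linarith
    · by_cases hl0 : Lf α h Mo (some l) n = 0
      · have h1 := hbadcase (by rw [mul_comm]; exact hroot l j n hjl.symm hl0)
        have h2 : (if uB α (some l) * n + wB h Mo (some l) = 0 then Bd else 0) = Bd := if_pos hl0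
        simp only [hU]
        rw [h2]
        linarith
      · have h1 := b.rb j n hj0
        have h2 := b.rb l n hl0
        have hx0 : 0 ≤ 1 + |(n : ℝ)| / ((2 * N : ℕ) : ℝ) := by positivity
        have h3 : Wt (2 * N) n * |Rj n * Rl n| ≤ 2 * CR ^ 2 * Wt (4 * N) n := by
          rw [abs_mul]
          calc Wt (2 * N) n * (|Rj n| * |Rl n|) ≤ Wt (2 * N) n *
                ((CR * (1 + |(n : ℝ)| / ((2 * N : ℕ) : ℝ)) ^ (1 / 4 : ℝ)) *
                  (CR * (1 + |(n : ℝ)| / ((2 * N : ℕ) : ℝ)) ^ (1 / 4 : ℝ))) := by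
                apply mul_le_mul_of_nonneg_left _ hW2
                exact mul_le_mul h1 h2 (abs_nonneg _) (by positivity)
            _ = CR ^ 2 * (Wt (2 * N) n *
                ((1 + |(n : ℝ)| / ((2 * N : ℕ) : ℝ)) ^ (1 / 4 : ℝ) *
                  (1 + |(n : ℝ)| / ((2 * N : ℕ) : ℝ)) ^ (1 / 4 : ℝ))) := by ring
            _ = CR ^ 2 * (Wt (2 * N) n *
                (1 + |(n : ℝ)| / ((2 * N : ℕ) : ℝ)) ^ (1 / 2 : ℝ)) := by rw [quarter_sq _ hx0]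
            _ ≤ CR ^ 2 * (2 * Wt (4 * N) n) :=
                mul_le_mul_of_nonneg_left (Wt_24 N hN1 n) (by positivity)
            _ = _ := by ring
        simp only [hT, hU]
        rw [abs_mul, abs_of_nonneg hW2, abs_mul, abs_of_nonneg (mul_nonneg hw0n c1)]
        calc Wt (2 * N) n * (w n * (Tj n * Tl n - Fj n * Fl n) * |Rj n * Rl n|)
            = (w n * (Tj n * Tl n - Fj n * Fl n)) * (Wt (2 * N) n * |Rj n * Rl n|) := by ring
          _ ≤ (w n * (Dj n * Tl n + Tj n * Dl n)) * (2 * CR ^ 2 * Wt (4 * N) n) := by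
              apply mul_le_mul _ h3 (by positivity) (by positivity)
              exact mul_le_mul_of_nonneg_left c2 hw0n
          _ = 2 * CR ^ 2 * (Wt (4 * N) n * (w n * (Dj n * Tl n))) +
              2 * CR ^ 2 * (Wt (4 * N) n * (w n * (Tj n * Dl n))) := by ring
          _ ≤ _ := by linarith
  have hTs : Summable T := Summable.of_norm_bounded hUs (fun n => by
    rw [Real.norm_eq_abs]; exact hTU n)
  have hTb : |∑' n, T n| ≤ ∑' n, U n := by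
    rw [← Real.norm_eq_abs]
    exact tsum_of_norm_bounded hUs.hasSum (fun n => by rw [Real.norm_eq_abs]; exact hTU n)
  have hUb : ∑' n, U n ≤ 2 * CR ^ 2 * (2 * (2 * κ) * (MMF α h Mo D N B ρ *
      gB α h Mo N B ε₁ ρ ^ 2 * u2c Q k ε₁ ε) + ((4 * N : ℕ) : ℝ) / (Real.log N) ^ A) +
      2 * CR ^ 2 * (2 * (2 * κ) * (MMF α h Mo D N B ρ *
      gB α h Mo N B ε₁ ρ ^ 2 * u2c Q k ε₁ ε) + ((4 * N : ℕ) : ℝ) / (Real.log N) ^ A) +
      (Bd + Bd) := by
    have e1 : ∑' n, U n = (2 * CR ^ 2 * ∑' n, (Wt (4 * N) n * (w n * (Dj n * Tl n))) +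
        2 * CR ^ 2 * ∑' n, (Wt (4 * N) n * (w n * (Tj n * Dl n)))) +
        ((∑' n : ℤ, if uB α (some j) * n + wB h Mo (some j) = 0 then Bd else 0) +
        ∑' n : ℤ, if uB α (some l) * n + wB h Mo (some l) = 0 then Bd else 0) := by
      simp only [hU]
      rw [((hs2'.mul_left _).add (hs3'.mul_left _)).tsum_add (hsj.add hsl),
        (hs2'.mul_left _).tsum_add (hs3'.mul_left _), hsj.tsum_add hsl, tsum_mul_left,
        tsum_mul_left]
    rw [e1]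
    have hc0 : 0 ≤ 2 * CR ^ 2 := by positivity
    exact add_le_add (add_le_add (mul_le_mul_of_nonneg_left hb2' hc0)
      (mul_le_mul_of_nonneg_left hb3' hc0)) (add_le_add hbj hbl)
  -- the identity
  have key : ∀ n : ℤ, muF Q α h Mo ρ ρ₁ D B N v Tr i n * ((Fj n * Rj n) * (Fl n * Rl n)) =
      Wt (2 * N) n * MsB α h Mo D v D₁ Z P Tr cC j l th th c c n - T n := by
    intro n
    have e1 : muF Q α h Mo ρ ρ₁ D B N v Tr i n * ((Fj n * Rj n) * (Fl n * Rl n)) =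
        Wt (2 * N) n * (w n * (Fj n * Fl n) * (Rj n * Rl n)) := by
      rcases FF_cases α h Mo ε₁ B N j n with hx | ⟨hx, hx1⟩
      · have : Fj n = 0 := hx
        rw [this]; ring
      rcases FF_cases α h Mo ε₁ B N l n with hy | ⟨hy, hy1⟩
      · have : Fl n = 0 := hy
        rw [this]; ring
      unfold muF
      simp only [hw]
      rw [← hP, hFZ n hx1 hy1]
      ring
    rw [e1]
    unfold MsB
    simp only [hT, hw, hTj, hTl, hRj, hRl]
    ring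
  have hsm : Summable (fun n => muF Q α h Mo ρ ρ₁ D B N v Tr i n *
      ((Fj n * Rj n) * (Fl n * Rl n))) := by
    refine (hsum1.sub hTs).congr fun n => ?_
    exact (key n).symm
  refine ⟨hsm, ?_⟩
  have e2 : ∑' n, muF Q α h Mo ρ ρ₁ D B N v Tr i n * ((Fj n * Rj n) * (Fl n * Rl n)) =
      (∑' n, Wt (2 * N) n * MsB α h Mo D v D₁ Z P Tr cC j l th th c c n) - ∑' n, T n := by
    rw [tsum_congr key, hsum1.tsum_sub hTs]
  rw [e2]
  have h1 := (abs_le.1 hb1).2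
  have h2 := (abs_le.1 hTb).1
  have h3 : (∑' n, Wt (2 * N) n * MsB α h Mo D v D₁ Z P Tr cC j l th th c c n) - ∑' n, T n ≤
      ((2 * N : ℕ) : ℝ) / (Real.log N) ^ A + ∑' n, U n := by linarith
  refine h3.trans ?_
  -- the errors
  have hb : 0 < bb N B ρ := lt_of_lt_of_le one_pos d.b1
  have hMM : 0 < MMF α h Mo D N B ρ := by
    unfold MMF
    have := d.Vp
    have hW : (0 : ℝ) < ((WW D / 2 : ℕ) : ℝ) := by
      have := d.W2
      exact_mod_cast (by omega : 0 < WW D / 2)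
    positivity
  set m0 := MMF α h Mo D N B ρ with hm0
  set g := gB α h Mo N B ε₁ ρ with hg
  have herr : ((4 * N : ℕ) : ℝ) / (Real.log N) ^ A ≤ m0 * g ^ 2 * ε := by
    refine d.small.trans ?_
    have h4 : vGF α h Mo N B 1 ε₁ ^ 2 ≤ g ^ 2 := by
      rw [hg]
      unfold gB
      rw [mul_pow]
      refine le_mul_of_one_le_right (sq_nonneg _) ?_
      exact one_le_pow₀ d.b1
    calc ε * (m0 * vGF α h Mo N B 1 ε₁ ^ 2) ≤ ε * (m0 * g ^ 2) :=
          mul_le_mul_of_nonneg_left (mul_le_mul_of_nonneg_left h4 hMM.le) d.ε0.le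
      _ = _ := by ring
  have h42 : ((2 * N : ℕ) : ℝ) / (Real.log N) ^ A ≤
      ((4 * N : ℕ) : ℝ) / (Real.log N) ^ A / 2 := by
    rw [div_right_comm]
    apply div_le_div_of_nonneg_right _ (by positivity)
    push_cast
    linarith
  have hBd2 : Bd + Bd ≤ ((2 * N : ℕ) : ℝ) / (Real.log N) ^ A := by
    refine le_trans (le_of_eq ?_) hbig
    rw [hBd]; ring
  have h5 : 4 * CR ^ 2 * (((4 * N : ℕ) : ℝ) / (Real.log N) ^ A) ≤
      4 * CR ^ 2 * (m0 * g ^ 2 * ε) := mul_le_mul_of_nonneg_left herr (by positivity)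
  calc ((2 * N : ℕ) : ℝ) / (Real.log N) ^ A + ∑' n, U n
      ≤ ((2 * N : ℕ) : ℝ) / (Real.log N) ^ A + (2 * CR ^ 2 * (2 * (2 * κ) * (m0 *
      g ^ 2 * u2c Q k ε₁ ε) + ((4 * N : ℕ) : ℝ) / (Real.log N) ^ A) +
      2 * CR ^ 2 * (2 * (2 * κ) * (m0 *
      g ^ 2 * u2c Q k ε₁ ε) + ((4 * N : ℕ) : ℝ) / (Real.log N) ^ A) +
      (Bd + Bd)) := by linarith
    _ = (16 * CR ^ 2 * κ) * (m0 * g ^ 2 * u2c Q k ε₁ ε) +
        4 * CR ^ 2 * (((4 * N : ℕ) : ℝ) / (Real.log N) ^ A) +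
        (((2 * N : ℕ) : ℝ) / (Real.log N) ^ A + (Bd + Bd)) := by ring
    _ ≤ (16 * CR ^ 2 * κ) * (m0 * g ^ 2 * u2c Q k ε₁ ε) +
        4 * CR ^ 2 * (m0 * g ^ 2 * ε) + m0 * g ^ 2 * ε := by linarith
    _ = _ := by ring

end

end Pool.Agent.Y827.LS
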