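import Mathlib
import Pool.Agent.Y827.LS.BlkF
import Pool.Agent.TH899.UG.AsmA

/-! Project LS: the law of large numbers for one block. -/

set_option autoImplicit false

namespace Pool.Agent.Y827.LS

open Finset Filter Topology
open Pool.Agent.H410R2 hiding GP GP_prof GP_cut_some GP_cut_none GP_lip gg_pos gg_le_one gg_anti ee_bound ee_nonneg gg_lip LB_gg LB_ee Sums exists_sums yx wx wxi Br sum_GP_none sum_GP_some sum_GP_some_ee sum_GP_some_one sum_GPr_none sum_GPr_some S1_final QI_final S2_final w_abs_le wmax gg ee I1 I2 IE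
open Pool.Agent.H361R2.GM
open Pool.Agent.H362R2.CM
open Pool.Agent.W25.UN
open Pool.Agent.W25.UB
open Pool.Agent.TH899.UG
open Pool.Agent.W804.UBUD
open Pool.Agent.H442R2.KF (Wt)
open Pool.Agent.W23.PL (DW Ev hat xx)

section
variable {k : ℕ} {Q : SPar} {α h : Fin k → ℤ} {ε₁ ρ ρ₁ ε : ℝ} {Mo A E₁ D B N v D₁ : ℕ}
  {Tr : ℤ → ℝ} {t : ℝ} {th dl : ℕ → ℝ}

theorem MMF_pos (d : DatB Q α h Mo ε₁ ρ ρ₁ ε A E₁ D B N v D₁ Tr t th dl) :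
    0 < MMF α h Mo D N B ρ := by
  have hb : 0 < bb N B ρ := lt_of_lt_of_le one_pos d.b1
  unfold MMF
  have := d.Vp
  have hW : (0 : ℝ) < ((WW D / 2 : ℕ) : ℝ) := by
    have := d.W2
    exact_mod_cast (by omega : 0 < WW D / 2)
  have hN0 : (0 : ℝ) < ((2 * N : ℕ) : ℝ) := by
    have := d.N8
    exact_mod_cast (by omega : 0 < 2 * N)
  positivity

theorem gB_pos (d : DatB Q α h Mo ε₁ ρ ρ₁ ε A E₁ D B N v D₁ Tr t th dl) :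
    0 < gB α h Mo N B ε₁ ρ := by
  have hb : 0 < bb N B ρ := lt_of_lt_of_le one_pos d.b1
  unfold gB
  rw [vG_eq d]
  exact mul_pos d.V0 hb

theorem muF_nonneg (d : DatB Q α h Mo ε₁ ρ ρ₁ ε A E₁ D B N v D₁ Tr t th dl) (i : Fin k) (n : ℤ) :
    0 ≤ muF Q α h Mo ρ ρ₁ D B N v Tr i n := by
  unfold muF
  refine mul_nonneg (Real.exp_pos _).le (mul_nonneg (mul_nonneg ?_ (d.Tr0 n)) (sq_nonneg _))
  split_ifs
  · exact zero_le_one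
  · exact le_rfl

/-- the diagonal moment of one block -/
theorem E4 (hNWU : St_NWU) (hNWE : St_NWE)
    (d : DatB Q α h Mo ε₁ ρ ρ₁ ε A E₁ D B N v D₁ Tr t th dl) (hI1 : 0 < Q.I1) (hI2 : 0 < Q.I2)
    {θ η CR : ℝ} (hCR : 1 ≤ CR)
    {Z : ℕ} {c : ℕ → ℝ} (b : BlkC α h Mo ε₁ ρ ρ₁ θ η CR A E₁ D B N v D₁ Tr Z c)
    {i j : Fin k} (hij : i ≠ j) :
    Summable (fun n => muF Q α h Mo ρ ρ₁ D B N v Tr i n *
      (FF α h Mo ε₁ B N j n * dc c Z (Lf α h Mo (some j) n)) ^ 2) ∧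
    ∑' n : ℤ, muF Q α h Mo ρ ρ₁ D B N v Tr i n *
      (FF α h Mo ε₁ B N j n * dc c Z (Lf α h Mo (some j) n)) ^ 2 ≤
      4 * CR ^ 2 * (MMF α h Mo D N B ρ * gB α h Mo N B ε₁ ρ * udc Q k ε₁ ε) := by
  have hN1 : 1 ≤ N := by have := d.N8; omega
  obtain ⟨h1, h2⟩ := E1 hNWU hNWE d hI1 hI2 hij (fun n => dc c Z (Lf α h Mo (some j) n) ^ 2)
    (fun n => sq_nonneg _) (2 * CR ^ 2) (by nlinarith) (by
      intro n hn
      have h1 := b.rb j n hn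
      have hx0 : 0 ≤ 1 + |(n : ℝ)| / ((2 * N : ℕ) : ℝ) := by positivity
      have hW2 : 0 ≤ Wt (2 * N) n := (Real.exp_pos _).le
      calc Wt (2 * N) n * dc c Z (Lf α h Mo (some j) n) ^ 2
          = Wt (2 * N) n * (|dc c Z (Lf α h Mo (some j) n)| *
              |dc c Z (Lf α h Mo (some j) n)|) := by rw [abs_mul_abs_self, ← _root_.sq]
        _ ≤ Wt (2 * N) n * ((CR * (1 + |(n : ℝ)| / ((2 * N : ℕ) : ℝ)) ^ (1 / 4 : ℝ)) *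
              (CR * (1 + |(n : ℝ)| / ((2 * N : ℕ) : ℝ)) ^ (1 / 4 : ℝ))) := by
            apply mul_le_mul_of_nonneg_left _ hW2
            exact mul_le_mul h1 h1 (abs_nonneg _) (by positivity)
        _ = CR ^ 2 * (Wt (2 * N) n *
            ((1 + |(n : ℝ)| / ((2 * N : ℕ) : ℝ)) ^ (1 / 4 : ℝ) *
              (1 + |(n : ℝ)| / ((2 * N : ℕ) : ℝ)) ^ (1 / 4 : ℝ))) := by ring
        _ = CR ^ 2 * (Wt (2 * N) n *
            (1 + |(n : ℝ)| / ((2 * N : ℕ) : ℝ)) ^ (1 / 2 : ℝ)) := by rw [quarter_sq _ hx0]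
        _ ≤ CR ^ 2 * (2 * Wt (4 * N) n) :=
            mul_le_mul_of_nonneg_left (Wt_24 N hN1 n) (by positivity)
        _ = 2 * CR ^ 2 * Wt (4 * N) n := by ring)
  have e : ∀ n : ℤ, muF Q α h Mo ρ ρ₁ D B N v Tr i n * (FF α h Mo ε₁ B N j n *
      dc c Z (Lf α h Mo (some j) n) ^ 2) = muF Q α h Mo ρ ρ₁ D B N v Tr i n *
      (FF α h Mo ε₁ B N j n * dc c Z (Lf α h Mo (some j) n)) ^ 2 := by
    intro n
    rcases FF_cases α h Mo ε₁ B N j n with hx | ⟨hx, -⟩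
    · rw [hx]; ring
    · rw [hx]; ring
  refine ⟨h1.congr e, ?_⟩
  rw [tsum_congr fun n => (e n).symm]
  refine h2.trans (le_of_eq ?_)
  ring

/-- the constant of the off-diagonal terms -/
noncomputable def ofc (Q : SPar) (k : ℕ) (CR κ ε₁ ε : ℝ) : ℝ :=
  16 * CR ^ 2 * κ * u2c Q k ε₁ ε + (4 * CR ^ 2 + 1) * ε

/-- the variance of one block -/
theorem blkV (hNWU : St_NWU) (hNWE : St_NWE)
    (d : DatB Q α h Mo ε₁ ρ ρ₁ ε A E₁ D B N v D₁ Tr t th dl) (hI1 : 0 < Q.I1) (hI2 : 0 < Q.I2)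
    (hsμ : ∀ i : Fin k, Summable (muF Q α h Mo ρ ρ₁ D B N v Tr i))
    (hHB : HB h Mo N) (hnd : Nd α h Mo) {θ η CR κ : ℝ} (hCR : 1 ≤ CR) (hκ : 0 ≤ κ)
    (hdl : |hat dl D₁| ≤ κ * Pool.Agent.W23.PL.VV (PtF α h Mo N B ε₁))
    {Z : ℕ} {c : ℕ → ℝ} (b : BlkC α h Mo ε₁ ρ ρ₁ θ η CR A E₁ D B N v D₁ Tr Z c)
    (hbig : 4 * CR * ((2 * N : ℕ) : ℝ) ^ (η + θ) ≤ ((2 * N : ℕ) : ℝ) / (Real.log N) ^ A)
    (i : Fin k) (J : Finset (Fin k)) (hJ : i ∉ J) :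
    Summable (fun n => muF Q α h Mo ρ ρ₁ D B N v Tr i n *
      (∑ j ∈ J, (FF α h Mo ε₁ B N j n * dc c Z (Lf α h Mo (some j) n) - 0)) ^ 2) ∧
    ∑' n : ℤ, muF Q α h Mo ρ ρ₁ D B N v Tr i n *
      (∑ j ∈ J, (FF α h Mo ε₁ B N j n * dc c Z (Lf α h Mo (some j) n) - 0)) ^ 2 ≤
      J.card * (4 * CR ^ 2 * (MMF α h Mo D N B ρ * gB α h Mo N B ε₁ ρ * udc Q k ε₁ ε)) +
      (J.card : ℝ) ^ 2 * (MMF α h Mo D N B ρ * gB α h Mo N B ε₁ ρ ^ 2 * ofc Q k CR κ ε₁ ε) := by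
  have hne : ∀ j ∈ J, i ≠ j := fun j hj hij => hJ (hij ▸ hj)
  set s : Fin k → ℤ → ℝ := fun j n => FF α h Mo ε₁ B N j n * dc c Z (Lf α h Mo (some j) n) with hs
  have hdg := fun j (hj : j ∈ J) => E4 hNWU hNWE d hI1 hI2 hCR b (hne j hj)
  have hof := fun j (hj : j ∈ J) l (hl : l ∈ J) (hjl : j ≠ l) =>
    E3 hNWU hNWE d hI1 hI2 hHB hnd hCR hκ hdl b hbig (hne j hj) (hne l hl) hjl
  have hmu := muF_nonneg d i
  have hs1 : ∀ j ∈ J, Summable (fun n => muF Q α h Mo ρ ρ₁ D B N v Tr i n * s j n) := by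
    intro j hj
    refine Summable.of_norm_bounded (((hsμ i).add (hdg j hj).1)) (fun n => ?_)
    rw [Real.norm_eq_abs, abs_mul, abs_of_nonneg (hmu n)]
    have h1 : |s j n| ≤ 1 + s j n ^ 2 := by
      have := sq_nonneg (|s j n| - 1)
      have h2 : |s j n| ^ 2 = s j n ^ 2 := sq_abs _
      nlinarith [abs_nonneg (s j n)]
    calc muF Q α h Mo ρ ρ₁ D B N v Tr i n * |s j n| ≤
        muF Q α h Mo ρ ρ₁ D B N v Tr i n * (1 + s j n ^ 2) := mul_le_mul_of_nonneg_left h1 (hmu n)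
      _ = _ := by ring
  have hU2 : 0 ≤ MMF α h Mo D N B ρ * gB α h Mo N B ε₁ ρ ^ 2 * ofc Q k CR κ ε₁ ε := by
    have h1 := MMF_pos d
    have h2 := d.ε0
    have h3 := d.e10
    have h4 : 0 < 1 - ε := by linarith [d.ε3]
    unfold ofc u2c
    positivity
  obtain ⟨hA, hB⟩ := tsum_centred (muF Q α h Mo ρ ρ₁ D B N v Tr i) s J 0
    (∑' n, muF Q α h Mo ρ ρ₁ D B N v Tr i n)
    (-∑ j ∈ J, |∑' n, muF Q α h Mo ρ ρ₁ D B N v Tr i n * s j n|)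
    (MMF α h Mo D N B ρ * gB α h Mo N B ε₁ ρ ^ 2 * ofc Q k CR κ ε₁ ε)
    (4 * CR ^ 2 * (MMF α h Mo D N B ρ * gB α h Mo N B ε₁ ρ * udc Q k ε₁ ε)) le_rfl
    hU2 (hsμ i) le_rfl hs1
    (fun j hj => by
      have h1 : |∑' n, muF Q α h Mo ρ ρ₁ D B N v Tr i n * s j n| ≤
          ∑ j ∈ J, |∑' n, muF Q α h Mo ρ ρ₁ D B N v Tr i n * s j n| :=
        Finset.single_le_sum (f := fun j => |∑' n, muF Q α h Mo ρ ρ₁ D B N v Tr i n * s j n|)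
          (fun _ _ => abs_nonneg _) hj
      have h2 := neg_abs_le (∑' n, muF Q α h Mo ρ ρ₁ D B N v Tr i n * s j n)
      linarith)
    (fun j hj => (hdg j hj).1) (fun j hj => (hdg j hj).2)
    (fun j hj l hl hjl => (hof j hj l hl hjl).1)
    (fun j hj l hl hjl => (hof j hj l hl hjl).2)
  refine ⟨hA, hB.trans (le_of_eq ?_)⟩
  ring

/-- the pair sum of one block -/
theorem blkP (hNWU : St_NWU) (hNWE : St_NWE)
    (d : DatB Q α h Mo ε₁ ρ ρ₁ ε A E₁ D B N v D₁ Tr t th dl) (hI1 : 0 < Q.I1) (hI2 : 0 < Q.I2)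
    (hsμ : ∀ i : Fin k, Summable (muF Q α h Mo ρ ρ₁ D B N v Tr i))
    (hHB : HB h Mo N) (hnd : Nd α h Mo) {θ η CR κ : ℝ} (hCR : 1 ≤ CR) (hκ : 0 ≤ κ)
    (hdl : |hat dl D₁| ≤ κ * Pool.Agent.W23.PL.VV (PtF α h Mo N B ε₁))
    {Z : ℕ} {c : ℕ → ℝ} (b : BlkC α h Mo ε₁ ρ ρ₁ θ η CR A E₁ D B N v D₁ Tr Z c)
    (hbig : 4 * CR * ((2 * N : ℕ) : ℝ) ^ (η + θ) ≤ ((2 * N : ℕ) : ℝ) / (Real.log N) ^ A)
    {K : ℕ} (i : Fin k) (J : Finset (Fin k)) (hJ : i ∉ J) (hJK : J.card ≤ K)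
    (S : Finset ℕ) (f : ℕ → ℝ) (hf0 : ∀ n ∈ S, 0 ≤ f n)
    (hf : ∀ n ∈ S, f n ≤ 2 * muF Q α h Mo ρ ρ₁ D B N v Tr i n) (G₀ : ℝ)
    (hG₀ : gB α h Mo N B ε₁ ρ ≤ G₀)
    (hβ : 0 < βc Q k ε) (Zt : ℝ) (hZ : MMF α h Mo D N B ρ ≤ 512 * Zt)
    (hF : Zt * (ρ * βc Q k ε) ≤ ∑ n ∈ S, f n) :
    ∑ n ∈ S, f n * ∑ j ∈ J, FF α h Mo ε₁ B N j n * dc c Z (Lf α h Mo (some j) n) ≤
      Real.sqrt (1024 / (ρ * βc Q k ε) * (K * (4 * CR ^ 2 * (G₀ * udc Q k ε₁ ε)) +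
        (K : ℝ) ^ 2 * G₀ ^ 2 * ofc Q k CR κ ε₁ ε)) * ∑ n ∈ S, f n := by
  obtain ⟨hsV, hV⟩ := blkV hNWU hNWE d hI1 hI2 hsμ hHB hnd hCR hκ hdl b hbig i J hJ
  have hρ := d.ρ0
  have hε := d.ε0
  have h1ε : 0 < 1 - ε := by linarith [d.ε3]
  have hε₁ := d.e10
  have hm0 := MMF_pos d
  have hg0 := gB_pos d
  set m0 := MMF α h Mo D N B ρ with hm0d
  set g := gB α h Mo N B ε₁ ρ with hgd
  have hG₀p : 0 < G₀ := hg0.trans_le hG₀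
  have hudc : 0 ≤ udc Q k ε₁ ε := by unfold udc; positivity
  have hofc : 0 ≤ ofc Q k CR κ ε₁ ε := by unfold ofc u2c; positivity
  have hJc : (J.card : ℝ) ≤ K := by exact_mod_cast hJK
  set v0 : ℝ := K * (4 * CR ^ 2 * (G₀ * udc Q k ε₁ ε)) +
        (K : ℝ) ^ 2 * G₀ ^ 2 * ofc Q k CR κ ε₁ ε with hv0
  have hv0p : 0 ≤ v0 := by positivity
  have hVb : (J.card : ℝ) * (4 * CR ^ 2 * (m0 * g * udc Q k ε₁ ε)) +
      (J.card : ℝ) ^ 2 * (m0 * g ^ 2 * ofc Q k CR κ ε₁ ε) ≤ m0 * v0 := by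
    have e1 : (J.card : ℝ) * (4 * CR ^ 2 * (m0 * g * udc Q k ε₁ ε)) ≤
        m0 * (K * (4 * CR ^ 2 * (G₀ * udc Q k ε₁ ε))) := by
      calc (J.card : ℝ) * (4 * CR ^ 2 * (m0 * g * udc Q k ε₁ ε)) ≤
          K * (4 * CR ^ 2 * (m0 * G₀ * udc Q k ε₁ ε)) := by gcongr
        _ = _ := by ring
    have e2 : (J.card : ℝ) ^ 2 * (m0 * g ^ 2 * ofc Q k CR κ ε₁ ε) ≤
        m0 * ((K : ℝ) ^ 2 * G₀ ^ 2 * ofc Q k CR κ ε₁ ε) := by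
      calc (J.card : ℝ) ^ 2 * (m0 * g ^ 2 * ofc Q k CR κ ε₁ ε) ≤
          (K : ℝ) ^ 2 * (m0 * G₀ ^ 2 * ofc Q k CR κ ε₁ ε) := by gcongr
        _ = _ := by ring
    calc _ ≤ m0 * (K * (4 * CR ^ 2 * (G₀ * udc Q k ε₁ ε))) +
        m0 * ((K : ℝ) ^ 2 * G₀ ^ 2 * ofc Q k CR κ ε₁ ε) := add_le_add e1 e2
      _ = _ := by rw [hv0]; ring
  have hbes := bessel S f hf0 (muF Q α h Mo ρ ρ₁ D B N v Tr i) (muF_nonneg d i) hf
    (fun j n => FF α h Mo ε₁ B N j n * dc c Z (Lf α h Mo (some j) n)) J 0 (m0 * v0) hsV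
    (hV.trans hVb)
  refine hbes.trans ?_
  rw [mul_zero, zero_mul, zero_add]
  set F : ℝ := ∑ n ∈ S, f n with hFdef
  have hF0 : 0 ≤ F := Finset.sum_nonneg hf0
  have hρβ : 0 < ρ * βc Q k ε := by positivity
  have hs1 : 2 * F * (m0 * v0) ≤ F ^ 2 * (1024 / (ρ * βc Q k ε) * v0) := by
    have e1 : Zt ≤ F / (ρ * βc Q k ε) := by
      rw [le_div_iff₀ hρβ]
      exact hF
    have e2 : m0 ≤ 512 * (F / (ρ * βc Q k ε)) := by linarith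
    calc 2 * F * (m0 * v0) ≤ 2 * F * (512 * (F / (ρ * βc Q k ε)) * v0) := by gcongr
      _ = _ := by ring
  calc Real.sqrt (2 * F * (m0 * v0)) ≤
        Real.sqrt (F ^ 2 * (1024 / (ρ * βc Q k ε) * v0)) := Real.sqrt_le_sqrt hs1
    _ = _ := by rw [Real.sqrt_mul (sq_nonneg _), Real.sqrt_sq hF0, mul_comm]

end

end Pool.Agent.Y827.LS
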