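import Mathlib
import Pool.Agent.Y827.LS.Stm
import Pool.Agent.H510R2.Maier.MA4

/-! Project LS: Mertens' third theorem for the density of the rough numbers. -/

set_option autoImplicit false

namespace Pool.Agent.Y827.LS

open Finset Filter Topology
open Pool.Agent.W23.PL (P1)
open Pool.Agent.W23.DC (tt)
open Pool.Agent.H510R2.Maier (QQ QQ_real QQ_pos)

theorem one_sub_sum_le_prod' (s : Finset ℕ) (f : ℕ → ℝ) (h0 : ∀ i ∈ s, 0 ≤ f i)
    (h1 : ∀ i ∈ s, f i ≤ 1) : 1 - ∑ i ∈ s, f i ≤ ∏ i ∈ s, (1 - f i) := by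
  classical
  induction s using Finset.induction_on with
  | empty => simp
  | insert a s ha ih =>
    rw [Finset.prod_insert ha, Finset.sum_insert ha]
    have ih' := ih (fun i hi => h0 i (Finset.mem_insert_of_mem hi))
      (fun i hi => h1 i (Finset.mem_insert_of_mem hi))
    have ha0 := h0 a (Finset.mem_insert_self _ _)
    have ha1 := h1 a (Finset.mem_insert_self _ _)
    have hp : ∏ i ∈ s, (1 - f i) ≤ 1 := by
      apply Finset.prod_le_one
      · intro i hi
        have := h1 i (Finset.mem_insert_of_mem hi)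
        linarith
      · intro i hi
        have := h0 i (Finset.mem_insert_of_mem hi)
        linarith
    nlinarith

theorem den : St_DEN := by
  intro B ε₁ ε' hB hε₁ hε₁1 hε'
  classical
  have hγ : 0 < Real.exp Real.eulerMascheroniConstant := Real.exp_pos _
  -- Mertens
  have h1 : Tendsto (fun x : ℝ => x ^ ε₁) atTop atTop := tendsto_rpow_atTop hε₁
  have h2 := (QQ_real.comp h1).comp (tendsto_natCast_atTop_atTop (R := ℝ))
  have hlt : Real.exp Real.eulerMascheroniConstant / (1 + ε' / 4) <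
      Real.exp Real.eulerMascheroniConstant := by
    rw [div_lt_iff₀ (by positivity)]
    nlinarith
  have h3 := h2.eventually (lt_mem_nhds hlt)
  -- the logarithm
  have h4 : ∀ᶠ N : ℕ in atTop, 8 * (1 + ε') / ε' + 2 ≤ Real.log N :=
    (Real.tendsto_log_atTop.comp (tendsto_natCast_atTop_atTop (R := ℝ))).eventually
      (eventually_ge_atTop _)
  have h5 : ∀ᶠ N : ℕ in atTop, (Real.log N) ^ B ≤ (N : ℝ) ^ ε₁ := by
    have h0 := isLittleO_log_rpow_rpow_atTop (s := ε₁) B hε₁
    have h6 := (h0.bound one_pos)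
    have h7 := (tendsto_natCast_atTop_atTop (R := ℝ)).eventually h6
    filter_upwards [h7, eventually_ge_atTop 1] with N h8 h9
    have hN : (1 : ℝ) ≤ N := by exact_mod_cast h9
    rw [one_mul, Real.norm_eq_abs, Real.norm_eq_abs, Real.rpow_natCast] at h8
    exact (le_abs_self _).trans (h8.trans (abs_of_nonneg (by positivity)).le)
  obtain ⟨X₀, hX₀⟩ := Filter.eventually_atTop.1 (h3.and (h4.and (h5.and (eventually_ge_atTop 2))))
  refine ⟨X₀, fun X hX Cl hCl => ?_⟩
  obtain ⟨h6, h7, h8, h9⟩ := hX₀ X hX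
  simp only [Function.comp_apply] at h6
  have hXr : (2 : ℝ) ≤ X := by exact_mod_cast h9
  have hX0 : (0 : ℝ) < X := by linarith
  have hL2 : 2 ≤ Real.log X := by
    have : 0 ≤ 8 * (1 + ε') / ε' := by positivity
    linarith
  have hL0 : 0 < Real.log X := by linarith
  set y : ℝ := (X : ℝ) ^ ε₁ with hy
  have hlogy : Real.log y = ε₁ * Real.log X := by rw [hy, Real.log_rpow hX0]
  have hlogy0 : 0 < Real.log y := by rw [hlogy]; positivity
  rw [hlogy] at h6
  -- the three sets
  set S : Finset ℕ := (Icc 1 ⌊y⌋₊).filter Nat.Prime with hS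
  set A : Finset ℕ := (Icc 1 (⌈(Real.log X) ^ B⌉₊ - 1)).filter Nat.Prime with hA
  set C : Finset ℕ := P1 X B ε₁ \ Cl with hC
  have hAm : ∀ p, p ∈ A ↔ p.Prime ∧ (p : ℝ) < (Real.log X) ^ B := by
    intro p
    rw [hA, Finset.mem_filter, Finset.mem_Icc]
    have hc : 0 < ⌈(Real.log X) ^ B⌉₊ := Nat.ceil_pos.2 (by positivity)
    constructor
    · rintro ⟨⟨h10, h11⟩, h12⟩
      refine ⟨h12, Nat.lt_ceil.1 (by omega)⟩
    · rintro ⟨h10, h11⟩
      have := Nat.lt_ceil.2 h11
      exact ⟨⟨h10.one_lt.le, by omega⟩, h10⟩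
  have hy1 : 1 ≤ y := Real.one_le_rpow (by linarith) hε₁.le
  have hSm : ∀ p, p ∈ S ↔ p.Prime ∧ (p : ℝ) ≤ y := by
    intro p
    rw [hS, Finset.mem_filter, Finset.mem_Icc]
    constructor
    · rintro ⟨⟨h10, h11⟩, h12⟩
      exact ⟨h12, (Nat.le_floor_iff (by linarith)).1 h11⟩
    · rintro ⟨h10, h11⟩
      exact ⟨⟨h10.one_lt.le, Nat.le_floor h11⟩, h10⟩
  have hCm : ∀ p, p ∈ C → p.Prime ∧ (Real.log X) ^ B ≤ (p : ℝ) ∧ (p : ℝ) < y := by
    intro p hp
    rw [hC, Finset.mem_sdiff] at hp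
    have h10 := hp.1
    unfold P1 at h10
    rw [Finset.mem_filter, Finset.mem_Icc] at h10
    obtain ⟨⟨h11, h12⟩, h13, h14, h15⟩ := h10
    refine ⟨h13, h14, ?_⟩
    unfold tt at h15
    have hp0 : (0 : ℝ) < p := by exact_mod_cast h13.pos
    rw [div_lt_iff₀ hL0, ← hlogy] at h15
    exact (Real.log_lt_log_iff hp0 (by linarith)).1 h15
  have hdisj : Disjoint A C := by
    rw [Finset.disjoint_left]
    intro p hpA hpC
    have h10 := ((hAm p).1 hpA).2
    have h11 := (hCm p hpC).2.1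
    linarith
  have hsub : A ∪ C ⊆ S := by
    intro p hp
    rw [Finset.mem_union] at hp
    rw [hSm]
    rcases hp with hp | hp
    · have h10 := (hAm p).1 hp
      exact ⟨h10.1, by linarith [h10.2]⟩
    · have h10 := hCm p hp
      exact ⟨h10.1, h10.2.2.le⟩
  set E : Finset ℕ := S \ (A ∪ C) with hE
  have hEm : ∀ p ∈ E, p.Prime ∧ (Real.log X) ^ B ≤ (p : ℝ) := by
    intro p hp
    rw [hE, Finset.mem_sdiff] at hp
    have h10 := (hSm p).1 hp.1
    refine ⟨h10.1, ?_⟩
    by_contra hc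
    push Not at hc
    exact hp.2 (Finset.mem_union_left _ ((hAm p).2 ⟨h10.1, hc⟩))
  have hEsub : E ⊆ Cl ∪ {⌊y⌋₊} := by
    intro p hp
    have h10 := hEm p hp
    rw [hE, Finset.mem_sdiff] at hp
    rw [Finset.mem_union, Finset.mem_singleton]
    by_cases hpC : p ∈ Cl
    · exact Or.inl hpC
    · right
      have h11 := ((hSm p).1 hp.1).2
      have h12 : ¬ (p : ℝ) < y := by
        intro h13
        apply hp.2
        apply Finset.mem_union_right
        rw [hC, Finset.mem_sdiff]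
        refine ⟨?_, hpC⟩
        unfold P1
        rw [Finset.mem_filter, Finset.mem_Icc]
        have hp0 : (0 : ℝ) < p := by exact_mod_cast h10.1.pos
        have hyX : y ≤ X := by
          calc y ≤ (X : ℝ) ^ (1 : ℝ) := Real.rpow_le_rpow_of_exponent_le (by linarith) hε₁1
            _ = X := Real.rpow_one _
        refine ⟨⟨h10.1.one_lt.le, ?_⟩, h10.1, h10.2, ?_⟩
        · exact_mod_cast h11.trans hyX
        · unfold tt
          rw [div_lt_iff₀ hL0, ← hlogy]
          exact Real.log_lt_log hp0 h13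
      have h14 : y = (p : ℝ) := le_antisymm (not_lt.1 h12) h11
      rw [h14, Nat.floor_natCast]
  have hEc : ((E.card : ℕ) : ℝ) ≤ (Real.log X) ^ 2 + 1 := by
    have h3 : E.card ≤ Cl.card + 1 := by
      refine (Finset.card_le_card hEsub).trans ?_
      refine (Finset.card_union_le _ _).trans ?_
      rw [Finset.card_singleton]
    have h4 : ((E.card : ℕ) : ℝ) ≤ (Cl.card : ℝ) + 1 := by exact_mod_cast h3
    linarith
  have hEs : ∑ p ∈ E, 1 / (p : ℝ) ≤ 2 / Real.log X := by
    have h10 : ∑ p ∈ E, 1 / (p : ℝ) ≤ ∑ _p ∈ E, 1 / (Real.log X) ^ 3 := by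
      apply Finset.sum_le_sum
      intro p hp
      apply one_div_le_one_div_of_le (by positivity)
      refine le_trans ?_ (hEm p hp).2
      exact pow_le_pow_right₀ (by linarith) hB
    rw [Finset.sum_const, nsmul_eq_mul] at h10
    refine h10.trans ?_
    have h11 : (Real.log X) ^ 2 + 1 ≤ 2 * (Real.log X) ^ 2 := by nlinarith
    calc (E.card : ℝ) * (1 / (Real.log X) ^ 3) ≤ (2 * (Real.log X) ^ 2) * (1 / (Real.log X) ^ 3) := by
          apply mul_le_mul_of_nonneg_right (hEc.trans h11) (by positivity)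
      _ = 2 / Real.log X := by field_simp
  have hEp : 1 - 2 / Real.log X ≤ ∏ p ∈ E, (1 - 1 / (p : ℝ)) := by
    refine le_trans ?_ (one_sub_sum_le_prod' E (fun p => 1 / (p : ℝ)) (fun p _ => by positivity)
      (fun p hp => ?_))
    · linarith
    · have h10 : (1 : ℝ) ≤ p := by exact_mod_cast (hEm p hp).1.one_lt.le
      rw [div_le_one (by linarith)]
      exact h10
  have hsmall : 2 / Real.log X ≤ ε' / (4 * (1 + ε')) := by
    rw [div_le_div_iff₀ hL0 (by positivity)]
    have h10 : 8 * (1 + ε') / ε' ≤ Real.log X := by linarith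
    rw [div_le_iff₀ hε'] at h10
    linarith
  have hprod : QQ ⌊y⌋₊ = (∏ p ∈ E, (1 - 1 / (p : ℝ))) *
      (Pool.Agent.W23.PL.VV C * Pool.Agent.H410R2.BD (⌈(Real.log X) ^ B⌉₊ - 1)) := by
    unfold QQ Pool.Agent.W23.PL.VV Pool.Agent.H410R2.BD
    rw [← hS, ← hA, ← Finset.prod_sdiff hsub, Finset.prod_union hdisj]
    ring
  have hQp := QQ_pos ⌊y⌋₊
  -- the bound for QQ
  have hg := Real.exp_pos Real.eulerMascheroniConstant
  have h11 : 0 < ε₁ * Real.log X := by positivity
  have hQ : QQ ⌊y⌋₊ * (Real.exp Real.eulerMascheroniConstant * (ε₁ * Real.log X)) ≤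
      1 + ε' / 4 := by
    have h10 : Real.exp Real.eulerMascheroniConstant / (1 + ε' / 4) <
        1 / (QQ ⌊y⌋₊ * (ε₁ * Real.log X)) := by
      refine h6.trans_le (le_of_eq ?_)
      field_simp
    rw [div_lt_div_iff₀ (by positivity) (by positivity)] at h10
    linarith
  rw [Real.exp_neg]
  have h12 : (1 - ε' / (4 * (1 + ε'))) * (Pool.Agent.W23.PL.VV C *
      Pool.Agent.H410R2.BD (⌈(Real.log X) ^ B⌉₊ - 1)) ≤ QQ ⌊y⌋₊ := by
    rw [hprod]
    apply mul_le_mul_of_nonneg_right (by linarith)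
    by_contra hc
    push Not at hc
    have hEp0 : 0 < ∏ p ∈ E, (1 - 1 / (p : ℝ)) := by
      apply Finset.prod_pos
      intro p hp
      have h13 : (2 : ℝ) ≤ p := by exact_mod_cast (hEm p hp).1.two_le
      have h14 : 1 / (p : ℝ) ≤ 1 / 2 := one_div_le_one_div_of_le (by norm_num) h13
      linarith
    have h15 := mul_neg_of_pos_of_neg hEp0 hc
    rw [← hprod] at h15
    linarith
  set V : ℝ := Pool.Agent.W23.PL.VV C * Pool.Agent.H410R2.BD (⌈(Real.log X) ^ B⌉₊ - 1) with hV
  have h13 : 0 < 1 - ε' / (4 * (1 + ε')) := by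
    have : ε' / (4 * (1 + ε')) < 1 := by
      rw [div_lt_one (by positivity)]
      linarith
    linarith
  have h14 : 1 + ε' / 4 ≤ (1 + ε') * (1 - ε' / (4 * (1 + ε'))) := by
    have : (1 + ε') * (1 - ε' / (4 * (1 + ε'))) = 1 + ε' - ε' / 4 := by
      field_simp
    rw [this]
    linarith
  have h15 : (1 - ε' / (4 * (1 + ε'))) * (V * (Real.exp Real.eulerMascheroniConstant *
      (ε₁ * Real.log X))) ≤ (1 - ε' / (4 * (1 + ε'))) * (1 + ε') := by
    calc (1 - ε' / (4 * (1 + ε'))) * (V * (Real.exp Real.eulerMascheroniConstant *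
          (ε₁ * Real.log X))) = ((1 - ε' / (4 * (1 + ε'))) * V) *
          (Real.exp Real.eulerMascheroniConstant * (ε₁ * Real.log X)) := by ring
      _ ≤ QQ ⌊y⌋₊ * (Real.exp Real.eulerMascheroniConstant * (ε₁ * Real.log X)) :=
          mul_le_mul_of_nonneg_right h12 (by positivity)
      _ ≤ 1 + ε' / 4 := hQ
      _ ≤ _ := h14
      _ = _ := by ring
  have h16 := le_of_mul_le_mul_left h15 h13
  have h17 : (1 + ε') * ((Real.exp Real.eulerMascheroniConstant)⁻¹ / (ε₁ * Real.log X)) =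
      (1 + ε') / (Real.exp Real.eulerMascheroniConstant * (ε₁ * Real.log X)) := by
    field_simp
  rw [h17, le_div_iff₀ (by positivity)]
  exact h16

end Pool.Agent.Y827.LS
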