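import Mathlib
import Pool.Agent.Y827.LS.Stm
import Pool.Agent.W505.UBFLC

/-! Project LS: the fundamental lemma outside a small set of primes, super-exponential rate. -/

set_option autoImplicit false

namespace Pool.Agent.Y827.LS

open Finset Filter Topology
open Pool.Agent.W23.PL
open Pool.Agent.W25.UB
open Pool.Agent.W505.UBFLC

theorem exp_small' {A₀ ε : ℝ} (h0 : 0 < ε) (h1 : ε ≤ 1) :
    Real.exp (-((A₀ + 3) / ε)) ≤ Real.exp (-(A₀ / ε)) / 8 := by
  have e : -((A₀ + 3) / ε) = -(A₀ / ε) + -(3 / ε) := by ring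
  rw [e, Real.exp_add, div_eq_mul_inv]
  apply mul_le_mul_of_nonneg_left _ (Real.exp_pos _).le
  rw [Real.exp_neg]
  apply inv_anti₀ (by norm_num)
  have h2 : (3 : ℝ) ≤ 3 / ε := by
    rw [le_div_iff₀ h0]; linarith
  have h3 : (2 : ℝ) ≤ Real.exp 1 := by
    have := Real.add_one_le_exp (1 : ℝ); linarith
  calc (8 : ℝ) = 2 ^ 3 := by norm_num
    _ ≤ (Real.exp 1) ^ 3 := pow_le_pow_left₀ (by norm_num) h3 3
    _ = Real.exp 3 := by rw [← Real.exp_nat_mul]; norm_num
    _ ≤ Real.exp (3 / ε) := Real.exp_le_exp.2 h2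

theorem flc3 (hFLW : St_FLW) (hVLB : St_VLB) : St_FLC3 := by
  classical
  intro η₀ A₀ hη₀ hA₀
  obtain ⟨εs, hεs, hF⟩ := hFLW η₀ (A₀ + 3) hη₀ (by linarith)
  obtain ⟨c₂, hc₂, hV⟩ := hVLB
  refine ⟨min εs 1, lt_min hεs one_pos, ?_⟩
  intro ε₁ hε₁ hε₁s B hB
  have h1 : ε₁ ≤ εs := hε₁s.trans (min_le_left _ _)
  have h2 : ε₁ ≤ 1 := hε₁s.trans (min_le_right _ _)
  obtain ⟨e3, he3d⟩ : ∃ e3 : ℝ, e3 = Real.exp (-(A₀ / ε₁)) := ⟨_, rfl⟩
  have he3 : 0 < e3 := by rw [he3d]; exact Real.exp_pos _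
  rw [← he3d]
  obtain ⟨N₁, hN₁⟩ := hF ε₁ hε₁ h1 B (by omega)
  obtain ⟨N₂, hN₂⟩ := hV B (by omega) ε₁ hε₁ h2
  have ht : Tendsto (fun N : ℕ => Real.log N) atTop atTop :=
    Real.tendsto_log_atTop.comp tendsto_natCast_atTop_atTop
  obtain ⟨N₃, hN₃⟩ := eventually_atTop.1 (ht.eventually_ge_atTop
    (max (Real.exp 1) (max (8 / e3) (8 * (1 + η₀) / (c₂ * e3)))))
  refine ⟨max N₁ (max N₂ N₃), ?_⟩
  intro N hN D hD Cl hCl
  have hNa : N₁ ≤ N := (le_max_left _ _).trans hN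
  have hNb : N₂ ≤ N := ((le_max_left _ _).trans (le_max_right _ _)).trans hN
  have hNc : N₃ ≤ N := ((le_max_right _ _).trans (le_max_right _ _)).trans hN
  obtain ⟨th0, dl0, ht1, hd1, hm, hh1, hh2⟩ := hN₁ N hNa D hD
  obtain ⟨hv1, -⟩ := hN₂ N hNb
  have hL := hN₃ N hNc
  set L : ℝ := Real.log N with hLdef
  set P : Finset ℕ := P1 N B ε₁ with hPdef
  have hL1 : Real.exp 1 ≤ L := (le_max_left _ _).trans hL
  have hL2 : 8 / e3 ≤ L := ((le_max_left _ _).trans (le_max_right _ _)).trans hL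
  have hL3 : 8 * (1 + η₀) / (c₂ * e3) ≤ L :=
    ((le_max_right _ _).trans (le_max_right _ _)).trans hL
  have he1 : (2 : ℝ) ≤ Real.exp 1 := by
    have := Real.add_one_le_exp (1 : ℝ); linarith
  have hLge : (2 : ℝ) ≤ L := he1.trans hL1
  have hLpos : 0 < L := by linarith
  have hll : 1 ≤ Real.log L := by
    rw [Real.le_log_iff_exp_le hLpos]; exact hL1
  have hP : ∀ p ∈ P, p.Prime := by
    intro p hp
    rw [hPdef] at hp
    unfold P1 at hp
    exact (mem_filter.1 hp).2.1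
  have hPge : ∀ p ∈ P, L ^ 6 ≤ (p : ℝ) := by
    intro p hp
    rw [hPdef] at hp
    unfold P1 at hp
    have h3 := (mem_filter.1 hp).2.2.1
    exact (pow_le_pow_right₀ (by linarith) hB).trans h3
  -- lower bound for `VV P`
  have hVP : c₂ / L ≤ VV P := by
    refine le_trans ?_ hv1
    rw [div_eq_mul_inv]
    apply mul_le_mul_of_nonneg_left _ hc₂.le
    rw [inv_eq_one_div, div_le_div_iff₀ hLpos (by positivity)]
    have hB1 : (1 : ℝ) ≤ B := by
      have : 1 ≤ B := by omega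
      exact_mod_cast this
    have h4 : 1 ≤ (B : ℝ) * Real.log L := by nlinarith
    have h5 : ε₁ * L ≤ L := by nlinarith
    nlinarith
  have hVpos : 0 < VV P := lt_of_lt_of_le (by positivity) hVP
  -- the sum of `1/p` over the exceptional primes
  have hsum : ∑ p ∈ P ∩ Cl, (1 : ℝ) / p ≤ 1 / L ^ 4 := by
    calc ∑ p ∈ P ∩ Cl, (1 : ℝ) / p ≤ ∑ p ∈ P ∩ Cl, 1 / L ^ 6 := by
          apply Finset.sum_le_sum
          intro p hp
          apply one_div_le_one_div_of_le (by positivity)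
          exact hPge p (mem_inter.1 hp).1
      _ = ((P ∩ Cl).card : ℝ) * (1 / L ^ 6) := by rw [Finset.sum_const, nsmul_eq_mul]
      _ ≤ L ^ 2 * (1 / L ^ 6) := by
          apply mul_le_mul_of_nonneg_right _ (by positivity)
          refine le_trans ?_ hCl
          exact_mod_cast Finset.card_le_card Finset.inter_subset_right
      _ = 1 / L ^ 4 := by field_simp
  have hT2 : ∀ p ∈ P ∩ Cl, (2 : ℝ) ≤ p := by
    intro p hp
    exact_mod_cast (hP p (mem_inter.1 hp).1).two_le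
  have hT3 : ∀ p ∈ P \ Cl, (2 : ℝ) ≤ p := by
    intro p hp
    exact_mod_cast (hP p (mem_sdiff.1 hp).1).two_le
  obtain ⟨w1, w2, w3⟩ := prod_ge (P ∩ Cl) hT2
  obtain ⟨v1, v2, -⟩ := prod_ge (P \ Cl) hT3
  have hVmul : VV (P ∩ Cl) * VV (P \ Cl) = VV P := by
    unfold VV
    exact Finset.prod_inter_mul_prod_sdiff _ _ _
  have hVle : VV P ≤ VV (P \ Cl) := by
    rw [← hVmul]
    exact mul_le_of_le_one_left v1 w2
  have h14 : 1 / L ^ 4 ≤ e3 / 8 := by
    have h5 : 8 / e3 ≤ L ^ 4 := by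
      refine hL2.trans ?_
      calc L = L ^ 1 := (pow_one L).symm
        _ ≤ L ^ 4 := pow_le_pow_right₀ (by linarith) (by norm_num)
    calc 1 / L ^ 4 ≤ 1 / (8 / e3) := one_div_le_one_div_of_le (by positivity) h5
      _ = e3 / 8 := one_div_div _ _
  have hVdiff : VV (P \ Cl) - VV P ≤ e3 / 8 * VV (P \ Cl) := by
    rw [← hVmul]
    have h5 : 1 - e3 / 8 ≤ VV (P ∩ Cl) := by linarith
    nlinarith
  -- the error of the restriction
  have hlogD : Real.log D ≤ η₀ * L := by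
    have hN0 : (0 : ℝ) < N := by
      rcases Nat.eq_zero_or_pos N with h0 | h0
      · exfalso
        rw [hLdef, h0] at hLge
        simp at hLge
        linarith
      · exact_mod_cast h0
    rcases Nat.eq_zero_or_pos D with h0 | h0
    · rw [h0]; simp; positivity
    · have h5 : (D : ℝ) ≤ (N : ℝ) ^ η₀ := by
        rw [hD]; exact Nat.floor_le (by positivity)
      calc Real.log D ≤ Real.log ((N : ℝ) ^ η₀) :=
            Real.log_le_log (by exact_mod_cast h0) h5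
        _ = η₀ * L := by rw [Real.log_rpow hN0]
  have hER : ∑ p ∈ P ∩ Cl, L * (1 / (p : ℝ) * (1 + Real.log D)) ≤ e3 / 8 * VV P := by
    have e1 : ∑ p ∈ P ∩ Cl, L * (1 / (p : ℝ) * (1 + Real.log D)) =
        L * (1 + Real.log D) * ∑ p ∈ P ∩ Cl, (1 : ℝ) / p := by
      rw [Finset.mul_sum]
      apply Finset.sum_congr rfl
      intro p _
      ring
    have hlD0 : 0 ≤ Real.log D := Real.log_natCast_nonneg D
    have hlD : 1 + Real.log D ≤ (1 + η₀) * L := by nlinarith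
    have hS0 : 0 ≤ ∑ p ∈ P ∩ Cl, (1 : ℝ) / p :=
      Finset.sum_nonneg (fun p _ => by positivity)
    rw [e1]
    calc L * (1 + Real.log D) * ∑ p ∈ P ∩ Cl, (1 : ℝ) / p
        ≤ L * ((1 + η₀) * L) * (1 / L ^ 4) := by
          apply mul_le_mul _ hsum hS0 (by positivity)
          exact mul_le_mul_of_nonneg_left hlD hLpos.le
      _ = (1 + η₀) / L / L := by field_simp
      _ ≤ e3 / 8 * (c₂ / L) := by
          rw [← mul_div_assoc]
          apply div_le_div_of_nonneg_right _ hLpos.le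
          rw [div_le_iff₀ hLpos]
          rw [div_le_iff₀ (by positivity)] at hL3
          nlinarith
      _ ≤ e3 / 8 * VV P := mul_le_mul_of_nonneg_left hVP (by positivity)
  have hexp : Real.exp (-((A₀ + 3) / ε₁)) ≤ e3 / 8 := by
    rw [he3d]
    exact exp_small' hε₁ h2
  refine ⟨rs Cl th0, rs Cl dl0, rs_DW ht1, rs_DW hd1, ?_, ?_⟩
  · intro m
    rw [Ev_rs hP ht1, Ev_rs hP hd1, xx_rs hP]
    exact hm _
  · refine fin_arith he3.le hVpos.le hVle (hh1.trans ?_) (hh2.trans ?_) (hat_rs hP ht1)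
      (hat_rs hP hd1) hER hVdiff
    · exact mul_le_mul_of_nonneg_right hexp hVpos.le
    · exact mul_le_mul_of_nonneg_right hexp hVpos.le

end Pool.Agent.Y827.LS
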