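import Mathlib
import Pool.Agent.Y827.LS.Stm
import Pool.Agent.H442R2.BX.Rc
import Pool.Agent.W378.DC.MP

/-! Project LS: rough centred divisor sums are bounded, explicit constant. -/

set_option autoImplicit false

namespace Pool.Agent.Y827.LS

open Finset Filter Topology
open Pool.Agent.H442R2
open Pool.Agent.H442R2.BX.TaskRC (rr rr_card mem_rr)

/-- sum over squarefree numbers composed of primes of `P` -/
theorem sum_sqf_le (P : Finset ℕ) (hP : ∀ p ∈ P, p.Prime) (T : Finset ℕ)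
    (hT : ∀ d ∈ T, Squarefree d ∧ ∀ p : ℕ, p.Prime → p ∣ d → p ∈ P) :
    ∑ d ∈ T, 1 / (d : ℝ) ≤ Real.exp (∑ p ∈ P, 1 / (p : ℝ)) := by
  classical
  have h1 : ∑ d ∈ T, 1 / (d : ℝ) ≤ ∑ s ∈ P.powerset, ∏ p ∈ s, 1 / (p : ℝ) := by
    have hsub : T.image (fun d => d.primeFactors) ⊆ P.powerset := by
      intro s hs
      obtain ⟨d, hd, rfl⟩ := Finset.mem_image.1 hs
      rw [Finset.mem_powerset]
      intro p hp
      exact (hT d hd).2 p (Nat.prime_of_mem_primeFactors hp) (Nat.dvd_of_mem_primeFactors hp)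
    have hinj : Set.InjOn (fun d : ℕ => d.primeFactors) (T : Set ℕ) := by
      intro d hd e he hde
      have h2 := Nat.prod_primeFactors_of_squarefree (hT d hd).1
      have h3 := Nat.prod_primeFactors_of_squarefree (hT e he).1
      simp only at hde
      rw [← h2, ← h3, hde]
    calc ∑ d ∈ T, 1 / (d : ℝ) = ∑ d ∈ T, ∏ p ∈ d.primeFactors, 1 / (p : ℝ) := by
          refine Finset.sum_congr rfl fun d hd => ?_
          conv_lhs => rw [← Nat.prod_primeFactors_of_squarefree (hT d hd).1]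
          rw [Nat.cast_prod, Finset.prod_div_distrib, Finset.prod_const_one]
      _ = ∑ s ∈ T.image (fun d : ℕ => d.primeFactors), ∏ p ∈ s, 1 / ((p : ℕ) : ℝ) :=
          (Finset.sum_image (f := fun s : Finset ℕ => ∏ p ∈ s, 1 / ((p : ℕ) : ℝ)) hinj).symm
      _ ≤ _ := Finset.sum_le_sum_of_subset_of_nonneg hsub
          (fun s _ _ => Finset.prod_nonneg fun p _ => by positivity)
  have h2 : ∑ s ∈ P.powerset, ∏ p ∈ s, 1 / (p : ℝ) = ∏ p ∈ P, (1 + 1 / (p : ℝ)) := by
    rw [Finset.prod_one_add]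
  rw [h2] at h1
  refine h1.trans ?_
  rw [Real.exp_sum]
  apply Finset.prod_le_prod
  · intro p _
    positivity
  · intro p _
    have := Real.add_one_le_exp (1 / (p : ℝ))
    linarith

theorem rcx : St_RCX := by
  refine ⟨8, by norm_num, ?_⟩
  intro ε hε hε1 U hU
  obtain ⟨N₁, hN₁⟩ := Pool.Agent.W378.DC.MP ε 1 hε one_pos
  refine ⟨max N₁ (max 2 (max ⌈Real.exp (4 / ε)⌉₊ (2 * U))), ?_⟩
  intro N Z hN hZ c hc1 hc2 u w n hu hw hne
  have hNa : N₁ ≤ N := (le_max_left _ _).trans hN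
  have hNb : 2 ≤ N := ((le_max_left _ _).trans (le_max_right _ _)).trans hN
  have hNc : ⌈Real.exp (4 / ε)⌉₊ ≤ N :=
    ((le_max_left _ _).trans ((le_max_right _ _).trans (le_max_right _ _))).trans hN
  have hNd : 2 * U ≤ N :=
    ((le_max_right _ _).trans ((le_max_right _ _).trans (le_max_right _ _))).trans hN
  have hN1 : Real.exp (4 / ε) ≤ (N : ℝ) := Nat.ceil_le.mp hNc
  have hN0 : (0 : ℝ) < (N : ℝ) := lt_of_lt_of_le (Real.exp_pos _) hN1
  have hlog : 4 / ε ≤ Real.log N := by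
    rw [Real.le_log_iff_exp_le hN0]; exact hN1
  have hlog0 : 0 < Real.log N := lt_of_lt_of_le (by positivity) hlog
  have hεlog : 4 ≤ ε * Real.log N := by
    rw [div_le_iff₀ hε] at hlog
    linarith
  have hN1' : (1 : ℝ) ≤ (N : ℝ) := by exact_mod_cast (by omega : 1 ≤ N)
  set y : ℝ := (N : ℝ) ^ ε with hy
  have hy1 : 1 ≤ y := Real.one_le_rpow hN1' hε.le
  set m : ℤ := u * n + w with hm
  obtain ⟨k, hk1, hk2⟩ := rr_card y hy1 m.natAbs (Int.natAbs_pos.mpr hne)
  set B : ℝ := 1 + |(n : ℝ)| / N with hB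
  have hB1 : 1 ≤ B := by
    have : 0 ≤ |(n : ℝ)| / N := by positivity
    linarith
  have hU1 : (1 : ℝ) ≤ U := by exact_mod_cast hU
  have huR : |(u : ℝ)| ≤ U := by
    rw [← Int.cast_abs]; exact_mod_cast hu
  have hmB : ((m.natAbs : ℕ) : ℝ) ≤ (2 * U) * (N * B) := by
    have h1 : ((m.natAbs : ℕ) : ℝ) = |((u : ℝ) * n + w)| := by
      rw [Nat.cast_natAbs, hm]
      push_cast
      rfl
    rw [h1, hB, mul_add, mul_one, mul_div_cancel₀ _ hN0.ne']
    have h2 := abs_add_le ((u : ℝ) * n) (w : ℝ)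
    rw [abs_mul] at h2
    have h3 : |(u : ℝ)| * |(n : ℝ)| ≤ U * |(n : ℝ)| :=
      mul_le_mul_of_nonneg_right huR (abs_nonneg _)
    have h4 : 0 ≤ (U : ℝ) * |(n : ℝ)| := by positivity
    nlinarith
  have h2UN : ((2 * U : ℕ) : ℝ) ≤ N := by exact_mod_cast hNd
  have h2U : (2 * (U : ℝ)) ≤ N := by push_cast at h2UN; exact h2UN
  have hk3 : (k : ℝ) * (ε * Real.log N) ≤ 2 * Real.log N + Real.log B := by
    have h0 : (0 : ℝ) < N * B := by positivity
    have h1 : Real.log (y ^ k) ≤ Real.log ((2 * U) * (N * B)) :=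
      Real.log_le_log (by positivity) (hk1.trans hmB)
    rw [Real.log_pow, hy, Real.log_rpow hN0, Real.log_mul (by positivity) h0.ne',
      Real.log_mul hN0.ne' (by positivity)] at h1
    have h2 : Real.log (2 * (U : ℝ)) ≤ Real.log N := Real.log_le_log (by positivity) h2U
    linarith
  have hlB : 0 ≤ Real.log B := Real.log_nonneg hB1
  have hk4 : (k : ℝ) ≤ 2 / ε + Real.log B * (1 / 4) := by
    have hpos : 0 < ε * Real.log N := by positivity
    have h1 : (k : ℝ) ≤ (2 * Real.log N + Real.log B) / (ε * Real.log N) :=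
      (le_div_iff₀ hpos).mpr hk3
    have h2 : (2 * Real.log N + Real.log B) / (ε * Real.log N) =
        2 / ε + Real.log B / (ε * Real.log N) := by
      field_simp
    have h3 : Real.log B / (ε * Real.log N) ≤ Real.log B * (1 / 4) := by
      rw [div_eq_mul_one_div]
      refine mul_le_mul_of_nonneg_left ?_ hlB
      exact one_div_le_one_div_of_le (by norm_num) hεlog
    rw [h2] at h1
    linarith
  have h2k : (2 : ℝ) ^ k ≤ Real.exp k := by
    have h1 : (2 : ℝ) ≤ Real.exp 1 := by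
      have := Real.add_one_le_exp (1 : ℝ)
      linarith
    calc (2 : ℝ) ^ k ≤ (Real.exp 1) ^ k := pow_le_pow_left₀ (by norm_num) h1 k
      _ = Real.exp k := by rw [← Real.exp_nat_mul, mul_one]
  have hB4 : 1 ≤ B ^ (1 / 4 : ℝ) := Real.one_le_rpow hB1 (by norm_num)
  -- the divisors
  have hdiv : |∑ d ∈ Icc 1 Z, c d * (if (d : ℤ) ∣ m then 1 else 0)| ≤
      Real.exp (2 / ε) * B ^ (1 / 4 : ℝ) := by
    calc |∑ d ∈ Icc 1 Z, c d * (if (d : ℤ) ∣ m then 1 else 0)|
        ≤ ∑ d ∈ Icc 1 Z, |c d * (if (d : ℤ) ∣ m then 1 else 0)| := Finset.abs_sum_le_sum_abs _ _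
      _ ≤ ∑ d ∈ Icc 1 Z, (if d ∈ rr y m.natAbs then (1 : ℝ) else 0) := by
          refine Finset.sum_le_sum fun d _ => ?_
          by_cases hd : c d = 0
          · rw [hd, zero_mul, abs_zero]
            split_ifs <;> norm_num
          · by_cases hdm : (d : ℤ) ∣ m
            · rw [if_pos hdm, mul_one, if_pos]
              · exact hc1 d
              · exact mem_rr.mpr ⟨⟨Int.natCast_dvd.mp hdm, Int.natAbs_ne_zero.mpr hne⟩,
                  (hc2 d hd).2.2⟩
            · rw [if_neg hdm, mul_zero, abs_zero]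
              split_ifs <;> norm_num
      _ = (((Icc 1 Z).filter (fun d => d ∈ rr y m.natAbs)).card : ℝ) := by
          rw [Finset.sum_ite, Finset.sum_const_zero, add_zero, Finset.sum_const, nsmul_eq_mul,
            mul_one]
      _ ≤ ((rr y m.natAbs).card : ℝ) := by
          have : (Icc 1 Z).filter (fun d => d ∈ rr y m.natAbs) ⊆ rr y m.natAbs := fun d hd =>
            (Finset.mem_filter.1 hd).2
          exact_mod_cast Finset.card_le_card this
      _ ≤ (2 : ℝ) ^ k := by exact_mod_cast hk2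
      _ ≤ Real.exp k := h2k
      _ ≤ Real.exp (2 / ε + Real.log B * (1 / 4)) := Real.exp_le_exp.mpr hk4
      _ = Real.exp (2 / ε) * B ^ (1 / 4 : ℝ) := by
          rw [Real.exp_add, Real.rpow_def_of_pos (by positivity)]
  -- the sum of the reciprocals
  have hsum : |∑ d ∈ Icc 1 Z, c d * (1 / (d : ℝ))| ≤ Real.exp (5 / ε) := by
    classical
    set P : Finset ℕ := insert N (Pool.Agent.W23.DC.pr N ε 1) with hP
    set P' : Finset ℕ := P.filter Nat.Prime with hP'
    set T : Finset ℕ := (Icc 1 Z).filter (fun d => c d ≠ 0) with hT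
    have h1 : |∑ d ∈ Icc 1 Z, c d * (1 / (d : ℝ))| ≤ ∑ d ∈ T, 1 / (d : ℝ) := by
      refine (Finset.abs_sum_le_sum_abs _ _).trans ?_
      rw [hT, Finset.sum_filter]
      refine Finset.sum_le_sum fun d _ => ?_
      by_cases hd : c d = 0
      · rw [hd, zero_mul, abs_zero]
        simp
      · rw [if_pos hd, abs_mul]
        have h3 : |(1 / (d : ℝ))| = 1 / (d : ℝ) := abs_of_nonneg (by positivity)
        rw [h3]
        exact mul_le_of_le_one_left (by positivity) (hc1 d)
    have h2 : ∑ d ∈ T, 1 / (d : ℝ) ≤ Real.exp (∑ p ∈ P', 1 / (p : ℝ)) := by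
      apply sum_sqf_le P' (fun p hp => (Finset.mem_filter.1 hp).2) T
      intro d hd
      rw [hT, Finset.mem_filter, Finset.mem_Icc] at hd
      obtain ⟨⟨hd1, hd2⟩, hd3⟩ := hd
      obtain ⟨-, h3, h4⟩ := hc2 d hd3
      refine ⟨h3, fun p hp hpd => ?_⟩
      have h5 := h4 p hp hpd
      have h6 : p ≤ N := (Nat.le_of_dvd (by omega) hpd).trans (hd2.trans hZ)
      rw [hP', Finset.mem_filter, hP, Finset.mem_insert]
      refine ⟨?_, hp⟩
      rcases h6.eq_or_lt with h7 | h7
      · exact Or.inl h7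
      · right
        unfold Pool.Agent.W23.DC.pr
        rw [Finset.mem_filter, Finset.mem_Icc]
        have hp0 : (0 : ℝ) < p := by exact_mod_cast hp.pos
        refine ⟨⟨hp.one_lt.le, h6⟩, hp, ?_, ?_⟩
        · unfold Pool.Agent.W23.DC.tt
          rw [le_div_iff₀ hlog0, ← Real.log_rpow hN0]
          exact Real.log_le_log (by positivity) h5.le
        · unfold Pool.Agent.W23.DC.tt
          rw [div_lt_one hlog0]
          exact Real.log_lt_log hp0 (by exact_mod_cast h7)
    have h3 : ∑ p ∈ P', 1 / (p : ℝ) ≤ 3 / ε := by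
      have h4 := hN₁ N hNa ε 1 le_rfl hε1 le_rfl
      have h5 : ∑ p ∈ P', 1 / (p : ℝ) ≤ ∑ p ∈ P, (if p.Prime then 1 / (p : ℝ) else 0) := by
        rw [hP', Finset.sum_filter]
      have h6 : ∑ p ∈ P, (if p.Prime then 1 / (p : ℝ) else 0) ≤
          1 + ∑ p ∈ Pool.Agent.W23.DC.pr N ε 1, 1 / ((p : ℝ) - 1) := by
        have hle : ∀ p ∈ Pool.Agent.W23.DC.pr N ε 1, (if p.Prime then 1 / (p : ℝ) else 0) ≤
            1 / ((p : ℝ) - 1) := by
          intro p hp
          unfold Pool.Agent.W23.DC.pr at hp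
          have h7 := (Finset.mem_filter.1 hp).2.1
          have h8 : (2 : ℝ) ≤ p := by exact_mod_cast h7.two_le
          rw [if_pos h7]
          exact one_div_le_one_div_of_le (by linarith) (by linarith)
        have h0 : (if N.Prime then 1 / (N : ℝ) else 0) ≤ 1 := by
          split_ifs
          · rw [div_le_one hN0]; exact hN1'
          · norm_num
        rw [hP]
        by_cases hmem : N ∈ Pool.Agent.W23.DC.pr N ε 1
        · rw [Finset.insert_eq_of_mem hmem]
          have := Finset.sum_le_sum hle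
          linarith
        · rw [Finset.sum_insert hmem]
          exact add_le_add h0 (Finset.sum_le_sum hle)
      have h7 := (abs_le.1 h4).2
      have h8 : Real.log (1 / ε) ≤ 1 / ε - 1 := Real.log_le_sub_one_of_pos (by positivity)
      have h9 : 1 ≤ 1 / ε := by rw [le_div_iff₀ hε]; linarith
      have h10 : 3 / ε = 1 / ε + 2 * (1 / ε) := by ring
      rw [h10]
      linarith
    refine h1.trans (h2.trans (Real.exp_le_exp.2 (h3.trans ?_)))
    exact div_le_div_of_nonneg_right (by norm_num) hε.le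
  have hsplit : dc c Z m = ∑ d ∈ Icc 1 Z, c d * (if (d : ℤ) ∣ m then 1 else 0) -
      ∑ d ∈ Icc 1 Z, c d * (1 / (d : ℝ)) := by
    unfold dc BX.dl
    rw [← Finset.sum_sub_distrib]
    refine Finset.sum_congr rfl fun d _ => ?_
    ring
  rw [hsplit]
  refine (abs_sub _ _).trans ?_
  have h25 : Real.exp (2 / ε) ≤ Real.exp (5 / ε) :=
    Real.exp_le_exp.2 (div_le_div_of_nonneg_right (by norm_num) hε.le)
  have h58 : 2 * Real.exp (5 / ε) ≤ Real.exp (8 / ε) := by
    have h1 : 8 / ε = 5 / ε + 3 / ε := by ring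
    rw [h1, Real.exp_add, mul_comm]
    apply mul_le_mul_of_nonneg_left _ (Real.exp_pos _).le
    have h2 : (3 : ℝ) ≤ 3 / ε := by rw [le_div_iff₀ hε]; linarith
    have := Real.add_one_le_exp (3 / ε)
    linarith
  calc _ ≤ Real.exp (2 / ε) * B ^ (1 / 4 : ℝ) + Real.exp (5 / ε) := add_le_add hdiv hsum
    _ ≤ Real.exp (5 / ε) * B ^ (1 / 4 : ℝ) + Real.exp (5 / ε) * B ^ (1 / 4 : ℝ) := by
        apply add_le_add
        · exact mul_le_mul_of_nonneg_right h25 (by positivity)
        · exact le_mul_of_one_le_right (Real.exp_pos _).le hB4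
    _ = 2 * Real.exp (5 / ε) * B ^ (1 / 4 : ℝ) := by ring
    _ ≤ _ := mul_le_mul_of_nonneg_right h58 (by positivity)

end Pool.Agent.Y827.LS
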