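import Mathlib
import Pool.Agent.Y827.LS.Stm
import Pool.Agent.W378.DC.FA

/-! Project LS: well-factorable numbers of level `θ < 5 / 9` are factorable. -/

set_option autoImplicit false

namespace Pool.Agent.Y827.LS

open Finset
open Pool.Agent.W23.DC
open Pool.Agent.W378.DC.TFA

theorem fag : St_FAG := by
  intro N θ δ hN hθ hδ hδ1 hδ2 d hd1 hsq hwf
  have hN1 : (1 : ℝ) < N := by exact_mod_cast (by omega : 1 < N)
  have hN0 : (0 : ℝ) < N := by linarith
  have hlog : 0 < Real.log N := logN_pos hN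
  -- the size is at most `θ`
  set T : ℝ := sz (tt N) d with hT
  have hsz0 : ∀ u : ℕ, 0 ≤ sz (tt N) u := by
    intro u
    unfold sz
    apply Finset.sum_nonneg
    intro p _
    unfold tt
    exact div_nonneg (Real.log_natCast_nonneg p) hlog.le
  have hTθ : T ≤ θ := by
    obtain ⟨u, v, huv, hu, hv⟩ := hwf θ 0 (by linarith) le_rfl (by ring)
    have h1 : T = sz (tt N) u + sz (tt N) v := by
      rw [hT, ← huv]
      rw [← huv] at hsq
      exact sz_mul hsq
    linarith
  have hdT : (d : ℝ) = (N : ℝ) ^ T := rpow_eq hN hsq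
  rcases le_or_gt T (51 / 100) with h51 | h51
  · left
    rw [hdT]
    exact Real.rpow_le_rpow_of_exponent_le hN1.le h51
  · right
    refine ⟨hsq, ?_⟩
    set a : ℝ := 4 - 7 * T - δ with ha
    obtain ⟨u, v, huv, hu, hv⟩ := hwf a (θ - a) (by rw [ha]; linarith) (by rw [ha]; linarith)
      (by ring)
    have h1 : T = sz (tt N) u + sz (tt N) v := by
      rw [hT, ← huv]
      rw [← huv] at hsq
      exact sz_mul hsq
    have hsqu : Squarefree u := by
      rw [← huv] at hsq
      exact hsq.squarefree_of_dvd (dvd_mul_right u v)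
    have huT : (u : ℝ) = (N : ℝ) ^ (sz (tt N) u) := rpow_eq hN hsqu
    refine ⟨u, ⟨v, huv.symm⟩, ?_, ?_⟩
    · rw [hdT, huT, ← Real.rpow_natCast ((N : ℝ) ^ T) 2, ← Real.rpow_mul hN0.le,
        ← Real.rpow_add hN0]
      apply Real.rpow_le_rpow_of_exponent_le hN1.le
      push_cast
      rw [ha] at hv
      linarith
    · rw [hdT, huT, ← Real.rpow_natCast ((N : ℝ) ^ T) 7, ← Real.rpow_mul hN0.le,
        ← Real.rpow_add hN0]
      apply Real.rpow_le_rpow_of_exponent_le hN1.le
      push_cast
      rw [ha] at hu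
      linarith

end Pool.Agent.Y827.LS
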