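import Mathlib
import Pool.Agent.Y827.LS.Stm
import Pool.Agent.Y827.LS.Lsm
import Pool.Agent.Y827.LS.Fag
import Pool.Agent.W583.DC.FIF

/-! Project LS: cutting the linear sieve into blocks. -/

set_option autoImplicit false

namespace Pool.Agent.Y827.LS

open Finset Filter Topology
open Pool.Agent.H442R2
open Pool.Agent.W25.UB (ds RC Ex)

/-- the ends of the blocks -/
noncomputable def Dg (X : ℕ) (s : ℝ) (i : ℕ) : ℕ := ⌊(X : ℝ) ^ ((i : ℝ) * s)⌋₊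

open Classical in
/-- the part of `b` on the block `i` -/
noncomputable def cbk (b : ℕ → ℝ) (X : ℕ) (s : ℝ) (i d : ℕ) : ℝ :=
  if Dg X s i < d ∧ d ≤ Dg X s (i + 1) then b d else 0

theorem Dg_zero (X : ℕ) (s : ℝ) : Dg X s 0 = 1 := by
  unfold Dg
  simp

theorem Dg_mono {X : ℕ} (hX : 1 ≤ X) {s : ℝ} (hs : 0 ≤ s) : Monotone (Dg X s) := by
  intro i j hij
  unfold Dg
  apply Nat.floor_le_floor
  have h1 : (1 : ℝ) ≤ X := by exact_mod_cast hX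
  apply Real.rpow_le_rpow_of_exponent_le h1
  have h2 : (i : ℝ) ≤ j := by exact_mod_cast hij
  exact mul_le_mul_of_nonneg_right h2 hs

theorem Dg_one_le {X : ℕ} (hX : 1 ≤ X) {s : ℝ} (hs : 0 ≤ s) (i : ℕ) : 1 ≤ Dg X s i := by
  have h1 := Dg_mono hX hs (Nat.zero_le i)
  rwa [Dg_zero] at h1

theorem Dg_le {X : ℕ} (s : ℝ) (i : ℕ) : (Dg X s i : ℝ) ≤ (X : ℝ) ^ ((i : ℝ) * s) :=
  Nat.floor_le (Real.rpow_nonneg (Nat.cast_nonneg _) _)

theorem lt_Dg {X : ℕ} (s : ℝ) (i d : ℕ) (h : Dg X s i < d) : (X : ℝ) ^ ((i : ℝ) * s) < d :=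
  (Nat.floor_lt (Real.rpow_nonneg (Nat.cast_nonneg _) _)).1 h

theorem dc_cbk (b : ℕ → ℝ) {X : ℕ} (hX : 1 ≤ X) {s : ℝ} (hs : 0 ≤ s) (i : ℕ) (m : ℤ) :
    dc (cbk b X s i) (Dg X s (i + 1)) m = ∑ d ∈ Ioc (Dg X s i) (Dg X s (i + 1)), b d * BX.dl d m := by
  unfold dc cbk
  have h1 := Dg_one_le hX hs i
  have h2 : Ioc (Dg X s i) (Dg X s (i + 1)) ⊆ Icc 1 (Dg X s (i + 1)) := by
    intro d hd
    rw [Finset.mem_Ioc] at hd
    rw [Finset.mem_Icc]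
    omega
  rw [← Finset.sum_subset h2]
  · refine Finset.sum_congr rfl fun d hd => ?_
    rw [Finset.mem_Ioc] at hd
    rw [if_pos hd]
  · intro d hd1 hd2
    rw [Finset.mem_Ioc] at hd2
    rw [if_neg hd2, zero_mul]

theorem split0 (b : ℕ → ℝ) {X : ℕ} (hX : 1 ≤ X) {s : ℝ} (hs : 0 ≤ s) (n : ℕ) (m : ℤ) :
    ∑ d ∈ Icc 1 (Dg X s n), b d * BX.dl d m =
      ∑ i ∈ range n, dc (cbk b X s i) (Dg X s (i + 1)) m := by
  induction n with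
  | zero =>
    rw [Dg_zero, Finset.range_zero, Finset.sum_empty, Finset.Icc_self, Finset.sum_singleton]
    unfold BX.dl
    simp
  | succ n ih =>
    rw [Finset.sum_range_succ, ← ih, dc_cbk b hX hs]
    have h1 := Dg_one_le hX hs n
    have h2 := Dg_mono hX hs (Nat.le_succ n)
    have e1 : ∀ u : ℕ, Icc 1 u = Ioc 0 u := by
      intro u
      ext d
      rw [Finset.mem_Icc, Finset.mem_Ioc]
      omega
    rw [e1, e1]
    exact (Finset.sum_Ioc_consecutive _ (Nat.zero_le _) h2).symm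

/-- the linear sieve as a constant plus centred blocks -/
theorem split (b : ℕ → ℝ) {X : ℕ} (hX : 1 ≤ X) {s : ℝ} (hs : 0 ≤ s) (n : ℕ) (m : ℤ) :
    ds b (Dg X s n) m = ∑ d ∈ Icc 1 (Dg X s n), b d / d +
      ∑ i ∈ range n, dc (cbk b X s i) (Dg X s (i + 1)) m := by
  rw [← split0 b hX hs, ← Finset.sum_add_distrib]
  unfold ds
  refine Finset.sum_congr rfl fun d hd => ?_
  unfold BX.dl
  ring

/-- the level of the window `w` -/
noncomputable def Tw (κ₀ : ℝ) (w : ℕ) : ℝ := max (51 / 100) (((w : ℝ) + 1) * κ₀)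

/-- the conditions on one block -/
theorem cbk_ok {X : ℕ} (hX : 2 ≤ X) {θ δ κ₀ : ℝ} {n₀ m nb : ℕ} (hn₀ : 1 ≤ n₀)
    (hκ₀ : κ₀ = 1 / (100 * n₀)) (hm : 1 ≤ m) (hθ : 1 / 2 ≤ θ) (hδ : 0 < δ) (hδ1 : δ ≤ 1 / 100)
    (hδ2 : 2 * δ ≤ 5 - 9 * θ) (hκδ : κ₀ ≤ δ / 14) {y : ℝ} {Cl : Finset ℕ} {b : ℕ → ℝ}
    (hb1 : ∀ d, |b d| ≤ 1)
    (hbs : ∀ d, b d ≠ 0 → 1 ≤ d ∧ Squarefree d ∧
      (∀ p : ℕ, p.Prime → p ∣ d → y < (p : ℝ) ∧ p ∉ Cl) ∧
      Pool.Agent.W23.DC.WFac (Pool.Agent.W23.DC.tt X) θ d) (i : ℕ) (hi : i < nb)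
    (hnb : (nb : ℝ) * (κ₀ / m) ≤ θ) :
    (∀ d, |cbk b X (κ₀ / m) i d| ≤ 1) ∧
    ((Dg X (κ₀ / m) (i + 1) : ℕ) : ℝ) ≤ (X : ℝ) ^ θ ∧
    ((Dg X (κ₀ / m) (i + 1) : ℕ) : ℝ) ≤ (X : ℝ) ^ Tw κ₀ (i / m) ∧
    1 ≤ Dg X (κ₀ / m) i ∧
    (∀ d, cbk b X (κ₀ / m) i d ≠ 0 → Dg X (κ₀ / m) i < d) ∧
    RC (fun p => p ∈ Cl) y (Dg X (κ₀ / m) (i + 1)) (cbk b X (κ₀ / m) i) ∧
    (∀ d, cbk b X (κ₀ / m) i d ≠ 0 → 1 < d ∧ Squarefree d ∧ ∀ p : ℕ, p.Prime → p ∣ d →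
      y < (p : ℝ)) ∧
    Pool.Agent.W23.PL.Fc X (Tw κ₀ (i / m)) (δ / 2) (cbk b X (κ₀ / m) i)
      (cbk b X (κ₀ / m) i) := by
  classical
  have hn0 : (1 : ℝ) ≤ n₀ := by exact_mod_cast hn₀
  have hm0 : (1 : ℝ) ≤ m := by exact_mod_cast hm
  have hκp : 0 < κ₀ := by rw [hκ₀]; positivity
  have hs : 0 < κ₀ / m := by positivity
  have hX1 : (1 : ℝ) < X := by exact_mod_cast (by omega : 1 < X)
  have hX0 : (0 : ℝ) < X := by linarith
  have hD1 := Dg_one_le (by omega : 1 ≤ X) hs.le i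
  have hci : ∀ d, cbk b X (κ₀ / m) i d ≠ 0 → b d ≠ 0 ∧ Dg X (κ₀ / m) i < d ∧
      d ≤ Dg X (κ₀ / m) (i + 1) := by
    intro d hd
    unfold cbk at hd
    by_cases h1 : Dg X (κ₀ / m) i < d ∧ d ≤ Dg X (κ₀ / m) (i + 1)
    · rw [if_pos h1] at hd
      exact ⟨hd, h1.1, h1.2⟩
    · rw [if_neg h1] at hd
      exact absurd rfl hd
  have hc1 : ∀ d, |cbk b X (κ₀ / m) i d| ≤ 1 := by
    intro d
    unfold cbk
    split_ifs
    · exact hb1 d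
    · rw [abs_zero]; exact zero_le_one
  have hi1 : (i : ℝ) + 1 ≤ ((i / m : ℕ) + 1 : ℝ) * m := by
    have h1 : i < (i / m + 1) * m := by
      have h2 := Nat.div_add_mod i m
      have h3 := Nat.mod_lt i (by omega : 0 < m)
      calc i = m * (i / m) + i % m := h2.symm
        _ < m * (i / m) + m := by omega
        _ = (i / m + 1) * m := by ring
    have h4 : i + 1 ≤ (i / m + 1) * m := h1
    exact_mod_cast h4
  have hi2 : ((i / m : ℕ) : ℝ) * m ≤ i := by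
    have h1 : i / m * m ≤ i := Nat.div_mul_le_self i m
    exact_mod_cast h1
  have hinb : (i : ℝ) + 1 ≤ nb := by exact_mod_cast hi
  refine ⟨hc1, ?_, ?_, hD1, fun d hd => (hci d hd).2.1, ⟨hc1, ?_⟩, ?_, ?_⟩
  · refine (Dg_le _ _).trans ?_
    apply Real.rpow_le_rpow_of_exponent_le hX1.le
    push_cast
    calc ((i : ℝ) + 1) * (κ₀ / m) ≤ nb * (κ₀ / m) := by gcongr
      _ ≤ θ := hnb
  · refine (Dg_le _ _).trans ?_
    apply Real.rpow_le_rpow_of_exponent_le hX1.le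
    unfold Tw
    refine le_trans ?_ (le_max_right _ _)
    push_cast
    calc ((i : ℝ) + 1) * (κ₀ / m) ≤ (((i / m : ℕ) + 1 : ℝ) * m) * (κ₀ / m) := by gcongr
      _ = _ := by field_simp
  · intro d hd
    obtain ⟨h1, h2, h3⟩ := hci d hd
    obtain ⟨h4, -, h5, -⟩ := hbs d h1
    exact ⟨h4, h3, fun p hp hpd => h5 p hp hpd⟩
  · intro d hd
    obtain ⟨h1, h2, h3⟩ := hci d hd
    obtain ⟨h4, h6, h5, -⟩ := hbs d h1
    exact ⟨by omega, h6, fun p hp hpd => (h5 p hp hpd).1⟩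
  · unfold Pool.Agent.W23.PL.Fc
    by_cases h51 : (((i / m : ℕ) : ℝ) + 1) * κ₀ ≤ 51 / 100
    · left
      unfold Tw
      rw [max_eq_left h51]
    · right
      push Not at h51
      have hT : Tw κ₀ (i / m) = (((i / m : ℕ) : ℝ) + 1) * κ₀ := by
        unfold Tw
        rw [max_eq_right h51.le]
      have hw : (51 / 100 : ℝ) ≤ ((i / m : ℕ) : ℝ) * κ₀ := by
        rw [hκ₀, mul_one_div, lt_div_iff₀ (by positivity)] at h51
        have h1 : ((51 * n₀ : ℕ) : ℝ) < ((i / m + 1 : ℕ) : ℝ) := by push_cast; linarith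
        have h2 : 51 * n₀ < i / m + 1 := by exact_mod_cast h1
        have h3 : 51 * n₀ ≤ i / m := by omega
        have h4 : ((51 * n₀ : ℕ) : ℝ) ≤ ((i / m : ℕ) : ℝ) := by exact_mod_cast h3
        push_cast at h4
        rw [hκ₀, mul_one_div, le_div_iff₀ (by positivity)]
        linarith
      have key : ∀ d, cbk b X (κ₀ / m) i d ≠ 0 →
          FX.FacD X (Tw κ₀ (i / m)) (δ / 2) d := by
        intro d hd
        obtain ⟨h1, h2, h3⟩ := hci d hd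
        obtain ⟨h4, h6, -, h7⟩ := hbs d h1
        have h8 : (X : ℝ) ^ (((i / m : ℕ) : ℝ) * κ₀) < d := by
          refine lt_of_le_of_lt ?_ (lt_Dg _ _ _ h2)
          apply Real.rpow_le_rpow_of_exponent_le hX1.le
          calc ((i / m : ℕ) : ℝ) * κ₀ = (((i / m : ℕ) : ℝ) * m) * (κ₀ / m) := by field_simp
            _ ≤ _ := by gcongr
        have h9 : (X : ℝ) ^ (51 / 100 : ℝ) < d :=
          lt_of_le_of_lt (Real.rpow_le_rpow_of_exponent_le hX1.le hw) h8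
        have h10 : Pool.Agent.W23.DC.FacO X δ d := by
          rcases fag X θ δ hX hθ hδ hδ1 hδ2 d h4 h6 h7 with h | h
          · exact absurd h9 (not_lt.2 h)
          · exact h
        apply Pool.Agent.W583.DC.facD_of_facO X (by omega) (Tw κ₀ (i / m)) δ κ₀ hκp hκδ d _ h10
        rw [hT]
        have e : (((i / m : ℕ) : ℝ) + 1) * κ₀ - κ₀ = ((i / m : ℕ) : ℝ) * κ₀ := by ring
        rw [e]
        exact h8
      exact ⟨key, key⟩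

theorem R2BAt.mono {𝒮 : ℤ → Prop} {θ δ ε₀ η ε₀' η' : ℝ} (h : R2BAt 𝒮 θ δ ε₀ η)
    (h1 : ε₀' ≤ ε₀) (h2 : η' ≤ η) : R2BAt 𝒮 θ δ ε₀' η' := by
  intro ε₁ hε₁ hε₁'
  obtain ⟨η₁, hη₁, H⟩ := h ε₁ hε₁ hε₁'
  refine ⟨η₁, hη₁, fun U hU => ?_⟩
  obtain ⟨C, hC, H⟩ := H U hU
  refine ⟨C, hC, ?_⟩
  intro X D0 Z hX hZ hD0 hZD S Cl Y R y Φ m hy hS hEx hR hY
  have hX1 : (1 : ℝ) ≤ X := by exact_mod_cast (by omega : 1 ≤ X)
  have h3 : (X : ℝ) ^ ε₀' ≤ (X : ℝ) ^ ε₀ := Real.rpow_le_rpow_of_exponent_le hX1 h1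
  exact H X D0 Z hX hZ hD0 (hZD.trans (mul_le_mul_of_nonneg_right h3 (Nat.cast_nonneg _))) S Cl Y R
    y Φ m hy hS hEx (hR.trans (Real.rpow_le_rpow_of_exponent_le hX1 (by linarith)))
    (hY.trans (Real.rpow_le_rpow_of_exponent_le hX1 h2))

/-- common constants for finitely many levels -/
theorem r2all {𝒮 : ℤ → Prop} (hR2B : St_R2B 𝒮) (δ : ℝ) (hδ : 0 < δ) (T : ℕ → ℝ) (n : ℕ)
    (hT : ∀ w < n, 0 < T w ∧ T w < 5 / 9) : ∃ ε₀ η : ℝ, 0 < ε₀ ∧ ε₀ ≤ 1 / 100 ∧ 0 < η ∧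
    η ≤ 1 / 100 ∧ ∀ w < n, R2BAt 𝒮 (T w) δ ε₀ η := by
  induction n with
  | zero => exact ⟨1 / 100, 1 / 100, by norm_num, by norm_num, by norm_num, by norm_num,
      fun w hw => absurd hw (Nat.not_lt_zero _)⟩
  | succ n ih =>
    obtain ⟨ε₀, η, h1, h2, h3, h4, h5⟩ := ih (fun w hw => hT w (by omega))
    obtain ⟨hT1, hT2⟩ := hT n (by omega)
    obtain ⟨ε₀', η', g1, g2, g3, g4, g5⟩ := hR2B (T n) δ hT1 hT2 hδ
    refine ⟨min ε₀ ε₀', min η η', lt_min h1 g1, (min_le_left _ _).trans h2, lt_min h3 g3,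
      (min_le_left _ _).trans h4, fun w hw => ?_⟩
    rcases Nat.lt_succ_iff_lt_or_eq.1 hw with h | h
    · exact (h5 w h).mono (min_le_left _ _) (min_le_left _ _)
    · rw [h]
      exact g5.mono (min_le_right _ _) (min_le_right _ _)

end Pool.Agent.Y827.LS
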