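import Mathlib
import Pool.Agent.Y827.LS.Split
import Pool.Agent.Y827.LS.BlkA
import Pool.Agent.Y827.LS.Den
import Pool.Agent.Y827.LS.FLC3
import Pool.Agent.Y827.LS.Rcx
import Pool.Agent.TH899.UG.DatH

/-! Project LS: existence of the data. -/

set_option autoImplicit false

namespace Pool.Agent.Y827.LS

open Finset Filter Topology
open Pool.Agent.H410R2 hiding GP GP_prof GP_cut_some GP_cut_none GP_lip gg_pos gg_le_one gg_anti ee_bound ee_nonneg gg_lip LB_gg LB_ee Sums exists_sums yx wx wxi Br sum_GP_none sum_GP_some sum_GP_some_ee sum_GP_some_one sum_GPr_none sum_GPr_some S1_final QI_final S2_final w_abs_le wmax gg ee I1 I2 IE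
open Pool.Agent.H361R2.GM
open Pool.Agent.H362R2.CM
open Pool.Agent.W25.UN
open Pool.Agent.W25.UB
open Pool.Agent.TH899.UG
open Pool.Agent.W565.UB Pool.Agent.W565.UB.Dat
open Pool.Agent.W804.UBUD
open Pool.Agent.H442R2.KF (Wt)
open Pool.Agent.W23.PL (DW Ev hat xx)
open Pool.Agent.W89.UBMAS (grow)

/-- all the data at `N` -/
structure DatL {k : ℕ} (Q : SPar) (α h : Fin k → ℤ) (Mo : ℕ) (θ ε₁ ρ ρ₁ ε η CR κ g0 : ℝ)
    (nb A E₁ D B N v D₁ Z : ℕ) (Tr : ℤ → ℝ) (t : ℝ) (th dl b : ℕ → ℝ) (Zb : ℕ → ℕ)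
    (cb : ℕ → ℕ → ℝ) : Prop where
  dB : DatB Q α h Mo ε₁ ρ ρ₁ ε A E₁ D B N v D₁ Tr t th dl
  hdl : |hat dl D₁| ≤ κ * Pool.Agent.W23.PL.VV (PtF α h Mo N B ε₁)
  gle : gB α h Mo N B ε₁ ρ ≤ ρ / ε₁
  β0 : 0 ≤ ∑ d ∈ Icc 1 Z, b d / (d : ℝ)
  β1 : ∑ d ∈ Icc 1 Z, b d / (d : ℝ) ≤ 1
  vg : (∑ d ∈ Icc 1 Z, b d / (d : ℝ)) * gB α h Mo N B ε₁ ρ ≤ g0
  bn : ∀ m : ℤ, 0 ≤ ds b Z m
  bo : ∀ m : ℤ, (∀ p : ℕ, p.Prime → (p : ℝ) ≤ ((2 * N : ℕ) : ℝ) ^ θ → ¬ (p : ℤ) ∣ m) →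
    ds b Z m = 1
  sp : ∀ m : ℤ, ds b Z m = ∑ d ∈ Icc 1 Z, b d / (d : ℝ) + ∑ i ∈ range nb, dc (cb i) (Zb i) m
  blk : ∀ i < nb, BlkC α h Mo ε₁ ρ ρ₁ θ η CR A E₁ D B N v D₁ Tr (Zb i) (cb i)
  big : 4 * CR * ((2 * N : ℕ) : ℝ) ^ (η + θ) ≤ ((2 * N : ℕ) : ℝ) / (Real.log N) ^ A

theorem GG1 (P : Finset ℕ) : GG P 1 = 1 := by
  classical
  unfold GG
  have e : Pool.Agent.W25.UB.sq P 1 = {1} := by
    unfold Pool.Agent.W25.UB.sq
    ext d
    rw [Finset.mem_filter, Finset.mem_Icc, Finset.mem_singleton]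
    constructor
    · rintro ⟨h1, -⟩
      omega
    · rintro rfl
      refine ⟨⟨le_rfl, le_rfl⟩, squarefree_one, fun p hp h1 => ?_⟩
      exact absurd (Nat.dvd_one.1 h1) hp.one_lt.ne'
  rw [e, Finset.sum_singleton, Nat.totient_one, Nat.cast_one, div_one]

theorem MasAtF_mono {k : ℕ} {α h : Fin k → ℤ} {Mo : ℕ} {ε₀ ε₁ r M : ℝ} {A E₁ D N v D₁ : ℕ}
    {P Pt : Finset ℕ} {Tr : ℤ → ℝ} {t : ℝ} (hN : 1 ≤ N)
    (H : MasAtF α h Mo ε₀ ε₁ r M A E₁ D N v D₁ P Pt Tr t) (ε₀' : ℝ) (hε : ε₀' ≤ ε₀) :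
    MasAtF α h Mo ε₀' ε₁ r M A E₁ D N v D₁ P Pt Tr t := by
  intro X Z c j j' th th' b b' hX hZ
  refine H X Z c j j' th th' b b' hX (hZ.trans ?_)
  have hX1 : (1 : ℝ) ≤ X := by
    rcases hX with h | h <;> rw [h] <;> exact_mod_cast (by omega)
  exact Real.rpow_le_rpow_of_exponent_le hX1 (by linarith)

theorem exp_cube {A₀ ε₁ : ℝ} (hA : 2 ≤ A₀) (hε : 0 < ε₁) : Real.exp (-(A₀ / ε₁)) ≤ ε₁ ^ 3 := by
  have h1 : (A₀ / ε₁) ^ 3 / 6 ≤ Real.exp (A₀ / ε₁) := by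
    have h2 := Real.pow_div_factorial_le_exp (A₀ / ε₁) (by positivity) 3
    have h3 : ((Nat.factorial 3 : ℕ) : ℝ) = 6 := by norm_num [Nat.factorial]
    rw [h3] at h2
    exact h2
  rw [Real.exp_neg]
  have h4 : 0 < (A₀ / ε₁) ^ 3 / 6 := by positivity
  calc (Real.exp (A₀ / ε₁))⁻¹ ≤ ((A₀ / ε₁) ^ 3 / 6)⁻¹ := inv_anti₀ h4 h1
    _ = 6 / A₀ ^ 3 * ε₁ ^ 3 := by field_simp
    _ ≤ 1 * ε₁ ^ 3 := by
        apply mul_le_mul_of_nonneg_right _ (by positivity)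
        rw [div_le_one (by positivity)]
        have : (2 : ℝ) ^ 3 ≤ A₀ ^ 3 := pow_le_pow_left₀ (by norm_num) hA 3
        linarith
    _ = ε₁ ^ 3 := one_mul _

theorem exp_gamma_lt : Real.exp Real.eulerMascheroniConstant < 2 := by
  have h1 := Real.eulerMascheroniConstant_lt_two_thirds
  have h2 : Real.exp Real.eulerMascheroniConstant < Real.exp (2 / 3) := Real.exp_lt_exp.2 h1
  have h3 : Real.exp (2 / 3) ≤ 2 := by
    have h4 := Real.log_two_gt_d9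
    have h5 : Real.exp (2 / 3) ≤ Real.exp (Real.log 2) := Real.exp_le_exp.2 (by linarith)
    rwa [Real.exp_log (by norm_num)] at h5
  linarith

theorem Wt_mono24 (N : ℕ) (hN : 1 ≤ N) (n : ℤ) : Wt (2 * N) n ≤ Wt (4 * N) n := by
  unfold Wt
  apply Real.exp_le_exp.2
  have hN0 : (0 : ℝ) < ((2 * N : ℕ) : ℝ) := by exact_mod_cast (by omega : 0 < 2 * N)
  have h1 : ((4 * N : ℕ) : ℝ) = 2 * ((2 * N : ℕ) : ℝ) := by push_cast; ring
  rw [h1]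
  have h2 : ((n : ℝ) / (2 * ((2 * N : ℕ) : ℝ))) ^ 2 ≤ ((n : ℝ) / ((2 * N : ℕ) : ℝ)) ^ 2 := by
    rw [div_pow, div_pow]
    apply div_le_div_of_nonneg_left (sq_nonneg _) (by positivity)
    apply pow_le_pow_left₀ hN0.le
    linarith
  have h3 := Real.pi_pos
  have h4 := mul_le_mul_of_nonneg_left h2 h3.le
  have h5 : ((4 * N : ℕ) : ℝ) = 2 * ((2 * N : ℕ) : ℝ) := h1
  simp only [neg_mul]
  exact neg_le_neg h4

theorem eps_alg {ε : ℝ} (hε : 0 < ε) (hε3 : ε < 1 / 3) : (1 + ε / 3) ^ 2 ≤ 1 / (1 - ε) := by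
  rw [le_div_iff₀ (by linarith)]
  nlinarith [mul_pos hε hε, mul_pos (mul_pos hε hε) hε]

theorem datL {𝒮 : ℤ → Prop} (hR2B : St_R2B 𝒮)
    (hR2 : ∃ ε₀ η : ℝ, 0 < ε₀ ∧ ε₀ ≤ 1 / 100 ∧ 0 < η ∧ η ≤ 1 / 100 ∧ R2LAt ε₀ η)
    (hEXM : St_EXM) (hGAU : St_GAU) (hFT3 : St_FT3)
    (hBPS : St_BPS) (hFLC : St_FLC3) (hSUM : St_SUM)
    (hMAS : St_MASH) (hVLN : St_VLNF) (hNWL : St_NWL) (hSd : SdLZ)
    (θ δ : ℝ) (J n₀ : ℕ) (hn₀ : 1 ≤ n₀) (hθJ : θ = J * (1 / (100 * (n₀ : ℝ)))) (hθ : 51 / 100 ≤ θ)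
    (hθ' : θ < 5 / 9) (hδ : 0 < δ) (hκδ : 1 / (100 * (n₀ : ℝ)) ≤ δ / 14) (hδ2 : 2 * δ ≤ 5 - 9 * θ)
    (hδ1 : δ ≤ 1 / 100) (A₀ c₁ : ℝ) (hA₀ : 2 ≤ A₀)
    (hRCX : ∀ ε : ℝ, 0 < ε → ε ≤ 1 → ∀ U : ℕ, 1 ≤ U → ∃ N₀ : ℕ,
      ∀ N Z : ℕ, N₀ ≤ N → Z ≤ N → ∀ c : ℕ → ℝ, (∀ d, |c d| ≤ 1) →
      (∀ d, c d ≠ 0 → 1 < d ∧ Squarefree d ∧ ∀ p : ℕ, p.Prime → p ∣ d → (N : ℝ) ^ ε < (p : ℝ)) →
      ∀ u w n : ℤ, |u| ≤ U → |(w : ℝ)| ≤ 2 * U * N → u * n + w ≠ 0 →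
      |dc c Z (u * n + w)| ≤ Real.exp (c₁ / ε) * (1 + |(n : ℝ)| / N) ^ (1 / 4 : ℝ)) :
    ∃ (nb : ℕ) (η₀ εs : ℝ), 0 < η₀ ∧ 0 < εs ∧ ∀ ε₁ : ℝ, 0 < ε₁ → ε₁ ≤ εs →
    ∀ (k : ℕ) (Q : SPar) (ρ ρ₁ ε : ℝ), 3 ≤ k → 0 < ρ → ρ < ρ₁ →
    2 * ρ₁ ≤ ε₁ → 3 * ρ ≤ η₀ → 0 < ε → ε < 1 / 3 → ε < Q.I1 → ε < Q.I2 → ∃ B₀ : ℕ, 6 ≤ B₀ ∧
    ∀ B : ℕ, B₀ ≤ B → ∀ D : ℕ, 2 * (k + 1) ≤ D → ∀ (α : Fin k → ℤ), (∀ i, 𝒮 (α i)) →
    (∀ i, α i ≠ 0) → (∀ i, (α i).natAbs ≤ D) → ∀ᶠ N : ℕ in atTop, ∀ (h : Fin k → ℤ) (Mo : ℕ),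
    HB h Mo N → Nd α h Mo → ∀ v : ℕ,
    ∃ (η : ℝ) (A E₁ D₁ Z : ℕ) (Tr : ℤ → ℝ) (t : ℝ) (th dl b : ℕ → ℝ) (Zb : ℕ → ℕ)
      (cb : ℕ → ℕ → ℝ), DatL Q α h Mo θ ε₁ ρ ρ₁ ε η (Real.exp (c₁ / ε₁)) (Real.exp (-(A₀ / ε₁)))
        (g0c (4 * θ - 2) ρ ε) nb A E₁ D B N v D₁ Z Tr t th dl b Zb cb := by
  classical
  obtain ⟨κ₀, hκ₀⟩ : ∃ κ₀ : ℝ, κ₀ = 1 / (100 * (n₀ : ℝ)) := ⟨_, rfl⟩
  rw [← hκ₀] at hθJ hκδ
  have hn₀r : (1 : ℝ) ≤ n₀ := by exact_mod_cast hn₀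
  have hκ₀p : 0 < κ₀ := by rw [hκ₀]; positivity
  have hJ1 : 1 ≤ J := by
    by_contra h
    have : J = 0 := by omega
    rw [this, Nat.cast_zero, zero_mul] at hθJ
    linarith
  have hTw : ∀ w : ℕ, w < J → 0 < Tw κ₀ w ∧ Tw κ₀ w < 5 / 9 := by
    intro w hw
    unfold Tw
    refine ⟨lt_of_lt_of_le (by norm_num) (le_max_left _ _), max_lt (by norm_num) ?_⟩
    have h1 : (w : ℝ) + 1 ≤ J := by exact_mod_cast hw
    calc ((w : ℝ) + 1) * κ₀ ≤ J * κ₀ := by gcongr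
      _ = θ := hθJ.symm
      _ < 5 / 9 := hθ'
  obtain ⟨e0, η, he0, he0', hη, hη', hRB⟩ := r2all hR2B (δ / 2) (by linarith) (Tw κ₀) J hTw
  obtain ⟨eR, ηR, heR, heR', hηR, hηR', hRR⟩ := hR2
  obtain ⟨η₀, hη₀d⟩ : ∃ η₀ : ℝ, η₀ = min (min e0 eR) (min η ηR) / 160 := ⟨_, rfl⟩
  have hmin1 : min (min e0 eR) (min η ηR) ≤ e0 := (min_le_left _ _).trans (min_le_left _ _)
  have hmin2 : min (min e0 eR) (min η ηR) ≤ eR := (min_le_left _ _).trans (min_le_right _ _)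
  have hmin3 : min (min e0 eR) (min η ηR) ≤ η := (min_le_right _ _).trans (min_le_left _ _)
  have hmin4 : min (min e0 eR) (min η ηR) ≤ ηR := (min_le_right _ _).trans (min_le_right _ _)
  have hminp : 0 < min (min e0 eR) (min η ηR) := lt_min (lt_min he0 heR) (lt_min hη hηR)
  have hη0 : 0 < η₀ := by rw [hη₀d]; positivity
  obtain ⟨m, hmd⟩ : ∃ m : ℕ, m = ⌈2 * κ₀ / e0⌉₊ + 1 := ⟨_, rfl⟩
  have hm1 : 1 ≤ m := by omega
  have hm1r : (1 : ℝ) ≤ m := by exact_mod_cast hm1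
  have hsm : κ₀ / m ≤ e0 / 2 := by
    have h1 : 2 * κ₀ / e0 ≤ m := by
      rw [hmd]
      push_cast
      have := Nat.le_ceil (2 * κ₀ / e0)
      linarith
    rw [div_le_iff₀ he0] at h1
    rw [div_le_iff₀ (by linarith)]
    linarith
  have hsp : 0 < κ₀ / m := by positivity
  have hnb : ((J * m : ℕ) : ℝ) * (κ₀ / m) = θ := by
    rw [hθJ]
    push_cast
    field_simp
  obtain ⟨εf, hεf, hFL⟩ := hFLC η₀ A₀ hη0 (by linarith)
  refine ⟨J * m, η₀, min εf (1 / 16), hη0, lt_min hεf (by norm_num), ?_⟩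
  intro ε₁ h1 h1' k Q ρ ρ₁ ε hk hρ hρρ hρ₁ h3ρ hε hε3 hI1 hI2
  have h1f : ε₁ ≤ εf := h1'.trans (min_le_left _ _)
  have h16 : ε₁ ≤ 1 / 16 := h1'.trans (min_le_right _ _)
  obtain ⟨E, hM⟩ := hMAS eR ηR heR heR' hηR hηR' hRR k
  have hMB : ∀ w : ℕ, ∃ E : ℕ, w < J → ∀ (ε₁ η₀ r : ℝ) (A E₁ B D : ℕ) (α : Fin k → ℤ), 0 < ε₁ →
      ε₁ ≤ 1 → 0 < η₀ → 0 < r → 16 * r ≤ e0 / 10 → 16 * r ≤ η → 16 * η₀ ≤ e0 / 10 → 16 * η₀ ≤ η →
      E + 2 * E₁ + A ≤ B → 2 * (k + 1) ≤ D → (∀ i, 𝒮 (α i)) → (∀ i, α i ≠ 0) →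
      (∀ i, (α i).natAbs ≤ D) → ∀ᶠ N : ℕ in atTop, ∀ (h : Fin k → ℤ) (Mo : ℕ), HB h Mo N →
      Nd α h Mo →
      ∀ (v D₁ : ℕ) (P Pt : Finset ℕ) (Tr : ℤ → ℝ) (t : ℝ), D₁ = ⌊((2 * N : ℕ) : ℝ) ^ η₀⌋₊ →
      (∀ p ∈ P ∪ Pt, Gd (uB α) (wB h Mo) p ∧ DB (2 * N) B < p ∧
        (p : ℝ) ≤ ((2 * N : ℕ) : ℝ) ^ ε₁) →
      Ex (fun p => D < p ∧ p ≤ DB (2 * N) B) ((N : ℝ) ^ η₀) ((N : ℝ) ^ η₀) Tr t → |t| ≤ 2 →
      BlkAt (Tw κ₀ w) (δ / 2) e0 η α h Mo ε₁ r A E₁ D N v D₁ P Pt Tr := by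
    intro w
    by_cases hw : w < J
    · obtain ⟨E, hE⟩ := masB hEXM hGAU hFT3 𝒮 (Tw κ₀ w) (δ / 2) e0 η he0 he0' hη hη' (hRB w hw) k
      exact ⟨E, fun _ => hE⟩
    · exact ⟨0, fun h => absurd h hw⟩
  choose EB hEB using hMB
  obtain ⟨mm, hprod⟩ := prods_le 4 (by norm_num)
  obtain ⟨E', hE'⟩ : ∃ E' : ℕ, E' = E + ∑ w ∈ range J, EB w := ⟨_, rfl⟩
  have hEB' : ∀ w < J, EB w ≤ E' := by
    intro w hw
    have := Finset.single_le_sum (f := EB) (fun i _ => Nat.zero_le _) (Finset.mem_range.2 hw)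
    omega
  refine ⟨max 6 (E' + 2 * (mm * 6) + 12), le_max_left _ _, ?_⟩
  intro B hB D hD α h𝒮 hα hαD
  have hB6 : 6 ≤ B := (le_max_left _ _).trans hB
  have hBE : E' + 2 * (mm * 6) + 12 ≤ B := (le_max_right _ _).trans hB
  have hD8 : 8 ≤ D := by omega
  have hρ1 : ρ₁ ≤ 1 / 4 := by linarith
  obtain ⟨C', hCev⟩ := clH k α
  have eS := hSUM Q (k + 1) ε ρ ρ₁ (|C'| + 1) B hε hρ hρρ (by omega)
  have eM := hM ε₁ η₀ (3 * ρ) 1 12 (mm * 6) B D α h1 (by linarith) hη0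
    (by linarith) (by linarith) (by linarith) (by linarith) (by linarith) le_rfl (by omega) hD hα hαD
  have eB : ∀ᶠ N : ℕ in atTop, ∀ w ∈ range J, ∀ (h : Fin k → ℤ) (Mo : ℕ), HB h Mo N →
      Nd α h Mo →
      ∀ (v D₁ : ℕ) (P Pt : Finset ℕ) (Tr : ℤ → ℝ) (t : ℝ), D₁ = ⌊((2 * N : ℕ) : ℝ) ^ η₀⌋₊ →
      (∀ p ∈ P ∪ Pt, Gd (uB α) (wB h Mo) p ∧ DB (2 * N) B < p ∧
        (p : ℝ) ≤ ((2 * N : ℕ) : ℝ) ^ ε₁) →
      Ex (fun p => D < p ∧ p ≤ DB (2 * N) B) ((N : ℝ) ^ η₀) ((N : ℝ) ^ η₀) Tr t → |t| ≤ 2 →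
      BlkAt (Tw κ₀ w) (δ / 2) e0 η α h Mo ε₁ (3 * ρ) 12 (mm * 6) D N v D₁ P Pt Tr := by
    rw [Filter.eventually_all_finset]
    intro w hw
    have hwJ := Finset.mem_range.1 hw
    have := hEB' w hwJ
    exact hEB w hwJ ε₁ η₀ (3 * ρ) 12 (mm * 6) B D α h1 (by linarith) hη0
      (by linarith) (by linarith) (by linarith) (by linarith) (by linarith) (by omega) hD h𝒮 hα hαD
  have eV := hVLN k B D ε₁ ρ (by omega) hD h1 (by linarith) hρ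
  have eV10 := hVLN k B D ε₁ (ρ / 10) (by omega) hD h1 (by linarith) (by linarith)
  obtain ⟨N1, hBP⟩ := hBPS k (B + 1) 2 η₀ hη0
  obtain ⟨N2, hFL2⟩ := hFL ε₁ h1 h1f B hB6
  obtain ⟨N3, hLS⟩ := lsm θ (ε / 3) ε₁ (by linarith) (by linarith) (by linarith) h1 (by linarith)
  obtain ⟨N4, hDE⟩ := den B ε₁ (ε / 3) (by omega) h1 (by linarith) (by linarith)
  obtain ⟨N5, hRX⟩ := hRCX ε₁ h1 (by linarith) D (by omega)
  have ebig := grow 12 (1 - (η + θ)) (4 * Real.exp (c₁ / ε₁)) (by linarith)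
  have ehalf := grow 0 (e0 / 2) 2 (by linarith)
  obtain ⟨L₀, hL₀⟩ : ∃ L₀ : ℝ, 0 < Br2 Q k ε → ∀ (L b : ℝ) (D' : ℕ) (P : Finset ℕ) (i j : Fin k)
    (Lf : Option (Fin k) → ℕ → ℕ), SieveData (IP P) (Option (Fin k)) (prP P) Lf 1 →
    L₀ ≤ L → L ^ 2 ≤ (D' : ℝ) → (∀ p ∈ P, p.Prime ∧ D' < p) → 0 < BD D' → b = BD D' * L →
    SumsN Q D' ε (k + 1) L P → i ≠ j →
    (1 - ε) ^ 4 * (b * (Q.I1 - ε)) ^ 4 / (b * (1 + ε)) ^ 2 * (b * (1 - ε)) *
      (b / 48 * b ^ (k - 2) * Br2 Q k ε) ≤ Q1f (prP P) (cw (prP P) (zB Q k P L i j)) := by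
    by_cases hb : 0 < Br2 Q k ε
    · obtain ⟨L₀, hL⟩ := hNWL k Q ε hε hε3 hI1 hI2 hb
      exact ⟨L₀, fun _ => hL⟩
    · exact ⟨0, fun h => absurd h hb⟩
  filter_upwards [hCev, eS, eM, eB, eV, eV10, hprod, ebig, ehalf,
    eventually_ge_atTop N1, eventually_ge_atTop N2, eventually_ge_atTop N3,
    eventually_ge_atTop N4, eventually_ge_atTop N5, eventually_ge_atTop 64, evlog 2,
    evlog (1 / ε), evlog (L₀ / ρ), evlog (96 * ((WW D / 2 : ℕ) : ℝ) / ε), evlog (|C'| + 1),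
    evlog ((2 : ℝ) ^ B)] with N hC hS hMa hBl hV hV10 hPr hbig hhalf hN1 hN2 hN3 hN4 hN5 hN64 hl2
      hlε hlL hlW hlC hlB h Mo hMoN hnd v
  have hC := hC h Mo hMoN hnd
  have hMa := hMa h Mo hMoN hnd
  have hV := hV α h Mo hα hαD
  have hV10 := hV10 α h Mo hα hαD
  have hN1r : (64 : ℝ) ≤ N := by exact_mod_cast hN64
  have hN0 : (0 : ℝ) < N := by linarith only [hN1r]
  have hc2 : ((2 * N : ℕ) : ℝ) = 2 * (N : ℝ) := by push_cast; ring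
  have h2N : (1 : ℝ) < ((2 * N : ℕ) : ℝ) := by rw [hc2]; linarith only [hN1r]
  have h2N0 : (0 : ℝ) < ((2 * N : ℕ) : ℝ) := by linarith only [h2N]
  have hll : Real.log N ≤ Real.log ((2 * N : ℕ) : ℝ) :=
    Real.log_le_log hN0 (by rw [hc2]; linarith only [hN1r])
  have hll2 : Real.log ((2 * N : ℕ) : ℝ) ≤ 2 * Real.log N := by
    rw [hc2, Real.log_mul (by norm_num) hN0.ne']
    have h3 := Real.log_two_lt_d9
    linarith only [h3, hl2]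
  have hl1 : 1 ≤ Real.log N := by linarith only [hl2]
  have hl0 : 0 < Real.log N := by linarith only [hl2]
  have hl20 : 0 < Real.log ((2 * N : ℕ) : ℝ) := hl0.trans_le hll
  -- the sets
  obtain ⟨hVa, hVb, hVc, hVd, hVe, hVf, hVg, hVh⟩ := hV
  obtain ⟨hg1, hg2, hg3, hg4⟩ := hVg (CL (uB α) (wB h Mo))
  have hcard : ((CL (uB α) (wB h Mo)).card : ℝ) ≤ (|C'| + 1) * Real.log N - 1 := by
    have h3 : C' * Real.log N ≤ |C'| * Real.log N := by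
      have := le_abs_self C'
      gcongr
    have h4 := hC
    linarith only [h3, h4, hl1]
  have hcard2 : ((CL (uB α) (wB h Mo)).card : ℝ) ≤ (Real.log ((2 * N : ℕ) : ℝ)) ^ 2 := by
    have h3 : (|C'| + 1) * Real.log N ≤ Real.log N * Real.log N := by gcongr
    have h4 : Real.log N * Real.log N ≤ (Real.log ((2 * N : ℕ) : ℝ)) ^ 2 := by
      rw [pow_two]
      gcongr
    linarith only [h3, h4, hcard]
  have hgd : ∀ p ∈ PtF α h Mo N B ε₁, Gd (uB α) (wB h Mo) p ∧ DB (2 * N) B < p ∧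
      (p : ℝ) ≤ ((2 * N : ℕ) : ℝ) ^ ε₁ := by
    intro p hp
    obtain ⟨hp1, hp2, hp3⟩ := hg1 p hp
    have hpC : p ∉ CL (uB α) (wB h Mo) := by
      unfold PtF at hp
      exact (Finset.mem_sdiff.1 hp).2
    refine ⟨⟨hp1, by omega, fun j => uB_ndvdF hα hαD hp1 (by omega) j, ?_⟩, hp2, hp3.le⟩
    intro j l hjl
    exact CL_ndvd hnd hp1 hpC j l hjl
  have hexp : Real.exp (ρ₁ * Real.log N) < ((2 * N : ℕ) : ℝ) ^ ε₁ := by
    rw [Real.rpow_def_of_pos h2N0]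
    apply Real.exp_lt_exp.2
    have h3 : ρ₁ * Real.log N ≤ ε₁ / 2 * Real.log N := by
      have : ρ₁ ≤ ε₁ / 2 := by linarith only [hρ₁]
      gcongr
    have h4 : ε₁ / 2 * Real.log N < ε₁ * Real.log N := by
      have h8 : 0 < ε₁ / 2 * Real.log N := by positivity
      linarith only [h8]
    have h5 : ε₁ * Real.log N ≤ ε₁ * Real.log ((2 * N : ℕ) : ℝ) := by gcongr
    linarith only [h3, h4, h5]
  have hsub : PBF α h Mo N B ρ₁ ⊆ PtF α h Mo N B ε₁ := by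
    intro p hp
    rw [PBF_mem] at hp
    exact hg2 p hp.1 hp.2.1 (lt_of_le_of_lt hp.2.2.1 hexp) hp.2.2.2
  have hPBp : ∀ p ∈ PBF α h Mo N B ρ₁, p.Prime ∧ DB (2 * N) B < p := by
    intro p hp
    rw [PBF_mem] at hp
    exact ⟨hp.1, hp.2.1⟩
  have hsums := ((hS (CL (uB α) (wB h Mo)) (PBF α h Mo N B ρ₁) (by linarith only [hcard]) hPBp).1 (by
    intro p hp1 hp2 hp3 hp4
    rw [PBF_mem]
    exact ⟨hp1, hp2, hp3, hp4⟩)).1
  have hbd0 : 0 < BD (DB (2 * N) B) := BD_pos _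
  have hb10 : 10 ≤ bb N B ρ := by
    obtain ⟨_, _, _, _, _, h10, _⟩ := hV10
    unfold bb
    have e : BD (DB (2 * N) B) * (ρ / 10 * Real.log N) =
      (BD (DB (2 * N) B) * (ρ * Real.log N)) / 10 := by ring
    rw [e] at h10
    linarith only [h10]
  have hPBne : (PBF α h Mo N B ρ₁).Nonempty := by
    by_contra hne
    rw [Finset.not_nonempty_iff_eq_empty] at hne
    have h5 := hsums.l5
    rw [hne, SS_empty _ _ (by positivity)] at h5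
    have h6 : bb N B ρ * (1 - ε) ≤ 1 := h5
    nlinarith only [h6, hb10, hε3]
  have hsd := hSd k (uB α) (wB h Mo) (PBF α h Mo N B ρ₁) (fun p hp => (hPBp p hp).1)
    (fun p hp j => uB_ndvdF hα hαD (hPBp p hp).1 (lt_of_le_of_lt hVa (hPBp p hp).2) j)
    (fun p hp j l hjl => (hgd p (hsub hp)).1.2.2.2 j l hjl)
  -- the presieve
  have hDBle : (DB (2 * N) B : ℝ) ≤ (Real.log N) ^ (B + 1) := by
    refine hVc.trans ?_
    calc (Real.log ((2 * N : ℕ) : ℝ)) ^ B ≤ (2 * Real.log N) ^ B :=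
          pow_le_pow_left₀ (hl0.le.trans hll) hll2 B
      _ = 2 ^ B * (Real.log N) ^ B := by rw [mul_pow]
      _ ≤ Real.log N * (Real.log N) ^ B := by gcongr
      _ = _ := by ring
  obtain ⟨Tr, t, hEx, hTr0, hTr1, ht⟩ := hBP N hN1 (uB α) (wB h Mo) D (DB (2 * N) B) hD hVa hDBle
    (fun p hp hDp j => uB_ndvdF hα hαD hp hDp j)
  have ht' : |t - Pool.Agent.W25.UN.VV α h Mo D (DB (2 * N) B)| ≤ 1 / (Real.log N) ^ 2 := ht
  have hVp : 0 < Pool.Agent.W25.UN.VV α h Mo D (DB (2 * N) B) :=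
    lt_of_lt_of_le (by positivity) hVd
  have ht1 : |t - Pool.Agent.W25.UN.VV α h Mo D (DB (2 * N) B)| ≤
      ε * Pool.Agent.W25.UN.VV α h Mo D (DB (2 * N) B) := by
    refine ht'.trans ?_
    have h3 : 1 / (Real.log N) ^ 2 ≤ ε * (1 / Real.log N) := by
      rw [div_le_iff₀ hε] at hlε
      rw [mul_one_div, div_le_div_iff₀ (by positivity) hl0]
      nlinarith only [hlε, hl0]
    refine h3.trans ?_
    gcongr
  have ht2 : |t| ≤ 2 := by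
    have h3 : 1 / (Real.log N) ^ 2 ≤ 1 := by
      rw [div_le_one (by positivity)]
      exact one_le_pow₀ hl1
    have h4 := abs_le.1 (ht'.trans h3)
    have h5 := h4.1
    have h6 := h4.2
    rw [abs_le]
    constructor
    · linarith only [h5, h6, hVp, hVe]
    · linarith only [h5, h6, hVp, hVe]
  -- the fundamental lemma
  obtain ⟨th, dl, hth, hdl, hfl, hht, hhd⟩ := hFL2 (2 * N) (by omega)
    ⌊((2 * N : ℕ) : ℝ) ^ η₀⌋₊ rfl (CL (uB α) (wB h Mo)) hcard2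
  have hcube := exp_cube hA₀ h1
  have hV0 : 0 < Pool.Agent.W23.PL.VV (PtF α h Mo N B ε₁) := lt_of_lt_of_le (by positivity) hg3
  have hvGe : vGF α h Mo N B 1 ε₁ = Pool.Agent.W23.PL.VV (PtF α h Mo N B ε₁) := by
    unfold vGF
    rw [GG1, div_one]
  have hvg4 : 1 / (Real.log N) ^ 4 ≤ vGF α h Mo N B 1 ε₁ := by
    rw [hvGe]
    refine le_trans ?_ hg3
    apply one_div_le_one_div_of_le (by positivity)
    exact pow_le_pow_right₀ hl1 (by norm_num)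
  have hgdU : ∀ p ∈ PBF α h Mo N B ρ₁ ∪ PtF α h Mo N B ε₁, Gd (uB α) (wB h Mo) p ∧ DB (2 * N) B < p ∧
      (p : ℝ) ≤ ((2 * N : ℕ) : ℝ) ^ ε₁ := by
    intro p hp
    rw [Finset.mem_union] at hp
    rcases hp with hp | hp
    · exact hgd p (hsub hp)
    · exact hgd p hp
  have hWt : ∀ (X : ℕ) (n : ℤ), 0 ≤ Wt X n := fun X n => (Real.exp_pos _).le
  have hD1 : 1 ≤ ⌊((2 * N : ℕ) : ℝ) ^ η₀⌋₊ := by
    apply Nat.le_floor
    rw [Nat.cast_one]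
    exact Real.one_le_rpow h2N.le hη0.le
  -- the linear sieve
  obtain ⟨b, hb1, hbb, hbs, hbn, hbo, hbm0, hbm⟩ := hLS (2 * N) (by omega)
    (CL (uB α) (wB h Mo)) hcard2 ⌊((2 * N : ℕ) : ℝ) ^ θ⌋₊ rfl
  have hDge : Dg (2 * N) (κ₀ / m) (J * m) = ⌊((2 * N : ℕ) : ℝ) ^ θ⌋₊ := by
    unfold Dg
    rw [hnb]
  have hγ := Real.exp_pos Real.eulerMascheroniConstant
  have hγ2 := exp_gamma_lt
  have hθp : 0 < θ := by linarith
  have hbeta1 : ∑ d ∈ Icc 1 ⌊((2 * N : ℕ) : ℝ) ^ θ⌋₊, b d / (d : ℝ) ≤ 1 := by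
    refine hbm.trans ?_
    have h3 : 2 * Real.exp Real.eulerMascheroniConstant * ε₁ / θ ≤ 1 / 2 := by
      rw [div_le_iff₀ hθp]
      have : Real.exp Real.eulerMascheroniConstant * ε₁ ≤ 2 * (1 / 16) :=
        mul_le_mul hγ2.le h16 h1.le (by norm_num)
      linarith only [this, hθ]
    have h4 : 0 ≤ 2 * Real.exp Real.eulerMascheroniConstant * ε₁ / θ := by positivity
    nlinarith only [h3, h4, hε, hε3]
  have hgbb : gB α h Mo N B ε₁ ρ ≤ (1 + ε / 3) *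
      (Real.exp (-Real.eulerMascheroniConstant) * ρ / ε₁) := by
    have h3 := hDE (2 * N) (by omega) (CL (uB α) (wB h Mo)) hcard2
    have e1 : gB α h Mo N B ε₁ ρ = Pool.Agent.W23.PL.VV (Pool.Agent.W23.PL.P1 (2 * N) B ε₁ \
        CL (uB α) (wB h Mo)) * Pool.Agent.H410R2.BD (⌈(Real.log ((2 * N : ℕ) : ℝ)) ^ B⌉₊ - 1) *
        (ρ * Real.log N) := by
      unfold gB bb
      rw [hvGe]
      unfold PtF DB
      ring
    rw [e1]
    calc _ ≤ (1 + ε / 3) * (Real.exp (-Real.eulerMascheroniConstant) /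
          (ε₁ * Real.log ((2 * N : ℕ) : ℝ))) * (ρ * Real.log N) := by
          apply mul_le_mul_of_nonneg_right h3 (by positivity)
      _ = (1 + ε / 3) * (Real.exp (-Real.eulerMascheroniConstant) * ρ / ε₁) *
          (Real.log N / Real.log ((2 * N : ℕ) : ℝ)) := by
          field_simp
      _ ≤ (1 + ε / 3) * (Real.exp (-Real.eulerMascheroniConstant) * ρ / ε₁) * 1 := by
          apply mul_le_mul_of_nonneg_left _ (by positivity)
          rw [div_le_one hl20]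
          exact hll
      _ = _ := mul_one _
  have hgb0 : 0 ≤ gB α h Mo N B ε₁ ρ := by
    unfold gB
    rw [hvGe]
    have : 0 < bb N B ρ := by linarith
    positivity
  have hgle : gB α h Mo N B ε₁ ρ ≤ ρ / ε₁ := by
    refine hgbb.trans ?_
    have h3 : (1 + ε / 3) * Real.exp (-Real.eulerMascheroniConstant) ≤ 1 := by
      have h4 := Real.one_half_lt_eulerMascheroniConstant
      have h5 : (3 : ℝ) / 2 ≤ Real.exp (1 / 2) := by
        have := Real.add_one_le_exp (1 / 2 : ℝ)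
        linarith
      have h6 : Real.exp (1 / 2) ≤ Real.exp Real.eulerMascheroniConstant :=
        Real.exp_le_exp.2 h4.le
      rw [Real.exp_neg, ← div_eq_mul_inv, div_le_one hγ]
      linarith
    have h4 : 0 ≤ ρ / ε₁ := by positivity
    calc (1 + ε / 3) * (Real.exp (-Real.eulerMascheroniConstant) * ρ / ε₁) =
        ((1 + ε / 3) * Real.exp (-Real.eulerMascheroniConstant)) * (ρ / ε₁) := by ring
      _ ≤ 1 * (ρ / ε₁) := mul_le_mul_of_nonneg_right h3 h4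
      _ = _ := one_mul _
  have hvg : (∑ d ∈ Icc 1 ⌊((2 * N : ℕ) : ℝ) ^ θ⌋₊, b d / (d : ℝ)) * gB α h Mo N B ε₁ ρ ≤
      g0c (4 * θ - 2) ρ ε := by
    have h1ε : 0 < 1 - ε := by linarith
    have e2 : g0c (4 * θ - 2) ρ ε = 2 * ρ / θ / (1 - ε) := by
      unfold g0c
      have : (1 : ℝ) / 4 + (4 * θ - 2) / 8 = θ / 2 := by ring
      rw [this]
      field_simp
    rw [e2]
    have e3 : (1 + ε / 3) * (2 * Real.exp Real.eulerMascheroniConstant * ε₁ / θ) *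
        ((1 + ε / 3) * (Real.exp (-Real.eulerMascheroniConstant) * ρ / ε₁)) =
        (1 + ε / 3) ^ 2 * (2 * ρ / θ) := by
      rw [Real.exp_neg]
      field_simp
    calc _ ≤ (1 + ε / 3) * (2 * Real.exp Real.eulerMascheroniConstant * ε₁ / θ) *
        ((1 + ε / 3) * (Real.exp (-Real.eulerMascheroniConstant) * ρ / ε₁)) := by
          apply mul_le_mul hbm hgbb hgb0 (by positivity)
      _ = (1 + ε / 3) ^ 2 * (2 * ρ / θ) := e3
      _ ≤ (1 / (1 - ε)) * (2 * ρ / θ) := by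
          exact mul_le_mul_of_nonneg_right (eps_alg hε hε3) (by positivity)
      _ = _ := by ring
  -- the blocks
  have hblk : ∀ i < J * m, BlkC α h Mo ε₁ ρ ρ₁ θ η (Real.exp (c₁ / ε₁)) 12 (mm * 6) D B N v
      ⌊((2 * N : ℕ) : ℝ) ^ η₀⌋₊ Tr (Dg (2 * N) (κ₀ / m) (i + 1)) (cbk b (2 * N) (κ₀ / m) i) := by
    intro i hi
    obtain ⟨k1, k2, k3, k4, k5, k6, k7, k8⟩ := cbk_ok (X := 2 * N) (by omega) (θ := θ) (δ := δ)
      hn₀ hκ₀ hm1 (by linarith) hδ hδ1 hδ2 hκδ (y := ((2 * N : ℕ) : ℝ) ^ ε₁)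
      (Cl := CL (uB α) (wB h Mo)) hbb (fun d hd => by
        obtain ⟨s1, s2, s3, s4, s5⟩ := hbs d hd
        exact ⟨s1, s3, s4, s5⟩) i hi hnb.le
    have hiJ : i / m < J := Nat.div_lt_of_lt_mul (by rw [mul_comm]; exact hi)
    have hZD : ((Dg (2 * N) (κ₀ / m) (i + 1) : ℕ) : ℝ) ≤
        ((2 * N : ℕ) : ℝ) ^ e0 * (Dg (2 * N) (κ₀ / m) i : ℕ) := by
      have h3 := lt_Dg (X := 2 * N) (κ₀ / m) i (Dg (2 * N) (κ₀ / m) i + 1) (Nat.lt_succ_self _)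
      have h4 : (1 : ℝ) ≤ (Dg (2 * N) (κ₀ / m) i : ℕ) := by exact_mod_cast k4
      push_cast at h3
      have h5 : ((2 * N : ℕ) : ℝ) ^ ((i : ℝ) * (κ₀ / m)) ≤ 2 * (Dg (2 * N) (κ₀ / m) i : ℕ) := by
        push_cast
        linarith
      have h6 : 2 ≤ ((2 * N : ℕ) : ℝ) ^ (e0 / 2) := by
        have := hhalf
        rwa [pow_zero, mul_one] at this
      calc ((Dg (2 * N) (κ₀ / m) (i + 1) : ℕ) : ℝ) ≤
          ((2 * N : ℕ) : ℝ) ^ (((i + 1 : ℕ) : ℝ) * (κ₀ / m)) := Dg_le _ _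
        _ = ((2 * N : ℕ) : ℝ) ^ (κ₀ / m) * ((2 * N : ℕ) : ℝ) ^ ((i : ℝ) * (κ₀ / m)) := by
            rw [← Real.rpow_add h2N0]
            congr 1
            push_cast
            ring
        _ ≤ ((2 * N : ℕ) : ℝ) ^ (e0 / 2) * (2 * (Dg (2 * N) (κ₀ / m) i : ℕ)) := by
            apply mul_le_mul _ h5 (Real.rpow_nonneg h2N0.le _) (Real.rpow_nonneg h2N0.le _)
            exact Real.rpow_le_rpow_of_exponent_le h2N.le hsm
        _ = ((2 * N : ℕ) : ℝ) ^ (e0 / 2) * 2 * (Dg (2 * N) (κ₀ / m) i : ℕ) := by ring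
        _ ≤ ((2 * N : ℕ) : ℝ) ^ (e0 / 2) * ((2 * N : ℕ) : ℝ) ^ (e0 / 2) *
            (Dg (2 * N) (κ₀ / m) i : ℕ) := by
            apply mul_le_mul_of_nonneg_right _ (Nat.cast_nonneg _)
            exact mul_le_mul_of_nonneg_left h6 (Real.rpow_nonneg h2N0.le _)
        _ = _ := by
            rw [← Real.rpow_add h2N0]
            congr 2
            ring
    have hB' := hBl (i / m) (Finset.mem_range.2 hiJ) h Mo hMoN hnd v _ (PBF α h Mo N B ρ₁)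
      (PtF α h Mo N B ε₁) Tr t rfl hgdU hEx ht2
    refine ⟨k1, k2, ?_, ?_⟩
    · intro j n hLf
      have hw : |((wB h Mo (some j) : ℤ) : ℝ)| ≤ 2 * (D : ℝ) * ((2 * N : ℕ) : ℝ) := by
        have h3 : ((wB h Mo (some j) : ℤ) : ℝ) = (Mo : ℝ) + h j := by
          show (((Mo : ℤ) + h j : ℤ) : ℝ) = _
          push_cast; rfl
        rw [h3, hc2]
        have h4 := hMoN.real j
        have h5 : (8 : ℝ) ≤ D := by exact_mod_cast hD8
        nlinarith only [h4, hN0, h5]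
      have hu : |uB α (some j)| ≤ (D : ℤ) := by
        show |α j| ≤ (D : ℤ)
        rw [Int.abs_eq_natAbs]
        exact_mod_cast hαD j
      have hZle : Dg (2 * N) (κ₀ / m) (i + 1) ≤ 2 * N := by
        have h3 : ((Dg (2 * N) (κ₀ / m) (i + 1) : ℕ) : ℝ) ≤ ((2 * N : ℕ) : ℝ) := by
          refine k2.trans ?_
          calc ((2 * N : ℕ) : ℝ) ^ θ ≤ ((2 * N : ℕ) : ℝ) ^ (1 : ℝ) :=
                Real.rpow_le_rpow_of_exponent_le h2N.le (by linarith)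
            _ = _ := Real.rpow_one _
        exact_mod_cast h3
      exact hRX (2 * N) _ (by omega) hZle _ k1 k7 (uB α (some j)) (wB h Mo (some j)) n hu hw hLf
    · intro cc j j' th1 th2 hjj hcc hcR hth1 hth2 ha1 ha2
      exact hB' (Dg (2 * N) (κ₀ / m) i) (Dg (2 * N) (κ₀ / m) (i + 1)) cc j j' th1 th2
        (cbk b (2 * N) (κ₀ / m) i) k3 k4 hZD hjj hcc hcR hth1 hth2 ha1 ha2 k6 k5 k8
  refine ⟨η, 12, mm * 6, ⌊((2 * N : ℕ) : ℝ) ^ η₀⌋₊, ⌊((2 * N : ℕ) : ℝ) ^ θ⌋₊, Tr, t, th, dl, b,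
    fun i => Dg (2 * N) (κ₀ / m) (i + 1), fun i => cbk b (2 * N) (κ₀ / m) i, ?_⟩
  exact {
    dB := {
      k3 := hk
      α1 := hα
      N8 := by omega
      l1 := hl1
      ρ0 := hρ
      ε0 := hε
      ε3 := hε3
      e10 := h1
      e11 := by linarith
      M1 := le_rfl
      C11 := le_rfl
      W2 := WW_two D (by omega)
      sub := hsub
      ne := hPBne.mono hsub
      gd := hgdU
      sd := hsd
      sums := hsums
      low := by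
        intro hbr i j hij
        refine hL₀ hbr (ρ * Real.log N) (bb N B ρ) (DB (2 * N) B) (PBF α h Mo N B ρ₁) i j _ hsd ?_ ?_
          hPBp hbd0 rfl hsums hij
        · rw [div_le_iff₀ hρ] at hlL
          linarith only [hlL]
        · have h3 : (ρ * Real.log N) ^ 2 ≤ (Real.log N) ^ 2 := by
            apply pow_le_pow_left₀ (by positivity)
            nlinarith only [hl0, hρρ, hρ1]
          have h4 : (Real.log N) ^ 6 ≤ (Real.log ((2 * N : ℕ) : ℝ)) ^ B := by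
            calc (Real.log N) ^ 6 ≤ (Real.log N) ^ B := pow_le_pow_right₀ hl1 hB6
              _ ≤ _ := pow_le_pow_left₀ hl0.le hll B
          have h5 : (Real.log N) ^ 2 + 1 ≤ (Real.log N) ^ 6 := by
            have h6 : (4 : ℝ) ≤ (Real.log N) ^ 2 := by nlinarith only [hl2]
            have h7 : (Real.log N) ^ 6 = ((Real.log N) ^ 2) ^ 3 := by ring
            rw [h7]
            set q := (Real.log N) ^ 2 with hq
            have h8 : 16 * q ≤ q ^ 3 := by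
              have h9 : 16 ≤ q ^ 2 := by nlinarith only [h6]
              have h10 : q ^ 3 = q ^ 2 * q := by ring
              rw [h10]
              have h11 : 0 ≤ q := by linarith only [h6]
              gcongr
            linarith only [h8, h6]
          linarith only [h3, h4, h5, hVb]
      bd0 := hbd0
      b1 := hVf
      Tr0 := hTr0
      Tr1 := hTr1
      Vp := hVp
      t1 := ht1
      V0 := hV0
      V1 := hg4
      G1 := by rw [GG1]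
      vg := by
        have e : (1 : ℝ) / 4 + (-2) / 8 = 0 := by norm_num
        rw [e, zero_mul, mul_zero]
        exact hρ.le
      dth := hth
      ddl := hdl
      fl := hfl
      hth := hht.trans (mul_le_mul_of_nonneg_right hcube hV0.le)
      hdl := hhd.trans (mul_le_mul_of_nonneg_right hcube hV0.le)
      D1 := hD1
      z1 := le_rfl
      z2 := by
        have e : (1 : ℝ) / 2 + (-2) / 4 = 0 := by norm_num
        rw [e, Real.rpow_zero]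
        norm_num
      z3 := by omega
      bM := triv_RCM _ _ _ le_rfl 1 le_rfl
      bn := by
        intro m'
        rw [triv_ds _ (by norm_num)]
        exact zero_le_one
      bo := by
        intro m' _
        exact triv_ds _ (by norm_num) m'
      bs := by
        rw [triv_sum _ (by norm_num), GG1, div_one]
      rcb := by
        intro j n _
        rw [triv_ds _ (by norm_num), mul_one, one_mul]
        exact Wt_mono24 N (by omega) n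
      size := by
        have h3 := hPr (PBF α h Mo N B ρ₁) (by
          intro p hp
          refine ⟨(hPBp p hp).1, ?_⟩
          rw [PBF_mem] at hp
          refine hp.2.2.1.trans ?_
          have h4 : ρ₁ * Real.log N ≤ Real.log N := by nlinarith only [hl0, hρ1]
          calc Real.exp (ρ₁ * Real.log N) ≤ Real.exp (Real.log N) := Real.exp_le_exp.2 h4
            _ = N := Real.exp_log hN0)
        rw [pow_mul]
        apply pow_le_pow_left₀ _ h3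
        apply Finset.prod_nonneg
        intro t _
        positivity
      mas := MasAtF_mono (by omega) (hMa v _ (PBF α h Mo N B ρ₁) (PtF α h Mo N B ε₁) Tr t rfl hgdU
        hEx ht2) (-2) (by linarith)
      small := by
        have h3 := small_alg (Real.log N) N (Pool.Agent.W25.UN.VV α h Mo D (DB (2 * N) B))
          ((WW D / 2 : ℕ) : ℝ) (bb N B ρ) (vGF α h Mo N B 1 ε₁) ε k hl1 hN0.le hVd
          (by exact_mod_cast WW_two D (by omega)) hVf hvg4 hε hlW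
        unfold MMF
        have h4 : ((4 * N : ℕ) : ℝ) = 4 * (N : ℝ) := by push_cast; ring
        rw [h4, hc2]
        exact h3 }
    hdl := hhd
    gle := hgle
    β0 := hbm0
    β1 := hbeta1
    vg := hvg
    bn := hbn
    bo := by
      intro m' hm'
      exact hbo m' (fun p hp _ hp2 _ => hm' p hp hp2)
    sp := by
      intro m'
      rw [← hDge]
      exact split b (by omega) hsp.le (J * m) m'
    blk := hblk
    big := by
      have h3 : ((2 * N : ℕ) : ℝ) = ((2 * N : ℕ) : ℝ) ^ (η + θ) * ((2 * N : ℕ) : ℝ) ^ (1 - (η + θ)) := by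
        rw [← Real.rpow_add h2N0]
        have : η + θ + (1 - (η + θ)) = 1 := by ring
        rw [this, Real.rpow_one]
      have hp12 : 0 < (Real.log N) ^ 12 := by positivity
      rw [le_div_iff₀ hp12]
      have h4 : 4 * Real.exp (c₁ / ε₁) * (Real.log N) ^ 12 ≤
          ((2 * N : ℕ) : ℝ) ^ (1 - (η + θ)) := by
        refine le_trans ?_ hbig
        apply mul_le_mul_of_nonneg_left _ (by positivity)
        exact pow_le_pow_left₀ hl0.le hll 12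
      calc 4 * Real.exp (c₁ / ε₁) * ((2 * N : ℕ) : ℝ) ^ (η + θ) * (Real.log N) ^ 12 =
          ((2 * N : ℕ) : ℝ) ^ (η + θ) * (4 * Real.exp (c₁ / ε₁) * (Real.log N) ^ 12) := by ring
        _ ≤ ((2 * N : ℕ) : ℝ) ^ (η + θ) * ((2 * N : ℕ) : ℝ) ^ (1 - (η + θ)) :=
            mul_le_mul_of_nonneg_left h4 (Real.rpow_nonneg h2N0.le _)
        _ = _ := h3.symm }

end Pool.Agent.Y827.LS
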