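import Mathlib
import Pool.Agent.Y827.LS.DatL
import Pool.Agent.TH899.UG.AsmC

/-! Project LS: the counting argument. -/

set_option autoImplicit false

namespace Pool.Agent.Y827.LS

open Finset Filter Topology
open Pool.Agent.H410R2 hiding GP GP_prof GP_cut_some GP_cut_none GP_lip gg_pos gg_le_one gg_anti ee_bound ee_nonneg gg_lip LB_gg LB_ee Sums exists_sums yx wx wxi Br sum_GP_none sum_GP_some sum_GP_some_ee sum_GP_some_one sum_GPr_none sum_GPr_some S1_final QI_final S2_final w_abs_le wmax gg ee I1 I2 IE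
open Pool.Agent.H361R2.GM
open Pool.Agent.H362R2.CM
open Pool.Agent.W25.UN
open Pool.Agent.W25.UB
open Pool.Agent.TH899.UG
open Pool.Agent.W804.UBUD
open Pool.Agent.H442R2.KF (Wt)
open Pool.Agent.W23.PL (DW Ev hat xx)

/-- the majorant of the indicator of the primes in the form `j` -/
noncomputable def sjL {k : ℕ} (α h : Fin k → ℤ) (Mo : ℕ) (ε₁ : ℝ) (B N Z : ℕ) (b : ℕ → ℝ)
    (j : Fin k) (n : ℤ) : ℝ :=
  FF α h Mo ε₁ B N j n * ds b Z (Lf α h Mo (some j) n)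

/-- the constant of the pair sums -/
noncomputable def muL (Q : SPar) (T K nb : ℕ) (g0 ε₁ ρ CR κ ε : ℝ) : ℝ :=
  K * g0 * (Q.I1 ^ 2 / Q.I2) + Real.sqrt (1024 / (ρ * βc Q (T * K) ε) *
    (K * (2 * (g0 * udc Q (T * K) ε₁ ε)) + (K : ℝ) ^ 2 * g0 ^ 2 * qc Q (T * K) ε₁ ε)) +
  nb * Real.sqrt (1024 / (ρ * βc Q (T * K) ε) * (K * (4 * CR ^ 2 *
    ((ρ / ε₁) * udc Q (T * K) ε₁ ε)) + (K : ℝ) ^ 2 * (ρ / ε₁) ^ 2 * ofc Q (T * K) CR κ ε₁ ε))

theorem pairL {T K nb : ℕ} {Q : SPar} {α h : Fin (T * K) → ℤ} {θ ε₁ ρ ρ₁ ε η CR κ g0 : ℝ}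
    {Mo A E₁ D B N v D₁ Z : ℕ} {Tr : ℤ → ℝ} {t : ℝ} {th dl b : ℕ → ℝ} {Zb : ℕ → ℕ}
    {cb : ℕ → ℕ → ℝ}
    (h0 : St_U0F) (h1 : St_L1F) (h2 : St_U2F) (hd : St_UDF) (hNWU : St_NWU) (hNWE : St_NWE)
    (hI1 : ε < Q.I1) (hI2 : ε < Q.I2) (hBr2 : 0 < Br2 Q (T * K) ε) (hCR : 1 ≤ CR) (hκ : 0 ≤ κ)
    (H : DatL Q α h Mo θ ε₁ ρ ρ₁ ε η CR κ g0 nb A E₁ D B N v D₁ Z Tr t th dl b Zb cb)
    (hHB : HB h Mo N) (hnd : Nd α h Mo)
    (i : Fin (T * K)) (J : Finset (Fin (T * K))) (hJ : i ∉ J) (hJK : J.card ≤ K)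
    (S : Finset ℕ) (f : ℕ → ℝ) (hf0 : ∀ n ∈ S, 0 ≤ f n)
    (hf : ∀ n ∈ S, f n ≤ 2 * muF Q α h Mo ρ ρ₁ D B N v Tr i n)
    (hβ : 0 < βc Q (T * K) ε) (Zt : ℝ) (hZ : MMF α h Mo D N B ρ ≤ 512 * Zt)
    (hF : Zt * (ρ * βc Q (T * K) ε) ≤ ∑ n ∈ S, f n) :
    ∑ n ∈ S, f n * ∑ j ∈ J, sjL α h Mo ε₁ B N Z b j n ≤
      muL Q T K nb g0 ε₁ ρ CR κ ε * ∑ n ∈ S, f n := by
  have hε := H.dB.ε0
  have hI1p : 0 < Q.I1 := hε.trans hI1
  have hI2p : 0 < Q.I2 := hε.trans hI2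
  have hsμ : ∀ i : Fin (T * K), Summable (muF Q α h Mo ρ ρ₁ D B N v Tr i) := fun i =>
    (h0 (T * K) Q α h Mo (-2) ε₁ ρ ρ₁ ε 1 1 A E₁ D B N v D₁ 1 Tr t th dl dlt
      hI1p hI2p H.dB i).2.1
  have hA := pairA h0 h1 h2 hd hI1 hI2 hBr2 H.dB (∑ d ∈ Icc 1 Z, b d / (d : ℝ)) H.β0 H.β1 g0 H.vg i
    J hJ hJK S f hf0 hf hβ Zt hZ hF
  have hB : ∀ l ∈ range nb, ∑ n ∈ S, f n * ∑ j ∈ J, FF α h Mo ε₁ B N j n *
      dc (cb l) (Zb l) (Lf α h Mo (some j) n) ≤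
      Real.sqrt (1024 / (ρ * βc Q (T * K) ε) * (K * (4 * CR ^ 2 * ((ρ / ε₁) * udc Q (T * K) ε₁ ε)) +
        (K : ℝ) ^ 2 * (ρ / ε₁) ^ 2 * ofc Q (T * K) CR κ ε₁ ε)) * ∑ n ∈ S, f n := fun l hl =>
    blkP hNWU hNWE H.dB hI1p hI2p hsμ hHB hnd hCR hκ H.hdl (H.blk l (Finset.mem_range.1 hl)) H.big i
      J hJ hJK S f hf0 hf (ρ / ε₁) H.gle hβ Zt hZ hF
  have e : ∑ n ∈ S, f n * ∑ j ∈ J, sjL α h Mo ε₁ B N Z b j n =
      ∑ n ∈ S, f n * ∑ j ∈ J, (∑ d ∈ Icc 1 Z, b d / (d : ℝ)) * FF α h Mo ε₁ B N j n +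
      ∑ l ∈ range nb, ∑ n ∈ S, f n * ∑ j ∈ J, FF α h Mo ε₁ B N j n *
        dc (cb l) (Zb l) (Lf α h Mo (some j) n) := by
    rw [Finset.sum_comm, ← Finset.sum_add_distrib]
    refine Finset.sum_congr rfl fun n _ => ?_
    have e1 : ∑ l ∈ range nb, f n * ∑ j ∈ J, FF α h Mo ε₁ B N j n *
        dc (cb l) (Zb l) (Lf α h Mo (some j) n) = f n * ∑ j ∈ J, ∑ l ∈ range nb,
        FF α h Mo ε₁ B N j n * dc (cb l) (Zb l) (Lf α h Mo (some j) n) := by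
      rw [← Finset.mul_sum]
      congr 1
      exact Finset.sum_comm
    rw [e1, ← mul_add, ← Finset.sum_add_distrib]
    congr 1
    refine Finset.sum_congr rfl fun j _ => ?_
    unfold sjL
    have e2 : ∑ l ∈ range nb, FF α h Mo ε₁ B N j n * dc (cb l) (Zb l) (Lf α h Mo (some j) n) =
        FF α h Mo ε₁ B N j n * ∑ l ∈ range nb, dc (cb l) (Zb l) (Lf α h Mo (some j) n) :=
      (Finset.mul_sum _ _ _).symm
    rw [e2, H.sp, mul_add, mul_comm (FF α h Mo ε₁ B N j n) (∑ d ∈ Icc 1 Z, b d / (d : ℝ))]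
  rw [e]
  have h3 := Finset.sum_le_sum hB
  rw [Finset.sum_const, Finset.card_range, nsmul_eq_mul] at h3
  calc _ ≤ _ := add_le_add hA h3
    _ = _ := by
        unfold muL
        ring

open Classical in
theorem core_atL {T K Mc nb : ℕ} {Q : SPar} {α h : Fin (T * K) → ℤ} {θ ε₁ ρ ρ₁ ε η₀ CR κ₁ g0 : ℝ}
    {Mo A E₁ D B N v D₁ Zl : ℕ} {Tr : ℤ → ℝ} {t : ℝ} {th dl b : ℕ → ℝ} {Zb : ℕ → ℕ}
    {cb : ℕ → ℕ → ℝ}
    (h0 : St_U0F) (h1 : St_L1F) (h2 : St_U2F) (hd : St_UDF) (hNWU : St_NWU) (hNWE : St_NWE)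
    (hI1 : ε < Q.I1) (hI2 : ε < Q.I2) (hBr : 0 < Br Q (T * K) ε) (hBr2 : 0 < Br2 Q (T * K) ε)
    (hCR : 1 ≤ CR) (hκ₁ : 0 ≤ κ₁) (hg0 : 0 ≤ g0)
    (hnum : (1 + muL Q T K nb g0 ε₁ ρ CR κ₁ ε) * ((Mc + 2 * ε) * Ac Q (T * K) ε) <
      T * (K * (ρ * βc Q (T * K) ε)))
    (HL : DatL Q α h Mo θ ε₁ ρ ρ₁ ε η₀ CR κ₁ g0 nb A E₁ D B N v D₁ Zl Tr t th dl b Zb cb)
    (hHB : HB h Mo N) (hnd : Nd α h Mo)
    (cl : Fin (T * K) → Fin T) (hcl : ∀ g, (univ.filter (fun i => cl i = g)).card = K)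
    (hD : 2 ≤ D)
    (hTa : ∀ r < Rn (ε / 400), ∑ n ∈ Ns α h D (DB (2 * N) B) Mo v N,
      lt (ctr (ε / 400) r * N) (ε / 400 * (ctr (ε / 400) r * N)) n *
        (wZ Q (uB α) (wB h Mo) (PBF α h Mo N B ρ₁) (ρ * Real.log N) n) ^ 2 ≤
      ZZ (T * K) (Pool.Agent.W25.UN.VV α h Mo D (DB (2 * N) B))
        (ε / 400 * (ctr (ε / 400) r * N)) (WW D) (BD (DB (2 * N) B)) (ρ * Real.log N) *
        Ac Q (T * K) ε)
    (hTb : ∀ r < Rn (ε / 400), ∀ i : Fin (T * K),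
      ZZ (T * K) (Pool.Agent.W25.UN.VV α h Mo D (DB (2 * N) B))
        (ε / 400 * (ctr (ε / 400) r * N)) (WW D) (BD (DB (2 * N) B)) (ρ * Real.log N) *
        (ρ * βc Q (T * K) ε) ≤ ∑ n ∈ Ns α h D (DB (2 * N) B) Mo v N,
      (if (Fm α h Mo i n).toNat.Prime then
        lt (ctr (ε / 400) r * N) (ε / 400 * (ctr (ε / 400) r * N)) n *
        (wZ Q (uB α) (wB h Mo) (PBF α h Mo N B ρ₁) (ρ * Real.log N) n) ^ 2 else 0))
    (hh : PosF α h Mo N) (hbig : ((2 * N : ℕ) : ℝ) ^ ε₁ ≤ N / 64)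
    (hbigθ : ((2 * N : ℕ) : ℝ) ^ θ ≤ N / 64)
    (e η : ℝ)
    (hpt : ∀ n : ℕ, 1 ≤ n → n ≤ N → (∀ i, (Mo : ℤ) + α i * n + h i ≠ 0) →
      (wZ Q (uB α) (wB h Mo) (PBF α h Mo N B ρ₁) (ρ * Real.log N) n) ^ 2 ≤ (N : ℝ) ^ e)
    (hV : 1 / Real.log N ≤ Pool.Agent.W25.UN.VV α h Mo D (DB (2 * N) B))
    (hpl : 6144 * T * ((WW D / 2 : ℕ) : ℝ) / (ε * Ac Q (T * K) ε) * (Real.log N) ^ 1 *
      (N : ℝ) ^ (1 - η + e) ≤ (N : ℝ) ^ (1 : ℝ)) :
    (N : ℝ) ^ (1 - η) ≤ (((Icc 1 N).filter (fun n : ℕ => n ≡ v [MOD (WW D)] ∧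
        (N : ℝ) / 16 ≤ n ∧ (n : ℝ) ≤ N / 2 ∧
        Mc + 1 ≤ (univ.filter (fun g : Fin T => ∃ i, cl i = g ∧
          (Fm α h Mo i n).toNat.Prime)).card)).card : ℝ) := by
  have H := HL.dB
  have hε := H.ε0
  have hε3 := H.ε3
  have hI1p : 0 < Q.I1 := hε.trans hI1
  have hI2p : 0 < Q.I2 := hε.trans hI2
  have h1ε : 0 < 1 - ε := by linarith
  have hI1ε : 0 < Q.I1 - ε := by linarith
  have hρ := H.ρ0
  have hAc : 0 < Ac Q (T * K) ε := by unfold Ac; positivity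
  have hβc : 0 < βc Q (T * K) ε := by unfold βc; positivity
  have hN8 := H.N8
  have hN0 : 0 < N := by omega
  have hNR : (0 : ℝ) < N := by exact_mod_cast hN0
  have hl1 := H.l1
  have hl : 0 < Real.log N := by linarith
  have hW : (0 : ℝ) < ((WW D / 2 : ℕ) : ℝ) := by
    have := H.W2
    exact_mod_cast (by omega : 0 < WW D / 2)
  have hVp := H.Vp
  have hb1 := H.b1
  have hbp : 0 < bb N B ρ := by linarith
  have hκ : 0 < ε / 400 := by positivity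
  have hκ1 : ε / 400 ≤ 1 / 400 := by linarith
  set κ : ℝ := ε / 400 with hκd
  set E : Finset ℕ := (Icc 1 N).filter (fun n : ℕ => n ≡ v [MOD (WW D)] ∧
        (N : ℝ) / 16 ≤ n ∧ (n : ℝ) ≤ N / 2 ∧
        Mc + 1 ≤ (univ.filter (fun g : Fin T => ∃ i, cl i = g ∧
          (Fm α h Mo i n).toNat.Prime)).card) with hE
  by_contra hcon
  push Not at hcon
  set w2 : ℕ → ℝ := fun n =>
    (wZ Q (uB α) (wB h Mo) (PBF α h Mo N B ρ₁) (ρ * Real.log N) n) ^ 2 with hw2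
  have hw20 : ∀ n, 0 ≤ w2 n := fun n => sq_nonneg _
  set S : Finset ℕ := (Ns α h D (DB (2 * N) B) Mo v N).filter
    (fun n : ℕ => (N : ℝ) / 16 ≤ n ∧ (n : ℝ) ≤ N / 2) with hS
  set u : ℕ → ℝ := fun n => Ut κ N n * w2 n with hu
  have hu0 : ∀ n, 0 ≤ u n := fun n => mul_nonneg (Ut_nonneg _ _ _) (hw20 n)
  have hSm : ∀ n ∈ S, n ∈ Ns α h D (DB (2 * N) B) Mo v N ∧ (N : ℝ) / 16 ≤ n ∧
      (n : ℝ) ≤ N / 2 := by
    intro n hn
    rw [hS, Finset.mem_filter] at hn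
    exact hn
  have hNsm : ∀ n ∈ Ns α h D (DB (2 * N) B) Mo v N, 1 ≤ n ∧ n ≤ N ∧ n ≡ v [MOD (WW D)] := by
    intro n hn
    unfold Ns at hn
    rw [Finset.mem_filter, Finset.mem_Icc] at hn
    exact ⟨hn.1.1, hn.1.2, hn.2.1⟩
  set Zr : ℕ → ℝ := fun r => ZZ (T * K) (Pool.Agent.W25.UN.VV α h Mo D (DB (2 * N) B))
        (κ * (ctr κ r * N)) (WW D) (BD (DB (2 * N) B)) (ρ * Real.log N) with hZr
  set Z : ℝ := ∑ r ∈ range (Rn κ), Zr r with hZ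
  have hMM : MMF α h Mo D N B ρ ≤ 512 * Z :=
    MM_leF α h Mo D N B ρ κ hκ hD H.W2 hVp hbp
  -- lower bound for `MM`
  have hMMlow : (N : ℝ) / (24 * ((WW D / 2 : ℕ) : ℝ) * Real.log N) ≤ MMF α h Mo D N B ρ := by
    unfold MMF
    have h3 : (1 : ℝ) ≤ bb N B ρ ^ (T * K) := one_le_pow₀ hb1
    have h4 : (1 : ℝ) / 48 * 1 ≤ bb N B ρ / 48 * bb N B ρ ^ (T * K) := by gcongr
    calc (N : ℝ) / (24 * ((WW D / 2 : ℕ) : ℝ) * Real.log N) =
        ((2 * N : ℕ) : ℝ) * ((1 / Real.log N) / ((WW D / 2 : ℕ) : ℝ) * (1 / 48 * 1)) := by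
          push_cast
          field_simp
          norm_num
      _ ≤ _ := by gcongr
  have hMMp : 0 < MMF α h Mo D N B ρ := lt_of_lt_of_le (by positivity) hMMlow
  have hZp : 0 < Z := by linarith
  -- first sum
  have hS1 : ∑ n ∈ S, u n ≤ Z * Ac Q (T * K) ε := by
    have h3 : ∑ n ∈ S, u n ≤ ∑ n ∈ Ns α h D (DB (2 * N) B) Mo v N, u n :=
      Finset.sum_le_sum_of_subset_of_nonneg (Finset.filter_subset _ _) (fun n _ _ => hu0 n)
    refine h3.trans ?_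
    have h4 : ∑ n ∈ Ns α h D (DB (2 * N) B) Mo v N, u n =
        ∑ r ∈ range (Rn κ), ∑ n ∈ Ns α h D (DB (2 * N) B) Mo v N,
          lt (ctr κ r * N) (κ * (ctr κ r * N)) n * w2 n := by
      rw [Finset.sum_comm]
      refine Finset.sum_congr rfl fun n _ => ?_
      simp only [hu, Ut]
      rw [Finset.sum_mul]
    rw [h4, hZ, Finset.sum_mul]
    exact Finset.sum_le_sum fun r hr => hTa r (Finset.mem_range.1 hr)
  -- prime sums
  have hS2 : ∀ i : Fin (T * K), Z * (ρ * βc Q (T * K) ε) ≤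
      ∑ n ∈ S, if (Fm α h Mo i n).toNat.Prime then u n else 0 := by
    intro i
    have h3 : ∑ n ∈ S, (if (Fm α h Mo i n).toNat.Prime then u n else 0) =
        ∑ n ∈ Ns α h D (DB (2 * N) B) Mo v N,
          (if (Fm α h Mo i n).toNat.Prime then u n else 0) := by
      apply Finset.sum_subset (Finset.filter_subset _ _)
      intro n hn hnS
      have h4 : u n = 0 := by
        by_contra hne
        apply hnS
        rw [Finset.mem_filter]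
        refine ⟨hn, ?_⟩
        apply Ut_range hκ hκ1 hN0
        intro h5
        apply hne
        simp only [hu]
        rw [h5, zero_mul]
      rw [h4]
      simp
    rw [h3]
    have h4 : ∑ n ∈ Ns α h D (DB (2 * N) B) Mo v N,
          (if (Fm α h Mo i n).toNat.Prime then u n else 0) =
        ∑ r ∈ range (Rn κ), ∑ n ∈ Ns α h D (DB (2 * N) B) Mo v N,
          (if (Fm α h Mo i n).toNat.Prime then
            lt (ctr κ r * N) (κ * (ctr κ r * N)) n * w2 n else 0) := by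
      rw [Finset.sum_comm]
      refine Finset.sum_congr rfl fun n _ => ?_
      split_ifs
      · simp only [hu, Ut]
        rw [Finset.sum_mul]
      · simp
    rw [h4, hZ, Finset.sum_mul]
    exact Finset.sum_le_sum fun r hr => hTb r (Finset.mem_range.1 hr) i
  -- pair sums
  have hnn : ∀ (j : Fin (T * K)) (n : ℤ), 0 ≤ sjL α h Mo ε₁ B N Zl b j n := fun j n =>
    mul_nonneg (FF_nonneg _ _ _ _ _ _ _ _) (HL.bn _)
  have hone : ∀ (j : Fin (T * K)) (n : ℕ), (N : ℝ) / 16 ≤ n → (n : ℝ) ≤ N / 2 →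
      (Fm α h Mo j n).toNat.Prime → 1 ≤ sjL α h Mo ε₁ B N Zl b j n := by
    intro j n hn1 hn2 hp
    have h3 : FF α h Mo ε₁ B N j n = 1 := by
      unfold FF xx
      rw [if_pos]
      intro p hp'
      have h4 := H.gd p (Finset.mem_union_right _ hp')
      exact no_smallF hn1 hn2 hh hN0 hp h4.1.1 (h4.2.2.trans hbig)
    have h5 : ds b Zl (Lf α h Mo (some j) n) = 1 := by
      apply HL.bo
      intro p hp1 hp2
      exact no_smallF hn1 hn2 hh hN0 hp hp1 (hp2.trans hbigθ)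
    unfold sjL
    rw [h3, h5, mul_one]
  have hmuc : 0 ≤ muL Q T K nb g0 ε₁ ρ CR κ₁ ε := by
    unfold muL
    positivity
  have hS3 : ∀ g : Fin T, ∀ i ∈ univ.filter (fun i => cl i = g),
      ∑ j ∈ (univ.filter (fun i => cl i = g)).erase i,
        (∑ n ∈ S, if (Fm α h Mo i n).toNat.Prime ∧ (Fm α h Mo j n).toNat.Prime then u n else 0) ≤
      muL Q T K nb g0 ε₁ ρ CR κ₁ ε * ∑ n ∈ S, if (Fm α h Mo i n).toNat.Prime then u n else 0 := by
    intro g i hi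
    set J := (univ.filter (fun i => cl i = g)).erase i with hJ
    set f : ℕ → ℝ := fun n => if (Fm α h Mo i n).toNat.Prime then u n else 0 with hf
    have hf0 : ∀ n ∈ S, 0 ≤ f n := by
      intro n _
      simp only [hf]
      split_ifs
      · exact hu0 n
      · exact le_rfl
    have hmu0 := muF_nonneg H i
    have hfm : ∀ n ∈ S, f n ≤ 2 * muF Q α h Mo ρ ρ₁ D B N v Tr i n := by
      intro n hn
      obtain ⟨hn1, hn0, hn2⟩ := hSm n hn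
      simp only [hf]
      split_ifs with hp
      · have h3 := pt_leF hNWE H hD i n hn1 hn0 hn2 hh hbig hp
        have h4 : u n ≤ 1 * w2 n :=
          mul_le_mul_of_nonneg_right (Ut_le_one hκ hN0 _) (hw20 n)
        rw [one_mul] at h4
        exact h4.trans h3
      · have := hmu0 n
        linarith
    have hJK : J.card ≤ K := (Finset.card_le_card (Finset.erase_subset _ _)).trans (hcl g).le
    have hpair := pairL h0 h1 h2 hd hNWU hNWE hI1 hI2 hBr2 hCR hκ₁ HL hHB hnd i J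
      (Finset.notMem_erase i _) hJK S f hf0 hfm hβc Z hMM (hS2 i)
    refine le_trans ?_ hpair
    rw [Finset.sum_comm]
    apply Finset.sum_le_sum
    intro n hn
    obtain ⟨hn1, hn0, hn2⟩ := hSm n hn
    rw [Finset.mul_sum]
    apply Finset.sum_le_sum
    intro j _
    by_cases hpi : (Fm α h Mo i n).toNat.Prime
    · by_cases hpj : (Fm α h Mo j n).toNat.Prime
      · rw [if_pos ⟨hpi, hpj⟩]
        have h3 := hone j n hn0 hn2 hpj
        have h4 : f n = u n := by simp only [hf]; rw [if_pos hpi]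
        rw [h4]
        exact le_mul_of_one_le_right (hu0 n) h3
      · rw [if_neg (fun h' => hpj h'.2)]
        exact mul_nonneg (hf0 n hn) (hnn j n)
    · rw [if_neg (fun h' => hpi h'.1)]
      exact mul_nonneg (hf0 n hn) (hnn j n)
  -- exceptional set
  have hS4 : ∀ n ∈ S, n ∉ E → (univ.filter (fun g : Fin T => ∃ i, cl i = g ∧
      (Fm α h Mo i n).toNat.Prime)).card ≤ Mc := by
    intro n hn hnE
    by_contra hc
    apply hnE
    obtain ⟨hn1, hn2, hn3⟩ := hSm n hn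
    obtain ⟨hn4, hn5, hn6⟩ := hNsm n hn1
    rw [hE, Finset.mem_filter, Finset.mem_Icc]
    exact ⟨⟨hn4, hn5⟩, hn6, hn2, hn3, Nat.succ_le_of_lt (not_le.1 hc)⟩
  have hS5 : T * ∑ n ∈ S.filter (fun n => n ∈ E), u n ≤ Z * (2 * ε * Ac Q (T * K) ε) := by
    have h1 : ∑ n ∈ S.filter (fun n => n ∈ E), u n ≤ (N : ℝ) ^ (1 - η) * (N : ℝ) ^ e := by
      have h2 : ∑ n ∈ S.filter (fun n => n ∈ E), u n ≤
          ∑ _n ∈ S.filter (fun n => n ∈ E), (N : ℝ) ^ e := by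
        apply Finset.sum_le_sum
        intro n hn
        obtain ⟨hn1, hn2, hn3⟩ := hSm n (Finset.mem_filter.1 hn).1
        obtain ⟨hn4, hn5, hn6⟩ := hNsm n hn1
        have h3 : u n ≤ 1 * w2 n :=
          mul_le_mul_of_nonneg_right (Ut_le_one hκ hN0 _) (hw20 n)
        rw [one_mul] at h3
        refine h3.trans (hpt n hn4 hn5 ?_)
        intro i h4
        have h5 := hh i n hn2 hn3
        have h6 : Fm α h Mo i n = 0 := h4
        rw [h6] at h5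
        push_cast at h5
        linarith
      refine h2.trans ?_
      rw [Finset.sum_const, nsmul_eq_mul]
      apply mul_le_mul_of_nonneg_right _ (by positivity)
      have h3 : S.filter (fun n => n ∈ E) ⊆ E := fun n hn => (Finset.mem_filter.1 hn).2
      have h4 : ((S.filter (fun n => n ∈ E)).card : ℝ) ≤ E.card := by
        exact_mod_cast Finset.card_le_card h3
      exact h4.trans hcon.le
    have h5 : 0 < ε * Ac Q (T * K) ε := by positivity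
    have h6 : (N : ℝ) / (12288 * ((WW D / 2 : ℕ) : ℝ) * Real.log N) ≤ Z := by
      have h7 : (N : ℝ) / (24 * ((WW D / 2 : ℕ) : ℝ) * Real.log N) =
          512 * ((N : ℝ) / (12288 * ((WW D / 2 : ℕ) : ℝ) * Real.log N)) := by
        field_simp
        norm_num
      linarith
    calc T * ∑ n ∈ S.filter (fun n => n ∈ E), u n
        ≤ T * ((N : ℝ) ^ (1 - η) * (N : ℝ) ^ e) := by gcongr
      _ = T * (N : ℝ) ^ (1 - η + e) := by rw [Real.rpow_add hNR]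
      _ = (6144 * T * ((WW D / 2 : ℕ) : ℝ) / (ε * Ac Q (T * K) ε) * (Real.log N) ^ 1 *
            (N : ℝ) ^ (1 - η + e)) / (12288 * ((WW D / 2 : ℕ) : ℝ) * Real.log N) *
            (2 * ε * Ac Q (T * K) ε) := by field_simp; ring
      _ ≤ ((N : ℝ) ^ (1 : ℝ)) / (12288 * ((WW D / 2 : ℕ) : ℝ) * Real.log N) *
            (2 * ε * Ac Q (T * K) ε) := by gcongr
      _ = (N : ℝ) / (12288 * ((WW D / 2 : ℕ) : ℝ) * Real.log N) *
            (2 * ε * Ac Q (T * K) ε) := by rw [Real.rpow_one]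
      _ ≤ Z * (2 * ε * Ac Q (T * K) ε) := by gcongr
  have hfin := countT Mc cl hcl S u (fun n _ => hu0 n)
    (fun i n => (Fm α h Mo i n).toNat.Prime) E Z ρ (βc Q (T * K) ε) (Ac Q (T * K) ε)
    (muL Q T K nb g0 ε₁ ρ CR κ₁ ε) (2 * ε) hZp hmuc hS1 hS2 hS3 hS4 hS5
  linarith

end Pool.Agent.Y827.LS
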