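import Mathlib
import Pool.Agent.Y827.LS.NumL
import Pool.Agent.TH899.UG.AsmDH

/-! Project LS: the coloured theorem with the constant `18 / 5` from the outcome of the sieve. -/

set_option autoImplicit false

namespace Pool.Agent.Y827.LS

open Finset Filter Topology
open Pool.Agent.H410R2 hiding GP GP_prof GP_cut_some GP_cut_none GP_lip gg_pos gg_le_one gg_anti ee_bound ee_nonneg gg_lip LB_gg LB_ee Sums exists_sums yx wx wxi Br sum_GP_none sum_GP_some sum_GP_some_ee sum_GP_some_one sum_GPr_none sum_GPr_some S1_final QI_final S2_final w_abs_le wmax gg ee I1 I2 IE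
open Pool.Agent.H361R2.GM
open Pool.Agent.H362R2.CM
open Pool.Agent.W25.UN
open Pool.Agent.W25.UB
open Pool.Agent.TH899.UG

open Classical in
/-- the uniform coloured theorem with the constant `18 / 5`, slopes in `𝒮` -/
def ThmL (𝒮 : ℤ → Prop) : Prop := ∀ T M : ℕ, 1 ≤ T → (18 / 5 : ℝ) * M < T →
  ∃ K : ℕ, 2 ≤ K ∧ ∃ D₀ : ℕ, ∀ D : ℕ, D₀ ≤ D →
    ∀ (α : Fin (T * K) → ℤ) (cl : Fin (T * K) → Fin T),
    (∀ g, (univ.filter (fun i => cl i = g)).card = K) → (∀ i, 𝒮 (α i)) → (∀ i, α i ≠ 0) →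
    (∀ i, (α i).natAbs ≤ D) →
    ∀ η : ℝ, 0 < η → ∀ᶠ N : ℕ in atTop, ∀ (h : Fin (T * K) → ℤ) (Mo : ℕ), HB h Mo N →
    Nd α h Mo → PosR α h Mo N →
    ∀ v : ℕ, CopAt α h D Mo v →
      (N : ℝ) ^ (1 - η) ≤ (((Icc 1 N).filter (fun n : ℕ => n ≡ v [MOD (WW D)] ∧
        (N : ℝ) / 16 ≤ n ∧ (n : ℝ) ≤ N / 2 ∧
        M + 1 ≤ (univ.filter (fun g : Fin T => ∃ i, cl i = g ∧
          (Fm α h Mo i n).toNat.Prime)).card)).card : ℝ)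

/-- the choice of the level -/
theorem lev (T M : ℕ) (hT : 1 ≤ T) (hTM : (18 / 5 : ℝ) * M < T) : ∃ (θ δ : ℝ) (J n₀ : ℕ), 1 ≤ n₀ ∧
    θ = J * (1 / (100 * (n₀ : ℝ))) ∧ 51 / 100 ≤ θ ∧ θ < 5 / 9 ∧ 0 < δ ∧
    1 / (100 * (n₀ : ℝ)) ≤ δ / 14 ∧ 2 * δ ≤ 5 - 9 * θ ∧ δ ≤ 1 / 100 ∧ 2 / θ * M < T := by
  have hT0 : (0 : ℝ) < T := by exact_mod_cast (by omega : 0 < T)
  obtain ⟨x, hx⟩ : ∃ x : ℝ, x = max (2 * (M : ℝ) / T) (51 / 100) := ⟨_, rfl⟩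
  have hx1 : 2 * (M : ℝ) / T ≤ x := by rw [hx]; exact le_max_left _ _
  have hx2 : 51 / 100 ≤ x := by rw [hx]; exact le_max_right _ _
  have hx3 : x < 5 / 9 := by
    rw [hx]
    apply max_lt _ (by norm_num)
    rw [div_lt_iff₀ hT0]
    linarith
  obtain ⟨θ', hθ'⟩ : ∃ θ' : ℝ, θ' = (x + 5 / 9) / 2 := ⟨_, rfl⟩
  obtain ⟨δ, hδ⟩ : ∃ δ : ℝ, δ = min ((5 - 9 * θ') / 2) (1 / 100) := ⟨_, rfl⟩
  have h1 : θ' < 5 / 9 := by linarith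
  have h2 : x < θ' := by linarith
  have hδ0 : 0 < δ := by rw [hδ]; exact lt_min (by linarith) (by norm_num)
  have hδ1 : δ ≤ (5 - 9 * θ') / 2 := by rw [hδ]; exact min_le_left _ _
  have hδ2 : δ ≤ 1 / 100 := by rw [hδ]; exact min_le_right _ _
  obtain ⟨n₀, hn₀⟩ : ∃ n₀ : ℕ, n₀ = ⌈14 / (100 * δ)⌉₊ + ⌈1 / (θ' - x)⌉₊ + 1 := ⟨_, rfl⟩
  have hn1 : 14 / (100 * δ) ≤ n₀ := by
    rw [hn₀]
    push_cast
    have h3 := Nat.le_ceil (14 / (100 * δ))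
    have h4 : (0 : ℝ) ≤ (⌈1 / (θ' - x)⌉₊ : ℝ) := Nat.cast_nonneg _
    linarith
  have hn2 : 1 / (θ' - x) ≤ n₀ := by
    rw [hn₀]
    push_cast
    have h3 := Nat.le_ceil (1 / (θ' - x))
    have h4 : (0 : ℝ) ≤ (⌈14 / (100 * δ)⌉₊ : ℝ) := Nat.cast_nonneg _
    linarith
  have hn3 : 1 ≤ n₀ := by omega
  have hn3r : (1 : ℝ) ≤ n₀ := by exact_mod_cast hn3
  have hκ : (0 : ℝ) < 1 / (100 * n₀) := by positivity
  have hκ1 : (1 : ℝ) / (100 * n₀) ≤ δ / 14 := by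
    rw [div_le_iff₀ (by positivity)] at hn1
    rw [div_le_div_iff₀ (by positivity) (by norm_num)]
    linarith
  have hκ2 : (1 : ℝ) / (100 * n₀) < θ' - x := by
    rw [div_le_iff₀ (by linarith)] at hn2
    rw [div_lt_iff₀ (by positivity)]
    linarith
  obtain ⟨J, hJ⟩ : ∃ J : ℕ, J = ⌊θ' * (100 * n₀)⌋₊ := ⟨_, rfl⟩
  have hJ1 : (J : ℝ) ≤ θ' * (100 * n₀) := by
    rw [hJ]
    exact Nat.floor_le (by have : 0 < θ' := by linarith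
                           positivity)
  have hJ2 : θ' * (100 * n₀) < J + 1 := by
    rw [hJ]
    exact Nat.lt_floor_add_one _
  obtain ⟨θ, hθ⟩ : ∃ θ : ℝ, θ = J * (1 / (100 * (n₀ : ℝ))) := ⟨_, rfl⟩
  have hθ1 : θ ≤ θ' := by
    rw [hθ, mul_one_div, div_le_iff₀ (by positivity)]
    exact hJ1
  have hθ2 : θ' - 1 / (100 * n₀) < θ := by
    rw [hθ]
    have h5 : θ' < (J + 1) * (1 / (100 * (n₀ : ℝ))) := by
      rw [mul_one_div, lt_div_iff₀ (by positivity)]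
      exact hJ2
    linarith
  have hθ3 : x < θ := by linarith
  refine ⟨θ, δ, J, n₀, hn3, hθ, by linarith, by linarith, hδ0, hκ1, by linarith, hδ2, ?_⟩
  have hθ0 : 0 < θ := by linarith
  have h6 : 2 * (M : ℝ) / T < θ := by linarith
  rw [div_lt_iff₀ hT0] at h6
  calc 2 / θ * (M : ℝ) = 2 * M / θ := by ring
    _ < T := by
        rw [div_lt_iff₀ hθ0]
        linarith

theorem thmL_of {𝒮 : ℤ → Prop} (hR2B : St_R2B 𝒮) (hR2 : St_R2LF)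
    (hEXM : St_EXM) (hGAU : St_GAU) (hFT3 : St_FT3)
    (hBPS : St_BPS) (hFLC : St_FLC3) (hSUM : St_SUM)
    (hMAS : St_MASH) (hNWL : St_NWL) (hSd : SdLZ) (hTWa : St_TWaH)
    (hTWb : St_TWbH) (hU0 : St_U0F) (hL1 : St_L1F) (hU2 : St_U2F) (hUD : St_UDF)
    (hNWU : St_NWU) (hNWE : St_NWE) (hVLN : St_VLNF) : ThmL 𝒮 := by
  classical
  intro T Mc hT hTM
  obtain ⟨θ, δ, J, n₀, hn₀, hθJ, hθ, hθ', hδ, hκδ, hδ2, hδ1, hTMθ⟩ := lev T Mc hT hTM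
  obtain ⟨c₀, hc₀, hRCX0⟩ := rcx
  obtain ⟨c₁, hc₁⟩ : ∃ c₁ : ℝ, c₁ = c₀ + 1 := ⟨_, rfl⟩
  have hRCX : ∀ ε : ℝ, 0 < ε → ε ≤ 1 → ∀ U : ℕ, 1 ≤ U → ∃ N₀ : ℕ,
      ∀ N Z : ℕ, N₀ ≤ N → Z ≤ N → ∀ c : ℕ → ℝ, (∀ d, |c d| ≤ 1) →
      (∀ d, c d ≠ 0 → 1 < d ∧ Squarefree d ∧ ∀ p : ℕ, p.Prime → p ∣ d → (N : ℝ) ^ ε < (p : ℝ)) →
      ∀ u w n : ℤ, |u| ≤ U → |(w : ℝ)| ≤ 2 * U * N → u * n + w ≠ 0 →
      |dc c Z (u * n + w)| ≤ Real.exp (c₁ / ε) * (1 + |(n : ℝ)| / N) ^ (1 / 4 : ℝ) := by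
    intro ε hε hε1 U hU
    obtain ⟨N₀, hN₀⟩ := hRCX0 ε hε hε1 U hU
    refine ⟨N₀, fun N Z hN hZ c hc hcs u w n hu hw hne => (hN₀ N Z hN hZ c hc hcs u w n hu hw
      hne).trans ?_⟩
    apply mul_le_mul_of_nonneg_right _ (by positivity)
    apply Real.exp_le_exp.2
    apply div_le_div_of_nonneg_right _ hε.le
    linarith
  obtain ⟨nb, η₀, εs, hη₀, hεs, hD1⟩ := datL hR2B hR2 hEXM hGAU hFT3 hBPS hFLC hSUM hMAS hVLN hNWL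
    hSd θ δ J n₀ hn₀ hθJ hθ hθ' hδ hκδ hδ2 hδ1 (2 * c₁ + 1) c₁ (by linarith) hRCX
  obtain ⟨e₁, he₁, hN1⟩ := numL θ (by linarith) (by linarith) T Mc hT hTMθ nb c₁
  obtain ⟨ε₁, hε₁d⟩ : ∃ ε₁ : ℝ, ε₁ = min (min εs e₁) (min η₀ (1 / 4)) := ⟨_, rfl⟩
  have hε₁ : 0 < ε₁ := by rw [hε₁d]; exact lt_min (lt_min hεs he₁) (lt_min hη₀ (by norm_num))
  have h1 : ε₁ ≤ εs := by rw [hε₁d]; exact (min_le_left _ _).trans (min_le_left _ _)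
  have h2 : ε₁ ≤ e₁ := by rw [hε₁d]; exact (min_le_left _ _).trans (min_le_right _ _)
  have h3 : ε₁ ≤ η₀ := by rw [hε₁d]; exact (min_le_right _ _).trans (min_le_left _ _)
  have h4 : ε₁ ≤ 1 / 4 := by rw [hε₁d]; exact (min_le_right _ _).trans (min_le_right _ _)
  obtain ⟨K, Q, ε, hK, hTK, hε, hε3, hI1, hI2, hBr, hBr2, hnum⟩ := hN1 ε₁ hε₁ h2
  obtain ⟨B₀, hB₀, hD3⟩ := hD1 ε₁ hε₁ h1 (T * K) Q (ε₁ / 4) (ε₁ / 2) ε (by omega) (by linarith)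
    (by linarith) (by linarith) (by linarith) hε hε3 hI1 hI2
  refine ⟨K, hK, ?_⟩
  obtain ⟨Da, hTa⟩ := hTWa (T * K) Q (ε₁ / 4) (ε₁ / 2) ε B₀ (by omega) (by linarith)
    (by linarith) (by linarith) (by linarith) hε hε3 hI1 hI2 (by omega)
  obtain ⟨Db, hTb⟩ := hTWb (T * K) Q (ε₁ / 4) (ε₁ / 2) ε B₀ (by omega) (by linarith)
    (by linarith) (by linarith) (by linarith) hε hε3 hI1 hI2 hBr (by omega)
  refine ⟨Da + Db + 2 * (T * K + 1) + 2, ?_⟩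
  intro D hD α cl hcl h𝒮 hα hαD η' hη'
  have hκ : 0 < ε / 400 := by positivity
  have hI2p : 0 < Q.I2 := hε.trans hI2
  have evTa : ∀ᶠ N : ℕ in atTop, ∀ r ∈ range (Rn (ε / 400)), ∀ (h : Fin (T * K) → ℤ) (Mo : ℕ),
      HB h Mo N → Nd α h Mo →
      ∀ v : ℕ, (∀ j, ∀ n : ℤ, n ≡ v [ZMOD (WW D)] →
        IsCoprime (uB α j * n + wB h Mo j) ((WW D : ℕ) : ℤ)) →
      ∀ Z : ℝ, Z = ZZ (T * K) (Pool.Agent.W25.UN.VV α h Mo D (DB (2 * N) B₀))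
          (ε / 400 * (ctr (ε / 400) r * N)) (WW D)
          (BD (DB (2 * N) B₀)) (ε₁ / 4 * Real.log N) →
      ∑ n ∈ Ns α h D (DB (2 * N) B₀) Mo v N,
        lt (ctr (ε / 400) r * N) (ε / 400 * (ctr (ε / 400) r * N)) n *
        (wZ Q (uB α) (wB h Mo) (PBF α h Mo N B₀ (ε₁ / 2)) (ε₁ / 4 * Real.log N) n) ^ 2 ≤
          Z * Ac Q (T * K) ε := by
    rw [Filter.eventually_all_finset]
    intro r hr
    have hc := ctr_range hκ (Finset.mem_range.1 hr)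
    exact hTa D (by omega) α hα hαD (ctr (ε / 400) r) hc.1 hc.2
  have evTb : ∀ᶠ N : ℕ in atTop, ∀ r ∈ range (Rn (ε / 400)), ∀ (h : Fin (T * K) → ℤ) (Mo : ℕ),
      HB h Mo N → Nd α h Mo →
      PosR α h Mo N → ∀ v : ℕ, (∀ j, ∀ n : ℤ, n ≡ v [ZMOD (WW D)] →
        IsCoprime (uB α j * n + wB h Mo j) ((WW D : ℕ) : ℤ)) →
      ∀ Z : ℝ, Z = ZZ (T * K) (Pool.Agent.W25.UN.VV α h Mo D (DB (2 * N) B₀))
          (ε / 400 * (ctr (ε / 400) r * N)) (WW D)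
          (BD (DB (2 * N) B₀)) (ε₁ / 4 * Real.log N) →
      ∀ i : Fin (T * K), Z * (ε₁ / 4 * βc Q (T * K) ε) ≤ ∑ n ∈ Ns α h D (DB (2 * N) B₀) Mo v N,
      (if (Fm α h Mo i n).toNat.Prime then
        lt (ctr (ε / 400) r * N) (ε / 400 * (ctr (ε / 400) r * N)) n *
        (wZ Q (uB α) (wB h Mo) (PBF α h Mo N B₀ (ε₁ / 2)) (ε₁ / 4 * Real.log N) n) ^ 2 else 0) := by
    rw [Filter.eventually_all_finset]
    intro r hr
    have hc := ctr_range hκ (Finset.mem_range.1 hr)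
    exact hTb D (by omega) α hα hαD (ctr (ε / 400) r) hc.1 hc.2
  filter_upwards [hD3 B₀ le_rfl D (by omega) α h𝒮 hα hαD, evTa, evTb,
    ptwH (T * K) α Q (η' / 4) (by linarith),
    hVLN (T * K) B₀ D ε₁ (ε₁ / 4) (by omega) (by omega) hε₁ (by linarith) (by linarith),
    eventually_gt_atTop 10000, ev_poly 128 0 ε₁ 1 (by linarith), ev_poly 128 0 θ 1 (by linarith),
    ev_poly (6144 * T * ((WW D / 2 : ℕ) : ℝ) / (ε * Ac Q (T * K) ε)) 1 (1 - η' + η' / 4) 1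
      (by linarith)]
    with N hdat hTa' hTb' hpt hvln hN1' hp8 hp9 hpl
  intro h Mo hMo hnd hpos v hv
  replace hpt := hpt h Mo hMo
  replace hvln := hvln α h Mo hα hαD
  obtain ⟨η₂, A, E₁, D₁, Z, Tr, t, th, dl, b, Zb, cb, HL⟩ := hdat h Mo hMo hnd v
  have H := HL.dB
  have hN0 : (0 : ℝ) < N := by exact_mod_cast (by omega : 0 < N)
  have hbig : ((2 * N : ℕ) : ℝ) ^ ε₁ ≤ N / 64 := by
    push_cast
    rw [Real.mul_rpow (by norm_num) hN0.le]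
    have h5 : (2 : ℝ) ^ ε₁ ≤ 2 := by
      calc (2 : ℝ) ^ ε₁ ≤ (2 : ℝ) ^ (1 : ℝ) :=
            Real.rpow_le_rpow_of_exponent_le (by norm_num) (by linarith)
        _ = 2 := Real.rpow_one 2
    rw [pow_zero, mul_one, Real.rpow_one] at hp8
    have h6 : (2 : ℝ) ^ ε₁ * (N : ℝ) ^ ε₁ ≤ 2 * (N : ℝ) ^ ε₁ :=
      mul_le_mul_of_nonneg_right h5 (by positivity)
    linarith
  have hbigθ : ((2 * N : ℕ) : ℝ) ^ θ ≤ N / 64 := by
    push_cast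
    rw [Real.mul_rpow (by norm_num) hN0.le]
    have h5 : (2 : ℝ) ^ θ ≤ 2 := by
      calc (2 : ℝ) ^ θ ≤ (2 : ℝ) ^ (1 : ℝ) :=
            Real.rpow_le_rpow_of_exponent_le (by norm_num) (by linarith)
        _ = 2 := Real.rpow_one 2
    rw [pow_zero, mul_one, Real.rpow_one] at hp9
    have h6 : (2 : ℝ) ^ θ * (N : ℝ) ^ θ ≤ 2 * (N : ℝ) ^ θ :=
      mul_le_mul_of_nonneg_right h5 (by positivity)
    linarith
  have hcop : ∀ j, ∀ n : ℤ, n ≡ v [ZMOD (WW D)] →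
      IsCoprime (uB α j * n + wB h Mo j) ((WW D : ℕ) : ℤ) := hv
  have hpt' : ∀ n : ℕ, 1 ≤ n → n ≤ N → (∀ i, (Mo : ℤ) + α i * n + h i ≠ 0) →
      (wZ Q (uB α) (wB h Mo) (PBF α h Mo N B₀ (ε₁ / 2)) (ε₁ / 4 * Real.log N) n) ^ 2 ≤
        (N : ℝ) ^ (η' / 4) := by
    intro n hn1 hn2 hn3
    refine (hpt (PBF α h Mo N B₀ (ε₁ / 2)) (ε₁ / 4 * Real.log N) ?_ ?_ H.sd n hn1 hn2 hn3).1
    · have := H.l1
      positivity
    · intro p hp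
      have h5 := H.gd p (Finset.mem_union_left _ hp)
      refine ⟨h5.1.1, ?_⟩
      have h6 : (p : ℝ) ≤ N := by linarith [h5.2.2]
      exact_mod_cast h6
  have hg0 : 0 ≤ g0c (4 * θ - 2) (ε₁ / 4) ε := by
    unfold g0c
    have h5 : (0 : ℝ) < (1 / 4 + (4 * θ - 2) / 8) * (1 - ε) := mul_pos (by linarith) (by linarith)
    positivity
  have hCR : 1 ≤ Real.exp (c₁ / ε₁) := Real.one_le_exp (by
    have : 0 < c₁ := by linarith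
    positivity)
  have hres := core_atL hU0 hL1 hU2 hUD hNWU hNWE hI1 hI2 hBr hBr2 hCR (Real.exp_pos _).le hg0 hnum
    HL hMo hnd cl hcl (by omega)
    (fun r hr => hTa' r (Finset.mem_range.2 hr) h Mo hMo hnd v hcop _ rfl)
    (fun r hr => hTb' r (Finset.mem_range.2 hr) h Mo hMo hnd hpos v hcop _ rfl) hpos.posF hbig
    hbigθ (η' / 4) η' hpt' hvln.2.2.2.1 hpl
  exact hres

end Pool.Agent.Y827.LS
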