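import Mathlib
import Pool.Agent.Y827.LS.Asm
import Pool.Agent.Y827.LS.R2Bpm
import Pool.Agent.TH899.UG.FinalH
import Pool.Agent.W25.UB.FinalT

/-! Project LS: the coloured theorem with the constant `18 / 5`, unconditionally, slopes `1`, `-1`. -/

set_option autoImplicit false

namespace Pool.Agent.Y827.LS

open Pool.Agent.W25.UN Pool.Agent.W25.UB
open Pool.Agent.H442R2
open Pool.Agent.TH899.UG

/-- the uniform coloured theorem with the constant `18 / 5`, slopes `1` and `-1` -/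
theorem thmL : ThmL (fun u => u = 1 ∨ u = -1) :=
  thmL_of (r2bpm Pool.Agent.W25.UB.hTTC) hR2LF hEXM Pool.Agent.W505.UBGAU.main hFT3
    (Pool.Agent.W308.UB.main hEXM) (flc3 Pool.Agent.W308.PL.FLW Pool.Agent.W655.PL.VLB)
    hSUM hMASH (Pool.Agent.W940.UBNWL.main Pool.Agent.W21.UN.main)
    Pool.Agent.W398.UNFO.sd hTWaH hTWbH
    (u0F hNWU) (l1F hNWU Pool.Agent.W469.UBNWE.main)
    (u2F hNWU Pool.Agent.W469.UBNWE.main)
    (udF hNWU Pool.Agent.W469.UBNWE.main) hNWU Pool.Agent.W469.UBNWE.main hVLNF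

end Pool.Agent.Y827.LS
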