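import Mathlib
import Pool.Agent.Y827.LS.Final
import Pool.Agent.W473.UBCB
import Pool.Agent.W25.QL.Fam

/-! Project LS: consequences for shifts, explicit constants. -/

set_option autoImplicit false

namespace Pool.Agent.Y827.LS

open Finset Filter Topology
open Pool.Agent.W25.UN (Fm uB wB)
open Pool.Agent.H410R2 (WW)
open Pool.Agent.W59.GB Pool.Agent.H947R3.GM Pool.Agent.H732R3.BigQ Pool.Agent.W25.UB
open Pool.Agent.W150.UBC1a (dvdWW)
open Pool.Agent.TH899.UG (HB Nd PosR)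
open Pool.Agent.W473.UBCB (crt big_pull)

open Classical in
/-- the coloured theorem for shifts and reflected shifts with the constant `lam` -/
def ThmVGc (lam : ℝ) : Prop := ∀ T M : ℕ, 1 ≤ T → lam * M < T →
  ∃ K : ℕ, 2 ≤ K ∧ ∀ (α h : Fin (T * K) → ℤ) (cl : Fin (T * K) → Fin T),
    (∀ g, (univ.filter (fun i => cl i = g)).card = K) → (∀ i, α i = 1 ∨ α i = -1) →
    (∀ i j, i ≠ j → ¬ (α i = α j ∧ h i = h j)) → ∃ D₀ : ℕ, ∀ D : ℕ, D₀ ≤ D →
    ∀ η : ℝ, 0 < η → ∀ᶠ N : ℕ in atTop, ∀ v : ℕ, CopAt α h D N v →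
      (N : ℝ) ^ (1 - η) ≤ (((Icc 1 N).filter (fun n : ℕ => n ≡ v [MOD (WW D)] ∧
        (N : ℝ) / 16 ≤ n ∧ (n : ℝ) ≤ N / 2 ∧
        M + 1 ≤ (univ.filter (fun g : Fin T => ∃ i, cl i = g ∧
          (Fm α h N i n).toNat.Prime)).card)).card : ℝ)

/-- classes of shifts containing primes, all other shifts being blocked -/
def CBc (lam : ℝ) : Prop := ∀ n M' : ℕ, 1 ≤ n → lam * M' < n →
  ∃ K : ℕ, 1 ≤ K ∧ ∀ N a : ℕ, 0 < N → 2 ∣ N → Squarefree N → a.Coprime N →
  ∀ H : Fin n → Fin K → ℕ, AdmN N H →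
    ∃ (Q r M : ℕ) (S : Finset (Fin n)) (c : Fin n → Fin K), 0 < Q ∧ N ∣ Q ∧ r ≡ a [MOD N] ∧
      (∀ g i, N * H g i ≤ M) ∧ M' + 1 ≤ S.card ∧
      Big {m : ℕ | (∀ g ∈ S, (Q * m + r + N * H g (c g)).Prime) ∧
        ∀ t ≤ M, (∀ g i, N * H g i ≠ t) → ¬ (Q * m + r + t).Prime}

theorem vgc_of (hL : ThmL (fun u => u = 1 ∨ u = -1)) : ThmVGc (18 / 5) := by
  classical
  intro T M hT hTM
  obtain ⟨K, hK, D₀, hD₀⟩ := hL T M hT hTM
  refine ⟨K, hK, fun α h cl hcl hα hne => ?_⟩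
  refine ⟨max D₀ 1, fun D hD η hη => ?_⟩
  have hDD : D₀ ≤ D := (le_max_left _ _).trans hD
  have hD1 : 1 ≤ D := (le_max_right _ _).trans hD
  have hα0 : ∀ i, α i ≠ 0 := fun i => by rcases hα i with h | h <;> rw [h] <;> norm_num
  have hαD : ∀ i, (α i).natAbs ≤ D := fun i => by
    rcases hα i with h | h <;> rw [h] <;> simpa using hD1
  obtain ⟨C, hC⟩ : ∃ C : ℕ, ∀ i, |h i| ≤ C := by
    refine ⟨∑ i, (h i).natAbs, fun i => ?_⟩
    rw [Int.abs_eq_natAbs]
    exact_mod_cast Finset.single_le_sum (f := fun i => (h i).natAbs) (fun _ _ => Nat.zero_le _)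
      (Finset.mem_univ i)
  filter_upwards [hD₀ D hDD α cl hcl hα hα0 hαD η hη, eventually_ge_atTop (100 * C + 100)]
    with N hN hNC v hv
  have hCb : ∀ i, -(C : ℤ) ≤ h i ∧ h i ≤ C := fun i => abs_le.1 (hC i)
  refine hN h N ?_ ?_ ?_ v hv
  · intro i
    have := hCb i
    rw [abs_of_nonneg (by omega)]
    omega
  · have hw : ∀ i, uB α (some i) = α i ∧ wB h N (some i) = (N : ℤ) + h i := fun i => ⟨rfl, rfl⟩
    have hn : uB α none = 1 ∧ wB h N none = 0 := ⟨rfl, rfl⟩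
    rintro (_ | j) (_ | l) hjl
    · exact absurd rfl hjl
    · rw [hn.1, hn.2, (hw l).1, (hw l).2]
      have := hCb l
      intro h0
      rw [mul_zero] at h0
      omega
    · rw [hn.1, hn.2, (hw j).1, (hw j).2]
      have := hCb j
      intro h0
      rw [mul_zero] at h0
      omega
    · rw [(hw j).1, (hw j).2, (hw l).1, (hw l).2]
      have h1 := hCb j
      have h2 := hCb l
      have hjl' : j ≠ l := fun h => hjl (by rw [h])
      have h3 := hne j l hjl'
      intro h0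
      rcases hα j with hj | hj <;> rcases hα l with hl | hl <;> rw [hj, hl] at h0
      · exact h3 ⟨by rw [hj, hl], by omega⟩
      · omega
      · omega
      · exact h3 ⟨by rw [hj, hl], by omega⟩
  · intro i x hx1 hx2
    have h1 := hCb i
    have h2 : -(C : ℝ) ≤ (h i : ℝ) := by exact_mod_cast h1.1
    have h3 : (100 * (C : ℝ) + 100) ≤ N := by exact_mod_cast hNC
    have h4 : (0 : ℝ) ≤ C := Nat.cast_nonneg C
    rcases hα i with hj | hj <;> rw [hj]
    · push_cast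
      linarith
    · push_cast
      linarith

/-- the coloured theorem with the constant `18 / 5` -/
theorem vgc : ThmVGc (18 / 5) := vgc_of thmL

theorem card_cl {T K : ℕ} {dp : ∀ g : Fin T, DecidablePred
    (fun j : Fin (T * K) => (finProdFinEquiv.symm j).1 = g)} (g : Fin T) :
    (@Finset.filter _ (fun j : Fin (T * K) => (finProdFinEquiv.symm j).1 = g) (dp g)
      univ).card = K := by
  refine Eq.trans (congrArg Finset.card ?_) (Pool.Agent.W473.UBCB.card_cl (K := K) g)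
  ext j
  simp only [Finset.mem_filter]

open Classical in
theorem cbL {lam : ℝ} (hV : ThmVGc lam) : CBc lam := by
  intro T M' hT hTM
  obtain ⟨K, hK2, hV⟩ := hV T M' hT hTM
  refine ⟨K, by omega, fun N a hN _ hsq ha H hH => ?_⟩
  have hK0 : 0 < K := by omega
  set H' : Fin T → Fin K → ℕ := fun g i => N * H g i with hH'
  have hinjH' : Function.Injective (fun x : Fin T × Fin K => H' x.1 x.2) := by
    intro x y hxy
    exact hH.1 (Nat.eq_of_mul_eq_mul_left hN hxy)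
  obtain ⟨M, hM⟩ : ∃ M, ∀ g i, H' g i ≤ M :=
    ⟨univ.sup fun x : Fin T × Fin K => H' x.1 x.2, fun g i =>
      le_sup (f := fun x : Fin T × Fin K => H' x.1 x.2) (mem_univ (g, i))⟩
  set q : ℕ → ℕ := fun t => Nat.nth Nat.Prime (M + N + t) with hq
  have hqp : ∀ t, (q t).Prime := fun t => Nat.prime_nth_prime _
  have hqM : ∀ t, M + N + t < q t := fun t => by
    have := Nat.add_two_le_nth_prime (M + N + t)
    simp only [hq]; omega
  have hqinj : Function.Injective q := by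
    intro s t hst
    have := Nat.nth_injective Nat.infinite_setOfPred_prime hst
    omega
  set g00 : Fin T := ⟨0, hT⟩ with hg00
  obtain ⟨m0, hm0⟩ : ∃ m0, H' g00 ⟨0, hK0⟩ = m0 := ⟨_, rfl⟩
  set e : Fin (T * K) ≃ Fin T × Fin K := finProdFinEquiv.symm with he
  set h : Fin (T * K) → ℤ := fun j => (H' (e j).1 (e j).2 : ℤ) - m0 with hh
  obtain ⟨D₀, hD₀⟩ := hV (fun _ => 1) h (fun j => (e j).1) (fun g => by
      convert card_cl (K := K) g) (fun _ => Or.inl rfl) (by
      rintro i j hij ⟨-, h1⟩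
      apply hij
      apply e.injective
      apply hinjH'
      simp only [hh] at h1
      simp only
      omega)
  obtain ⟨D, hDD, hDN, hDq⟩ : ∃ D, D₀ ≤ D ∧ N ≤ D ∧ ∀ t ≤ M, q t ≤ D := by
    refine ⟨D₀ + N + ∑ t ∈ range (M + 1), q t, by omega, by omega, fun t ht => ?_⟩
    have : q t ≤ ∑ t ∈ range (M + 1), q t :=
      single_le_sum (f := q) (fun i _ => Nat.zero_le _) (mem_range.2 (Nat.lt_succ_of_le ht))
    omega
  obtain ⟨v, hv⟩ := crt hN ha hsq H hH hM m0 ⟨g00, ⟨0, hK0⟩, hm0⟩ q hqp hqM hqinj D hDN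
  have hNW := dvdWW hN hsq hDN
  have hW : 0 < WW D := by
    rw [WW]; exact prod_pos fun p hp => (mem_filter.1 hp).2.pos
  obtain ⟨r, hrdef⟩ : ∃ r, r + m0 = v + WW D * m0 := by
    have := Nat.le_mul_of_pos_left m0 hW
    exact ⟨v + WW D * m0 - m0, by omega⟩
  have hNm0 : N ∣ m0 := by rw [← hm0]; exact dvd_mul_right _ _
  have hra : r ≡ a [MOD N] := by
    obtain ⟨-, hva, -⟩ := hv v (Int.ModEq.refl _)
    have h1 : r + m0 ≡ v + 0 [MOD N] := by
      rw [hrdef]
      exact Nat.ModEq.add_left v (Nat.modEq_zero_iff_dvd.2 (hNW.mul_right _))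
    have h2 : r + m0 ≡ r + 0 [MOD N] :=
      Nat.ModEq.add_left r (Nat.modEq_zero_iff_dvd.2 hNm0)
    have h3 : v ≡ a [MOD N] := Int.natCast_modEq_iff.1 hva
    exact (h2.symm.trans h1).trans h3
  set G : Set ℕ := {b | (∃ m, b = WW D * m + r) ∧
    (∀ t ≤ M, (∀ g i, H' g i ≠ t) → ¬ (b + t).Prime) ∧
    M' + 1 ≤ (univ.filter (fun g : Fin T => ∃ i, (b + H' g i).Prime)).card} with hGdef
  have hG : Big G := by
    intro η hη
    have hev := hD₀ D hDD (η / 2) (by linarith)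
    have ht : Tendsto (fun m : ℕ => WW D * m) atTop atTop :=
      tendsto_atTop_mono (fun m => Nat.le_mul_of_pos_left m hW) tendsto_id
    have ht1 : Tendsto (fun m : ℕ => ((WW D * m : ℕ) : ℝ)) atTop atTop :=
      tendsto_natCast_atTop_atTop.comp ht
    have ht2 : Tendsto (fun m : ℕ => 2 * ((WW D * m : ℕ) : ℝ)) atTop atTop :=
      ht1.const_mul_atTop two_pos
    refine ht2.frequently (Eventually.frequently ?_)
    filter_upwards [ht.eventually hev, ht.eventually (eventually_ge_atTop (m0 + D + 1 + r)),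
      ((tendsto_rpow_atTop (show 0 < η / 2 by linarith)).comp ht1).eventually_ge_atTop 2]
      with m h1 h2 h3
    simp only [Function.comp] at h3
    have hWm : WW D ∣ WW D * m := dvd_mul_right _ _
    generalize WW D * m = Nn at h1 h2 h3 hWm
    have hcop : CopAt (fun _ => 1) h D Nn v := by
      intro j n hn
      obtain ⟨hA, -, -⟩ := hv n hn
      have eW : ((WW D : ℕ) : ℤ) = ∏ p ∈ (Icc 1 D).filter Nat.Prime, (p : ℤ) := by
        rw [WW]; push_cast; rfl
      rw [eW]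
      refine IsCoprime.prod_right fun p hp => ?_
      have hpW : (p : ℤ) ∣ (Nn : ℤ) := by
        refine Int.natCast_dvd_natCast.2 (dvd_trans ?_ hWm)
        rw [WW]; exact dvd_prod_of_mem _ hp
      rw [mem_filter, mem_Icc] at hp
      have hpp := Nat.prime_iff_prime_int.1 hp.2
      have key := hA p hp.2 hp.1.2
      refine (hpp.coprime_iff_not_dvd.2 ?_).symm
      rcases j with _ | i
      · intro hd
        apply key g00 ⟨0, hK0⟩
        have e1 : n - m0 + ((N * H g00 ⟨0, hK0⟩ : ℕ) : ℤ) =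
            uB (fun _ : Fin (T * K) => 1) none * n + wB h Nn none := by
          have : ((N * H g00 ⟨0, hK0⟩ : ℕ) : ℤ) = m0 := by rw [← hm0]
          rw [this]
          show _ = 1 * n + 0
          ring
        rw [e1]; exact hd
      · intro hd
        apply key (e i).1 (e i).2
        have e1 : n - m0 + ((N * H (e i).1 (e i).2 : ℕ) : ℤ) =
            (uB (fun _ : Fin (T * K) => 1) (some i) * n + wB h Nn (some i)) - Nn := by
          show _ = (1 * n + (Nn + h i)) - Nn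
          simp only [hh, hH']
          ring
        rw [e1]; exact dvd_sub hd hpW
    have h4 := h1 v hcop
    have hNn1 : (1 : ℝ) ≤ Nn := by exact_mod_cast (by omega : 1 ≤ Nn)
    have hNn0 : (0 : ℝ) < Nn := by linarith
    have h5 : (2 * (Nn : ℝ)) ^ (1 - η) ≤ (Nn : ℝ) ^ (1 - η / 2) := by
      rw [Real.mul_rpow two_pos.le hNn0.le]
      have h6 : (2 : ℝ) ^ (1 - η) ≤ 2 := by
        calc (2 : ℝ) ^ (1 - η) ≤ 2 ^ (1 : ℝ) :=
              Real.rpow_le_rpow_of_exponent_le (by norm_num) (by linarith)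
          _ = 2 := Real.rpow_one 2
      calc (2 : ℝ) ^ (1 - η) * (Nn : ℝ) ^ (1 - η) ≤ (Nn : ℝ) ^ (η / 2) * (Nn : ℝ) ^ (1 - η) :=
            mul_le_mul_of_nonneg_right (h6.trans h3) (Real.rpow_nonneg hNn0.le _)
        _ = (Nn : ℝ) ^ (1 - η / 2) := by
            rw [← Real.rpow_add hNn0]; congr 1; ring
    refine h5.trans (h4.trans ?_)
    generalize hSdef : ((Icc 1 Nn).filter (fun n : ℕ => n ≡ v [MOD (WW D)] ∧
        (Nn : ℝ) / 16 ≤ n ∧ (n : ℝ) ≤ Nn / 2 ∧
        M' + 1 ≤ (univ.filter (fun g : Fin T => ∃ i, (e i).1 = g ∧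
          (Fm (fun _ => 1) h Nn i n).toNat.Prime)).card)) = S
    have hinj : Set.InjOn (fun n : ℕ => Nn + n - m0) (S : Set ℕ) := by
      intro n _ n' _ hnn
      simp only at hnn
      omega
    have hcard : S.card = ((S.image (fun n : ℕ => Nn + n - m0) : Finset ℕ) : Set ℕ).ncard := by
      rw [Set.ncard_coe_finset, card_image_of_injOn hinj]
    rw [hcard]
    refine Nat.cast_le.2 (Set.ncard_le_ncard ?_ (fin_le G _))
    intro b hb
    rw [mem_coe, mem_image] at hb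
    obtain ⟨n, hn, rfl⟩ := hb
    rw [← hSdef, mem_filter, mem_Icc] at hn
    obtain ⟨⟨hn1, hn2⟩, hnv, -, hnN, hn3⟩ := hn
    obtain ⟨-, hB, hC⟩ := hv n (Int.natCast_modEq_iff.2 hnv)
    have hbc : ((Nn + n - m0 : ℕ) : ℤ) = Nn + n - m0 := by
      rw [Nat.cast_sub (by omega)]; push_cast; rfl
    refine ⟨⟨?_, ?_, ?_⟩, ?_⟩
    · -- the residue class modulo `WW D`
      have hge : r ≤ Nn + n - m0 := by omega
      have hmod : r ≡ Nn + n - m0 [MOD (WW D)] := by
        have h7 : r + m0 ≡ (Nn + n - m0) + m0 [MOD (WW D)] := by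
          have e2 : (Nn + n - m0) + m0 = n + Nn := by omega
          rw [e2, hrdef]
          have h8 : v + WW D * m0 ≡ v + 0 [MOD (WW D)] :=
            Nat.ModEq.add_left v (Nat.modEq_zero_iff_dvd.2 (dvd_mul_right _ _))
          have h9 : n + Nn ≡ n + 0 [MOD (WW D)] :=
            Nat.ModEq.add_left n (Nat.modEq_zero_iff_dvd.2 hWm)
          exact (h8.trans hnv.symm).trans h9.symm
        exact Nat.ModEq.add_right_cancel' m0 h7
      obtain ⟨k, hk⟩ := (Nat.modEq_iff_dvd' hge).1 hmod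
      exact ⟨k, by omega⟩
    · intro t ht1 hne hpr
      have hd := hC t ht1 hne (hDq t ht1)
      have hqW : (q t : ℤ) ∣ (Nn : ℤ) := by
        refine Int.natCast_dvd_natCast.2 (dvd_trans ?_ hWm)
        rw [WW]
        exact dvd_prod_of_mem _ (mem_filter.2 ⟨mem_Icc.2 ⟨(hqp t).one_le, hDq t ht1⟩, hqp t⟩)
      have hd2 : q t ∣ Nn + n - m0 + t := by
        rw [← Int.natCast_dvd_natCast]
        have e1 : ((Nn + n - m0 + t : ℕ) : ℤ) = (n - m0 + t) + Nn := by
          rw [Nat.cast_add, hbc]; ring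
        rw [e1]
        exact dvd_add hd hqW
      have h7 := (Nat.prime_dvd_prime_iff_eq (hqp t) hpr).1 hd2
      have h8 := hDq t ht1
      omega
    · refine hn3.trans (card_le_card ?_)
      intro g hg
      rw [mem_filter] at hg ⊢
      obtain ⟨-, i, hi, hp⟩ := hg
      refine ⟨mem_univ _, (e i).2, ?_⟩
      have hF : (Fm (fun _ => 1) h Nn i n).toNat = Nn + n - m0 + H' (e i).1 (e i).2 := by
        have e1 : Fm (fun _ => 1) h Nn i n = ((Nn + n - m0 + H' (e i).1 (e i).2 : ℕ) : ℤ) := by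
          rw [Nat.cast_add, hbc]
          simp only [Fm, hh]
          ring
        rw [e1, Int.toNat_natCast]
      rw [hF, hi] at hp
      exact hp
    · have h9 : ((Nn + n - m0 : ℕ) : ℝ) ≤ ((Nn + n : ℕ) : ℝ) :=
        Nat.cast_le.2 (Nat.sub_le _ _)
      push_cast at h9
      have h10 : ((Nn + n - m0 : ℕ) : ℝ) ≤ (Nn : ℝ) + n := h9
      linarith
  -- pigeonhole over the classes and the choices
  set Y : (Finset (Fin T) × (Fin T → Fin K)) → Set ℕ := fun x =>
    {b | M' + 1 ≤ x.1.card ∧ (∃ m, b = WW D * m + r) ∧ (∀ g ∈ x.1, (b + H' g (x.2 g)).Prime) ∧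
      ∀ t ≤ M, (∀ g i, H' g i ≠ t) → ¬ (b + t).Prime} with hY
  have hcover : G ⊆ ⋃ x, Y x := by
    rintro b ⟨hb1, hb2, hb3⟩
    rw [Set.mem_iUnion]
    refine ⟨(univ.filter (fun g : Fin T => ∃ i, (b + H' g i).Prime),
      fun g => if hg : ∃ i, (b + H' g i).Prime then hg.choose else ⟨0, hK0⟩), hb3, hb1, ?_, hb2⟩
    intro g hg
    have hg' : ∃ i, (b + H' g i).Prime := (mem_filter.1 hg).2
    simp only [dif_pos hg']
    exact hg'.choose_spec
  obtain ⟨x, hx⟩ := big_cover Y G hG hcover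
  obtain ⟨n₀, hn₀⟩ := hx.infinite.nonempty
  refine ⟨WW D, r, M, x.1, x.2, hW, hNW, hra, hM, hn₀.1, ?_⟩
  refine (big_pull hx hW (fun b hb => hb.2.1)).mono ?_
  rintro m ⟨-, -, hm1, hm2⟩
  exact ⟨hm1, hm2⟩



open Classical in
theorem lamEvL {lam : ℝ} (hlam : 0 < lam) (hV : ThmVGc lam) : Pool.Agent.W25.QL.LamEv lam := by
  intro T
  rcases Nat.eq_zero_or_pos T with rfl | hT
  · exact ⟨1, le_rfl, fun h => absurd h (by norm_num)⟩
  have hTr : (0 : ℝ) < T := by exact_mod_cast hT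
  obtain ⟨M, hM⟩ : ∃ M : ℕ, M + 1 = ⌈(T : ℝ) / lam⌉₊ := by
    have : 0 < ⌈(T : ℝ) / lam⌉₊ := Nat.ceil_pos.2 (by positivity)
    exact ⟨⌈(T : ℝ) / lam⌉₊ - 1, by omega⟩
  have hMlt : lam * (M : ℝ) < T := by
    have h1 : (M : ℝ) < (T : ℝ) / lam := by
      rw [← Nat.lt_ceil]
      omega
    rw [lt_div_iff₀ hlam] at h1
    linarith
  have hMge : (T : ℝ) ≤ lam * ((M + 1 : ℕ) : ℝ) := by
    have h1 : (T : ℝ) / lam ≤ ((M + 1 : ℕ) : ℝ) := by
      rw [hM]; exact Nat.le_ceil _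
    rw [div_le_iff₀ hlam] at h1
    linarith
  obtain ⟨K, hK2, hK⟩ := hV T M hT hMlt
  refine ⟨K, by omega, fun _ H hinj hH η hη => ?_⟩
  have hsc := Pool.Agent.W25.QL.scale (M := M) hT (by omega) hK H hinj
    (Pool.Agent.W25.QL.adm_all H hH)
  set F : Finset (Fin T) × (Fin T → Fin K) → Set ℕ := fun z =>
    {n | M + 1 ≤ z.1.card ∧ ∀ g ∈ z.1, (n + H g (z.2 g)).Prime} with hF
  have hcov : {b : ℕ | M + 1 ≤ (univ.filter (fun g : Fin T => ∃ i, (b + H g i).Prime)).card} ⊆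
      ⋃ z, F z := by
    intro b hb
    have h1 : ∀ g : Fin T, ∃ i : Fin K, (∃ j, (b + H g j).Prime) → (b + H g i).Prime := by
      intro g
      by_cases h2 : ∃ j, (b + H g j).Prime
      · obtain ⟨j, hj⟩ := h2
        exact ⟨j, fun _ => hj⟩
      · exact ⟨⟨0, by omega⟩, fun h3 => absurd h3 h2⟩
    choose cc hcc using h1
    rw [Set.mem_iUnion]
    refine ⟨(univ.filter (fun g : Fin T => ∃ i, (b + H g i).Prime), cc), hb, fun g hg => ?_⟩
    exact hcc g (mem_filter.1 hg).2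
  filter_upwards [ev_of_cover F _ (fun η hη => hsc η hη) hcov η hη, eventually_gt_atTop (0 : ℝ)]
    with x hx hx0
  obtain ⟨⟨S, cc⟩, hS⟩ := hx
  have hpos : 0 < x ^ (1 - η) := Real.rpow_pos_of_pos hx0 _
  have hne : ({n : ℕ | n ∈ F (S, cc) ∧ (n : ℝ) ≤ x}).Nonempty := by
    by_contra hcon
    rw [Set.not_nonempty_iff_eq_empty] at hcon
    rw [hcon, Set.ncard_empty] at hS
    push_cast at hS
    linarith
  obtain ⟨n, ⟨hn1, -⟩, -⟩ := hne
  refine ⟨S, cc, ?_, hS.trans ?_⟩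
  · refine hMge.trans (mul_le_mul_of_nonneg_left ?_ hlam.le)
    exact_mod_cast hn1
  · refine Nat.cast_le.2 (Set.ncard_le_ncard ?_ (Pool.Agent.H732R3.BigQ.fin_le _ _))
    rintro m ⟨hm, hmx⟩
    exact ⟨hm.2, hmx⟩

end Pool.Agent.Y827.LS
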