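import Mathlib
import Pool.Agent.Y827.LS.VGc

/-! Project LS: the proportion of the tuples of shifts, explicit constants. -/

set_option autoImplicit false

namespace Pool.Agent.Y827.LS

open Finset Filter
open Pool.Agent.W25.QL
open Pool.Agent.W70.QP (freq_pigeon)

/-- the proportion -/
noncomputable def dn (k : ℕ) : ℝ := if k = 1 then 1 / 3 else (5 / 18) ^ k

theorem dn_le (k : ℕ) : dn k ≤ 1 := by
  unfold dn
  split_ifs
  · norm_num
  · apply pow_le_one₀ (by norm_num) (by norm_num)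

open Classical in
theorem hcountL (k : ℕ) (ε : ℝ) (hε : 0 < ε) :
    ∃ T : ℕ, 1 ≤ T ∧ ∀ C : Finset (Finset (Fin T)),
      (∀ S ∈ C, ∀ S', S' ⊆ S → S' ∈ C) → (∀ m, ¬ Fails (18 / 5) C m) →
      (dn k - ε) * (T : ℝ) ^ (k + 1) ≤ ((univ.filter (fun u : Fin (k + 1) → Fin T =>
        Function.Injective u ∧ univ.image u ∈ C)).card : ℝ) := by
  by_cases hk : k = 1
  · subst hk
    unfold dn
    rw [if_pos rfl]
    exact count_pair (by norm_num) (by norm_num) ε hε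
  · unfold dn
    rw [if_neg hk]
    have e : (5 / 18 : ℝ) = 1 / (18 / 5) := by norm_num
    rw [e]
    exact count_pow (by norm_num) k ε hε

theorem shifts_evL (k : ℕ) (ε : ℝ) (hε : 0 < ε) : ∃ z n₀ : ℕ, ∀ V : Finset ℕ,
    (∀ p : ℕ, p ≤ z → p.Prime → ∃ r : ℕ, ∀ v ∈ V, ¬ v ≡ r [MOD p]) → n₀ ≤ V.card →
    ∀ η : ℝ, 0 < η → ∀ᶠ x : ℝ in atTop,
    (dn k - ε) * (V.card : ℝ) ^ (k + 1) ≤ ((Phi k V η x).card : ℝ) := by
  classical
  have hq := lamEvL (by norm_num) vgc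
  unfold LamEv at hq
  choose Kf hKf1 hKf using hq
  obtain ⟨T, M, hT, hM⟩ := main_gen (lam := 18 / 5) (by norm_num) k (dn k)
    (dn_le k) (hcountL k) ε hε Kf
  obtain ⟨n₀, hn₀⟩ := hM Unit
  refine ⟨∑ T' ∈ range (M + 1), T' * Kf T', n₀, ?_⟩
  intro V hVadm hVn η hη
  have hadm : ∀ T' : ℕ, T' ≤ M → ∀ H : Fin T' → Fin (Kf T') → ℕ, (∀ g i, H g i ∈ V) →
      ∀ p : ℕ, p.Prime → p ≤ T' * Kf T' → ∃ r : ℕ, ∀ g i, ¬ H g i ≡ r [MOD p] := by
    intro T' hT' H hH p hp hpT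
    obtain ⟨r, hr⟩ := hVadm p (hpT.trans
      (Finset.single_le_sum (f := fun T' => T' * Kf T') (fun _ _ => Nat.zero_le _)
            (mem_range.2 (by omega)))) hp
    exact ⟨r, fun g i => hr _ (hH g i)⟩
  have hev : ∀ᶠ x : ℝ in atTop, ∀ T' : Fin (M + 1), ∀ H : Fin (T' : ℕ) → Fin (Kf T') → V,
      1 ≤ (T' : ℕ) →
      Function.Injective (fun z : Fin (T' : ℕ) × Fin (Kf T') => (H z.1 z.2 : ℕ)) →
      ∃ (S : Finset (Fin (T' : ℕ))) (cc : Fin (T' : ℕ) → Fin (Kf T')),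
        ((T' : ℕ) : ℝ) ≤ (18 / 5) * (S.card : ℝ) ∧
        x ^ (1 - η) ≤ (cntS (S.image (fun g => (H g (cc g) : ℕ))) x : ℝ) := by
    rw [eventually_all]
    intro T'
    rw [eventually_all]
    intro H
    by_cases h0 : 1 ≤ (T' : ℕ)
    swap
    · exact Eventually.of_forall fun x h => absurd h h0
    by_cases h1 : Function.Injective (fun z : Fin (T' : ℕ) × Fin (Kf T') => (H z.1 z.2 : ℕ))
    swap
    · exact Eventually.of_forall fun x _ h => absurd h h1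
    have h3 := hKf T' h0 (fun g i => (H g i : ℕ)) h1
      (hadm T' (by have := T'.2; omega) _ (fun g i => (H g i).2)) η hη
    filter_upwards [h3] with x hx _ _
    obtain ⟨S, cc, hS, hcc⟩ := hx
    refine ⟨S, cc, hS, hcc.trans (le_of_eq ?_)⟩
    unfold cntS
    congr 2
    ext n
    simp only [Set.mem_ofPred_eq, mem_image, forall_exists_index, and_imp,
      forall_apply_eq_imp_iff₂]
  filter_upwards [hev] with x hx
  have key := hn₀ ℕ V (fun _ => ())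
    (fun F => x ^ (1 - η) ≤ (cntS F x : ℝ)) hVn
    (fun F F' hF h => h.trans (by exact_mod_cast cntS_anti hF x)) (by
      intro T' hT'1 hT'M H hHV hHinj _
      obtain ⟨S, cc, hS, hcc⟩ := hx ⟨T', by omega⟩ (fun g i => ⟨H g i, hHV g i⟩) hT'1 hHinj
      exact ⟨S, cc, hS, hcc⟩)
  refine key.trans (le_of_eq ?_)
  unfold Phi
  rfl

/-- one family of tuples for all exponents -/
theorem familyL {k : ℕ} {ε : ℝ} {V : Finset ℕ}
    (hev : ∀ η : ℝ, 0 < η → ∀ᶠ x : ℝ in atTop,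
      (dn k - ε) * (V.card : ℝ) ^ (k + 1) ≤ ((Phi k V η x).card : ℝ)) :
    ∃ 𝒢 : Finset (Fin (k + 1) → ℕ), (∀ f ∈ 𝒢, (∀ i, f i ∈ V) ∧ Function.Injective f) ∧
      (dn k - ε) * (V.card : ℝ) ^ (k + 1) ≤ (𝒢.card : ℝ) ∧
      ∀ η : ℝ, 0 < η → ∃ᶠ x : ℝ in atTop, ∀ f ∈ 𝒢, x ^ (1 - η) ≤ (cntS (univ.image f) x : ℝ) := by
  classical
  set PS := (Fintype.piFinset (fun _ : Fin (k + 1) => V)).powerset with hPS
  have hmem : ∀ η x, Phi k V η x ∈ PS := Phi_sub k V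
  have h1 : ∀ j : ℕ, ∃ b : PS, (dn k - ε) * (V.card : ℝ) ^ (k + 1) ≤
      ((b : Finset (Fin (k + 1) → ℕ)).card : ℝ) ∧
      ∃ᶠ x : ℝ in atTop, (⟨Phi k V (1 / (j + 1 : ℝ)) x, hmem _ x⟩ : PS) = b := by
    intro j
    exact freq_pigeon (φ := fun x => (⟨Phi k V (1 / (j + 1 : ℝ)) x, hmem _ x⟩ : PS))
      (P := fun b => (dn k - ε) * (V.card : ℝ) ^ (k + 1) ≤
        ((b : Finset (Fin (k + 1) → ℕ)).card : ℝ))
      (hev (1 / (j + 1 : ℝ)) (by positivity))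
  choose b hb1 hb2 using h1
  obtain ⟨B, hB⟩ := Finite.exists_infinite_fiber b
  have hBinf : (b ⁻¹' {B}).Infinite := Set.infinite_coe_iff.1 hB
  obtain ⟨j0, hj0⟩ := hBinf.nonempty
  have hj0' : b j0 = B := hj0
  have hval : ∀ j x, b j = B → (⟨Phi k V (1 / (j + 1 : ℝ)) x, hmem _ x⟩ : PS) = b j →
      (B : Finset (Fin (k + 1) → ℕ)) = Phi k V (1 / (j + 1 : ℝ)) x := by
    intro j x h1 h2
    rw [h1] at h2
    exact (congrArg Subtype.val h2).symm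
  refine ⟨B, fun f hf => ?_, by rw [← hj0']; exact hb1 j0, fun η hη => ?_⟩
  · obtain ⟨x, hx⟩ := (hb2 j0).exists
    rw [hval j0 x hj0' hx] at hf
    have h2 := Phi_mem hf
    exact ⟨h2.1, h2.2.1⟩
  · obtain ⟨j, hj, hjη⟩ := hBinf.exists_gt ⌈1 / η⌉₊
    have hj' : b j = B := hj
    have hη' : 1 / (j + 1 : ℝ) ≤ η := by
      have h2 : 1 / η ≤ (j : ℝ) := (Nat.le_ceil _).trans (by exact_mod_cast hjη.le)
      have h3 : 1 / η ≤ (j : ℝ) + 1 := by linarith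
      rw [div_le_iff₀ (by positivity)]
      rw [div_le_iff₀ hη] at h3
      linarith
    refine ((hb2 j).and_eventually (eventually_ge_atTop (1 : ℝ))).mono ?_
    rintro x ⟨hx, hx1⟩ f hf
    rw [hval j x hj' hx] at hf
    have h2 := (Phi_mem hf).2.2
    exact le_trans (Real.rpow_le_rpow_of_exponent_le hx1 (by linarith)) h2

theorem finL (k : ℕ) (ε : ℝ) (hε : 0 < ε) : ∃ z n₀ : ℕ, ∀ V : Finset ℕ,
    (∀ p : ℕ, p ≤ z → p.Prime → ∃ r : ℕ, ∀ v ∈ V, ¬ v ≡ r [MOD p]) → n₀ ≤ V.card →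
    (∃ G : Finset (Fin (k + 1) → ℕ),
      (∀ a ∈ G, (∀ i, a i ∈ V) ∧ Function.Injective a ∧
        {n : ℕ | ∀ i, (n + a i).Prime}.Infinite) ∧
      (dn k - ε) * (V.card : ℝ) ^ (k + 1) ≤ (G.card : ℝ) ∧
      ∀ η : ℝ, 0 < η → ∃ᶠ x : ℝ in atTop, ∀ a ∈ G,
        x ^ (1 - η) ≤ ({n : ℕ | (n : ℝ) ≤ x ∧ ∀ i, (n + a i).Prime}.ncard : ℝ)) ∧
    (∀ η : ℝ, 0 < η → ∀ᶠ x : ℝ in atTop,
      (dn k - ε) * (V.card : ℝ) ^ (k + 1) ≤
        ({a : Fin (k + 1) → ℕ | (∀ i, a i ∈ V) ∧ Function.Injective a ∧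
          x ^ (1 - η) ≤
            ({n : ℕ | (n : ℝ) ≤ x ∧ ∀ i, (n + a i).Prime}.ncard : ℝ)}.ncard : ℝ)) := by
  classical
  obtain ⟨z, n₀, h⟩ := shifts_evL k ε hε
  refine ⟨z, n₀, fun V hVz hn => ?_⟩
  have hev := h V hVz hn
  refine ⟨?_, ?_⟩
  · obtain ⟨G, hG1, hG2, hG3⟩ := familyL hev
    refine ⟨G, fun a ha => ⟨(hG1 a ha).1, (hG1 a ha).2, fun hfin => ?_⟩, hG2, fun η hη => ?_⟩
    · have h1 : ∀ᶠ x : ℝ in atTop,
          ({n : ℕ | ∀ i, (n + a i).Prime}.ncard : ℝ) < x ^ (1 - 1 / 2 : ℝ) :=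
        (tendsto_rpow_atTop (by norm_num)).eventually_gt_atTop _
      obtain ⟨x, hx1, hx2⟩ := ((hG3 (1 / 2) (by norm_num)).and_eventually h1).exists
      have h2 := hx1 a ha
      rw [cntS_image] at h2
      have h3 : {n : ℕ | (n : ℝ) ≤ x ∧ ∀ i, (n + a i).Prime}.ncard ≤
          {n : ℕ | ∀ i, (n + a i).Prime}.ncard :=
        Set.ncard_le_ncard (fun n hn => hn.2) hfin
      have h4 : ({n : ℕ | (n : ℝ) ≤ x ∧ ∀ i, (n + a i).Prime}.ncard : ℝ) ≤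
          ({n : ℕ | ∀ i, (n + a i).Prime}.ncard : ℝ) := by exact_mod_cast h3
      linarith
    · refine (hG3 η hη).mono fun x hx a ha => ?_
      have h3 := hx a ha
      rwa [cntS_image] at h3
  · intro η hη
    filter_upwards [hev η hη] with x hx
    refine hx.trans ?_
    have h5 : (Phi k V η x : Set (Fin (k + 1) → ℕ)) ⊆
        {a : Fin (k + 1) → ℕ | (∀ i, a i ∈ V) ∧ Function.Injective a ∧
          x ^ (1 - η) ≤
            ({n : ℕ | (n : ℝ) ≤ x ∧ ∀ i, (n + a i).Prime}.ncard : ℝ)} := by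
      intro a ha
      have ha2 := Phi_mem (Finset.mem_coe.1 ha)
      rw [cntS_image] at ha2
      exact ha2
    have h6 : {a : Fin (k + 1) → ℕ | (∀ i, a i ∈ V) ∧ Function.Injective a ∧
          x ^ (1 - η) ≤
            ({n : ℕ | (n : ℝ) ≤ x ∧ ∀ i, (n + a i).Prime}.ncard : ℝ)}.Finite := by
      apply (Fintype.piFinset (fun _ : Fin (k + 1) => V)).finite_toSet.subset
      rintro a ⟨ha, _⟩
      rw [Finset.mem_coe, Fintype.mem_piFinset]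
      exact ha
    have h7 := Set.ncard_le_ncard h5 h6
    rw [Set.ncard_coe_finset] at h7
    exact_mod_cast h7

end Pool.Agent.Y827.LS
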